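import Pool.Agent.Helper59_BN.Prob
import Pool.Agent.W424.NC.Win

/-!
Almost surely all closed dual clusters which meet the box of radius `A n` have radius `O(log n)`.
-/

namespace Pool.Agent.Helper59_BN

open H974 MeasureTheory Filter

theorem borel_cantelli (p : unitInterval) (T : ℕ → Finset Edg) (Q : ℕ → Finset Edg → Prop)
    (a : ℕ → ℝ) (ha : Summable a) (n0 : ℕ)
    (h : ∀ n, n0 ≤ n → Pr (fun _ => 1 - (p:ℝ)) (T n) (Q n) ≤ a n) :
    ∀ᵐ ω ∂bondLaw p, ∀ᶠ n in atTop, ¬ Q n (GG (T n) ω) := by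
  have key : ∀ᵐ ω ∂bondLaw p, ∀ᶠ n in atTop,
      ω ∉ {ω | Q (n + n0) (GG (T (n + n0)) ω)} := by
    apply MeasureTheory.ae_eventually_notMem
    have hs : Summable (fun n => a (n + n0)) := (summable_nat_add_iff n0).mpr ha
    refine ne_top_of_le_ne_top (hs.tsum_ofReal_ne_top) (ENNReal.tsum_le_tsum fun n => ?_)
    rw [← ofReal_measureReal (measure_ne_top _ _), law_dual]
    exact ENNReal.ofReal_le_ofReal (h _ (by omega))
  filter_upwards [key] with ω hω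
  rw [eventually_atTop] at hω ⊢
  obtain ⟨N, hN⟩ := hω
  refine ⟨N + n0, fun n hn hQ => ?_⟩
  apply hN (n - n0) (by omega)
  show Q (n - n0 + n0) (GG (T (n - n0 + n0)) ω)
  rw [Nat.sub_add_cancel (by omega)]
  exact hQ

theorem arm_sum {q : ℝ} (h0 : 0 ≤ q) (h1 : q < 1/2) : ∃ B : ℝ, 0 < B ∧ ∀ A : ℕ, ∃ a : ℕ → ℝ,
    Summable a ∧ ∀ n : ℕ, 2 ≤ n →
      (2 * ((A * n : ℕ):ℝ) + 1) ^ 2 * arm q ⌈B * Real.log n⌉₊ ≤ a n := by
  obtain ⟨c, C, hc, hC, harm⟩ := Pool.Agent.W424.NC.arm_upper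
  obtain ⟨s, hs⟩ : ∃ s : ℝ, s = (1/2 - q) ^ (4/3 : ℝ) := ⟨_, rfl⟩
  have hs0 : 0 < s := by rw [hs]; exact Real.rpow_pos_of_pos (by linarith) _
  refine ⟨4 / (c * s), by positivity, fun A => ⟨fun n => (2 * (A:ℝ) + 1) ^ 2 * C * (1 / (n:ℝ)^2),
    (Real.summable_one_div_nat_pow.mpr (by norm_num)).mul_left _, fun n hn => ?_⟩⟩
  have hn1 : (2:ℝ) ≤ n := by exact_mod_cast hn
  have hn0 : (0:ℝ) < n := by linarith
  have hlog : 0 < Real.log n := Real.log_pos (by linarith)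
  obtain ⟨m, hm⟩ : ∃ m : ℕ, m = ⌈4 / (c * s) * Real.log n⌉₊ := ⟨_, rfl⟩
  have hm1 : 1 ≤ m := by
    rw [hm, Nat.one_le_ceil_iff]; positivity
  have hm2 : 4 / (c * s) * Real.log n ≤ m := by rw [hm]; exact Nat.le_ceil _
  rw [← hm]
  have h2 := harm q h0 h1.le m hm1
  rw [← hs] at h2
  have h3 : (m:ℝ) ^ (-(5/48) : ℝ) ≤ 1 :=
    Real.rpow_le_one_of_one_le_of_nonpos (by exact_mod_cast hm1) (by norm_num)
  have h4 : Real.exp (-(c * (m * s))) ≤ 1 / (n:ℝ) ^ 4 := by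
    have h5 : 4 * Real.log n ≤ c * (m * s) := by
      have := mul_le_mul_of_nonneg_left hm2 (mul_pos hc hs0).le
      calc 4 * Real.log n = c * s * (4 / (c * s) * Real.log n) := by field_simp
        _ ≤ c * s * m := this
        _ = _ := by ring
    calc Real.exp (-(c * (m * s))) ≤ Real.exp (-(4 * Real.log n)) :=
          Real.exp_le_exp.mpr (by linarith)
      _ = 1 / (n:ℝ) ^ 4 := by
          rw [Real.exp_neg, show 4 * Real.log n = Real.log n * (4:ℕ) by push_cast; ring,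
            Real.exp_mul, Real.exp_log hn0, Real.rpow_natCast, one_div]
  have h6 : arm q m ≤ C * (1 / (n:ℝ) ^ 4) := by
    refine h2.trans ?_
    have h7 : C * (m:ℝ) ^ (-(5/48) : ℝ) ≤ C := by
      have := mul_le_mul_of_nonneg_left h3 hC.le
      linarith
    calc C * (m:ℝ) ^ (-(5/48) : ℝ) * Real.exp (-(c * (m * s)))
        ≤ C * Real.exp (-(c * (m * s))) :=
          mul_le_mul_of_nonneg_right h7 (Real.exp_pos _).le
      _ ≤ _ := mul_le_mul_of_nonneg_left h4 hC.le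
  have h8 : (2 * ((A * n : ℕ):ℝ) + 1) ^ 2 ≤ (2 * (A:ℝ) + 1) ^ 2 * (n:ℝ)^2 := by
    rw [← mul_pow]
    apply pow_le_pow_left₀ (by positivity)
    push_cast
    nlinarith
  calc (2 * ((A * n : ℕ):ℝ) + 1) ^ 2 * arm q m
      ≤ ((2 * (A:ℝ) + 1) ^ 2 * (n:ℝ)^2) * (C * (1 / (n:ℝ) ^ 4)) :=
        mul_le_mul h8 h6 (arm_nonneg h0 (by linarith) _) (by positivity)
    _ = (2 * (A:ℝ) + 1) ^ 2 * C * (1 / (n:ℝ)^2) := by field_simp

/-- Almost surely all closed dual clusters in the box of radius `A n` are of radius `O(log n)`. -/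
theorem small_ae (p : unitInterval) (hp : 1/2 < (p:ℝ)) : ∃ B : ℝ, 0 < B ∧ ∀ A : ℕ,
    ∀ᵐ ω ∂bondLaw p, ∀ᶠ n : ℕ in atTop,
      Small (opn ω) ((A * n : ℕ):ℤ) (⌈B * Real.log n⌉₊ : ℕ) := by
  have hp1 : (p:ℝ) ≤ 1 := p.2.2
  obtain ⟨B, hB, h⟩ := arm_sum (q := 1 - (p:ℝ)) (by linarith) (by linarith)
  refine ⟨B, hB, fun A => ?_⟩
  obtain ⟨a, ha, h⟩ := h A
  have key : ∀ n : ℕ, ∃ (T : Finset Edg) (Q : Finset Edg → Prop),
      (∀ ω, ¬ Small (opn ω) ((A * n : ℕ):ℤ) (⌈B * Real.log n⌉₊ : ℕ) → Q (GG T ω)) ∧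
      ∀ q : ℝ, 0 ≤ q → q ≤ 1 → Pr (fun _ => q) T Q ≤
        (2 * ((A * n : ℕ):ℝ) + 1) ^ 2 * arm q ⌈B * Real.log n⌉₊ := fun n => small_event
  choose T Q hTQ hle using key
  have := borel_cantelli p T Q a ha 2
    (fun n hn => (hle n _ (by linarith) (by linarith)).trans (h n hn))
  filter_upwards [this] with ω hω
  filter_upwards [hω] with n hn
  by_contra hcon
  exact hn (hTQ n ω hcon)

end Pool.Agent.Helper59_BN
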