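import Pool.Agent.Helper59_BN.Geo

/-!
If closed dual clusters are small on all large scales there is an infinite cluster near every
point.
-/

namespace Pool.Agent.Helper59_BN

open H974

theorem inf_near {F : Set Edg} {z : Vtx} {s : ℤ} (hs : 1 ≤ s)
    (h : ∀ m : ℤ, s ≤ m → ∃ N r : ℤ, Small F N r ∧ r ≤ m ∧ |z.1| + 2 * m < N ∧ |z.2| + 2 * m < N) :
    ∃ v ∈ CInf F, v.1 = z.1 ∧ z.2 ≤ v.2 ∧ v.2 ≤ z.2 + s := by
  obtain ⟨p, q⟩ := z
  simp only at h ⊢
  have hLR : ∀ m : ℤ, s ≤ m → ∃ y y' : ℤ, (q ≤ y ∧ y ≤ q + m) ∧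
      Reach (F ∩ ↑(RE p (p + 2 * m) q (q + m))) (p, y) (p + 2 * m, y') := by
    intro m hm
    obtain ⟨N, r, h1, h2, h3, h4⟩ := h m hm
    have hp := abs_le.mp (show |p| ≤ N - 2 * m - 1 by omega)
    have hq := abs_le.mp (show |q| ≤ N - 2 * m - 1 by omega)
    obtain ⟨y, y', k1, k2, k3⟩ := h1.LR (a := p) (b := p + 2 * m) (c := q) (d := q + m)
      (by omega) (by omega) (by omega) (by omega)
    exact ⟨y, y', k1, k3.mono (Set.inter_subset_inter_right _ (by exact_mod_cast LRE_subset_RE))⟩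
  have hTB : ∀ m : ℤ, s ≤ m → ∃ x x' : ℤ,
      Reach (F ∩ ↑(RE p (p + m) q (q + 2 * m))) (x, q) (x', q + 2 * m) := by
    intro m hm
    obtain ⟨N, r, h1, h2, h3, h4⟩ := h m hm
    have hp := abs_le.mp (show |p| ≤ N - 2 * m - 1 by omega)
    have hq := abs_le.mp (show |q| ≤ N - 2 * m - 1 by omega)
    obtain ⟨y, y', k1, k2, k3⟩ := h1.TB (a := p) (b := p + m) (c := q) (d := q + 2 * m)
      (by omega) (by omega) (by omega) (by omega)
    exact ⟨y, y', k3.mono (Set.inter_subset_inter_right _ (by exact_mod_cast TBE_subset_RE))⟩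
  choose! y y' hy hyr using hLR
  choose! x x' hxr using hTB
  have hstep : ∀ m : ℤ, s ≤ m → Reach F (p, y m) (p, y (2 * m)) := by
    intro m hm
    have h1 := hyr m hm
    have h2 := hyr (2 * m) (by omega)
    have h3 := hxr (2 * m) (by omega)
    have k1 := cross_meet (a := p) (b := p + 2 * m) (A := p) (B := p + 2 * m) (c := q)
      (d := q + m) (C := q) (D := q + 2 * (2 * m)) le_rfl (by omega) le_rfl le_rfl (by omega)
      (by omega) h1 le_rfl le_rfl h3 le_rfl (by simp only; omega)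
    have k2 := cross_meet (a := p) (b := p + 2 * m) (A := p) (B := p + 2 * (2 * m)) (c := q)
      (d := q + 2 * m) (C := q) (D := q + 2 * (2 * m)) le_rfl (by omega) (by omega) le_rfl
      (by omega) (by omega) h2 le_rfl (by simp only; omega) h3 le_rfl (by simp only; omega)
    exact (k1.mono Set.inter_subset_left).trans (k2.mono Set.inter_subset_left).symm
  have hall : ∀ j : ℕ, Reach F (p, y s) (p, y (2 ^ j * s)) := by
    intro j
    induction j with
    | zero => rw [pow_zero, one_mul]; exact Reach.refl _ _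
    | succ j ih =>
      have h1 : s ≤ 2 ^ j * s := le_mul_of_one_le_left (by omega) (one_le_pow₀ (by norm_num))
      have h2 := hstep (2 ^ j * s) h1
      rw [show 2 * (2 ^ j * s) = 2 ^ (j + 1) * s by ring] at h2
      exact ih.trans h2
  refine ⟨(p, y s), ?_, rfl, (hy s le_rfl).1, (hy s le_rfl).2⟩
  show {w | Reach F (p, y s) w}.Infinite
  apply Set.infinite_of_injective_forall_mem (f := fun j : ℕ =>
    ((p + 2 * (2 ^ j * s), y' (2 ^ j * s)) : Vtx))
  · intro i j hij
    simp only [Prod.mk.injEq] at hij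
    have h1 : (2:ℤ) ^ i * s = 2 ^ j * s := by omega
    have h2 : (2:ℤ) ^ i = 2 ^ j := mul_right_cancel₀ (by omega) h1
    exact Int.pow_right_injective (by norm_num) h2
  · intro j
    have h1 : s ≤ 2 ^ j * s := le_mul_of_one_le_left (by omega) (one_le_pow₀ (by norm_num))
    exact (hall j).trans ((hyr (2 ^ j * s) h1).mono Set.inter_subset_left)

end Pool.Agent.Helper59_BN
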