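import Pool.Agent.Helper59_BN.PeierlsPr
import Pool.Agent.Helper59_BN.AE

/-!
Almost sure lower bound of the passage times, with the near-critical order.
-/

namespace Pool.Agent.Helper59_BN

open H974 MeasureTheory Filter

theorem peierls_event {s : ℤ} (hs : 1 ≤ s) (m r : ℕ) : ∃ (T : Finset Edg)
    (Q : Finset Edg → Prop),
    (∀ ω, (∃ (f g : Vtx) (n : ℕ), |f.1| ≤ r ∧ |f.2| ≤ r ∧ DC (opn ω)ᶜ (opn ω) f g n ∧
      36 * (m:ℤ) ≤ bdd (blk s g) (blk s f) ∧ n < 9 * m) → Q (GG T ω)) ∧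
    ∀ q ε : ℝ, 0 ≤ q → q ≤ 1 → 0 ≤ ε → 4 * hh q s (3 * s - 1) ≤ ε →
      Pr (fun _ => q) T Q ≤ (2 * (r:ℝ) + 1) ^ 2 * (9 * ((50 ^ 18) * ε) ^ m) := by
  classical
  have hch := fun k0 : Vtx => chains_card k0 (18 * m)
  choose I hI hI' using hch
  obtain ⟨Bx, hBx⟩ : ∃ Bx : Finset Vtx,
      Bx = Finset.Icc (-(r:ℤ)) r ×ˢ Finset.Icc (-(r:ℤ)) r := ⟨_, rfl⟩
  obtain ⟨T, hT⟩ : ∃ T : Finset Edg, T = Bx.biUnion (fun f => (I (blk s f)).biUnion (fun κ =>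
      (Finset.range (18 * m)).biUnion (fun j => NE s (κ j)))) := ⟨_, rfl⟩
  have hTN : ∀ f ∈ Bx, ∀ κ ∈ I (blk s f), ∀ j < 18 * m, NE s (κ j) ⊆ T := by
    intro f hf κ hκ j hj e he
    rw [hT, Finset.mem_biUnion]
    refine ⟨f, hf, ?_⟩
    rw [Finset.mem_biUnion]
    refine ⟨κ, hκ, ?_⟩
    rw [Finset.mem_biUnion]
    exact ⟨j, Finset.mem_range.mpr hj, he⟩
  refine ⟨T, fun G => ∃ f ∈ Bx, ∃ κ ∈ I (blk s f),
    (∀ j j', j < j' → j' < 18 * m → 2 ≤ bdd (κ j) (κ j')) ∧ FewGood s m κ G, ?_, ?_⟩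
  · rintro ω ⟨f, g, n, hf1, hf2, hd, hfar, hn⟩
    have hf : f ∈ Bx := by
      rw [hBx, Finset.mem_product, Finset.mem_Icc, Finset.mem_Icc]
      exact ⟨abs_le.mp hf1, abs_le.mp hf2⟩
    refine ⟨f, hf, ?_⟩
    obtain ⟨y, t, l, h1, h2, h3, h4, h5⟩ := exists_trace hd
    obtain ⟨κ, k1, k2, k3, -, k5⟩ := chain_ex hs h1 (18 * m) 0 (by omega)
      (by rw [h2, h3]; push_cast; omega)
    obtain ⟨κ', hκ', hκ''⟩ := hI' (blk s f) κ (by rw [k1, h2]) k2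
    refine ⟨κ', hκ', ?_, ?_⟩
    · intro j j' hjj hj'
      rw [hκ'' j (by omega), hκ'' j' (by omega)]
      exact k3 j j' hjj (by omega)
    · have c1 : ((Finset.range (18 * m)).filter (fun j => ¬ Bd (opn ω)ᶜ s (κ j))).card < 9 * m := by
        rw [h4, h5] at k5
        omega
      have c2 := Finset.card_filter_add_card_filter_not (s := Finset.range (18 * m))
        (fun j => Bd (opn ω)ᶜ s (κ j))
      rw [Finset.card_range] at c2
      obtain ⟨J, hJ, hJc⟩ := Finset.exists_subset_card_eq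
        (show 9 * m ≤ ((Finset.range (18 * m)).filter (fun j => Bd (opn ω)ᶜ s (κ j))).card by
          omega)
      refine ⟨J, Finset.mem_powersetCard.mpr ⟨hJ.trans (Finset.filter_subset _ _), hJc⟩, ?_⟩
      intro j hj
      have h6 := Finset.mem_filter.mp (hJ hj)
      have hj18 := Finset.mem_range.mp h6.1
      rw [hκ'' j (by omega)]
      refine BE_of_Bd hs h6.2 ?_
      rw [GG_coe]
      apply Set.inter_subset_inter_right
      have h7 := hTN f hf κ' hκ' j hj18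
      rw [hκ'' j (by omega)] at h7
      exact_mod_cast h7
  · intro q ε h0 h1 hε hb
    refine (Pr_exists_le h0 h1 T Bx _).trans ?_
    have h50 : (50:ℝ) ^ 18 = 25 ^ 18 * 2 ^ 18 := by norm_num
    have hone : ∀ f ∈ Bx, Pr (fun _ => q) T (fun G => ∃ κ ∈ I (blk s f),
        (∀ j j', j < j' → j' < 18 * m → 2 ≤ bdd (κ j) (κ j')) ∧ FewGood s m κ G) ≤
        9 * ((50 ^ 18) * ε) ^ m := by
      intro f hf
      refine (Pr_exists_le h0 h1 T (I (blk s f)) _).trans ?_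
      have htwo : ∀ κ ∈ I (blk s f), Pr (fun _ => q) T (fun G =>
          (∀ j j', j < j' → j' < 18 * m → 2 ≤ bdd (κ j) (κ j')) ∧ FewGood s m κ G) ≤
          9 * (2 ^ (18 * m) * ε ^ m) := by
        intro κ hκ
        by_cases hp : ∀ j j', j < j' → j' < 18 * m → 2 ≤ bdd (κ j) (κ j')
        · refine (Pr_mono (okq h0 h1) (fun G _ h => h.2)).trans ?_
          exact pr_FewGood h0 h1 hε hs hb hp (hTN f hf κ hκ)
        · have : Pr (fun _ => q) T (fun G =>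
              (∀ j j', j < j' → j' < 18 * m → 2 ≤ bdd (κ j) (κ j')) ∧ FewGood s m κ G) =
              Pr (fun _ => q) T (fun _ => ¬ True) := by
            apply Pr_congr
            intro G _
            constructor
            · intro h; exact absurd h.1 hp
            · intro h; exact absurd trivial h
          rw [this, Pr_not, Pr_true T (fun _ _ => trivial)]
          have : 0 ≤ 9 * (2 ^ (18 * m) * ε ^ m) := by positivity
          linarith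
      refine (Finset.sum_le_sum htwo).trans ?_
      rw [Finset.sum_const, nsmul_eq_mul]
      have hc : ((I (blk s f)).card : ℝ) ≤ 25 ^ (18 * m) := by exact_mod_cast hI (blk s f)
      calc ((I (blk s f)).card : ℝ) * (9 * (2 ^ (18 * m) * ε ^ m))
          ≤ 25 ^ (18 * m) * (9 * (2 ^ (18 * m) * ε ^ m)) :=
            mul_le_mul_of_nonneg_right hc (by positivity)
        _ = 9 * ((50 ^ 18) * ε) ^ m := by
            rw [h50, pow_mul, pow_mul, mul_pow, mul_pow]; ring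
    refine (Finset.sum_le_sum hone).trans ?_
    rw [Finset.sum_const, nsmul_eq_mul, hBx, Finset.card_product, Int.card_Icc]
    apply mul_le_mul_of_nonneg_right _ (by positivity)
    have : ((r:ℤ) + 1 - (-r)).toNat = 2 * r + 1 := by omega
    rw [this]
    push_cast
    apply le_of_eq
    ring

/-- The block size. -/
theorem block_const : ∃ K0 : ℝ, 1 ≤ K0 ∧ ∀ q : ℝ, 0 ≤ q → q < 1/2 → ∀ s : ℕ,
    K0 ≤ s * (1/2 - q) ^ (4/3 : ℝ) → 1 ≤ s →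
      4 * hh q (s:ℤ) (3 * (s:ℤ) - 1) ≤ 1 / (2 * 50 ^ 18) := by
  obtain ⟨c, C, hc, hC, h⟩ := Pool.Agent.W424.NC.win_upper 3 (by norm_num)
  obtain ⟨K0, hK0⟩ : ∃ K0 : ℝ, K0 = max 1 (Real.log (4 * C * (2 * 50 ^ 18)) / c) := ⟨_, rfl⟩
  refine ⟨K0, by rw [hK0]; exact le_max_left _ _, ?_⟩
  intro q h0 h1 s hs hs1
  have h2 := h q h0 h1.le s (3 * s - 1) hs1 (by omega) (by omega)
  have e1 : (((3 * s - 1 : ℕ)) : ℤ) = 3 * (s:ℤ) - 1 := by omega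
  rw [e1] at h2
  have h3 : Real.log (4 * C * (2 * 50 ^ 18)) ≤ c * (s * (1/2 - q) ^ (4/3 : ℝ)) := by
    have h4 : Real.log (4 * C * (2 * 50 ^ 18)) / c ≤ s * (1/2 - q) ^ (4/3 : ℝ) :=
      (le_max_right _ _).trans (hK0 ▸ hs)
    rw [div_le_iff₀ hc] at h4
    linarith
  have h5 : Real.exp (-(c * (s * (1/2 - q) ^ (4/3 : ℝ)))) ≤ 1 / (4 * C * (2 * 50 ^ 18)) := by
    rw [Real.exp_neg, ← one_div (Real.exp _)]
    apply one_div_le_one_div_of_le (by positivity)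
    calc 4 * C * (2 * 50 ^ 18) = Real.exp (Real.log (4 * C * (2 * 50 ^ 18))) :=
          (Real.exp_log (by positivity)).symm
      _ ≤ _ := Real.exp_le_exp.mpr h3
  calc 4 * hh q (s:ℤ) (3 * (s:ℤ) - 1)
      ≤ 4 * (C * Real.exp (-(c * (s * (1/2 - q) ^ (4/3 : ℝ))))) := by linarith
    _ ≤ 4 * (C * (1 / (4 * C * (2 * 50 ^ 18)))) := by
        have := mul_le_mul_of_nonneg_left h5 hC.le
        linarith
    _ = 1 / (2 * 50 ^ 18) := by field_simp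

/-- **Lower bound of passage times.** -/
theorem lower_ae : ∃ c : ℝ, 0 < c ∧ ∀ p : unitInterval, 1/2 < (p:ℝ) → ∀ x : ℝ × ℝ, x ≠ 0 →
    ∀ᵐ ω ∂bondLaw p, ∀ᶠ n : ℕ in atTop, ∀ (f g : Vtx) (k : ℕ),
      |(f.1:ℝ)| ≤ n * ‖x‖ / 8 → |(f.2:ℝ)| ≤ n * ‖x‖ / 8 → |(g.1:ℝ) - n * x.1| ≤ n * ‖x‖ / 8 →
      |(g.2:ℝ) - n * x.2| ≤ n * ‖x‖ / 8 → DC (opn ω)ᶜ (opn ω) f g k →
        c * ((p:ℝ) - 1/2) ^ (4/3 : ℝ) * ‖x‖ * n ≤ k := by
  obtain ⟨K0, hK0, hblk⟩ := block_const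
  refine ⟨1 / (9 * (K0 + 1)), by positivity, ?_⟩
  intro p hp x hx
  have hp1 : (p:ℝ) ≤ 1 := p.2.2
  obtain ⟨σ, hσ⟩ : ∃ σ : ℝ, σ = ((p:ℝ) - 1/2) ^ (4/3 : ℝ) := ⟨_, rfl⟩
  have hσ0 : 0 < σ := by rw [hσ]; exact Real.rpow_pos_of_pos (by linarith) _
  have hσ1 : σ ≤ 1 := by
    rw [hσ]; exact Real.rpow_le_one (by linarith) (by linarith) (by norm_num)
  have hx0 : 0 < ‖x‖ := norm_pos_iff.mpr hx
  obtain ⟨s, hs⟩ : ∃ s : ℕ, s = ⌈K0 / σ⌉₊ := ⟨_, rfl⟩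
  have hs1 : K0 / σ ≤ s := by rw [hs]; exact Nat.le_ceil _
  have hs2 : (s:ℝ) < K0 / σ + 1 := by rw [hs]; exact Nat.ceil_lt_add_one (by positivity)
  have hs0 : 1 ≤ s := by rw [hs, Nat.one_le_ceil_iff]; positivity
  have hsr : (1:ℝ) ≤ s := by exact_mod_cast hs0
  have hsσ : (s:ℝ) * σ ≤ K0 + 1 := by
    have := mul_le_mul_of_nonneg_right hs2.le hσ0.le
    rw [add_mul, div_mul_cancel₀ _ hσ0.ne'] at this
    linarith
  have hb : 4 * hh (1 - (p:ℝ)) (s:ℤ) (3 * (s:ℤ) - 1) ≤ 1 / (2 * 50 ^ 18) := by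
    apply hblk (1 - (p:ℝ)) (by linarith) (by linarith) s _ hs0
    rw [show 1/2 - (1 - (p:ℝ)) = (p:ℝ) - 1/2 by ring, ← hσ]
    rwa [div_le_iff₀ hσ0] at hs1
  obtain ⟨m, hm⟩ : ∃ m : ℕ → ℕ, m = fun n : ℕ => ⌊(n:ℝ) * ‖x‖ / (72 * s)⌋₊ := ⟨_, rfl⟩
  obtain ⟨r, hr⟩ : ∃ r : ℕ → ℕ, r = fun n : ℕ => ⌊(n:ℝ) * ‖x‖ / 8⌋₊ := ⟨_, rfl⟩
  have hev := fun n : ℕ => peierls_event (s := (s:ℤ)) (by exact_mod_cast hs0) (m n) (r n)
  choose T Q hTQ hle using hev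
  obtain ⟨ρ, hρ⟩ : ∃ ρ : ℝ, ρ = (1/2 : ℝ) ^ (‖x‖ / (72 * s)) := ⟨_, rfl⟩
  have hρ0 : 0 < ρ := by rw [hρ]; positivity
  have hρ1 : ρ < 1 := by
    rw [hρ]; exact Real.rpow_lt_one (by norm_num) (by norm_num) (by positivity)
  have hsum : Summable (fun n : ℕ => 18 * (‖x‖ + 1) ^ 2 * ((n:ℝ) ^ 2 * ρ ^ n)) := by
    apply Summable.mul_left
    exact summable_pow_mul_geometric_of_norm_lt_one 2 (by
      rw [Real.norm_of_nonneg hρ0.le]; exact hρ1)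
  have hBC := borel_cantelli p T Q _ hsum 1 (by
    intro n hn
    have hnr : (1:ℝ) ≤ n := by exact_mod_cast hn
    refine (hle n (1 - (p:ℝ)) (1 / (2 * 50 ^ 18)) (by linarith) (by linarith) (by positivity)
      hb).trans ?_
    have e1 : (50:ℝ) ^ 18 * (1 / (2 * 50 ^ 18)) = 1/2 := by field_simp
    rw [e1]
    have h1 : (r n : ℝ) ≤ n * ‖x‖ / 8 := by rw [hr]; exact Nat.floor_le (by positivity)
    have h2 : (2 * (r n:ℝ) + 1) ^ 2 ≤ (‖x‖ + 1) ^ 2 * (n:ℝ) ^ 2 := by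
      rw [← mul_pow]
      apply pow_le_pow_left₀ (by positivity)
      nlinarith
    have h3 : ((1:ℝ)/2) ^ (m n) ≤ 2 * ρ ^ n := by
      have h4 : (n:ℝ) * ‖x‖ / (72 * s) - 1 ≤ m n := by
        rw [hm]; exact (Nat.sub_one_lt_floor _).le
      calc ((1:ℝ)/2) ^ (m n) = ((1:ℝ)/2) ^ ((m n : ℕ) : ℝ) := (Real.rpow_natCast _ _).symm
        _ ≤ ((1:ℝ)/2) ^ ((n:ℝ) * ‖x‖ / (72 * s) - 1) :=
            Real.rpow_le_rpow_of_exponent_ge (by norm_num) (by norm_num) h4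
        _ = 2 * ρ ^ n := by
            rw [Real.rpow_sub (by norm_num), Real.rpow_one, hρ, ← Real.rpow_natCast
              ((1/2 : ℝ) ^ (‖x‖ / (72 * s))), ← Real.rpow_mul (by norm_num)]
            rw [show ‖x‖ / (72 * (s:ℝ)) * (n:ℝ) = (n:ℝ) * ‖x‖ / (72 * s) by ring]
            ring
    calc (2 * (r n:ℝ) + 1) ^ 2 * (9 * ((1:ℝ)/2) ^ (m n))
        ≤ ((‖x‖ + 1) ^ 2 * (n:ℝ) ^ 2) * (9 * (2 * ρ ^ n)) :=
          mul_le_mul h2 (by linarith) (by positivity) (by positivity)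
      _ = _ := by ring)
  have hlarge1 : ∀ᶠ n : ℕ in atTop, (4 * (s:ℝ) * (1 + 3)) ≤ n * ‖x‖ :=
    (tendsto_natCast_atTop_atTop.atTop_mul_const hx0).eventually_ge_atTop _
  have hlarge2 : ∀ᶠ n : ℕ in atTop, (9 * (72 * (s:ℝ))) ≤ n * ‖x‖ :=
    (tendsto_natCast_atTop_atTop.atTop_mul_const hx0).eventually_ge_atTop _
  filter_upwards [hBC] with ω hω
  filter_upwards [hω, hlarge1, hlarge2] with n hn hn1 hn2
  intro f g k hf1 hf2 hg1 hg2 hd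
  have hm9 : 9 * m n ≤ k := by
    by_contra hcon
    apply hn
    apply hTQ n
    refine ⟨f, g, k, ?_, ?_, hd, ?_, by omega⟩
    · rw [hr]
      have h1 : ((|f.1| : ℤ) : ℝ) ≤ n * ‖x‖ / 8 := by push_cast; exact hf1
      have h2 : |f.1| ≤ ⌊(n:ℝ) * ‖x‖ / 8⌋ := Int.le_floor.mpr h1
      have h3 : (⌊(n:ℝ) * ‖x‖ / 8⌋₊ : ℤ) = ⌊(n:ℝ) * ‖x‖ / 8⌋ :=
        Int.natCast_floor_eq_floor (by positivity)
      simp only [h3]
      exact h2
    · rw [hr]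
      have h1 : ((|f.2| : ℤ) : ℝ) ≤ n * ‖x‖ / 8 := by push_cast; exact hf2
      have h2 : |f.2| ≤ ⌊(n:ℝ) * ‖x‖ / 8⌋ := Int.le_floor.mpr h1
      have h3 : (⌊(n:ℝ) * ‖x‖ / 8⌋₊ : ℤ) = ⌊(n:ℝ) * ‖x‖ / 8⌋ :=
        Int.natCast_floor_eq_floor (by positivity)
      simp only [h3]
      exact h2
    · -- the distance of the blocks
      have hmr : (m n : ℝ) ≤ n * ‖x‖ / (72 * s) := by
        rw [hm]; exact Nat.floor_le (by positivity)
      have key : ∀ (a b : ℤ) (xi : ℝ), |xi| = ‖x‖ → |(a:ℝ)| ≤ n * ‖x‖ / 8 →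
          |(b:ℝ) - n * xi| ≤ n * ‖x‖ / 8 → 36 * (m n:ℤ) ≤ |b / (s:ℤ) - a / (s:ℤ)| := by
        intro a b xi hxi ha hb'
        have hs' : (1:ℤ) ≤ (s:ℤ) := by exact_mod_cast hs0
        have b1 := blk_bounds (x := a) hs'
        have b2 := blk_bounds (x := b) hs'
        have c1 : ((a / (s:ℤ) : ℤ):ℝ) * s ≤ a ∧ (a:ℝ) ≤ ((a / (s:ℤ) : ℤ):ℝ) * s + s - 1 := by
          exact_mod_cast b1
        have c2 : ((b / (s:ℤ) : ℤ):ℝ) * s ≤ b ∧ (b:ℝ) ≤ ((b / (s:ℤ) : ℤ):ℝ) * s + s - 1 := by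
          exact_mod_cast b2
        have habs : (n:ℝ) * ‖x‖ * (3/4) ≤ |(b:ℝ) - a| := by
          have h1 : (n:ℝ) * ‖x‖ = |n * xi| := by rw [abs_mul, hxi, Nat.abs_cast]
          have h2 : |(n:ℝ) * xi| ≤ |(b:ℝ) - a| + |(a:ℝ)| + |(b:ℝ) - n * xi| := by
            have : (n:ℝ) * xi = ((b:ℝ) - a) + a - ((b:ℝ) - n * xi) := by ring
            calc |(n:ℝ) * xi| = |((b:ℝ) - a) + a - ((b:ℝ) - n * xi)| := by rw [← this]
              _ ≤ |((b:ℝ) - a) + a| + |(b:ℝ) - n * xi| := abs_sub _ _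
              _ ≤ _ := by linarith [abs_add_le ((b:ℝ) - a) a]
          linarith
        have hdiff : |(b:ℝ) - a| ≤ |((b / (s:ℤ) : ℤ):ℝ) - ((a / (s:ℤ) : ℤ):ℝ)| * s + s := by
          rw [abs_le]
          have h1 := neg_abs_le (((b / (s:ℤ) : ℤ):ℝ) - ((a / (s:ℤ) : ℤ):ℝ))
          have h2 := le_abs_self (((b / (s:ℤ) : ℤ):ℝ) - ((a / (s:ℤ) : ℤ):ℝ))
          constructor <;> nlinarith
        have hfin : (36 * (m n:ℝ)) ≤ |((b / (s:ℤ) : ℤ):ℝ) - ((a / (s:ℤ) : ℤ):ℝ)| := by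
          have h1 : (36 * (m n:ℝ)) * s ≤ n * ‖x‖ / 2 := by
            have := mul_le_mul_of_nonneg_right hmr (show (0:ℝ) ≤ 36 * s by positivity)
            have e : (n:ℝ) * ‖x‖ / (72 * s) * (36 * s) = n * ‖x‖ / 2 := by field_simp; ring
            linarith
          have h2 : (36 * (m n:ℝ)) * s ≤
              |((b / (s:ℤ) : ℤ):ℝ) - ((a / (s:ℤ) : ℤ):ℝ)| * s := by linarith
          exact le_of_mul_le_mul_right h2 (by linarith)
        exact_mod_cast hfin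
      have hnorm : |x.1| = ‖x‖ ∨ |x.2| = ‖x‖ := by
        rw [Prod.norm_def, Real.norm_eq_abs, Real.norm_eq_abs]
        rcases le_total |x.1| |x.2| with h | h
        · right; rw [max_eq_right h]
        · left; rw [max_eq_left h]
      unfold bdd blk
      simp only
      rcases hnorm with h | h
      · exact (key f.1 g.1 x.1 h hf1 hg1).trans (le_max_left _ _)
      · exact (key f.2 g.2 x.2 h hf2 hg2).trans (le_max_right _ _)
  have hmr : (n:ℝ) * ‖x‖ / (72 * s) - 1 ≤ m n := by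
    rw [hm]; exact (Nat.sub_one_lt_floor _).le
  have hkr : 9 * (m n:ℝ) ≤ k := by exact_mod_cast hm9
  rw [← hσ]
  have h1 : 1 / (9 * (K0 + 1)) * σ * ‖x‖ * n ≤ n * ‖x‖ / (9 * s) := by
    have h2 : σ / (K0 + 1) ≤ 1 / s := by
      rw [div_le_div_iff₀ (by positivity) (by positivity)]
      linarith
    calc 1 / (9 * (K0 + 1)) * σ * ‖x‖ * n = (σ / (K0 + 1)) * (n * ‖x‖ / 9) := by field_simp
      _ ≤ (1 / s) * (n * ‖x‖ / 9) := mul_le_mul_of_nonneg_right h2 (by positivity)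
      _ = _ := by ring
  have h2 : (n:ℝ) * ‖x‖ / (9 * s) ≤ 9 * (n * ‖x‖ / (72 * s) - 1) := by
    have h3 : (n:ℝ) * ‖x‖ / (9 * s) = (n * ‖x‖) / s / 9 := by field_simp
    have h4 : (n:ℝ) * ‖x‖ / (72 * s) = (n * ‖x‖) / s / 72 := by field_simp
    have h5 : 9 * 72 ≤ (n * ‖x‖) / s := by
      rw [le_div_iff₀ (by positivity)]; linarith
    rw [h3, h4]
    linarith
  linarith

end Pool.Agent.Helper59_BN
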