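import Pool.Agent.Helper59_BN.UpperAE
import Pool.Agent.Helper59_BN.LowerAE
import Pool.Agent.Helper59_BN.Inf

/-!
Nearest vertices of the infinite cluster; comparison of the boundary distance and of costs of dual
paths.
-/

namespace Pool.Agent.Helper59_BN

open H974 MeasureTheory Filter

theorem infCluster_eq (ω : sqLattice.edgeSet → Bool) : infCluster ω = CInf (opn ω) := by
  unfold infCluster CInf
  ext v
  have : {w | (openGraph ω).Reachable v w} = {w | Reach (opn ω) v w} := by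
    ext w; exact open_reach ω v w
  show Set.Infinite _ ↔ Set.Infinite _
  rw [this]

theorem adj_eq (ω : sqLattice.edgeSet → Bool) : (openGraph ω).Adj = Adj (opn ω) := by
  funext u v
  exact propext (openGraph_adj ω u v)

/-! ### Growth -/

theorem log_growth (B : ℝ) (hB : 0 < B) (w : ℕ) {ε : ℝ} (hε : 0 < ε) :
    ∀ᶠ n : ℕ in atTop, 40 * ((6 * ((⌈B * Real.log n⌉₊ + 3) + w) + 40 : ℕ) : ℝ) ^ 2 ≤ ε * n := by
  obtain ⟨D, hD⟩ : ∃ D : ℝ, D = 6 * w + 64 := ⟨_, rfl⟩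
  have h1 : Tendsto (fun n : ℕ => (Real.log n) ^ 2 / (n:ℝ)) atTop (nhds 0) := by
    have h2 := (Real.isLittleO_pow_log_id_atTop (n := 2)).tendsto_div_nhds_zero
    exact h2.comp tendsto_natCast_atTop_atTop
  have h3 : ∀ᶠ n : ℕ in atTop, (Real.log n) ^ 2 / (n:ℝ) < ε / (40 * 72 * B ^ 2 + 1) :=
    h1.eventually_lt_const (by positivity)
  have h4 : ∀ᶠ n : ℕ in atTop, 40 * 2 * D ^ 2 / ε * 100 ≤ (n:ℝ) :=
    tendsto_natCast_atTop_atTop.eventually_ge_atTop _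
  have h5 : ∀ᶠ n : ℕ in atTop, (1:ℝ) ≤ (n:ℝ) :=
    tendsto_natCast_atTop_atTop.eventually_ge_atTop _
  have h3' : ∀ᶠ n : ℕ in atTop, (Real.log n) ^ 2 / (n:ℝ) < ε / (40 * 72 * B ^ 2 * 2) :=
    h1.eventually_lt_const (by positivity)
  filter_upwards [h3', h4, h5] with n hn1 hn2 hn3
  have hn0 : (0:ℝ) < n := by linarith
  have hlog : 0 ≤ Real.log n := Real.log_nonneg hn3
  have hc : (⌈B * Real.log n⌉₊ : ℝ) ≤ B * Real.log n + 1 :=
    (Nat.ceil_lt_add_one (by positivity)).le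
  push_cast
  have h6 : 6 * ((⌈B * Real.log n⌉₊ : ℝ) + 3 + w) + 40 ≤ 6 * (B * Real.log n) + D := by
    rw [hD]; linarith
  have h7 : (6 * ((⌈B * Real.log n⌉₊ : ℝ) + 3 + w) + 40) ^ 2 ≤
      (6 * (B * Real.log n) + D) ^ 2 := pow_le_pow_left₀ (by positivity) h6 2
  have h8 : (6 * (B * Real.log n) + D) ^ 2 ≤ 2 * (36 * (B ^ 2 * Real.log n ^ 2)) + 2 * D ^ 2 := by
    nlinarith [sq_nonneg (6 * (B * Real.log n) - D)]
  have h9 : 40 * (2 * (36 * (B ^ 2 * Real.log n ^ 2))) ≤ ε / 2 * n := by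
    rw [div_lt_div_iff₀ hn0 (by positivity)] at hn1
    nlinarith
  have h10 : 40 * (2 * D ^ 2) ≤ ε / 2 * n := by
    have := mul_le_mul_of_nonneg_left hn2 hε.le
    have e : ε * (40 * 2 * D ^ 2 / ε * 100) = 40 * 2 * D ^ 2 * 100 := by field_simp
    rw [e] at this
    nlinarith [sq_nonneg D]
  linarith

/-! ### The infinite cluster is near every point -/

theorem near_ae (p : unitInterval) (hp : 1/2 < (p:ℝ)) : ∃ B : ℝ, 0 < B ∧ ∀ A : ℕ,
    ∀ᵐ ω ∂bondLaw p, ∀ᶠ n : ℕ in atTop,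
      Small (opn ω) (((2 * A + 4) * n : ℕ):ℤ) (⌈B * Real.log n⌉₊ : ℕ) ∧
      ∀ z : Vtx, |z.1| ≤ A * n → |z.2| ≤ A * n → ∃ v ∈ CInf (opn ω),
        |v.1 - z.1| ≤ ⌈B * Real.log n⌉₊ + 1 ∧ |v.2 - z.2| ≤ ⌈B * Real.log n⌉₊ + 1 := by
  obtain ⟨B, hB, h⟩ := small_ae p hp
  refine ⟨B, hB, fun A => ?_⟩
  filter_upwards [h (2 * A + 4)] with ω hω
  have hg := log_growth B hB 0 (ε := 1) (by norm_num)
  rw [eventually_atTop] at hω hg
  obtain ⟨N0, hN0⟩ := hω
  obtain ⟨N1, hN1⟩ := hg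
  have hsub : ∀ n ≥ N1, ⌈B * Real.log n⌉₊ ≤ n := by
    intro n hn
    have h1 := hN1 n hn
    have h2 : (⌈B * Real.log n⌉₊ : ℝ) ≤ n := by
      push_cast at h1
      have h3 : (0:ℝ) ≤ (⌈B * Real.log n⌉₊ : ℝ) := Nat.cast_nonneg _
      nlinarith
    exact_mod_cast h2
  filter_upwards [eventually_ge_atTop (max N0 N1)] with n hn
  have hn0 : N0 ≤ n := (le_max_left _ _).trans hn
  have hn1 : N1 ≤ n := (le_max_right _ _).trans hn
  refine ⟨hN0 n hn0, ?_⟩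
  intro z hz1 hz2
  obtain ⟨s, hs⟩ : ∃ s : ℤ, s = (⌈B * Real.log n⌉₊ : ℤ) + 1 := ⟨_, rfl⟩
  have hs1 : 1 ≤ s := by omega
  obtain ⟨v, hv, hv1, hv2, hv3⟩ := inf_near (F := opn ω) (z := z) hs1 (by
    intro m hm
    by_cases hsm : 2 * m + A * n < (2 * A + 4) * n
    · refine ⟨(((2 * A + 4) * n : ℕ):ℤ), (⌈B * Real.log n⌉₊ : ℕ), hN0 n hn0, by omega, ?_, ?_⟩
      · push_cast; omega
      · push_cast; omega
    · obtain ⟨k, hk⟩ : ∃ k : ℕ, (k:ℤ) = m := ⟨m.toNat, by omega⟩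
      have hmul : ((2:ℤ) * A + 4) * n = 2 * (A * n) + 4 * n := by ring
      have hAn : (0:ℤ) ≤ A * n := by positivity
      have hkn : n ≤ k := by
        have : (n:ℤ) ≤ k := by omega
        exact_mod_cast this
      have hkm : ((2:ℤ) * A + 4) * k = 2 * (A * k) + 4 * k := by ring
      have hAk : (A:ℤ) * n ≤ A * k := by
        apply mul_le_mul_of_nonneg_left _ (by positivity)
        exact_mod_cast hkn
      have hsk := hsub k (hn1.trans hkn)
      refine ⟨(((2 * A + 4) * k : ℕ):ℤ), (⌈B * Real.log k⌉₊ : ℕ), hN0 k (hn0.trans hkn),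
        by omega, ?_, ?_⟩
      · push_cast; omega
      · push_cast; omega)
  refine ⟨v, hv, ?_, ?_⟩
  · rw [hv1, sub_self, abs_zero]; omega
  · rw [abs_le]; omega

/-! ### Right-most paths exist -/

theorem exists_rightMost {F : Set Edg} {u v : Vtx} (h : Reach F u v) :
    ∃ (x : ℕ → Vtx) (n : ℕ), x 0 = u ∧ x n = v ∧ OpenPath (Adj F) x n ∧ RightMost x n := by
  obtain ⟨x, n, h1, h2, h3, -, h5⟩ := simple_path h
  have hinj : ∀ i j, i ≤ n → j ≤ n → x i = x j → i = j := by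
    intro i j hi hj hij
    rcases lt_trichotomy i j with h | h | h
    · exact absurd hij (h5 i j h hj)
    · exact h
    · exact absurd hij.symm (h5 j i h hi)
  refine ⟨x, n, h1, h2, h3, ?_, ?_⟩
  · intro i j hij hj heq
    rw [Prod.mk.injEq] at heq
    exact h5 i j hij hj.le heq.1
  · intro i hi
    constructor
    · rintro ⟨k, hk1, hk2, hk3, hk4⟩
      simp only at hk3 hk4
      have := hinj i k hi.le hk2.le hk3
      subst this
      exact (between_ne hk4).2 rfl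
    · rintro ⟨k, hk1, hk2, hk3, hk4⟩
      simp only at hk3 hk4
      have := hinj (i + 1) k hi hk2.le hk3
      subst this
      exact (between_ne hk4).1 rfl

theorem dreach_univ (f g : Vtx) : DReach Set.univ f g := by
  rw [← reach_dl, Set.image_univ_of_surjective dl.surjective]
  obtain ⟨n, hn⟩ := Int.eq_ofNat_of_zero_le
    (add_nonneg (abs_nonneg (f.1 - g.1)) (abs_nonneg (f.2 - g.2)))
  obtain ⟨C, h, -⟩ := seg n f g hn.le
  exact h.mono (Set.subset_univ _)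

theorem sec_nr (v : Vtx) (a : Fin 4) : |(sec v a).1 - v.1| ≤ 1 ∧ |(sec v a).2 - v.2| ≤ 1 := by
  obtain ⟨x, y⟩ := v
  fin_cases a <;> simp [sec]

theorem adj_near {F : Set Edg} {u v : Vtx} (h : Adj F u v) :
    |u.1 - v.1| ≤ 1 ∧ |u.2 - v.2| ≤ 1 := by
  obtain ⟨⟨x, y, b⟩, -, hc⟩ := h
  cases b
  · rcases hc with ⟨rfl, rfl⟩ | ⟨rfl, rfl⟩ <;> simp
  · rcases hc with ⟨rfl, rfl⟩ | ⟨rfl, rfl⟩ <;> simp

/-- The boundary distance dominates a passage time. -/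
theorem bdist_lower {F : Set Edg} {u v : Vtx} (h : Reach F u v) (hne : u ≠ v) :
    ∃ (f g : Vtx) (k : ℕ), k ≤ bdist (Adj F) u v ∧ DC Fᶜ F f g k ∧
      (|f.1 - u.1| ≤ 1 ∧ |f.2 - u.2| ≤ 1) ∧ (|g.1 - v.1| ≤ 2 ∧ |g.2 - v.2| ≤ 2) := by
  obtain ⟨x0, n0, h1, h2, h3, h4⟩ := exists_rightMost h
  have hmem : bdist (Adj F) u v ∈ {k | ∃ (x : ℕ → ℤ × ℤ) (n : ℕ), x 0 = u ∧ x n = v ∧
      OpenPath (Adj F) x n ∧ RightMost x n ∧ bcost (Adj F) x n = k} :=
    Nat.sInf_mem ⟨_, x0, n0, h1, h2, h3, h4, rfl⟩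
  obtain ⟨x, n, k1, k2, k3, k4, k5⟩ := hmem
  have hn : 0 < n := by
    rcases Nat.eq_zero_or_pos n with h | h
    · subst h; exact absurd (k1.symm.trans k2) hne
    · exact h
  obtain ⟨a, b, hab⟩ := tim_le_bcost hn k3
  refine ⟨sec (x 0) a, sec (x (n - 1)) b, _, k5 ▸ hab, tim_spec ?_, ?_, ?_⟩
  · rw [Set.compl_union_self]; exact dreach_univ _ _
  · rw [← k1]; exact sec_nr _ _
  · have l1 := sec_nr (x (n - 1)) b
    have l2 := adj_near (k3 (n - 1) (by omega))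
    rw [Nat.sub_add_cancel (by omega), k2] at l2
    have m1 := abs_le.mp l1.1
    have m2 := abs_le.mp l1.2
    have m3 := abs_le.mp l2.1
    have m4 := abs_le.mp l2.2
    exact ⟨abs_le.mpr (by omega), abs_le.mpr (by omega)⟩

/-- **Comparison.** -/
theorem compare_ae (p : unitInterval) (hp : 1/2 < (p:ℝ)) (x : ℝ × ℝ) (hx : x ≠ 0) (w : ℕ) {ε : ℝ}
    (hε : 0 < ε) : ∀ᵐ ω ∂bondLaw p, ∀ᶠ n : ℕ in atTop, ∀ u v : Vtx, IsNearest ω 0 u →
      IsNearest ω ((n:ℝ) • x) v → Reach (opn ω) u v ∧ u ≠ v ∧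
      (|(u.1:ℝ)| ≤ ε * n ∧ |(u.2:ℝ)| ≤ ε * n) ∧
      (|(v.1:ℝ) - n * x.1| ≤ ε * n ∧ |(v.2:ℝ) - n * x.2| ≤ ε * n) ∧
      ∀ b : ℝ, HasPath (opn ω) (flr x n) w b → (bdist (Adj (opn ω)) u v : ℝ) ≤ b + ε * n := by
  obtain ⟨B, hB, hnear⟩ := near_ae p hp
  have hx0 : 0 < ‖x‖ := norm_pos_iff.mpr hx
  obtain ⟨A, hA⟩ : ∃ A : ℕ, A = ⌈‖x‖⌉₊ + 2 := ⟨_, rfl⟩
  have hAx : ‖x‖ + 2 ≤ A := by
    rw [hA]; push_cast
    have := Nat.le_ceil ‖x‖
    linarith
  -- a small number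
  obtain ⟨η, hη⟩ : ∃ η : ℝ, η = min (min ε (‖x‖ / 8)) (1/8) := ⟨_, rfl⟩
  have hη0 : 0 < η := by rw [hη]; positivity
  have hη1 : η ≤ ε := by rw [hη]; exact (min_le_left _ _).trans (min_le_left _ _)
  have hη2 : η ≤ ‖x‖ / 8 := by rw [hη]; exact (min_le_left _ _).trans (min_le_right _ _)
  have hη3 : η ≤ 1/8 := by rw [hη]; exact min_le_right _ _
  filter_upwards [hnear A] with ω hω
  have hbig : ∀ᶠ n : ℕ in atTop, 16 / ‖x‖ + 16 ≤ (n:ℝ) :=
    tendsto_natCast_atTop_atTop.eventually_ge_atTop _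
  filter_upwards [hω, log_growth B hB w hη0, hbig] with n hn hgr hn16
  obtain ⟨hsm, hnr⟩ := hn
  obtain ⟨r, hr⟩ : ∃ r : ℕ, r = ⌈B * Real.log n⌉₊ + 3 := ⟨_, rfl⟩
  obtain ⟨R, hR⟩ : ∃ R : ℕ, R = 6 * (r + w) + 40 := ⟨_, rfl⟩
  rw [← hr, ← hR] at hgr
  have hR40 : (40:ℝ) ≤ R := by
    rw [hR]; push_cast
    have : (0:ℝ) ≤ r := Nat.cast_nonneg _
    have : (0:ℝ) ≤ w := Nat.cast_nonneg _
    linarith
  have hRn : 40 * 40 * (R:ℝ) ≤ η * n := by nlinarith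
  have hrR : (r:ℝ) ≤ R := by
    rw [hR]; push_cast
    have : (0:ℝ) ≤ r := Nat.cast_nonneg _
    have : (0:ℝ) ≤ w := Nat.cast_nonneg _
    linarith
  have hwR : (w:ℝ) ≤ R := by
    rw [hR]; push_cast
    have : (0:ℝ) ≤ r := Nat.cast_nonneg _
    have : (0:ℝ) ≤ w := Nat.cast_nonneg _
    linarith
  have hn1 : 16 ≤ (n:ℝ) * ‖x‖ := by
    have h1 : 16 / ‖x‖ ≤ n := by linarith
    rwa [div_le_iff₀ hx0] at h1
  have hn2 : 16 ≤ (n:ℝ) := by
    have : 0 < 16 / ‖x‖ := by positivity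
    linarith
  have hn0 : (0:ℝ) < n := by linarith
  -- bounds of the target
  have hz := flr_bound x n
  obtain ⟨z, hzdef⟩ : ∃ z : Vtx, z = flr x n := ⟨_, rfl⟩
  rw [← hzdef] at hz
  have hzA : |z.1| ≤ A * n ∧ |z.2| ≤ A * n := by
    have h1 : (n:ℝ) * ‖x‖ + 1 ≤ A * n := by nlinarith
    constructor
    · have : ((|z.1| : ℤ) : ℝ) ≤ A * n := by push_cast; linarith [hz.1]
      exact_mod_cast this
    · have : ((|z.2| : ℤ) : ℝ) ≤ A * n := by push_cast; linarith [hz.2]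
      exact_mod_cast this
  have hzfl : (|(z.1:ℝ) - n * x.1| ≤ 1) ∧ (|(z.2:ℝ) - n * x.2| ≤ 1) := by
    rw [hzdef]
    unfold flr
    simp only
    constructor
    · have h1 := Int.floor_le ((n:ℝ) * x.1)
      have h2 := Int.lt_floor_add_one ((n:ℝ) * x.1)
      rw [abs_le]; constructor <;> linarith
    · have h1 := Int.floor_le ((n:ℝ) * x.2)
      have h2 := Int.lt_floor_add_one ((n:ℝ) * x.2)
      rw [abs_le]; constructor <;> linarith
  intro u v hu hv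
  obtain ⟨hu1, hu2⟩ := hu
  obtain ⟨hv1, hv2⟩ := hv
  rw [infCluster_eq] at hu1 hu2 hv1 hv2
  -- the nearest vertices are near
  have hub : |(u.1:ℝ)| ≤ r ∧ |(u.2:ℝ)| ≤ r := by
    obtain ⟨a, ha, ha1, ha2⟩ := hnr (0, 0) (by simp only [abs_zero]; positivity)
      (by simp only [abs_zero]; positivity)
    have h1 := hu2 a ha
    simp only [sub_zero] at h1 ha1 ha2
    have h2 : ‖(((a.1:ℝ), (a.2:ℝ)) : ℝ × ℝ)‖ ≤ r := by
      rw [Prod.norm_def, Real.norm_eq_abs, Real.norm_eq_abs]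
      apply max_le
      · have : ((|a.1| : ℤ) : ℝ) ≤ (r:ℝ) := by
          have h3 : |a.1| ≤ (r:ℤ) := by rw [hr]; push_cast; omega
          exact_mod_cast h3
        push_cast at this
        exact this
      · have : ((|a.2| : ℤ) : ℝ) ≤ (r:ℝ) := by
          have h3 : |a.2| ≤ (r:ℤ) := by rw [hr]; push_cast; omega
          exact_mod_cast h3
        push_cast at this
        exact this
    have h3 := h1.trans h2
    exact ⟨(norm_fst_le _).trans h3, (norm_snd_le _).trans h3⟩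
  have hvb : |(v.1:ℝ) - n * x.1| ≤ (r:ℝ) - 1 ∧ |(v.2:ℝ) - n * x.2| ≤ (r:ℝ) - 1 := by
    obtain ⟨a, ha, ha1, ha2⟩ := hnr z hzA.1 hzA.2
    have h1 := hv2 a ha
    have h2 : ‖(((a.1:ℝ), (a.2:ℝ)) : ℝ × ℝ) - (n:ℝ) • x‖ ≤ (r:ℝ) - 1 := by
      rw [Prod.norm_def, Real.norm_eq_abs, Real.norm_eq_abs]
      have hrr : (r:ℝ) - 1 = (⌈B * Real.log n⌉₊ : ℝ) + 2 := by rw [hr]; push_cast; ring
      rw [hrr]
      apply max_le
      · have h3 : |(a.1:ℝ) - z.1| ≤ (⌈B * Real.log n⌉₊ : ℝ) + 1 := by exact_mod_cast ha1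
        have h4 : (((a.1:ℝ), (a.2:ℝ)) - (n:ℝ) • x : ℝ × ℝ).1 =
            ((a.1:ℝ) - z.1) + ((z.1:ℝ) - n * x.1) := by
          simp
        rw [h4]
        refine (abs_add_le _ _).trans ?_
        linarith [hzfl.1]
      · have h3 : |(a.2:ℝ) - z.2| ≤ (⌈B * Real.log n⌉₊ : ℝ) + 1 := by exact_mod_cast ha2
        have h4 : (((a.1:ℝ), (a.2:ℝ)) - (n:ℝ) • x : ℝ × ℝ).2 =
            ((a.2:ℝ) - z.2) + ((z.2:ℝ) - n * x.2) := by
          simp
        rw [h4]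
        refine (abs_add_le _ _).trans ?_
        linarith [hzfl.2]
    have h3 := h1.trans h2
    have h5 := norm_fst_le ((((v.1:ℝ), (v.2:ℝ)) : ℝ × ℝ) - (n:ℝ) • x)
    have h6 := norm_snd_le ((((v.1:ℝ), (v.2:ℝ)) : ℝ × ℝ) - (n:ℝ) • x)
    have h7 : ((((v.1:ℝ), (v.2:ℝ)) : ℝ × ℝ) - (n:ℝ) • x).1 = (v.1:ℝ) - n * x.1 := by simp
    have h8 : ((((v.1:ℝ), (v.2:ℝ)) : ℝ × ℝ) - (n:ℝ) • x).2 = (v.2:ℝ) - n * x.2 := by simp
    rw [h7, Real.norm_eq_abs] at h5
    rw [h8, Real.norm_eq_abs] at h6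
    exact ⟨h5.trans h3, h6.trans h3⟩
  have huz : |u.1| ≤ (r:ℤ) ∧ |u.2| ≤ (r:ℤ) := by
    constructor
    · have : ((|u.1| : ℤ) : ℝ) ≤ (r:ℝ) := by push_cast; exact hub.1
      exact_mod_cast this
    · have : ((|u.2| : ℤ) : ℝ) ≤ (r:ℝ) := by push_cast; exact hub.2
      exact_mod_cast this
  have hvz : |v.1 - z.1| ≤ (r:ℤ) ∧ |v.2 - z.2| ≤ (r:ℤ) := by
    constructor
    · have : ((|v.1 - z.1| : ℤ) : ℝ) ≤ (r:ℝ) := by
        push_cast
        have h1 : (v.1:ℝ) - z.1 = ((v.1:ℝ) - n * x.1) - ((z.1:ℝ) - n * x.1) := by ring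
        rw [h1]
        refine (abs_sub _ _).trans ?_
        linarith [hzfl.1, hvb.1]
      exact_mod_cast this
    · have : ((|v.2 - z.2| : ℤ) : ℝ) ≤ (r:ℝ) := by
        push_cast
        have h1 : (v.2:ℝ) - z.2 = ((v.2:ℝ) - n * x.2) - ((z.2:ℝ) - n * x.2) := by ring
        rw [h1]
        refine (abs_sub _ _).trans ?_
        linarith [hzfl.2, hvb.2]
      exact_mod_cast this
  -- integers
  have hηn : η * n ≤ (n:ℝ) / 8 := by
    have := mul_le_mul_of_nonneg_right hη3 hn0.le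
    linarith
  have hRn' : 12800 * (R:ℤ) ≤ n := by
    have : 12800 * (R:ℝ) ≤ n := by linarith
    exact_mod_cast this
  have hRR : (r:ℤ) ≤ R := by exact_mod_cast hrR
  have hRw : (w:ℤ) ≤ R := by exact_mod_cast hwR
  have hA4 : (((2 * A + 4) * n : ℕ):ℤ) = 2 * (A * n) + 4 * n := by push_cast; ring
  have hAn : (0:ℤ) ≤ A * n := by positivity
  have hfar : 2 * (R:ℤ) < |z.1| ∨ 2 * (R:ℤ) < |z.2| := by
    have hxn : (n:ℝ) * ‖x‖ - 1 ≤ max |(z.1:ℝ)| |(z.2:ℝ)| := by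
      have h1 : ‖x‖ = max |x.1| |x.2| := by
        rw [Prod.norm_def, Real.norm_eq_abs, Real.norm_eq_abs]
      rcases le_total |x.1| |x.2| with h | h
      · rw [h1, max_eq_right h]
        refine le_trans ?_ (le_max_right _ _)
        have h2 : (n:ℝ) * |x.2| = |(z.2:ℝ) - ((z.2:ℝ) - n * x.2)| := by
          rw [sub_sub_cancel, abs_mul, Nat.abs_cast]
        rw [h2]
        have := abs_sub (z.2:ℝ) ((z.2:ℝ) - n * x.2)
        linarith [hzfl.2]
      · rw [h1, max_eq_left h]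
        refine le_trans ?_ (le_max_left _ _)
        have h2 : (n:ℝ) * |x.1| = |(z.1:ℝ) - ((z.1:ℝ) - n * x.1)| := by
          rw [sub_sub_cancel, abs_mul, Nat.abs_cast]
        rw [h2]
        have := abs_sub (z.1:ℝ) ((z.1:ℝ) - n * x.1)
        linarith [hzfl.1]
    have hηx : η * n ≤ n * ‖x‖ / 8 := by
      have := mul_le_mul_of_nonneg_right hη2 hn0.le
      linarith
    have h2R : 2 * (R:ℝ) < (n:ℝ) * ‖x‖ - 1 := by linarith
    rcases le_total |(z.1:ℝ)| |(z.2:ℝ)| with h | h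
    · right
      rw [max_eq_right h] at hxn
      have : 2 * (R:ℝ) < ((|z.2| : ℤ) : ℝ) := by push_cast; linarith
      exact_mod_cast this
    · left
      rw [max_eq_left h] at hxn
      have : 2 * (R:ℝ) < ((|z.1| : ℤ) : ℝ) := by push_cast; linarith
      exact_mod_cast this
  have m1 := abs_le.mp huz.1
  have m2 := abs_le.mp huz.2
  have m3 := abs_le.mp hvz.1
  have m4 := abs_le.mp hvz.2
  have m5 := abs_le.mp hzA.1
  have m6 := abs_le.mp hzA.2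
  have hrn : (r:ℝ) ≤ ε * n := by
    have : η * n ≤ ε * n := mul_le_mul_of_nonneg_right hη1 hn0.le
    linarith
  refine ⟨?_, ?_, ⟨hub.1.trans hrn, hub.2.trans hrn⟩,
    ⟨hvb.1.trans (by linarith), hvb.2.trans (by linarith)⟩, ?_⟩
  · -- connectedness
    obtain ⟨a1, ha1, ha1'⟩ := CInf.exit hu1 (-(A * n + R + R)) (A * n + R + R)
      (-(A * n + R + R)) (A * n + R + R)
    obtain ⟨a2, ha2, ha2'⟩ := CInf.exit hv1 (-(A * n + R + R)) (A * n + R + R)
      (-(A * n + R + R)) (A * n + R + R)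
    have hb3 : (⌈B * Real.log n⌉₊ : ℤ) ≤ r := by rw [hr]; push_cast; omega
    have := hsm.conn (z := (0, 0)) (R1 := A * n + R) (R2 := A * n + R + R) (by omega) (by omega)
      (by omega) (by simp only [abs_zero]; rw [hA4]; omega) (u := u) (u' := v) (v := a1)
      (v' := a2) (by unfold inR; simp only; omega) (by unfold inR; simp only; omega)
      (by simp only; omega) (by simp only; omega) ha1 ha2
    exact this.mono Set.inter_subset_left
  · -- they are different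
    intro huv
    rw [← huv] at m3 m4
    rcases hfar with h | h
    · rcases lt_abs.mp h with h' | h' <;> omega
    · rcases lt_abs.mp h with h' | h' <;> omega
  · -- the upper bound
    rw [← hzdef]
    rintro b ⟨C0, k1, k2, k3⟩
    obtain ⟨K, hK⟩ : ∃ K : ℕ, K + 1 = (2 * A + 4) * n := ⟨(2 * A + 4) * n - 1, by
      have : 0 < (2 * A + 4) * n := by
        have : 0 < n := by exact_mod_cast hn0
        positivity
      omega⟩
    have hK' : (K:ℤ) + 1 = 2 * (A * n) + 4 * n := by rw [← hA4, ← hK]; push_cast; ring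
    have hsm' : Small (opn ω) ((K:ℤ) + 1) r := by
      refine hsm.mono ?_ ?_
      · rw [hA4, hK']
      · rw [hr]; push_cast; omega
    have hb := upper_all (z := z) (r := r) (w := w) (R := R) (K := K) hsm' hR hfar k1 (by
      intro e he
      have := k3 e he
      omega) (by omega) hu1 hv1 huz hvz
    have hb' : (bdist (Adj (opn ω)) u v : ℝ) ≤ (((↑C0 : Set Edg) ∩ opn ω).ncard : ℝ) +
        40 * (R:ℝ) ^ 2 := by exact_mod_cast hb
    have : η * n ≤ ε * n := mul_le_mul_of_nonneg_right hη1 hn0.le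
    linarith

end Pool.Agent.Helper59_BN
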