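import Pool.Agent.Helper59_BN.Flow

/-!
Chains of crossings: cheap long paths with exponentially high probability.
-/

namespace Pool.Agent.Helper59_BN

open H974

/-- The cost of the cheapest top-bottom crossing. -/
noncomputable def yc (a b c d : ℤ) (G : Finset Edg) : ℕ := xc c d a b (tps.mp G)

theorem yc_spec {a b c d : ℤ} (hab : a ≤ b) (hcd : c ≤ d) (G : Finset Edg) :
    ∃ C : Finset Edg, C ⊆ TBE a b c d ∧ (C \ G).card ≤ yc a b c d G ∧ TBc a b c d C := by
  obtain ⟨C, h1, h2, h3⟩ := XL_xc hcd hab (tps.mp G)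
  refine ⟨tps.mp C, ?_, ?_, TBc_tps h3⟩
  · rw [← tps_LRE]
    exact LSym.mp_mono _ h1
  · have : tps.mp C \ G = tps.mp (C \ tps.mp G) := by
      rw [LSym.mp_sdiff, tps_tps]
    rw [this]
    unfold LSym.mp
    rw [Finset.card_map]
    exact h2

theorem yc_le {a b c d : ℤ} (hab : a ≤ b) (hcd : c ≤ d) (G : Finset Edg) :
    yc a b c d G ≤ (d - c).toNat := xc_le hcd hab _

theorem yc_local {a b c d : ℤ} {G S : Finset Edg} (hS : TBE a b c d ⊆ S) :
    yc a b c d G = yc a b c d (G ∩ S) := by
  unfold yc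
  rw [LSym.mp_inter]
  apply xc_local
  rw [← tps_TBE]
  exact LSym.mp_mono _ hS

theorem pr_yc {q : ℝ} (h0 : 0 ≤ q) (h1 : q ≤ 1) {a b c d : ℤ} {S : Finset Edg}
    (hS : TBE a b c d ⊆ S) (k : ℕ) :
    Pr (fun _ => q) S (fun G => k < yc a b c d G) ≤ (1 - hh q (d - c) (b - a)) ^ (k + 1) := by
  have e0 : Pr (fun _ => q) S (fun G => k < yc a b c d G) =
      Pr (fun _ => q) (TBE a b c d) (fun G => k < yc a b c d G) :=
    Pr_local hS (fun F _ => by rw [← yc_local (Finset.Subset.refl _)])
  have e1 : Pr (fun _ => q) (tps.mp (TBE a b c d)) (fun G => k < xc c d a b G) =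
      Pr (fun _ => q) (TBE a b c d) (fun G => k < yc a b c d G) := LSym.pr _ _ _ _
  rw [e0, ← e1, tps_TBE]
  exact pr_xc h0 h1 (Finset.Subset.refl _) k

/-- The cost of a horizontal chain. -/
noncomputable def hcost (l : ℤ) (u : Vtx) (N : ℕ) (G : Finset Edg) : ℕ :=
  ∑ i ∈ Finset.range (N + 1), xc (u.1 + i * l) (u.1 + (i + 2) * l) u.2 (u.2 + l) G +
    ∑ i ∈ Finset.range N, yc (u.1 + (i + 1) * l) (u.1 + (i + 2) * l) u.2 (u.2 + l) G

theorem hchain {l : ℤ} (hl : 0 < l) (u : Vtx) (G : Finset Edg) (N : ℕ) :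
    ∃ C : Finset Edg, C ⊆ RE u.1 (u.1 + (N + 2) * l) u.2 (u.2 + l) ∧
      (C \ G).card ≤ hcost l u N G ∧ ∃ y y' : ℤ, (u.2 ≤ y ∧ y ≤ u.2 + l) ∧
        (u.2 ≤ y' ∧ y' ≤ u.2 + l) ∧ Reach ↑C (u.1, y) (u.1 + (N + 2) * l, y') := by
  obtain ⟨a, b⟩ := u
  simp only
  have key : ∀ N : ℕ, ∃ C C' : Finset Edg, C' ⊆ C ∧ C ⊆ RE a (a + (N + 2) * l) b (b + l) ∧
      C' ⊆ RE (a + N * l) (a + (N + 2) * l) b (b + l) ∧
      (C \ G).card ≤ hcost l (a, b) N G ∧ ∃ y y1 y' : ℤ, (b ≤ y ∧ y ≤ b + l) ∧
        (b ≤ y' ∧ y' ≤ b + l) ∧ Reach ↑C (a, y) (a + N * l, y1) ∧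
        Reach ↑C' (a + N * l, y1) (a + (N + 2) * l, y') := by
    intro N
    induction N with
    | zero =>
      obtain ⟨C, h1, h2, y, y', h3, h4, h5⟩ := XL_xc (a := a) (b := a + 2 * l) (c := b)
        (d := b + l) (by omega) (by omega) G
      have e1 : a + ((0:ℕ):ℤ) * l = a := by simp
      have e2 : a + (((0:ℕ):ℤ) + 2) * l = a + 2 * l := by simp
      rw [e1, e2]
      refine ⟨C, C, Finset.Subset.refl _, h1.trans LRE_subset_RE, h1.trans LRE_subset_RE, ?_,
        y, y, y', h3, h4, Reach.refl _ _, h5.mono Set.inter_subset_left⟩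
      unfold hcost
      simpa using h2
    | succ N ih =>
      obtain ⟨C, C', h1, h2, h2', h3, y, y1, y', h4, h5, h6, h7⟩ := ih
      obtain ⟨m, hm⟩ : ∃ m : ℤ, m = (N:ℤ) * l := ⟨_, rfl⟩
      have e1 : a + (((N + 1 : ℕ):ℤ)) * l = a + m + l := by rw [hm]; push_cast; ring
      have e2 : a + (((N + 1 : ℕ):ℤ) + 2) * l = a + m + 3 * l := by rw [hm]; push_cast; ring
      have e3 : a + ((N:ℤ) + 2) * l = a + m + 2 * l := by rw [hm]; ring
      have e4 : a + ((N:ℤ) + 1) * l = a + m + l := by rw [hm]; ring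
      have e5 : a + (N:ℤ) * l = a + m := by rw [hm]
      have hm0 : 0 ≤ m := by rw [hm]; positivity
      rw [e3] at h2 h7 h2'
      rw [e5] at h2' h6 h7
      rw [e1, e2]
      obtain ⟨D, k1, k2, x, x', k3, k4, k5⟩ := yc_spec (a := a + m + l) (b := a + m + 2 * l)
        (c := b) (d := b + l) (by omega) (by omega) G
      obtain ⟨H, l1, l2, w, w', l3, l4, l5⟩ := XL_xc (a := a + m + l) (b := a + m + 3 * l)
        (c := b) (d := b + l) (by omega) (by omega) G
      have hCT : C ⊆ C ∪ D ∪ H := by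
        intro e he; simp only [Finset.mem_union]; exact Or.inl (Or.inl he)
      have hDT : D ⊆ C ∪ D ∪ H := by
        intro e he; simp only [Finset.mem_union]; exact Or.inl (Or.inr he)
      have hHT : H ⊆ C ∪ D ∪ H := by
        intro e he; simp only [Finset.mem_union]; exact Or.inr he
      -- meetings
      have m1 : Reach (↑(C ∪ D ∪ H)) (a + m, y1) (x, b) := by
        refine Reach.mono Set.inter_subset_left (cross_meet (F := ↑(C ∪ D ∪ H)) (A := a + m)
          (B := a + m + 2 * l) (C := b) (D := b + l) (a := a + m + l) (b := a + m + 2 * l)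
          (c := b) (d := b + l) (by omega) (by omega) le_rfl le_rfl (by omega) le_rfl
          (v := (a + m + 2 * l, y')) (v' := (x', b + l)) ?_ (by simp only; omega) le_rfl ?_ le_rfl
          le_rfl)
        · refine h7.mono ?_
          intro e he
          exact ⟨by exact_mod_cast hCT (h1 he), by exact_mod_cast h2' he⟩
        · refine k5.mono ?_
          rintro e ⟨he, -⟩
          exact ⟨by exact_mod_cast hDT he, by
            have := TBE_subset_RE (k1 he)
            exact_mod_cast this⟩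
      have m2 : Reach (↑(C ∪ D ∪ H)) (a + m + l, w) (x, b) := by
        refine Reach.mono Set.inter_subset_left (cross_meet (F := ↑(C ∪ D ∪ H)) (A := a + m + l)
          (B := a + m + 3 * l) (C := b) (D := b + l) (a := a + m + l) (b := a + m + 2 * l)
          (c := b) (d := b + l) le_rfl (by omega) (by omega) le_rfl (by omega) le_rfl
          (v := (a + m + 3 * l, w')) (v' := (x', b + l)) ?_ le_rfl (by simp only; omega) ?_ le_rfl
          le_rfl)
        · refine l5.mono ?_
          rintro e ⟨he, -⟩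
          exact ⟨by exact_mod_cast hHT he, by
            have := LRE_subset_RE (l1 he)
            exact_mod_cast this⟩
        · refine k5.mono ?_
          rintro e ⟨he, -⟩
          exact ⟨by exact_mod_cast hDT he, by
            have := TBE_subset_RE (k1 he)
            exact_mod_cast this⟩
      refine ⟨C ∪ D ∪ H, H, hHT, ?_, (l1.trans LRE_subset_RE), ?_, y, w, w', h4, l4, ?_,
        l5.mono Set.inter_subset_left⟩
      · intro e he
        simp only [Finset.mem_union] at he
        rcases he with (he | he) | he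
        · exact RE_subset le_rfl (by omega) le_rfl le_rfl (h2 he)
        · exact RE_subset (by omega) (by omega) le_rfl le_rfl (TBE_subset_RE (k1 he))
        · exact RE_subset (by omega) (by omega) le_rfl le_rfl (LRE_subset_RE (l1 he))
      · have hs : (C ∪ D ∪ H) \ G ⊆ (C \ G) ∪ (D \ G) ∪ (H \ G) := by
          intro e he
          simp only [Finset.mem_sdiff, Finset.mem_union] at he ⊢
          tauto
        have c1 := Finset.card_le_card hs
        have c2 := Finset.card_union_le ((C \ G) ∪ (D \ G)) (H \ G)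
        have c3 := Finset.card_union_le (C \ G) (D \ G)
        have c4 : hcost l (a, b) (N + 1) G = hcost l (a, b) N G +
            xc (a + m + l) (a + m + 3 * l) b (b + l) G +
            yc (a + m + l) (a + m + 2 * l) b (b + l) G := by
          unfold hcost
          simp only
          have sX := Finset.sum_range_succ
            (fun i : ℕ => xc (a + i * l) (a + (i + 2) * l) b (b + l) G) (N + 1)
          have sY := Finset.sum_range_succ
            (fun i : ℕ => yc (a + (i + 1) * l) (a + (i + 2) * l) b (b + l) G) N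
          simp only [e1, e2] at sX
          simp only [e3, e4] at sY
          rw [sX, sY]
          ring
        rw [c4]
        omega
      · exact (h6.mono (by exact_mod_cast hCT)).trans (m1.trans m2.symm)
  obtain ⟨C, C', h1, h2, -, h3, y, y1, y', h4, h5, h6, h7⟩ := key N
  exact ⟨C, h2, h3, y, y', h4, h5, h6.trans (h7.mono (by exact_mod_cast h1))⟩

/-- The cost of a horizontal chain is linear in its length with high probability. -/
theorem pr_hcost {q δ : ℝ} (h0 : 0 ≤ q) (h1 : q ≤ 1) {l : ℤ} (hl : 0 < l) (hδ : 0 < δ)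
    (hδ1 : δ ≤ 1) (hh1 : δ ≤ hh q (2 * l) l) (u : Vtx) {N M a : ℕ} (hNM : N + 1 ≤ M)
    (ha : 2 * (1 + 1 / δ) ≤ (1 + δ) ^ a) {U : Finset Edg}
    (hU : RE u.1 (u.1 + (N + 2) * l) u.2 (u.2 + l) ⊆ U) :
    Pr (fun _ => q) U (fun G => 4 * (a * M) ≤ hcost l u N G) ≤ 4 * (1/2) ^ M := by
  obtain ⟨b, c⟩ := u
  simp only at hU
  have hsub : ∀ i : ℕ, i < N + 1 → RE (b + i * l) (b + (i + 2) * l) c (c + l) ⊆ U := by
    intro i hi
    refine (RE_subset ?_ ?_ le_rfl le_rfl).trans hU
    · have : 0 ≤ (i:ℤ) * l := by positivity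
      omega
    · have : ((i:ℤ) + 2) * l ≤ ((N:ℤ) + 2) * l := by
        apply mul_le_mul_of_nonneg_right _ hl.le
        omega
      omega
  have hdis : ∀ i j : ℕ, i + 2 ≤ j → b + ((i:ℤ) + 2) * l ≤ b + j * l := by
    intro i j hij
    have : ((i:ℤ) + 2) * l ≤ (j:ℤ) * l := by
      apply mul_le_mul_of_nonneg_right _ hl.le
      omega
    omega
  have hb : (1 + 1 / δ) ^ (N + 1) / (1 + δ) ^ (a * M) ≤ (1/2) ^ M := by
    have h2 : 1 ≤ 1 + 1 / δ := by
      have : 0 < 1 / δ := by positivity
      linarith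
    have h3 : (1 + 1 / δ) ^ (N + 1) ≤ (1 + 1 / δ) ^ M := pow_le_pow_right₀ h2 hNM
    have h4 : (1 + 1 / δ) ^ M * 2 ^ M ≤ (1 + δ) ^ (a * M) := by
      rw [← mul_pow, pow_mul]
      apply pow_le_pow_left₀ (by positivity)
      linarith
    rw [div_le_iff₀ (by positivity)]
    have h5 : (1/2 : ℝ) ^ M * 2 ^ M = 1 := by rw [← mul_pow]; norm_num
    calc (1 + 1 / δ) ^ (N + 1) ≤ (1 + 1 / δ) ^ M := h3
      _ = (1/2) ^ M * ((1 + 1 / δ) ^ M * 2 ^ M) := by
          rw [mul_left_comm, h5, mul_one]
      _ ≤ _ := mul_le_mul_of_nonneg_left h4 (by positivity)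
  -- the two families
  have hX := sum_tail (okq h0 h1) (U := U) hδ hδ1 (N + 1)
    (fun i => LRE (b + i * l) (b + (i + 2) * l) c (c + l))
    (fun i G => xc (b + i * l) (b + (i + 2) * l) c (c + l) G) (2 * l).toNat
    (fun i hi => LRE_subset_RE.trans (hsub i hi))
    (by
      intro i _ j _ hij
      rw [Finset.disjoint_left]
      rintro ⟨x, y, _ | _⟩ h2 h3
      · rw [mem_LRE_false] at h2 h3
        have := hdis i j hij
        omega
      · rw [mem_LRE_true] at h2 h3
        have := hdis i j hij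
        omega)
    (fun i _ F _ => xc_local (Finset.Subset.refl _))
    (by
      intro i _ F _
      refine (xc_le ?_ (by omega) F).trans ?_
      · have : ((i:ℤ) + 2) * l = i * l + 2 * l := by ring
        omega
      · apply le_of_eq
        congr 1
        ring)
    (by
      intro i hi k
      refine (pr_xc h0 h1 (LRE_subset_RE.trans (hsub i hi)) k).trans ?_
      have e1 : b + ((i:ℤ) + 2) * l - (b + i * l) = 2 * l := by ring
      have e2 : c + l - c = l := by ring
      rw [e1, e2]
      apply pow_le_pow_left₀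
      · have := hh_le_one h0 h1 (2 * l) l
        linarith
      · linarith) (a * M)
  have hY := sum_tail (okq h0 h1) (U := U) hδ hδ1 N
    (fun i => TBE (b + (i + 1) * l) (b + (i + 2) * l) c (c + l))
    (fun i G => yc (b + (i + 1) * l) (b + (i + 2) * l) c (c + l) G) l.toNat
    (fun i hi => TBE_subset_RE.trans ((RE_subset (by
      have : ((i:ℤ) + 1) * l = i * l + l := by ring
      omega) le_rfl le_rfl le_rfl).trans (hsub i (by omega))))
    (by
      intro i _ j _ hij
      rw [Finset.disjoint_left]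
      have h5 := hdis i j hij
      have h6 : ((j:ℤ) + 1) * l = j * l + l := by ring
      rintro ⟨x, y, _ | _⟩ h2 h3
      · rw [mem_TBE_false] at h2 h3
        omega
      · rw [mem_TBE_true] at h2 h3
        omega)
    (fun i _ F _ => yc_local (Finset.Subset.refl _))
    (by
      intro i _ F _
      refine (yc_le ?_ (by omega) F).trans ?_
      · have : ((i:ℤ) + 2) * l = (i + 1) * l + l := by ring
        omega
      · apply le_of_eq
        congr 1
        ring)
    (by
      intro i hi k
      refine (pr_yc h0 h1 (TBE_subset_RE.trans ((RE_subset (by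
        have : ((i:ℤ) + 1) * l = i * l + l := by ring
        omega) le_rfl le_rfl le_rfl).trans (hsub i (by omega)))) k).trans ?_
      have e1 : b + ((i:ℤ) + 2) * l - (b + (i + 1) * l) = l := by ring
      have e2 : c + l - c = l := by ring
      rw [e1, e2]
      apply pow_le_pow_left₀
      · have := hh_le_one h0 h1 l l
        linarith
      · have := hh_mono h0 h1 (w := 2 * l) (w' := l) (h := l) (h' := l) hl (by omega) le_rfl
        linarith) (a * M)
  have hor : Pr (fun _ => q) U (fun G => 4 * (a * M) ≤ hcost l (b, c) N G) ≤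
      Pr (fun _ => q) U (fun G => (2 * (a * M) ≤ ∑ i ∈ Finset.range (N + 1),
        xc (b + i * l) (b + (i + 2) * l) c (c + l) G) ∨ (2 * (a * M) ≤ ∑ i ∈ Finset.range N,
        yc (b + (i + 1) * l) (b + (i + 2) * l) c (c + l) G)) := by
    apply Pr_mono (okq h0 h1)
    intro G _ hG
    by_contra hcon
    push Not at hcon
    unfold hcost at hG
    simp only at hG
    omega
  have hYb : (1 + 1 / δ) ^ N / (1 + δ) ^ (a * M) ≤ (1 + 1 / δ) ^ (N + 1) / (1 + δ) ^ (a * M) := by
    apply div_le_div_of_nonneg_right _ (by positivity)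
    apply pow_le_pow_right₀ _ (by omega)
    have : 0 < 1 / δ := by positivity
    linarith
  have := Pr_or_le (okq h0 h1) U (fun G => 2 * (a * M) ≤ ∑ i ∈ Finset.range (N + 1),
        xc (b + i * l) (b + (i + 2) * l) c (c + l) G) (fun G => 2 * (a * M) ≤
        ∑ i ∈ Finset.range N, yc (b + (i + 1) * l) (b + (i + 2) * l) c (c + l) G)
  linarith

end Pool.Agent.Helper59_BN
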