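import Pool.Agent.Helper59_BN.MeanLow

/-!
The chain of blocks of a path, with large steps.
-/

namespace Pool.Agent.Helper59_BN

open H974

theorem mem_RE_of {a b c d : ℤ} {e : Edg} (h1 : inR a b c d (src e)) (h2 : inR a b c d (tgt e)) :
    e ∈ RE a b c d := by
  obtain ⟨x, y, t⟩ := e
  cases t
  · rw [tgt_false] at h2
    unfold inR src at h1
    unfold inR at h2
    simp only at h1 h2
    rw [mem_RE_false]
    omega
  · rw [tgt_true] at h2
    unfold inR src at h1
    unfold inR at h2
    simp only at h1 h2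
    rw [mem_RE_true]
    omega

theorem trace_seg {A B : Set Edg} {y : ℕ → Vtx} {t : ℕ → ℕ} {m : ℕ} (h : Trace A B y t m)
    {a b c d : ℤ} {i j : ℕ} (hij : i ≤ j) (hj : j ≤ m)
    (hin : ∀ k, i ≤ k → k ≤ j → inR a b c d (y k)) {G : Finset Edg}
    (hG : dl '' A ∩ ↑(RE a b c d) ⊆ ↑G) :
    ∃ C : Finset Edg, C ⊆ RE a b c d ∧ (C \ G).card + t i ≤ t j ∧ Reach ↑C (y i) (y j) := by
  induction j, hij using Nat.le_induction with
  | base => exact ⟨∅, by simp, by simp, Reach.refl _ _⟩
  | succ j hij ih =>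
    obtain ⟨C, h1, h2, h3⟩ := ih (by omega) (fun k hk hk' => hin k hk (by omega))
    have hw := hin j hij (by omega)
    have hw' := hin (j + 1) (by omega) le_rfl
    have key : ∀ e : Edg, ((dsrc e = y j ∧ dtgt e = y (j + 1)) ∨
        (dsrc e = y (j + 1) ∧ dtgt e = y j)) → dl e ∈ RE a b c d ∧
        Reach ↑(insert (dl e) C) (y i) (y (j + 1)) := by
      intro e he
      constructor
      · apply mem_RE_of
        · rw [src_dl]
          rcases he with he | he
          · rw [he.1]; exact hw
          · rw [he.1]; exact hw'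
        · rw [tgt_dl]
          rcases he with he | he
          · rw [he.2]; exact hw'
          · rw [he.2]; exact hw
      · refine (h3.mono (by rw [Finset.coe_insert]; exact Set.subset_insert _ _)).trans
          (Adj.reach ⟨dl e, by simp, ?_⟩)
        rw [src_dl, tgt_dl]
        exact he
    rcases h.step j (by omega) with ⟨h4, e, he, hc⟩ | ⟨h4, e, he, hc⟩
    · obtain ⟨k1, k2⟩ := key e hc
      refine ⟨insert (dl e) C, Finset.insert_subset k1 h1, ?_, k2⟩
      rw [Finset.insert_sdiff_of_mem _ (hG ⟨Set.mem_image_of_mem _ he, k1⟩)]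
      omega
    · obtain ⟨k1, k2⟩ := key e hc
      refine ⟨insert (dl e) C, Finset.insert_subset k1 h1, ?_, k2⟩
      have h7 : insert (dl e) C \ G ⊆ insert (dl e) (C \ G) := by
        intro x hx
        simp only [Finset.mem_sdiff, Finset.mem_insert] at hx ⊢
        tauto
      have h8 := Finset.card_le_card h7
      have h9 := Finset.card_insert_le (dl e) (C \ G)
      omega

theorem inR_of_blk {L : ℤ} (hL : 1 ≤ L) {k v : Vtx} {R : ℤ} (h : bdd (blk L v) k ≤ R) :
    inR ((k.1 - R) * L) ((k.1 + R + 1) * L) ((k.2 - R) * L) ((k.2 + R + 1) * L) v := by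
  rw [bdd_le] at h
  unfold blk at h
  simp only at h
  have key : ∀ x a : ℤ, -R ≤ x / L - a → x / L - a ≤ R →
      (a - R) * L ≤ x ∧ x ≤ (a + R + 1) * L := by
    intro x a h1 h2
    have hb := blk_bounds (x := x) hL
    have h3 : (a - R) * L ≤ x / L * L := mul_le_mul_of_nonneg_right (by omega) (by omega)
    have h4 : x / L * L ≤ (a + R) * L := mul_le_mul_of_nonneg_right (by omega) (by omega)
    have h5 : (a + R + 1) * L = (a + R) * L + L := by ring
    omega
  exact ⟨key _ _ h.1.1 h.1.2, key _ _ h.2.1 h.2.2⟩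

theorem mem_Qb_of_blk {L : ℤ} (hL : 1 ≤ L) {k v : Vtx} (h : blk L v = k) : v ∈ Qb L k := by
  have := inR_of_blk hL (k := k) (v := v) (R := 0) (by rw [h]; simp [bdd])
  unfold Qb
  show inR _ _ _ _ v
  simpa using this

open Classical in
/-- The chain of blocks of a path: every step is of length `R` and the costs of the steps add up. -/
theorem chain_ring {A B : Set Edg} {L : ℤ} (hL : 1 ≤ L) {y : ℕ → Vtx} {t : ℕ → ℕ} {m : ℕ}
    (h : Trace A B y t m) {R : ℕ} (hR : 1 ≤ R) : ∀ n i0 : ℕ, i0 ≤ m → m - i0 ≤ n →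
    ∃ (J : ℕ) (κ : ℕ → Vtx) (d : ℕ → ℕ), κ 0 = blk L (y i0) ∧
      (∀ j < J, bdd (κ j) (κ (j + 1)) = R) ∧
      (∀ j j', j < j' → j' ≤ J → κ j ≠ κ j') ∧
      (∀ j ≤ J, ∃ i, i0 ≤ i ∧ i ≤ m ∧ κ j = blk L (y i)) ∧
      bdd (κ J) (blk L (y m)) < R ∧
      (∀ j < J, ∀ G : Finset Edg, dl '' A ∩ ↑(bx L (κ j) (R + 1)) ⊆ ↑G →
        tt (bx L (κ j) (R + 1)) (Qb L (κ j)) (Qb L (κ (j + 1))) G ≤ d j) ∧
      ∑ j ∈ Finset.range J, d j + t i0 ≤ t m := by
  intro n
  induction n with
  | zero =>
    intro i0 hi0 hn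
    have : i0 = m := by omega
    subst this
    refine ⟨0, fun _ => blk L (y i0), fun _ => 0, rfl, by intro j hj; omega,
      by intro j j' h1 h2; omega, fun j _ => ⟨i0, le_rfl, le_rfl, rfl⟩, ?_,
      by intro j hj; omega, by simp⟩
    have : bdd (blk L (y i0)) (blk L (y i0)) = 0 := by simp [bdd]
    rw [this]
    exact_mod_cast hR
  | succ n ih =>
    intro i0 hi0 hn
    by_cases hclose : bdd (blk L (y i0)) (blk L (y m)) < R
    · exact ⟨0, fun _ => blk L (y i0), fun _ => 0, rfl, by intro j hj; omega,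
        by intro j j' h1 h2; omega, fun j _ => ⟨i0, le_rfl, hi0, rfl⟩, hclose,
        by intro j hj; omega, by simpa using h.mono_t hi0 le_rfl⟩
    · push Not at hclose
      obtain ⟨k0, hk0⟩ : ∃ k0, k0 = blk L (y i0) := ⟨_, rfl⟩
      rw [← hk0] at hclose ⊢
      -- the last visit
      obtain ⟨σ, hσ⟩ : ∃ σ, σ = Nat.findGreatest (fun i => i0 ≤ i ∧ blk L (y i) = k0) m := ⟨_, rfl⟩
      have h1 : i0 ≤ σ ∧ blk L (y σ) = k0 := by
        rw [hσ]
        exact Nat.findGreatest_spec (P := fun i => i0 ≤ i ∧ blk L (y i) = k0) hi0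
          ⟨le_rfl, hk0.symm⟩
      have h2 : σ ≤ m := hσ ▸ Nat.findGreatest_le m
      have h3 : ∀ i, σ < i → i ≤ m → blk L (y i) ≠ k0 := by
        intro i hi him heq
        have := Nat.findGreatest_is_greatest (P := fun i => i0 ≤ i ∧ blk L (y i) = k0)
          (hσ ▸ hi) him
        exact this ⟨by omega, heq⟩
      have h4 : σ < m := by
        rcases eq_or_lt_of_le h2 with h5 | h5
        · rw [← h5, h1.2] at hclose
          have : bdd k0 k0 = 0 := by simp [bdd]
          omega
        · exact h5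
      -- the first exit
      have hex : ∃ i, σ < i ∧ i ≤ m ∧ (R:ℤ) ≤ bdd k0 (blk L (y i)) := ⟨m, h4, le_rfl, hclose⟩
      obtain ⟨τ, hτ⟩ : ∃ τ, τ = Nat.find hex := ⟨_, rfl⟩
      have h5 : σ < τ ∧ τ ≤ m ∧ (R:ℤ) ≤ bdd k0 (blk L (y τ)) := hτ ▸ Nat.find_spec hex
      have h6 : ∀ i, σ < i → i < τ → bdd k0 (blk L (y i)) < R := by
        intro i hi hiτ
        have := Nat.find_min hex (hτ ▸ hiτ)
        by_contra hcon
        exact this ⟨hi, by omega, not_lt.mp hcon⟩
      have h7 : ∀ i, σ ≤ i → i < τ → bdd k0 (blk L (y i)) < R := by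
        intro i hi hiτ
        rcases eq_or_lt_of_le hi with h8 | h8
        · rw [← h8, h1.2]
          have : bdd k0 k0 = 0 := by simp [bdd]
          rw [this]
          exact_mod_cast hR
        · exact h6 i h8 hiτ
      have h8 : bdd k0 (blk L (y τ)) = R := by
        have h9 := h7 (τ - 1) (by omega) (by omega)
        have h10 : bdd (blk L (y (τ - 1))) (blk L (y τ)) ≤ 1 := by
          have hst := h.step (τ - 1) (by omega)
          rw [Nat.sub_add_cancel (by omega)] at hst
          rcases hst with hst | hst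
          · exact blk_step hL hst.2
          · exact blk_step hL hst.2
        have h11 := bdd_triangle k0 (blk L (y (τ - 1))) (blk L (y τ))
        have h12 := h5.2.2
        omega
      obtain ⟨J, κ, d, k1, k2, k3, k4, k5, k6, k7⟩ := ih τ h5.2.1 (by omega)
      refine ⟨J + 1, fun j => if j = 0 then k0 else κ (j - 1),
        fun j => if j = 0 then t τ - t σ else d (j - 1), by simp, ?_, ?_, ?_, ?_, ?_, ?_⟩
      · intro j hj
        rcases Nat.eq_zero_or_pos j with rfl | hj0
        · simp only [if_pos rfl, zero_add, if_neg (show ¬ (1:ℕ) = 0 by omega), Nat.sub_self, k1]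
          exact h8
        · simp only [if_neg (show ¬ j = 0 by omega), if_neg (show ¬ j + 1 = 0 by omega),
            Nat.add_sub_cancel]
          have := k2 (j - 1) (by omega)
          rwa [Nat.sub_add_cancel (by omega)] at this
      · intro j j' hjj hj'
        simp only [if_neg (show ¬ j' = 0 by omega)]
        rcases Nat.eq_zero_or_pos j with rfl | hj0
        · simp only [if_pos rfl]
          obtain ⟨i, hi1, hi2, hi3⟩ := k4 (j' - 1) (by omega)
          rw [hi3]
          exact (h3 i (by omega) hi2).symm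
        · simp only [if_neg (show ¬ j = 0 by omega)]
          exact k3 _ _ (by omega) (by omega)
      · intro j hj
        rcases Nat.eq_zero_or_pos j with rfl | hj0
        · exact ⟨i0, le_rfl, hi0, by simp [hk0]⟩
        · simp only [if_neg (show ¬ j = 0 by omega)]
          obtain ⟨i, hi1, hi2, hi3⟩ := k4 (j - 1) (by omega)
          exact ⟨i, by omega, hi2, hi3⟩
      · simp only [if_neg (show ¬ J + 1 = 0 by omega), Nat.add_sub_cancel]
        exact k5
      · intro j hj G hG
        rcases Nat.eq_zero_or_pos j with rfl | hj0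
        · simp only [if_pos rfl, zero_add, if_neg (show ¬ (1:ℕ) = 0 by omega), Nat.sub_self,
            k1] at hG ⊢
          obtain ⟨C, c1, c2, c3⟩ := trace_seg h (i := σ) (j := τ) (by omega) h5.2.1
            (a := (k0.1 - (R + 1)) * L) (b := (k0.1 + (R + 1) + 1) * L)
            (c := (k0.2 - (R + 1)) * L) (d := (k0.2 + (R + 1) + 1) * L) (by
              intro i hi1 hi2
              apply inR_of_blk hL
              rw [bdd_symm]
              rcases eq_or_lt_of_le hi2 with h9 | h9
              · rw [h9, h8]; omega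
              · have := h7 i hi1 h9; omega) hG
          refine (tt_le c1 (mem_Qb_of_blk hL h1.2) (mem_Qb_of_blk hL rfl) c3).trans ?_
          rw [if_true]
          omega
        · simp only [if_neg (show ¬ j = 0 by omega), if_neg (show ¬ j + 1 = 0 by omega),
            Nat.add_sub_cancel] at hG ⊢
          have := k6 (j - 1) (by omega) G hG
          rwa [Nat.sub_add_cancel (by omega)] at this
      · rw [Finset.sum_range_succ']
        have e1 : ∀ i : ℕ, (if i + 1 = 0 then t τ - t σ else d (i + 1 - 1)) = d i := by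
          intro i
          rw [if_neg (by omega), Nat.add_sub_cancel]
        simp only [e1, if_true]
        have c1 := h.mono_t h1.1 h2
        have c2 := h.mono_t (show σ ≤ τ by omega) h5.2.1
        omega

/-- The chains with steps of length at most `R`. -/
theorem chains_card' (R : ℕ) (k0 : Vtx) : ∀ J : ℕ, ∃ I : Finset (ℕ → Vtx),
    I.card ≤ ((2 * R + 1) ^ 2) ^ J ∧
    ∀ κ : ℕ → Vtx, κ 0 = k0 → (∀ j < J, bdd (κ j) (κ (j + 1)) ≤ R) →
      ∃ κ' ∈ I, ∀ j ≤ J, κ' j = κ j := by
  classical
  intro J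
  induction J with
  | zero =>
    refine ⟨{fun _ => k0}, by simp, fun κ h0 _ => ⟨fun _ => k0, by simp, ?_⟩⟩
    intro j hj
    rw [Nat.le_zero.mp hj, h0]
  | succ J ih =>
    obtain ⟨I, hI, hI'⟩ := ih
    refine ⟨(I ×ˢ (Finset.Icc (-(R:ℤ)) R ×ˢ Finset.Icc (-(R:ℤ)) R)).image
      (fun q => fun j => if j ≤ J then q.1 j else (q.1 J).1 + q.2.1 |> fun a =>
        (a, (q.1 J).2 + q.2.2)), ?_, ?_⟩
    · refine Finset.card_image_le.trans ?_
      rw [Finset.card_product, Finset.card_product, Int.card_Icc]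
      have : ((R:ℤ) + 1 - -R).toNat = 2 * R + 1 := by omega
      rw [this, pow_succ ((2 * R + 1) ^ 2), ← sq]
      exact Nat.mul_le_mul_right _ hI
    · intro κ h0 hstep
      obtain ⟨κ', hκ', hκ''⟩ := hI' κ h0 (fun j hj => hstep j (by omega))
      refine ⟨_, Finset.mem_image.mpr ⟨(κ', ((κ (J + 1)).1 - (κ J).1, (κ (J + 1)).2 - (κ J).2)),
        ?_, rfl⟩, ?_⟩
      · have h1 := bdd_le.mp (hstep J (by omega))
        rw [Finset.mem_product, Finset.mem_product, Finset.mem_Icc, Finset.mem_Icc]
        refine ⟨hκ', ?_, ?_⟩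
        · simp only; omega
        · simp only; omega
      · intro j hj
        simp only
        by_cases hjJ : j ≤ J
        · rw [if_pos hjJ]; exact hκ'' j hjJ
        · rw [if_neg hjJ]
          have : j = J + 1 := by omega
          rw [this, hκ'' J le_rfl]
          simp

end Pool.Agent.Helper59_BN
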