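import Pool.Agent.Helper59_BN.Moment

/-!
Concentration of link costs at a good scale.
-/

namespace Pool.Agent.Helper59_BN

open H974

section general

variable {E : Type*} [DecidableEq E]

/-- Sums of centred functions of disjoint sets of edges. -/
theorem ex_sum_sq {p : E → ℝ} {ι : Type*} [DecidableEq ι] (I : Finset ι) {U : Finset E}
    (S : ι → Finset E) (f : ι → Finset E → ℝ) (hS : ∀ i ∈ I, S i ⊆ U)
    (hd : ∀ i ∈ I, ∀ j ∈ I, i ≠ j → Disjoint (S i) (S j))
    (hf : ∀ i ∈ I, ∀ F, F ⊆ U → f i F = f i (F ∩ S i)) (hm : ∀ i ∈ I, Ex p U (f i) = 0) :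
    Ex p U (fun F => (∑ i ∈ I, f i F) ^ 2) = ∑ i ∈ I, Ex p U (fun F => f i F ^ 2) := by
  induction I using Finset.induction_on with
  | empty => simp only [Finset.sum_empty]; rw [Ex_const]; norm_num
  | insert a I ha ih =>
    have ih' := ih (fun i hi => hS i (Finset.mem_insert_of_mem hi))
      (fun i hi j hj => hd i (Finset.mem_insert_of_mem hi) j (Finset.mem_insert_of_mem hj))
      (fun i hi => hf i (Finset.mem_insert_of_mem hi))
      (fun i hi => hm i (Finset.mem_insert_of_mem hi))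
    rw [Finset.sum_insert ha, ← ih']
    have h1 : Ex p U (fun F => (∑ i ∈ insert a I, f i F) ^ 2) =
        Ex p U (fun F => f a F ^ 2) + (2 * Ex p U (fun F => f a F * ∑ i ∈ I, f i F) +
          Ex p U (fun F => (∑ i ∈ I, f i F) ^ 2)) := by
      rw [← Ex_mul_left, ← Ex_add, ← Ex_add]
      apply Ex_congr
      intro F _
      rw [Finset.sum_insert ha]
      ring
    have h2 : Ex p U (fun F => f a F * ∑ i ∈ I, f i F) = 0 := by
      rw [Ex_mul_indep (S := S a) (T := I.biUnion S) (hS a (Finset.mem_insert_self _ _)),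
        hm a (Finset.mem_insert_self _ _), zero_mul]
      · rw [Finset.biUnion_subset]
        exact fun i hi => hS i (Finset.mem_insert_of_mem hi)
      · rw [Finset.disjoint_biUnion_right]
        intro i hi
        apply hd a (Finset.mem_insert_self _ _) i (Finset.mem_insert_of_mem hi)
        rintro rfl
        exact ha hi
      · exact hf a (Finset.mem_insert_self _ _)
      · intro F hF
        apply Finset.sum_congr rfl
        intro i hi
        have hi' := Finset.mem_insert_of_mem hi (b := a)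
        rw [hf i hi' F hF, hf i hi' (F ∩ I.biUnion S) (Finset.inter_subset_left.trans hF)]
        congr 1
        rw [Finset.inter_assoc]
        congr 1
        exact (Finset.inter_eq_right.mpr (Finset.subset_biUnion_of_mem S hi)).symm
    rw [h1, h2]
    ring

/-- Sums of centred functions with finite range. -/
theorem var_sum {p : E → ℝ} (hp : Ok p) {U : Finset E} (k : ℕ)
    (S : ℕ → Finset E) (f : ℕ → Finset E → ℝ) (hS : ∀ i < k, S i ⊆ U)
    (hd : ∀ i < k, ∀ j < k, i + 4 ≤ j → Disjoint (S i) (S j))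
    (hf : ∀ i < k, ∀ F, F ⊆ U → f i F = f i (F ∩ S i)) (hm : ∀ i < k, Ex p U (f i) = 0)
    {v : ℝ} (hv : ∀ i < k, Ex p U (fun F => f i F ^ 2) ≤ v) :
    Ex p U (fun F => (∑ i ∈ Finset.range k, f i F) ^ 2) ≤ 4 * k * v := by
  have hcls : ∀ F, ∑ i ∈ Finset.range k, f i F = ∑ c ∈ Finset.range 4,
      ∑ i ∈ (Finset.range k).filter (fun i => i % 4 = c), f i F := by
    intro F
    rw [Finset.sum_fiberwise_of_maps_to]
    intro i _
    rw [Finset.mem_range]
    omega
  have h1 : Ex p U (fun F => (∑ i ∈ Finset.range k, f i F) ^ 2) ≤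
      Ex p U (fun F => 4 * ∑ c ∈ Finset.range 4,
        (∑ i ∈ (Finset.range k).filter (fun i => i % 4 = c), f i F) ^ 2) := by
    apply Ex_mono hp
    intro F _
    rw [hcls]
    have := sq_sum_le_card_mul_sum_sq (s := Finset.range 4) (f := fun c =>
      ∑ i ∈ (Finset.range k).filter (fun i => i % 4 = c), f i F)
    rw [Finset.card_range] at this
    exact_mod_cast this
  refine h1.trans ?_
  rw [Ex_mul_left, Ex_sum]
  have h2 : ∀ c ∈ Finset.range 4, Ex p U (fun F =>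
      (∑ i ∈ (Finset.range k).filter (fun i => i % 4 = c), f i F) ^ 2) ≤
      ∑ i ∈ (Finset.range k).filter (fun i => i % 4 = c), v := by
    intro c _
    rw [ex_sum_sq ((Finset.range k).filter (fun i => i % 4 = c)) S f]
    · apply Finset.sum_le_sum
      intro i hi
      exact hv i (Finset.mem_range.mp (Finset.mem_filter.mp hi).1)
    · intro i hi
      exact hS i (Finset.mem_range.mp (Finset.mem_filter.mp hi).1)
    · intro i hi j hj hij
      rw [Finset.mem_filter, Finset.mem_range] at hi hj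
      rcases Nat.lt_or_gt_of_ne hij with h | h
      · exact hd i hi.1 j hj.1 (by omega)
      · exact (hd j hj.1 i hi.1 (by omega)).symm
    · intro i hi
      exact hf i (Finset.mem_range.mp (Finset.mem_filter.mp hi).1)
    · intro i hi
      exact hm i (Finset.mem_range.mp (Finset.mem_filter.mp hi).1)
  have h3 := Finset.sum_le_sum h2
  rw [Finset.sum_fiberwise_of_maps_to (g := fun i => i % 4) (f := fun _ => v) (by
    intro i _
    rw [Finset.mem_range]
    omega), Finset.sum_const, Finset.card_range, nsmul_eq_mul] at h3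
  linarith

/-- The lower tail of a subadditive functional which is nearly additive in the mean. -/
theorem low_tail {p : E → ℝ} (hp : Ok p) {U : Finset E} (k : ℕ)
    (S : ℕ → Finset E) (Z : ℕ → Finset E → ℝ) (X : Finset E → ℝ) (hS : ∀ i < k, S i ⊆ U)
    (hd : ∀ i < k, ∀ j < k, i + 4 ≤ j → Disjoint (S i) (S j))
    (hf : ∀ i < k, ∀ F, F ⊆ U → Z i F = Z i (F ∩ S i)) {μ v e lam t : ℝ}
    (hm : ∀ i < k, Ex p U (Z i) = μ) (hv : ∀ i < k, Ex p U (fun F => Z i F ^ 2) ≤ v)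
    (hX : ∀ F, F ⊆ U → X F ≤ ∑ i ∈ Finset.range k, Z i F) (he : 0 ≤ e)
    (hXe : k * μ - e ≤ Ex p U X) (hl : 0 < lam) (ht : 0 < t) :
    Pr p U (fun F => X F ≤ Ex p U X - t) ≤ (k * v / lam + lam + e) / t := by
  obtain ⟨m, hmd⟩ : ∃ m, m = Ex p U X := ⟨_, rfl⟩
  rw [← hmd] at hXe ⊢
  have hvar : Ex p U (fun F => (∑ i ∈ Finset.range k, (Z i F - μ)) ^ 2) ≤ 4 * k * v := by
    apply var_sum hp k S (fun i F => Z i F - μ) hS hd
    · intro i hi F hF
      rw [hf i hi F hF]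
    · intro i hi
      rw [Ex_sub, hm i hi, Ex_const, sub_self]
    · intro i hi
      have h1 : Ex p U (fun F => (Z i F - μ) ^ 2) =
          Ex p U (fun F => Z i F ^ 2) - μ ^ 2 := by
        have h2 : Ex p U (fun F => (Z i F - μ) ^ 2) =
            Ex p U (fun F => Z i F ^ 2) - Ex p U (fun F => (2 * μ) * Z i F - μ ^ 2) := by
          rw [← Ex_sub]
          apply Ex_congr
          intro F _
          ring
        rw [h2, Ex_sub, Ex_mul_left, hm i hi, Ex_const]
        ring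
      rw [h1]
      have := hv i hi
      nlinarith [sq_nonneg μ]
  -- the positive part
  have hpos : Ex p U (fun F => max (X F - m) 0) ≤ k * v / lam + lam + e := by
    have h1 : Ex p U (fun F => max (X F - m) 0) ≤
        Ex p U (fun F => (∑ i ∈ Finset.range k, (Z i F - μ)) ^ 2 * (1 / (4 * lam)) +
          (lam + e)) := by
      apply Ex_mono hp
      intro F hF
      have h2 := hX F hF
      obtain ⟨y, hy⟩ : ∃ y, y = ∑ i ∈ Finset.range k, (Z i F - μ) := ⟨_, rfl⟩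
      have h3 : ∑ i ∈ Finset.range k, Z i F = y + k * μ := by
        rw [hy, Finset.sum_sub_distrib, Finset.sum_const, Finset.card_range, nsmul_eq_mul]
        ring
      rw [← hy]
      have h4 : y ≤ y ^ 2 * (1 / (4 * lam)) + lam := by
        rw [mul_one_div, ← sub_le_iff_le_add, le_div_iff₀ (by positivity)]
        nlinarith [sq_nonneg (y - 2 * lam)]
      have h5 : 0 ≤ y ^ 2 * (1 / (4 * lam)) := by positivity
      apply max_le
      · linarith
      · linarith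
    refine h1.trans ?_
    rw [Ex_add, Ex_mul_right, Ex_const]
    have h6 := mul_le_mul_of_nonneg_right hvar (show 0 ≤ 1 / (4 * lam) by positivity)
    have h7 : 4 * k * v * (1 / (4 * lam)) = k * v / lam := by
      field_simp
    linarith
  have hneg : Ex p U (fun F => max (m - X F) 0) = Ex p U (fun F => max (X F - m) 0) := by
    have h1 : Ex p U (fun F => max (X F - m) 0) - Ex p U (fun F => max (m - X F) 0) =
        Ex p U (fun F => X F - m) := by
      rw [← Ex_sub]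
      apply Ex_congr
      intro F _
      rcases le_total (X F) m with h | h
      · rw [max_eq_right (by linarith), max_eq_left (by linarith)]; ring
      · rw [max_eq_left (by linarith), max_eq_right (by linarith)]; ring
    rw [Ex_sub, Ex_const, ← hmd, sub_self] at h1
    linarith
  have hmk : Pr p U (fun F => t ≤ max (m - X F) 0) ≤ Ex p U (fun F => max (m - X F) 0) / t :=
    markov hp (f := fun F => max (m - X F) 0) (fun F => le_max_right _ _) ht
  refine (Pr_mono hp (fun F _ h => ?_)).trans (hmk.trans ?_)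
  · exact le_trans (by linarith) (le_max_left _ _)
  · rw [hneg]
    exact div_le_div_of_nonneg_right hpos ht.le

end general

theorem bx_disj {l : ℤ} (hl : 0 < l) {a b : Vtx} {r : ℤ} (hr : 0 ≤ r) (h : 2 * r + 2 ≤ bdd a b) :
    Disjoint (bx l a r) (bx l b r) := by
  rw [le_bdd (by omega)] at h
  obtain ⟨a1, a2⟩ := a
  obtain ⟨b1, b2⟩ := b
  simp only at h
  unfold bx
  simp only
  have key : ∀ x y : ℤ, x + 2 * r + 2 ≤ y → (x + r + 1) * l < (y - r) * l := by
    intro x y h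
    exact mul_lt_mul_of_pos_right (by omega) hl
  rw [Finset.disjoint_left]
  rintro ⟨x, y, _ | _⟩ h2 h3
  · rw [mem_RE_false] at h2 h3
    rcases h with (h | h) | (h | h)
    · have := key b1 a1 (by omega); omega
    · have := key a1 b1 (by omega); omega
    · have := key b2 a2 (by omega); omega
    · have := key a2 b2 (by omega); omega
  · rw [mem_RE_true] at h2 h3
    rcases h with (h | h) | (h | h)
    · have := key b1 a1 (by omega); omega
    · have := key a1 b1 (by omega); omega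
    · have := key b2 a2 (by omega); omega
    · have := key a2 b2 (by omega); omega

/-- The multiple of a vector. -/
def sm (n : ℤ) (v : Vtx) : Vtx := (n * v.1, n * v.2)

theorem bdd_sm (n m : ℤ) (v : Vtx) : bdd (sm n v) (sm m v) = |n - m| * bdd 0 v := by
  unfold bdd sm
  simp only [Prod.fst_zero, Prod.snd_zero, zero_sub, abs_neg]
  rw [← sub_mul, ← sub_mul, abs_mul, abs_mul, mul_max_of_nonneg _ _ (abs_nonneg _)]

theorem bdd_zero_sm (n : ℤ) (v : Vtx) : bdd 0 (sm n v) = |n| * bdd 0 v := by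
  have := bdd_sm 0 n v
  have h0 : sm 0 v = 0 := by unfold sm; simp
  rw [h0, zero_sub, abs_neg] at this
  exact this

theorem sm_sm (n m : ℤ) (v : Vtx) : sm n (sm m v) = sm (n * m) v := by
  unfold sm; simp only; rw [mul_assoc, mul_assoc]

/-- The link cost of a multiple is at most the sum of the link costs. -/
theorem lk_chain {l : ℤ} (hl : 0 < l) {r : ℤ} {z : Vtx} (hr : bdd 0 z + 1 ≤ r)
    (G : Finset Edg) : ∀ k : ℕ, 1 ≤ k → ∃ c, LK l (bx l 0 (((k:ℤ) - 1) * bdd 0 z + r)) G 0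
      (sm k z) c ∧ c ≤ ∑ i ∈ Finset.range k, lk l (bx l (sm i z) r) (sm i z) (sm i z + z) G := by
  have hb := bdd_nonneg 0 z
  intro k hk
  induction k, hk using Nat.le_induction with
  | base =>
    obtain ⟨c, hc⟩ := LK_ex hl G (a := 0) (b := z) (r := r) hr (Finset.Subset.refl _)
    refine ⟨_, lk_spec (k := c) ?_, ?_⟩
    · have e1 : sm ((1:ℕ):ℤ) z = z := by unfold sm; simp
      have e2 : (((1:ℕ):ℤ) - 1) * bdd 0 z + r = r := by simp
      rw [e1, e2]
      exact hc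
    · have e1 : sm ((1:ℕ):ℤ) z = z := by unfold sm; simp
      have e2 : (((1:ℕ):ℤ) - 1) * bdd 0 z + r = r := by simp
      have e3 : sm ((0:ℕ):ℤ) z = 0 := by unfold sm; simp
      rw [Finset.sum_range_one, e1, e2, e3, zero_add]
  | succ k hk ih =>
    obtain ⟨c, hc1, hc2⟩ := ih
    have hk' : (1:ℤ) ≤ k := by exact_mod_cast hk
    obtain ⟨c', hc'⟩ := LK_ex hl G (a := sm k z) (b := sm k z + z) (r := r) (by
      have : bdd (sm k z) (sm k z + z) = bdd 0 z := by unfold bdd; simp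
      omega) (Finset.Subset.refl (bx l (sm k z) r))
    have e1 : sm ((k + 1 : ℕ):ℤ) z = sm k z + z := by
      unfold sm
      ext <;> simp <;> ring
    rw [e1]
    have e2 : (((k + 1 : ℕ):ℤ) - 1) * bdd 0 z + r = (k:ℤ) * bdd 0 z + r := by push_cast; ring
    rw [e2]
    refine ⟨c + lk l (bx l (sm k z) r) (sm k z) (sm k z + z) G,
      (hc1.mono (bx_subset hl ?_) le_rfl).trans hl ((lk_spec hc').mono (bx_subset hl ?_) le_rfl),
      ?_⟩
    · have : bdd (0:Vtx) 0 = 0 := by simp [bdd]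
      have e3 : ((k:ℤ) - 1) * bdd 0 z = k * bdd 0 z - bdd 0 z := by ring
      rw [this, e3]
      omega
    · rw [bdd_symm, bdd_zero_sm, abs_of_nonneg (by omega)]
      omega
    · rw [Finset.sum_range_succ]
      omega

/-- Concentration at the scale `k s`, if the mean is nearly additive. -/
theorem conc_step {q δ : ℝ} (h0 : 0 ≤ q) (h1 : q ≤ 1) {l : ℤ} (hl : 0 < l) (hδ : 0 < δ)
    (hδ1 : δ ≤ 1) (hh1 : δ ≤ hh q (3 * l) l) {R s k : ℕ} (hR : 4 ≤ R) (hs : 1 ≤ s) (hk : 1 ≤ k)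
    {w : Vtx} (hw : bdd 0 w = R) {e lam t : ℝ} (he : 0 ≤ e)
    (hadd : k * EL q l (((R + 3) * s : ℕ)) (sm s w) - e ≤
      EL q l (((R + 3) * (k * s) : ℕ)) (sm ((k * s : ℕ)) w)) (hlam : 0 < lam) (ht : 0 < t) :
    Pr (fun _ => q) (bx l 0 (((R + 3) * (k * s) : ℕ))) (fun G =>
      (lk l (bx l 0 (((R + 3) * (k * s) : ℕ))) 0 (sm ((k * s : ℕ)) w) G : ℝ) ≤
        EL q l (((R + 3) * (k * s) : ℕ)) (sm ((k * s : ℕ)) w) - t) ≤
      (k * ((4 * (R * s : ℕ) + 1) ^ 2 * V0 δ) / lam + lam + e) / t := by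
  obtain ⟨z, hz⟩ : ∃ z, z = sm s w := ⟨_, rfl⟩
  obtain ⟨r, hr⟩ : ∃ r : ℤ, r = (((R + 3) * s : ℕ) : ℤ) := ⟨_, rfl⟩
  obtain ⟨r', hr'⟩ : ∃ r' : ℤ, r' = (((R + 3) * (k * s) : ℕ) : ℤ) := ⟨_, rfl⟩
  have hbz : bdd 0 z = ((R * s : ℕ) : ℤ) := by
    rw [hz, bdd_zero_sm, hw, abs_of_nonneg (by positivity)]
    push_cast
    ring
  have ez : sm ((k * s : ℕ)) w = sm k z := by rw [hz, sm_sm]; push_cast; rfl
  rw [ez, ← hr'] at hadd ⊢
  rw [← hz, ← hr] at hadd
  have hrz : bdd 0 z + 1 ≤ r := by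
    rw [hbz, hr]
    have : R * s + 1 ≤ (R + 3) * s := by nlinarith
    exact_mod_cast this
  have hRs : (s:ℤ) ≤ R * s := by
    have : s ≤ R * s := Nat.le_mul_of_pos_left s (by omega)
    exact_mod_cast this
  have hkr : ((k:ℤ) - 1) * bdd 0 z + r ≤ r' := by
    rw [hbz, hr, hr']
    push_cast
    have hk' : (1:ℤ) ≤ k := by exact_mod_cast hk
    nlinarith [mul_nonneg (show (0:ℤ) ≤ k - 1 by omega) (show (0:ℤ) ≤ s by positivity)]
  have hsub : ∀ i < k, bx l (sm i z) r ⊆ bx l 0 r' := by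
    intro i hi
    apply bx_subset hl
    rw [bdd_symm, bdd_zero_sm, abs_of_nonneg (by positivity)]
    have hb := bdd_nonneg 0 z
    have : (i:ℤ) * bdd 0 z ≤ ((k:ℤ) - 1) * bdd 0 z := by
      apply mul_le_mul_of_nonneg_right _ hb
      omega
    omega
  refine low_tail (okq h0 h1) k (fun i => bx l (sm i z) r)
    (fun i G => (lk l (bx l (sm i z) r) (sm i z) (sm i z + z) G : ℝ)) _ hsub ?_ ?_ ?_ ?_ ?_ he
    hadd hlam ht
  · intro i _ j _ hij
    apply bx_disj hl (by rw [hr]; positivity)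
    rw [bdd_sm, hbz, hr]
    have h2 : (4:ℤ) ≤ |(i:ℤ) - j| := by rw [abs_sub_comm, abs_of_nonneg (by omega)]; omega
    have h3 : 4 * (((R * s : ℕ)) : ℤ) ≤ |(i:ℤ) - j| * ((R * s : ℕ)) :=
      mul_le_mul_of_nonneg_right h2 (by positivity)
    refine le_trans ?_ h3
    have h4 : 2 * ((R + 3) * s) + 2 ≤ 4 * (R * s) := by nlinarith
    exact_mod_cast h4
  · intro i _ F _
    rw [lk_local (Finset.Subset.refl _)]
  · intro i hi
    exact EL_eq q _ z (hsub i hi)
  · intro i hi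
    have h2 := ex_lk q (l := l) (r := r) (fun n => (n:ℝ) ^ 2) (sm i z) z (hsub i hi)
    rw [h2]
    exact lk_sq h0 h1 hl hδ hδ1 hh1 (n := R * s) hbz.le (by rw [← hbz]; exact hrz)
  · intro G _
    obtain ⟨c, hc1, hc2⟩ := lk_chain hl hrz G k hk
    have h2 := lk_le (hc1.mono (bx_subset (b := 0) (s := r') hl (by
      have : bdd (0:Vtx) 0 = 0 := by simp [bdd]
      omega)) le_rfl)
    exact_mod_cast h2.trans hc2

theorem EL_mul {q : ℝ} (h0 : 0 ≤ q) (h1 : q ≤ 1) {l : ℤ} (hl : 0 < l) {R s k : ℕ} (hR : 4 ≤ R)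
    (hs : 1 ≤ s) (hk : 1 ≤ k) {w : Vtx} (hw : bdd 0 w = R) :
    EL q l (((R + 3) * (k * s) : ℕ)) (sm ((k * s : ℕ)) w) ≤
      k * EL q l (((R + 3) * s : ℕ)) (sm s w) := by
  obtain ⟨z, hz⟩ : ∃ z, z = sm s w := ⟨_, rfl⟩
  obtain ⟨r, hr⟩ : ∃ r : ℤ, r = (((R + 3) * s : ℕ) : ℤ) := ⟨_, rfl⟩
  obtain ⟨r', hr'⟩ : ∃ r' : ℤ, r' = (((R + 3) * (k * s) : ℕ) : ℤ) := ⟨_, rfl⟩
  have hbz : bdd 0 z = ((R * s : ℕ) : ℤ) := by
    rw [hz, bdd_zero_sm, hw, abs_of_nonneg (by positivity)]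
    push_cast
    ring
  have ez : sm ((k * s : ℕ)) w = sm k z := by rw [hz, sm_sm]; push_cast; rfl
  rw [ez, ← hr', ← hz, ← hr]
  have hrz : bdd 0 z + 1 ≤ r := by
    rw [hbz, hr]
    have : R * s + 1 ≤ (R + 3) * s := by nlinarith
    exact_mod_cast this
  have hkr : ((k:ℤ) - 1) * bdd 0 z + r ≤ r' := by
    rw [hbz, hr, hr']
    push_cast
    have hk' : (1:ℤ) ≤ k := by exact_mod_cast hk
    nlinarith [mul_nonneg (show (0:ℤ) ≤ k - 1 by omega) (show (0:ℤ) ≤ s by positivity)]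
  have hsub : ∀ i < k, bx l (sm i z) r ⊆ bx l 0 r' := by
    intro i hi
    apply bx_subset hl
    rw [bdd_symm, bdd_zero_sm, abs_of_nonneg (by positivity)]
    have hb := bdd_nonneg 0 z
    have : (i:ℤ) * bdd 0 z ≤ ((k:ℤ) - 1) * bdd 0 z := by
      apply mul_le_mul_of_nonneg_right _ hb
      omega
    omega
  have h2 : EL q l r' (sm k z) ≤ Ex (fun _ => q) (bx l 0 r') (fun G =>
      ∑ i ∈ Finset.range k, (lk l (bx l (sm i z) r) (sm i z) (sm i z + z) G : ℝ)) := by
    apply Ex_mono (okq h0 h1)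
    intro G _
    obtain ⟨c, hc1, hc2⟩ := lk_chain hl hrz G k hk
    have h2 := lk_le (hc1.mono (bx_subset (b := 0) (s := r') hl (by
      have : bdd (0:Vtx) 0 = 0 := by simp [bdd]
      omega)) le_rfl)
    exact_mod_cast h2.trans hc2
  refine h2.trans ?_
  rw [Ex_sum, Finset.sum_congr rfl (g := fun _ => EL q l r z) (fun i hi =>
    EL_eq q _ z (hsub i (Finset.mem_range.mp hi))), Finset.sum_const, Finset.card_range,
    nsmul_eq_mul]

/-- The ring of coarse vectors of length `R`. -/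
noncomputable def ring (R : ℕ) : Finset Vtx :=
  (Finset.Icc (-(R:ℤ)) R ×ˢ Finset.Icc (-(R:ℤ)) R).filter (fun w => bdd 0 w = R)

theorem mem_ring {R : ℕ} {w : Vtx} : w ∈ ring R ↔ bdd 0 w = R := by
  unfold ring
  rw [Finset.mem_filter, Finset.mem_product, Finset.mem_Icc, Finset.mem_Icc]
  constructor
  · exact fun h => h.2
  · intro h
    have := (bdd_le (a := 0) (b := w)).mp h.le
    simp only [Prod.fst_zero, Prod.snd_zero] at this
    exact ⟨by omega, h⟩

theorem card_ring (R : ℕ) : (ring R).card ≤ (2 * R + 1) ^ 2 := by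
  unfold ring
  refine (Finset.card_filter_le _ _).trans ?_
  rw [Finset.card_product, Int.card_Icc, sq]
  have : ((R:ℤ) + 1 - -R).toNat = 2 * R + 1 := by omega
  rw [this]

/-- Pigeonhole for decreasing sequences. -/
theorem pigeon {ι : Type*} (I : Finset ι) (e : ℕ → ι → ℝ) (hdec : ∀ j, ∀ i ∈ I, e (j + 1) i ≤ e j i)
    (hpos : ∀ j, ∀ i ∈ I, 0 ≤ e j i) {c η : ℝ} (hη : 0 < η) (h0 : ∀ i ∈ I, e 0 i ≤ c) {J : ℕ}
    (hJ : I.card * c < J * η) : ∃ j < J, ∀ i ∈ I, e j i - e (j + 1) i ≤ η := by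
  by_contra hcon
  push Not at hcon
  have h1 : ∀ n ≤ J, n * η ≤ ∑ i ∈ I, (e 0 i - e n i) := by
    intro n
    induction n with
    | zero => intro _; simp
    | succ n ih =>
      intro hn
      have ih' := ih (by omega)
      obtain ⟨i, hi, hi2⟩ := hcon n (by omega)
      have h2 : ∑ i ∈ I, (e 0 i - e (n + 1) i) =
          ∑ i ∈ I, (e 0 i - e n i) + ∑ i ∈ I, (e n i - e (n + 1) i) := by
        rw [← Finset.sum_add_distrib]
        apply Finset.sum_congr rfl
        intros; ring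
      have h3 : η ≤ ∑ i ∈ I, (e n i - e (n + 1) i) :=
        hi2.le.trans (Finset.single_le_sum (f := fun i => e n i - e (n + 1) i)
          (fun i hi => by have := hdec n i hi; linarith) hi)
      rw [h2]
      push_cast
      linarith
  have h2 := h1 J le_rfl
  have h3 : ∑ i ∈ I, (e 0 i - e J i) ≤ ∑ i ∈ I, c :=
    Finset.sum_le_sum (fun i hi => by have := h0 i hi; have := hpos J i hi; linarith)
  rw [Finset.sum_const, nsmul_eq_mul] at h3
  linarith

/-- **A good scale.** -/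
theorem good_scale {δ : ℝ} (hδ : 0 < δ) (hδ1 : δ ≤ 1) {R : ℕ} (hR : 4 ≤ R) {s0 : ℕ} (hs0 : 1 ≤ s0)
    {ρ : ℝ} (hρ : 0 < ρ) : ∃ Smax : ℕ, ∀ q : ℝ, 0 ≤ q → q ≤ 1 → ∀ l : ℤ, 0 < l →
      δ ≤ hh q (3 * l) l → ∃ s : ℕ, s0 ≤ s ∧ s ≤ Smax ∧ ∀ w ∈ ring R,
        Pr (fun _ => q) (bx l 0 (((R + 3) * s : ℕ))) (fun G =>
          (lk l (bx l 0 (((R + 3) * s : ℕ))) 0 (sm s w) G : ℝ) ≤
            EL q l (((R + 3) * s : ℕ)) (sm s w) - s) ≤ ρ := by
  have hV := V0_pos hδ
  obtain ⟨η, hη⟩ : ∃ η : ℝ, η = ρ / 3 := ⟨_, rfl⟩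
  have hη0 : 0 < η := by rw [hη]; positivity
  -- the factor `k`
  obtain ⟨k, hk⟩ : ∃ k : ℕ, 25 * (R:ℝ) ^ 2 * V0 δ / η ^ 2 < k := exists_nat_gt _
  have hRr : (4:ℝ) ≤ R := by exact_mod_cast hR
  have hk0 : (0:ℝ) < k := lt_of_le_of_lt (by positivity) hk
  have hk1 : 1 ≤ k := by exact_mod_cast Nat.one_le_iff_ne_zero.mpr (by rintro rfl; simp at hk0)
  obtain ⟨J, hJ⟩ : ∃ J : ℕ, ((ring R).card : ℝ) * (5 * R * V0 δ) / η < J := exists_nat_gt _
  rw [div_lt_iff₀ hη0] at hJ
  refine ⟨s0 * k ^ J, ?_⟩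
  intro q h0 h1 l hl hh1
  obtain ⟨e, he⟩ : ∃ e : ℕ → Vtx → ℝ, e = fun j w =>
    EL q l (((R + 3) * (s0 * k ^ j) : ℕ)) (sm ((s0 * k ^ j : ℕ)) w) / ((s0 * k ^ j : ℕ):ℝ) :=
    ⟨_, rfl⟩
  have hsk : ∀ j, 1 ≤ s0 * k ^ j := fun j => Nat.one_le_iff_ne_zero.mpr (by positivity)
  have hsucc : ∀ j, s0 * k ^ (j + 1) = k * (s0 * k ^ j) := fun j => by rw [pow_succ]; ring
  obtain ⟨j, hjJ, hj⟩ := pigeon (ring R) e (c := 5 * R * V0 δ) (η := η) (J := J) (by
    intro j w hw
    rw [mem_ring] at hw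
    rw [he]
    simp only
    have h2 := EL_mul h0 h1 hl hR (hsk j) hk1 hw
    rw [hsucc]
    have h3 : (0:ℝ) < ((s0 * k ^ j : ℕ):ℝ) := by exact_mod_cast hsk j
    rw [div_le_div_iff₀ (by push_cast at h3 ⊢; positivity) h3]
    have h4 : ((k * (s0 * k ^ j) : ℕ) : ℝ) = k * ((s0 * k ^ j : ℕ):ℝ) := by push_cast; ring
    rw [h4]
    calc EL q l (((R + 3) * (k * (s0 * k ^ j)) : ℕ)) (sm ((k * (s0 * k ^ j) : ℕ)) w) *
          ((s0 * k ^ j : ℕ):ℝ)
        ≤ (k * EL q l (((R + 3) * (s0 * k ^ j) : ℕ)) (sm ((s0 * k ^ j : ℕ)) w)) *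
          ((s0 * k ^ j : ℕ):ℝ) := mul_le_mul_of_nonneg_right h2 h3.le
      _ = _ := by ring) (by
    intro j w _
    rw [he]
    exact div_nonneg (EL_nonneg h0 h1 _ _ _) (Nat.cast_nonneg _)) hη0 (by
    intro w hw
    rw [mem_ring] at hw
    rw [he]
    simp only [pow_zero, mul_one]
    have hs0' : (1:ℝ) ≤ s0 := by exact_mod_cast hs0
    rw [div_le_iff₀ (by linarith)]
    refine (EL_le h0 h1 hl hδ hδ1 hh1 (n := R * s0) ?_ ?_).trans ?_
    · rw [bdd_zero_sm, hw, abs_of_nonneg (by positivity)]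
      push_cast
      rw [mul_comm]
    · have : R * s0 + 1 ≤ (R + 3) * s0 := by nlinarith
      exact_mod_cast this
    · push_cast
      have : 4 * ((R:ℝ) * s0) + 1 ≤ 5 * R * s0 := by nlinarith
      calc (4 * ((R:ℝ) * s0) + 1) * V0 δ ≤ (5 * R * s0) * V0 δ :=
            mul_le_mul_of_nonneg_right this hV.le
        _ = _ := by ring) hJ
  refine ⟨s0 * k ^ (j + 1), ?_, ?_, ?_⟩
  · exact Nat.le_mul_of_pos_right _ (by positivity)
  · exact Nat.mul_le_mul_left _ (Nat.pow_le_pow_right hk1 (by omega))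
  · intro w hw
    have hd := hj w hw
    rw [mem_ring] at hw
    obtain ⟨s, hs⟩ : ∃ s : ℕ, s = s0 * k ^ j := ⟨_, rfl⟩
    rw [he] at hd
    simp only [hsucc, ← hs] at hd
    rw [hsucc, ← hs]
    have hs1 : 1 ≤ s := by rw [hs]; exact hsk j
    have hsr : (1:ℝ) ≤ s := by exact_mod_cast hs1
    obtain ⟨m1, hm1⟩ : ∃ m1, m1 = EL q l (((R + 3) * s : ℕ)) (sm s w) := ⟨_, rfl⟩
    obtain ⟨m2, hm2⟩ : ∃ m2, m2 = EL q l (((R + 3) * (k * s) : ℕ)) (sm ((k * s : ℕ)) w) :=
      ⟨_, rfl⟩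
    rw [← hm1, ← hm2] at hd
    have hks : ((k * s : ℕ) : ℝ) = k * s := by push_cast; ring
    rw [hks] at hd
    have hadd : k * m1 - η * (k * s) ≤ m2 := by
      have h2 : m1 / s - m2 / (k * s) = (k * m1 - m2) / (k * s) := by field_simp
      rw [h2, div_le_iff₀ (by positivity)] at hd
      linarith
    have h3 := conc_step h0 h1 hl hδ hδ1 hh1 hR hs1 hk1 hw (e := η * (k * s))
      (lam := η * (k * s)) (t := ((k * s : ℕ):ℝ)) (by positivity) (by rw [← hm1, ← hm2]; exact hadd)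
      (by positivity) (by rw [hks]; positivity)
    refine h3.trans ?_
    rw [hks, div_le_iff₀ (by positivity)]
    have h4 : (k:ℝ) * ((4 * ((R * s : ℕ):ℝ) + 1) ^ 2 * V0 δ) / (η * (k * s)) ≤ η * (k * s) := by
      rw [div_le_iff₀ (by positivity)]
      rw [div_lt_iff₀ (by positivity)] at hk
      push_cast
      have h5 : (4 * ((R:ℝ) * s) + 1) ^ 2 ≤ (5 * R * s) ^ 2 := by
        apply pow_le_pow_left₀ (by positivity)
        nlinarith
      have h6 : (4 * ((R:ℝ) * s) + 1) ^ 2 * V0 δ ≤ (k * η ^ 2) * s ^ 2 := by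
        calc (4 * ((R:ℝ) * s) + 1) ^ 2 * V0 δ ≤ (5 * R * s) ^ 2 * V0 δ :=
              mul_le_mul_of_nonneg_right h5 hV.le
          _ = (25 * (R:ℝ) ^ 2 * V0 δ) * s ^ 2 := by ring
          _ ≤ _ := mul_le_mul_of_nonneg_right hk.le (by positivity)
      calc (k:ℝ) * ((4 * ((R:ℝ) * s) + 1) ^ 2 * V0 δ) ≤ k * ((k * η ^ 2) * s ^ 2) :=
            mul_le_mul_of_nonneg_left h6 hk0.le
        _ = _ := by ring
    have h5 : ρ * (k * s) = η * (k * s) + η * (k * s) + η * (k * s) := by rw [hη]; ring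
    rw [h5]
    linarith

end Pool.Agent.Helper59_BN
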