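import Pool.Agent.Helper59_BN.LowerDet
import Pool.Agent.Helper59_BN.AE

/-!
Almost sure lower bound of the passage times by the mean link cost of one finite box.
-/

namespace Pool.Agent.Helper59_BN

open H974 MeasureTheory Filter

theorem blk_near {L : ℤ} (hL : 1 ≤ L) {f : ℤ} {b : ℝ} (hf : |(f:ℝ)| ≤ b) :
    |f / L| ≤ (⌊b / L⌋₊ : ℤ) + 1 := by
  have hb := blk_bounds (x := f) hL
  have hL0 : (0:ℝ) < L := by exact_mod_cast (by omega : 0 < L)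
  have hb0 : 0 ≤ b := (abs_nonneg _).trans hf
  have h1 : ((f / L : ℤ) : ℝ) * L ≤ f := by exact_mod_cast hb.1
  have h2 : (f:ℝ) ≤ ((f / L : ℤ) : ℝ) * L + L - 1 := by exact_mod_cast hb.2
  have h3 := abs_le.mp hf
  have h4 : (⌊b / L⌋₊ : ℤ) = ⌊b / L⌋ := Int.natCast_floor_eq_floor (by positivity)
  rw [h4, abs_le]
  constructor
  · have h5 : -(f / L) - 1 ≤ ⌊b / L⌋ := by
      apply Int.le_floor.mpr
      rw [le_div_iff₀ hL0]
      push_cast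
      nlinarith
    omega
  · have h5 : f / L ≤ ⌊b / L⌋ := by
      apply Int.le_floor.mpr
      rw [le_div_iff₀ hL0]
      linarith
    omega

theorem disp_near {s l R : ℕ} (hs : 1 ≤ s) (hl : 1 ≤ l) {n θ xi : ℝ} {f g κ0 κJ : ℤ}
    (h0 : κ0 = f / ((s:ℤ) * l)) (hJ : |κJ - g / ((s:ℤ) * l)| ≤ R - 1) (hf : |(f:ℝ)| ≤ θ * n)
    (hg : |(g:ℝ) - n * xi| ≤ θ * n) (hbig : ((R:ℝ) + 1) * s ≤ θ * (n / l)) :
    |(s:ℝ) * ((κJ:ℝ) - κ0) - n / l * xi| ≤ 3 * θ * (n / l) := by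
  have hl0 : (0:ℝ) < l := by exact_mod_cast hl
  have hs0 : (0:ℝ) < s := by exact_mod_cast hs
  have hL : (1:ℤ) ≤ (s:ℤ) * l := by
    have : 1 ≤ s * l := Nat.one_le_iff_ne_zero.mpr (by positivity)
    exact_mod_cast this
  have b1 := blk_bounds (x := f) hL
  have b2 := blk_bounds (x := g) hL
  rw [← h0] at b1
  obtain ⟨G, hG⟩ : ∃ G, G = g / ((s:ℤ) * l) := ⟨_, rfl⟩
  rw [← hG] at b2 hJ
  have c1 : (κ0:ℝ) * (s * l) ≤ f := by exact_mod_cast b1.1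
  have c2 : (f:ℝ) ≤ κ0 * (s * l) + s * l - 1 := by exact_mod_cast b1.2
  have c3 : (G:ℝ) * (s * l) ≤ g := by exact_mod_cast b2.1
  have c4 : (g:ℝ) ≤ G * (s * l) + s * l - 1 := by exact_mod_cast b2.2
  have c5 : |(κJ:ℝ) - G| ≤ R - 1 := by exact_mod_cast hJ
  have c6 := abs_le.mp c5
  have c7 := abs_le.mp hf
  have c8 := abs_le.mp hg
  have hsl : (0:ℝ) < s * l := by positivity
  have c9 : ((κJ:ℝ) - G) * (s * l) ≤ (R - 1) * (s * l) :=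
    mul_le_mul_of_nonneg_right c6.2 hsl.le
  have c10 : -((R:ℝ) - 1) * (s * l) ≤ ((κJ:ℝ) - G) * (s * l) :=
    mul_le_mul_of_nonneg_right c6.1 hsl.le
  have c11 : ((R:ℝ) + 1) * s * l ≤ θ * n := by
    have := mul_le_mul_of_nonneg_right hbig hl0.le
    calc ((R:ℝ) + 1) * s * l ≤ θ * (n / l) * l := this
      _ = _ := by field_simp
  have e1 : (s:ℝ) * ((κJ:ℝ) - κ0) - n / l * xi =
      (((κJ:ℝ) * (s * l) - κ0 * (s * l)) - n * xi) / l := by field_simp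
  have e2 : 3 * θ * (n / l) = (3 * (θ * n)) / l := by ring
  rw [e1, e2, abs_div, abs_of_pos hl0]
  apply div_le_div_of_nonneg_right _ hl0.le
  rw [abs_le]
  constructor <;> nlinarith

theorem lower_core {δ : ℝ} (hδ : 0 < δ) (hδ1 : δ ≤ 1) {B : ℕ} (hB : 1 ≤ B) :
    ∃ K : ℕ, ∀ ε : ℝ, 0 < ε → ∃ (M0 : ℕ) (θ : ℝ), 0 < θ ∧ ∀ (p : unitInterval) (l : ℕ), 1 ≤ l →
      δ ≤ hh (1 - (p:ℝ)) (3 * (l:ℤ)) l →
      4 * hh (1 - (p:ℝ)) ((B:ℤ) * l) (3 * ((B:ℤ) * l) - 1) ≤ 1 / (2 * 50 ^ 18) →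
      ∀ M : ℕ, M0 ≤ M → ∀ x : ℝ × ℝ, ‖x‖ = 1 →
      ∀ᵐ ω ∂bondLaw p, ∀ᶠ n : ℕ in atTop, ∀ (f g : Vtx) (k : ℕ),
        |(f.1:ℝ)| ≤ θ * n → |(f.2:ℝ)| ≤ θ * n → |(g.1:ℝ) - n * x.1| ≤ θ * n →
        |(g.2:ℝ) - n * x.2| ≤ θ * n → DC (opn ω)ᶜ (opn ω) f g k →
          (n:ℝ) / l * (EL (1 - (p:ℝ)) l (((K + 3) * M : ℕ)) (flr x M) / M - ε) ≤ k := by
  have hV := V0_pos hδ
  obtain ⟨V, hVd⟩ : ∃ V, V = V0 δ := ⟨_, rfl⟩
  have hBr : (1:ℝ) ≤ B := by exact_mod_cast hB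
  obtain ⟨c0, hc0⟩ : ∃ c0 : ℝ, c0 = 1 / (13 * B) := ⟨_, rfl⟩
  have hc0p : 0 < c0 := by rw [hc0]; positivity
  obtain ⟨K, hK⟩ : ∃ K : ℕ, K = ⌈36 * V / c0⌉₊ + 1 := ⟨_, rfl⟩
  have hK1 : 36 * V / c0 + 1 ≤ K := by
    rw [hK]; push_cast
    have := Nat.le_ceil (36 * V / c0)
    linarith
  refine ⟨K, fun ε hε => ?_⟩
  obtain ⟨a, ha⟩ := pow_unbounded_of_one_lt (2 * (1 + 1 / δ)) (show 1 < 1 + δ by linarith)
  obtain ⟨D, hD⟩ : ∃ D : ℕ, D = 1 + 264 * a := ⟨_, rfl⟩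
  obtain ⟨R, hR⟩ : ∃ R : ℕ, R = ⌈2 * (D:ℝ) / c0⌉₊ + ⌈4 * (K:ℝ) * D / ε⌉₊ + 4 := ⟨_, rfl⟩
  have hR4 : 4 ≤ R := by omega
  have hR1 : 2 * (D:ℝ) ≤ c0 * R := by
    have h1 := Nat.le_ceil (2 * (D:ℝ) / c0)
    have h2 : (⌈2 * (D:ℝ) / c0⌉₊ : ℝ) ≤ R := by rw [hR]; exact_mod_cast (by omega)
    rw [mul_comm c0, ← div_le_iff₀ hc0p]
    exact h1.trans h2
  have hR2 : 4 * (K:ℝ) * D ≤ ε * R := by
    have h1 := Nat.le_ceil (4 * (K:ℝ) * D / ε)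
    have h2 : (⌈4 * (K:ℝ) * D / ε⌉₊ : ℝ) ≤ R := by rw [hR]; exact_mod_cast (by omega)
    rw [mul_comm ε, ← div_le_iff₀ hε]
    exact h1.trans h2
  obtain ⟨T, hT⟩ : ∃ T : ℕ, T = ⌈20 * V * (2 * R + 4) ^ 2 / c0⌉₊ +
    ⌈20 * V * (2 * R + 4) ^ 2 * K / ε⌉₊ + 1 := ⟨_, rfl⟩
  have hT1 : 1 ≤ T := by omega
  have hTa : 20 * V * (2 * R + 4) ^ 2 ≤ c0 * T := by
    have h1 := Nat.le_ceil (20 * V * (2 * R + 4) ^ 2 / c0)
    have h2 : (⌈20 * V * (2 * R + 4) ^ 2 / c0⌉₊ : ℝ) ≤ T := by rw [hT]; exact_mod_cast (by omega)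
    rw [mul_comm c0, ← div_le_iff₀ hc0p]
    exact h1.trans h2
  have hTb : 20 * V * (2 * R + 4) ^ 2 * K ≤ ε * T := by
    have h1 := Nat.le_ceil (20 * V * (2 * R + 4) ^ 2 * K / ε)
    have h2 : (⌈20 * V * (2 * R + 4) ^ 2 * K / ε⌉₊ : ℝ) ≤ T := by
      rw [hT]; exact_mod_cast (by omega)
    rw [mul_comm ε, ← div_le_iff₀ hε]
    exact h1.trans h2
  obtain ⟨b, hb⟩ : ∃ b : ℝ, b = (2 * (R:ℝ) + 1) ^ 2 := ⟨_, rfl⟩
  have hb0 : 0 < b := by rw [hb]; positivity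
  obtain ⟨ρ', hρ'⟩ : ∃ ρ' : ℝ, ρ' = (1 / (4 * b)) ^ T := ⟨_, rfl⟩
  have hρ'0 : 0 < ρ' := by rw [hρ']; positivity
  obtain ⟨ρ, hρ⟩ : ∃ ρ : ℝ, ρ = ρ' / (2 * b) := ⟨_, rfl⟩
  have hρ0 : 0 < ρ := by rw [hρ]; positivity
  obtain ⟨s1, hs1⟩ := exists_pow_lt_of_lt_one (show 0 < ρ / 88 by positivity)
    (show (1/2:ℝ) < 1 by norm_num)
  obtain ⟨Smax, hSmax⟩ := good_scale hδ hδ1 hR4 (s0 := max s1 (1000 * B)) (by omega) hρ0
  obtain ⟨θ, hθ⟩ : ∃ θ : ℝ, θ = min (1/3) (ε / (48 * V)) := ⟨_, rfl⟩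
  have hV' : 0 < V := by rw [hVd]; exact hV
  have hθ0 : 0 < θ := by rw [hθ]; positivity
  have hθ3 : θ ≤ 1/3 := by rw [hθ]; exact min_le_left _ _
  have hθV : 16 * V * (3 * θ) ≤ ε := by
    have : θ ≤ ε / (48 * V) := by rw [hθ]; exact min_le_right _ _
    rw [le_div_iff₀ (by positivity)] at this
    linarith
  obtain ⟨M0, hM0⟩ : ∃ M0 : ℕ, M0 = ((2 * R + 1) ^ 2 * (Smax * R) + (R + 3) * Smax + 3) +
    ⌈4 * V * (4 * ((2 * R + 1) ^ 2 * (Smax * R) + 2) + 2) / ε⌉₊ := ⟨_, rfl⟩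
  refine ⟨M0, θ, hθ0, ?_⟩
  intro p l hl1 hh1 hblk M hM x hx
  obtain ⟨q, hq⟩ : ∃ q : ℝ, q = 1 - (p:ℝ) := ⟨_, rfl⟩
  rw [← hq] at hh1 hblk ⊢
  have h0 : 0 ≤ q := by have := p.2.2; rw [hq]; linarith
  have h1 : q ≤ 1 := by have := p.2.1; rw [hq]; linarith
  have hl : (0:ℤ) < l := by exact_mod_cast hl1
  have hlr : (1:ℝ) ≤ l := by exact_mod_cast hl1
  have hh2 : δ ≤ hh q (2 * (l:ℤ)) l :=
    hh1.trans (hh_mono h0 h1 (by omega) (by omega) le_rfl)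
  obtain ⟨s, hs0, hsS, hconc⟩ := hSmax q h0 h1 l hl hh1
  have hs1' : s1 ≤ s := le_trans (le_max_left _ _) hs0
  have hs2' : 1000 * B ≤ s := le_trans (le_max_right _ _) hs0
  have hs : 1 ≤ s := by omega
  have hsr : (1:ℝ) ≤ s := by exact_mod_cast hs
  have hRr : (4:ℝ) ≤ R := by exact_mod_cast hR4
  have hTr : (1:ℝ) ≤ T := by exact_mod_cast hT1
  -- the means
  have hnorm : ∀ w ∈ ring R, bdd 0 (sm s w) = ((R * s : ℕ) : ℤ) := by
    intro w hw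
    rw [mem_ring] at hw
    rw [bdd_zero_sm, hw, abs_of_nonneg (by positivity)]
    push_cast; ring
  have hrs : ((R * s : ℕ) : ℤ) + 1 ≤ (((R + 3) * s : ℕ) : ℤ) := by
    have : R * s + 1 ≤ (R + 3) * s := by nlinarith
    exact_mod_cast this
  have hlow : ∀ w ∈ ring R, c0 * ((R:ℝ) * s) ≤ EL q l (((R + 3) * s : ℕ)) (sm s w) := by
    intro w hw
    have h2 := EL_lower h0 h1 hl hB hblk (z := sm s w) (r := (((R + 3) * s : ℕ)))
      (by rw [hnorm w hw]; exact hrs) (by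
        rw [hnorm w hw]
        have : 1000 * B ≤ R * s := by nlinarith
        exact_mod_cast this)
    rw [hnorm w hw] at h2
    refine le_trans (le_of_eq ?_) h2
    rw [hc0]
    push_cast
    ring
  have hup : ∀ w ∈ ring R, EL q l (((R + 3) * s : ℕ)) (sm s w) ≤ 5 * R * s * V := by
    intro w hw
    refine (EL_le h0 h1 hl hδ hδ1 hh1 (n := R * s) (hnorm w hw).le hrs).trans ?_
    rw [← hVd]
    push_cast
    have : 4 * ((R:ℝ) * s) + 1 ≤ 5 * R * s := by nlinarith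
    exact mul_le_mul_of_nonneg_right this hV'.le
  -- the events
  obtain ⟨α, hα⟩ : ∃ α : ℝ, α = 36 * V / c0 / (T * (R * s)) / l := ⟨_, rfl⟩
  have hα0 : 0 < α := by rw [hα]; positivity
  obtain ⟨m, hm⟩ : ∃ m : ℕ → ℕ, m = fun n : ℕ => ⌈α * n⌉₊ := ⟨_, rfl⟩
  obtain ⟨r, hr⟩ : ∃ r : ℕ → ℕ, r = fun n : ℕ => ⌊θ * n / ((s:ℤ) * l : ℤ)⌋₊ + 1 := ⟨_, rfl⟩
  have hev := fun n : ℕ => peierls_R (D := D) hl (show 1 ≤ R by omega) hs
    (Finset.Icc (-(r n:ℤ)) (r n) ×ˢ Finset.Icc (-(r n:ℤ)) (r n)) T (m n) q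
  choose U Q hUQ hle using hev
  have hbadpr : ∀ (κ : Vtx) (U : Finset Edg), bx l (sm s κ) (((R + 3) * s : ℕ)) ⊆ U →
      Pr (fun _ => q) U (BadB q l R s D κ) ≤ ρ' := by
    intro κ U hU
    rw [hD]
    refine (pr_BadB h0 h1 hl hδ hδ1 hh2 hR4 hs ha.le hconc κ hU).trans ?_
    have h2 : 88 * ((1:ℝ)/2) ^ (3 * s) ≤ ρ := by
      have h3 : ((1:ℝ)/2) ^ (3 * s) ≤ (1/2) ^ s1 :=
        pow_le_pow_of_le_one (by norm_num) (by norm_num) (by omega)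
      linarith
    have h3 : ((2 * R + 1 : ℕ) : ℝ) ^ 2 = b := by rw [hb]; push_cast; ring
    rw [h3]
    calc b * (ρ + 88 * (1/2) ^ (3 * s)) ≤ b * (ρ + ρ) :=
          mul_le_mul_of_nonneg_left (by linarith) hb0.le
      _ = ρ' := by rw [hρ]; field_simp; ring
  obtain ⟨ρ0, hρ0d⟩ : ∃ ρ0 : ℝ, ρ0 = (1/2 : ℝ) ^ α := ⟨_, rfl⟩
  have hρ00 : 0 < ρ0 := by rw [hρ0d]; positivity
  have hρ01 : ρ0 < 1 := by
    rw [hρ0d]; exact Real.rpow_lt_one (by norm_num) (by norm_num) hα0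
  have hsum : Summable (fun n : ℕ => 16 * (K + T + 1) * (2 * (R:ℝ) + 4) ^ 2 *
      ((n:ℝ) ^ 3 * ρ0 ^ n)) := by
    apply Summable.mul_left
    exact summable_pow_mul_geometric_of_norm_lt_one 3 (by
      rw [Real.norm_of_nonneg hρ00.le]; exact hρ01)
  have hmlow : ∀ n : ℕ, α * n ≤ m n := fun n => by rw [hm]; exact Nat.le_ceil _
  have hmup : ∀ n : ℕ, (m n : ℝ) ≤ α * n + 1 := fun n => by
    rw [hm]; exact (Nat.ceil_lt_add_one (by positivity)).le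
  have hBC := borel_cantelli p U Q _ hsum 1 (by
    intro n hn
    have hnr : (1:ℝ) ≤ n := by exact_mod_cast hn
    have h2 := hle n ρ' h0 h1 hρ'0.le hbadpr
    rw [← hq]
    refine h2.trans ?_
    have hcard : ((Finset.Icc (-(r n:ℤ)) (r n) ×ˢ Finset.Icc (-(r n:ℤ)) (r n)).card : ℝ) ≤
        16 * (n:ℝ) ^ 2 := by
      rw [Finset.card_product, Int.card_Icc]
      have h3 : ((r n : ℤ) + 1 - -(r n:ℤ)).toNat = 2 * r n + 1 := by omega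
      rw [h3]
      have h4 : (r n : ℝ) ≤ n / 3 + 1 := by
        rw [hr]
        push_cast
        have h5 : (⌊θ * (n:ℝ) / ((s:ℝ) * l)⌋₊ : ℝ) ≤ θ * n / (s * l) :=
          Nat.floor_le (by positivity)
        have h6 : θ * (n:ℝ) / (s * l) ≤ n / 3 := by
          rw [div_le_iff₀ (by positivity)]
          have h7 : (1:ℝ) ≤ s * l := by nlinarith
          calc θ * (n:ℝ) ≤ 1/3 * n := mul_le_mul_of_nonneg_right hθ3 (by positivity)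
            _ ≤ 1/3 * n * (s * l) := by
                apply le_mul_of_one_le_right (by positivity) h7
            _ = _ := by ring
        linarith
      push_cast
      have h5 : 2 * (r n : ℝ) + 1 ≤ 4 * n := by linarith
      have h6 : (0:ℝ) ≤ 2 * (r n : ℝ) + 1 := by positivity
      nlinarith
    have hTm : ((T * m n + 1 : ℕ) : ℝ) ≤ (K + T + 1) * n := by
      push_cast
      have h3 : (T:ℝ) * m n ≤ T * (α * n + 1) :=
        mul_le_mul_of_nonneg_left (hmup n) (by positivity)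
      have h4 : (T:ℝ) * α ≤ K := by
        rw [hα]
        have h5 : (T:ℝ) * (36 * V / c0 / (T * (R * s)) / l) = 36 * V / c0 / (R * s * l) := by
          field_simp
        rw [h5]
        have h6 : (1:ℝ) ≤ R * s * l := by
          have : (1:ℝ) ≤ R * s := by nlinarith
          nlinarith
        refine (div_le_self (by positivity) h6).trans ?_
        linarith
      have h5 : (T:ℝ) * (α * n) ≤ K * n := by
        calc (T:ℝ) * (α * n) = (T * α) * n := by ring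
          _ ≤ _ := mul_le_mul_of_nonneg_right h4 (by positivity)
      nlinarith
    have hpow : ((2 * (2 * R + 1) ^ 2 : ℕ) : ℝ) ^ (T * m n) * ρ' ^ (m n) ≤ ρ0 ^ n := by
      have h3 : ((2 * (2 * R + 1) ^ 2 : ℕ) : ℝ) = 2 * b := by rw [hb]; push_cast; ring
      rw [h3, hρ', ← pow_mul, ← mul_pow]
      have h4 : 2 * b * (1 / (4 * b)) = 1/2 := by field_simp; norm_num
      rw [h4]
      calc ((1:ℝ)/2) ^ (T * m n) ≤ (1/2) ^ (m n) :=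
            pow_le_pow_of_le_one (by norm_num) (by norm_num) (Nat.le_mul_of_pos_left _ hT1)
        _ = ((1:ℝ)/2) ^ ((m n : ℕ) : ℝ) := (Real.rpow_natCast _ _).symm
        _ ≤ ((1:ℝ)/2) ^ (α * n) :=
            Real.rpow_le_rpow_of_exponent_ge (by norm_num) (by norm_num) (hmlow n)
        _ = ρ0 ^ n := by rw [hρ0d, Real.rpow_mul (by norm_num), Real.rpow_natCast]
    have hcR : (((2 * R + 4) ^ 2 : ℕ) : ℝ) = (2 * (R:ℝ) + 4) ^ 2 := by push_cast; ring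
    rw [hcR]
    calc ((Finset.Icc (-(r n:ℤ)) (r n) ×ˢ Finset.Icc (-(r n:ℤ)) (r n)).card : ℝ) *
          ((T * m n + 1 : ℕ) * ((2 * (R:ℝ) + 4) ^ 2 *
          (((2 * (2 * R + 1) ^ 2 : ℕ) : ℝ) ^ (T * m n) * ρ' ^ m n)))
        ≤ (16 * (n:ℝ) ^ 2) * (((K + T + 1) * n) * ((2 * (R:ℝ) + 4) ^ 2 * ρ0 ^ n)) := by
          gcongr
      _ = _ := by ring)
  have hlarge1 : ∀ᶠ n : ℕ in atTop, (l:ℝ) * (T * (R * s)) ≤ n :=
    tendsto_natCast_atTop_atTop.eventually_ge_atTop _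
  have hlarge2 : ∀ᶠ n : ℕ in atTop, (l:ℝ) * (((R:ℝ) + 1) * s / θ) ≤ n :=
    tendsto_natCast_atTop_atTop.eventually_ge_atTop _
  filter_upwards [hBC] with ω hω
  filter_upwards [hω, hlarge1, hlarge2, eventually_ge_atTop 1] with n hn hn1 hn2 hn3
  intro f g k hf1 hf2 hg1 hg2 hd
  have hnr : (1:ℝ) ≤ n := by exact_mod_cast hn3
  have hL : (1:ℤ) ≤ (s:ℤ) * l := by
    have : 1 ≤ s * l := Nat.one_le_iff_ne_zero.mpr (by positivity)
    exact_mod_cast this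
  obtain ⟨ν, hν⟩ : ∃ ν : ℝ, ν = n / l := ⟨_, rfl⟩
  have hν0 : 0 < ν := by rw [hν]; positivity
  have hν1 : (T:ℝ) * (R * s) ≤ ν := by
    rw [hν, le_div_iff₀ (by positivity)]; linarith
  have hν2 : ((R:ℝ) + 1) * s ≤ θ * ν := by
    have h2 : ((R:ℝ) + 1) * s / θ ≤ ν := by
      rw [hν, le_div_iff₀ (by positivity)]; linarith
    rw [div_le_iff₀ hθ0] at h2
    linarith
  obtain ⟨J, κ, k1, k2, k3, k4, k5⟩ := hUQ n ω hn f g k (by
    rw [Finset.mem_product, Finset.mem_Icc, Finset.mem_Icc]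
    have hr' : (r n : ℤ) = (⌊θ * n / ((s:ℤ) * l : ℤ)⌋₊ : ℤ) + 1 := by rw [hr]; push_cast; rfl
    have i1 := abs_le.mp (blk_near hL hf1)
    have i2 := abs_le.mp (blk_near hL hf2)
    rw [← hr'] at i1 i2
    exact ⟨i1, i2⟩) hd (5 * R * s * V) hup (by positivity)
  have hαν : α * n = 36 * V / c0 / (T * (R * s)) * ν := by rw [hα, hν]; ring
  rw [← hν]
  refine lower_det h0 h1 hl hδ hδ1 hh1 (D := D) (T := T) (m := m n) (J := J) (κ := κ)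
    (R := R) (s := s) (θ := 3 * θ) (c0 := c0) (by omega) hs hT1 hν0 (by positivity)
    (by linarith) hε hc0p hx hlow k1 k3 ?_ ?_ ?_ hR1 hR2 ?_ ?_ ?_ ?_ ?_ ?_
  · rw [← hVd]; exact k4
  · rw [← hVd]
    have h2 := hmlow n
    rw [hαν] at h2
    have h3 : 36 * V / c0 / (T * (R * s)) * ν * (T * (R * s)) ≤ m n * (T * (R * s)) :=
      mul_le_mul_of_nonneg_right h2 (by positivity)
    have h4 : 36 * V / c0 / (T * (R * s)) * ν * (T * (R * s)) = 36 * V * ν / c0 := by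
      field_simp
    rw [h4, div_le_iff₀ hc0p] at h3
    linarith
  · have h2 := hmup n
    rw [hαν] at h2
    have h3 : m n * (T * ((R:ℝ) * s)) ≤
        (36 * V / c0 / (T * (R * s)) * ν + 1) * (T * (R * s)) :=
      mul_le_mul_of_nonneg_right h2 (by positivity)
    have h4 : (36 * V / c0 / (T * (R * s)) * ν + 1) * (T * ((R:ℝ) * s)) =
        36 * V / c0 * ν + T * (R * s) := by field_simp
    have h5 : (36 * V / c0 + 1) * ν ≤ K * ν := mul_le_mul_of_nonneg_right hK1 hν0.le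
    rw [h4] at h3
    linarith
  · rw [← hVd]; exact hTa
  · rw [← hVd]; exact hTb
  · rcases k5 with k5 | k5
    · exact Or.inl k5
    · right
      have h2 : bdd (κ J) (blk (s * l) g) ≤ (R:ℤ) - 1 := by omega
      rw [bdd_le] at h2
      have h3 : (κ 0).1 = f.1 / ((s:ℤ) * l) ∧ (κ 0).2 = f.2 / ((s:ℤ) * l) := by
        rw [k2]; exact ⟨rfl, rfl⟩
      have h4 := disp_near hs hl1 (κJ := (κ J).1) h3.1 (abs_le.mpr h2.1) hf1 hg1 (by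
        rw [← hν]; exact hν2)
      have h5 := disp_near hs hl1 (κJ := (κ J).2) h3.2 (abs_le.mpr h2.2) hf2 hg2 (by
        rw [← hν]; exact hν2)
      rw [← hν] at h4 h5
      exact ⟨h4, h5⟩
  · have h2 : (2 * R + 1) ^ 2 * (s * R) ≤ (2 * R + 1) ^ 2 * (Smax * R) := by gcongr
    have h3 : (R + 3) * s ≤ (R + 3) * Smax := by gcongr
    omega
  · rw [← hVd]
    have h2 : (⌈4 * V * (4 * ((2 * R + 1) ^ 2 * (Smax * R) + 2) + 2) / ε⌉₊ : ℝ) ≤ M := by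
      have : ⌈4 * V * (4 * ((2 * R + 1) ^ 2 * (Smax * R) + 2) + 2) / ε⌉₊ ≤ M := by omega
      exact_mod_cast this
    have h3 := Nat.le_ceil (4 * V * (4 * ((2 * (R:ℝ) + 1) ^ 2 * (Smax * R) + 2) + 2) / ε)
    have h4 := h3.trans h2
    rw [div_le_iff₀ hε] at h4
    have hsS' : (s:ℝ) ≤ Smax := by exact_mod_cast hsS
    have h5 : 4 * V * (4 * ((2 * (R:ℝ) + 1) ^ 2 * (s * R) + 2) + 2) ≤
        4 * V * (4 * ((2 * (R:ℝ) + 1) ^ 2 * (Smax * R) + 2) + 2) := by gcongr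
    linarith
  · rw [← hVd]; exact hθV

end Pool.Agent.Helper59_BN
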