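import Pool.Agent.Helper59_BN.UpperCore

/-!
The tube of boxes along a direction.
-/

namespace Pool.Agent.Helper59_BN

open H974 MeasureTheory Filter

/-- The coarse sites along a direction. -/
noncomputable def bsite (x : ℝ × ℝ) (M i : ℕ) : Vtx :=
  (⌊((i * M : ℕ):ℝ) * x.1⌋, ⌊((i * M : ℕ):ℝ) * x.2⌋)

theorem floor_step (a b : ℝ) : ∃ e : ℤ, 0 ≤ e ∧ e ≤ 1 ∧ ⌊a + b⌋ - ⌊a⌋ = ⌊b⌋ + e := by
  have h1 := Int.floor_le a
  have h2 := Int.lt_floor_add_one a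
  have h3 := Int.floor_le b
  have h4 := Int.lt_floor_add_one b
  have h5 := Int.floor_le (a + b)
  have h6 := Int.lt_floor_add_one (a + b)
  refine ⟨⌊a + b⌋ - ⌊a⌋ - ⌊b⌋, ?_, ?_, by ring⟩
  · have : (⌊a⌋:ℝ) + ⌊b⌋ < ⌊a + b⌋ + 1 := by linarith
    have : ⌊a⌋ + ⌊b⌋ < ⌊a + b⌋ + 1 := by exact_mod_cast this
    omega
  · have : (⌊a + b⌋:ℝ) < ⌊a⌋ + ⌊b⌋ + 2 := by linarith
    have : ⌊a + b⌋ < ⌊a⌋ + ⌊b⌋ + 2 := by exact_mod_cast this
    omega

theorem bsite_step (x : ℝ × ℝ) (M i : ℕ) : ∃ e : Vtx, bdd 0 e ≤ 1 ∧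
    bsite x M (i + 1) - bsite x M i = flr x M + e := by
  obtain ⟨e1, h1, h2, h3⟩ := floor_step (((i * M : ℕ):ℝ) * x.1) ((M:ℝ) * x.1)
  obtain ⟨e2, k1, k2, k3⟩ := floor_step (((i * M : ℕ):ℝ) * x.2) ((M:ℝ) * x.2)
  refine ⟨(e1, e2), ?_, ?_⟩
  · rw [bdd_le]
    simp only [Prod.fst_zero, Prod.snd_zero]
    omega
  · have f1 : ((((i + 1) * M : ℕ):ℝ) * x.1) = ((i * M : ℕ):ℝ) * x.1 + (M:ℝ) * x.1 := by
      push_cast; ring
    have f2 : ((((i + 1) * M : ℕ):ℝ) * x.2) = ((i * M : ℕ):ℝ) * x.2 + (M:ℝ) * x.2 := by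
      push_cast; ring
    unfold bsite flr
    rw [f1, f2]
    exact Prod.ext h3 k3

theorem bdd_flr {x : ℝ × ℝ} (hx : ‖x‖ = 1) (M : ℕ) : bdd 0 (flr x M) ≤ M + 1 := by
  have hb := flr_bound x M
  rw [hx, mul_one] at hb
  unfold bdd
  simp only [Prod.fst_zero, Prod.snd_zero, zero_sub, abs_neg]
  apply max_le
  · have : |(((flr x M).1 : ℤ) : ℝ)| ≤ ((M + 1 : ℕ) : ℝ) := by push_cast; exact hb.1
    exact_mod_cast this
  · have : |(((flr x M).2 : ℤ) : ℝ)| ≤ ((M + 1 : ℕ) : ℝ) := by push_cast; exact hb.2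
    exact_mod_cast this

theorem bsite_far {x : ℝ × ℝ} (hx : ‖x‖ = 1) {M i j : ℕ} (hij : i ≤ j) :
    ((j - i : ℕ) : ℤ) * M - 1 ≤ bdd (bsite x M i) (bsite x M j) := by
  have hnorm : |x.1| = 1 ∨ |x.2| = 1 := by
    rw [Prod.norm_def, Real.norm_eq_abs, Real.norm_eq_abs] at hx
    rcases le_total |x.1| |x.2| with h | h
    · right; rw [max_eq_right h] at hx; exact hx
    · left; rw [max_eq_left h] at hx; exact hx
  have key : ∀ xi : ℝ, |xi| = 1 → ((j - i : ℕ) : ℤ) * M - 1 ≤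
      |⌊((i * M : ℕ):ℝ) * xi⌋ - ⌊((j * M : ℕ):ℝ) * xi⌋| := by
    intro xi hxi
    obtain ⟨a, ha⟩ : ∃ a : ℝ, a = ((i * M : ℕ):ℝ) * xi := ⟨_, rfl⟩
    obtain ⟨b, hb⟩ : ∃ b : ℝ, b = ((j * M : ℕ):ℝ) * xi := ⟨_, rfl⟩
    rw [← ha, ← hb]
    have h1 := Int.floor_le a
    have h2 := Int.lt_floor_add_one a
    have h3 := Int.floor_le b
    have h4 := Int.lt_floor_add_one b
    have h5 : |a - b| = (((j - i : ℕ) : ℤ) : ℝ) * M := by
      have : a - b = -((((j - i : ℕ) : ℤ) : ℝ) * M * xi) := by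
        rw [ha, hb]
        have : (((j - i : ℕ) : ℤ) : ℝ) = (j:ℝ) - i := by
          rw [Int.cast_natCast, Nat.cast_sub hij]
        rw [this]
        push_cast
        ring
      rw [this, abs_neg, abs_mul, hxi, mul_one, abs_of_nonneg (by positivity)]
    have h6 : |a - b| - 1 < |((⌊a⌋ - ⌊b⌋ : ℤ) : ℝ)| := by
      push_cast
      rcases abs_cases (a - b) with ⟨h, -⟩ | ⟨h, -⟩
      · rw [h]
        refine lt_of_lt_of_le ?_ (le_abs_self _)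
        linarith
      · rw [h]
        refine lt_of_lt_of_le ?_ (neg_le_abs _)
        linarith
    rw [h5] at h6
    have h7 : ((((j - i : ℕ) : ℤ) * M - 1 : ℤ) : ℝ) < ((|⌊a⌋ - ⌊b⌋| : ℤ) : ℝ) := by
      push_cast at h6 ⊢
      linarith
    exact (Int.cast_lt.mp h7).le
  unfold bdd bsite
  simp only
  rcases hnorm with h | h
  · exact (key _ h).trans (le_max_left _ _)
  · exact (key _ h).trans (le_max_right _ _)

theorem Qb_bounds {l : ℤ} {a v : Vtx} (h : v ∈ Qb l a) :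
    (a.1 * l ≤ v.1 ∧ v.1 ≤ a.1 * l + l) ∧ (a.2 * l ≤ v.2 ∧ v.2 ≤ a.2 * l + l) := by
  obtain ⟨⟨h1, h2⟩, ⟨h3, h4⟩⟩ := h
  have e1 : (a.1 + 1) * l = a.1 * l + l := by ring
  have e2 : (a.2 + 1) * l = a.2 * l + l := by ring
  omega

/-- The position of the coarse sites. -/
theorem bsite_pos {x1 : ℝ} {l M n i k : ℕ} (hl : 1 ≤ l) (_hM : 1 ≤ M) (hi : i ≤ k)
    (hk : k * (M * l) ≤ n) :
    (min 0 ⌊(n:ℝ) * x1⌋ - l ≤ ⌊((i * M : ℕ):ℝ) * x1⌋ * l) ∧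
      (⌊((i * M : ℕ):ℝ) * x1⌋ * l ≤ max 0 ⌊(n:ℝ) * x1⌋ + l) := by
  obtain ⟨a, ha⟩ : ∃ a : ℝ, a = ((i * M : ℕ):ℝ) * x1 := ⟨_, rfl⟩
  rw [← ha]
  have h1 := Int.floor_le a
  have h2 := Int.lt_floor_add_one a
  have h3 := Int.floor_le ((n:ℝ) * x1)
  have h4 := Int.lt_floor_add_one ((n:ℝ) * x1)
  have hlr : (1:ℝ) ≤ l := by exact_mod_cast hl
  have him : ((i * M : ℕ):ℝ) * l ≤ n := by
    have : i * M * l ≤ n := by
      calc i * M * l = i * (M * l) := by ring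
        _ ≤ k * (M * l) := Nat.mul_le_mul_right _ hi
        _ ≤ n := hk
    exact_mod_cast this
  have him0 : (0:ℝ) ≤ ((i * M : ℕ):ℝ) * l := by positivity
  have e1 : a * l = (((i * M : ℕ):ℝ) * l) * x1 := by rw [ha]; ring
  have g1 : (⌊a⌋:ℝ) * l ≤ a * l := mul_le_mul_of_nonneg_right h1 (by linarith)
  have g2 : a * l ≤ ⌊a⌋ * l + l := by nlinarith
  rcases le_total 0 x1 with hx | hx
  · have g3 : a * l ≤ n * x1 := by rw [e1]; exact mul_le_mul_of_nonneg_right him hx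
    have g4 : 0 ≤ a * l := by rw [e1]; positivity
    constructor
    · have : (-(l:ℤ)) ≤ ⌊a⌋ * l := by
        have : (-(l:ℝ)) ≤ ⌊a⌋ * l := by linarith
        exact_mod_cast this
      have := min_le_left 0 ⌊(n:ℝ) * x1⌋
      omega
    · have : ⌊a⌋ * (l:ℤ) ≤ ⌊(n:ℝ) * x1⌋ := by
        apply Int.le_floor.mpr
        push_cast
        linarith
      have := le_max_right 0 ⌊(n:ℝ) * x1⌋
      omega
  · have g3 : (n:ℝ) * x1 ≤ a * l := by rw [e1]; exact mul_le_mul_of_nonpos_right him hx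
    have g4 : a * l ≤ 0 := by rw [e1]; exact mul_nonpos_of_nonneg_of_nonpos him0 hx
    constructor
    · have : ⌊(n:ℝ) * x1⌋ - l ≤ ⌊a⌋ * (l:ℤ) := by
        have : (⌊(n:ℝ) * x1⌋:ℝ) - l ≤ ⌊a⌋ * l := by linarith
        exact_mod_cast this
      have := min_le_right 0 ⌊(n:ℝ) * x1⌋
      omega
    · have : ⌊a⌋ * (l:ℤ) ≤ 0 := by
        have : (⌊a⌋:ℝ) * l ≤ 0 := by linarith
        exact_mod_cast this
      have := le_max_left 0 ⌊(n:ℝ) * x1⌋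
      omega

theorem bsite_end {x1 : ℝ} (hx : |x1| ≤ 1) {l M n k : ℕ} (_hl : 1 ≤ l) (hk : k * (M * l) ≤ n)
    (hk' : n < (k + 1) * (M * l)) :
    |⌊((k * M : ℕ):ℝ) * x1⌋ * (l:ℤ) - ⌊(n:ℝ) * x1⌋| ≤ (M + 1) * l + 1 := by
  obtain ⟨a, ha⟩ : ∃ a : ℝ, a = ((k * M : ℕ):ℝ) * x1 := ⟨_, rfl⟩
  rw [← ha]
  have h1 := Int.floor_le a
  have h2 := Int.lt_floor_add_one a
  have h3 := Int.floor_le ((n:ℝ) * x1)
  have h4 := Int.lt_floor_add_one ((n:ℝ) * x1)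
  have hlr : (0:ℝ) ≤ l := Nat.cast_nonneg _
  have g1 : (⌊a⌋:ℝ) * l ≤ a * l := mul_le_mul_of_nonneg_right h1 hlr
  have g2 : a * l ≤ ⌊a⌋ * l + l := by nlinarith
  have e1 : a * l - n * x1 = (((k * (M * l) : ℕ):ℝ) - n) * x1 := by rw [ha]; push_cast; ring
  have g3 : |a * l - n * x1| ≤ M * l := by
    rw [e1, abs_mul]
    have h5 : |((k * (M * l) : ℕ):ℝ) - n| ≤ M * l := by
      have h6 : ((k * (M * l) : ℕ):ℝ) ≤ n := by exact_mod_cast hk
      have h7 : (n:ℝ) ≤ ((k * (M * l) : ℕ):ℝ) + M * l := by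
        have : n ≤ k * (M * l) + M * l := by
          have : (k + 1) * (M * l) = k * (M * l) + M * l := by ring
          omega
        exact_mod_cast this
      rw [abs_le]
      constructor <;> linarith
    calc |((k * (M * l) : ℕ):ℝ) - n| * |x1| ≤ (M * l) * 1 :=
          mul_le_mul h5 hx (abs_nonneg _) (by positivity)
      _ = _ := mul_one _
  have g4 := abs_le.mp g3
  have : |((⌊a⌋ * (l:ℤ) - ⌊(n:ℝ) * x1⌋ : ℤ) : ℝ)| ≤ (((M + 1) * l + 1 : ℤ) : ℝ) := by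
    push_cast
    rw [abs_le]
    constructor <;> linarith
  exact_mod_cast this

/-- **Upper bound.** -/
theorem upper_core {δ : ℝ} (hδ : 0 < δ) (hδ1 : δ ≤ 1) (K M : ℕ) (hM : 1 ≤ M) (p : unitInterval)
    (l : ℕ) (hl1 : 1 ≤ l) (hh1 : δ ≤ hh (1 - (p:ℝ)) (3 * (l:ℤ)) l) (x : ℝ × ℝ) (hx : ‖x‖ = 1)
    {ε : ℝ} (hε : 0 < ε) : ∃ w : ℕ, ∀ᵐ ω ∂bondLaw p, ∀ᶠ n : ℕ in atTop,
      HasPath (opn ω) (flr x n) w ((n:ℝ) / l *
        ((EL (1 - (p:ℝ)) l (((K + 3) * M : ℕ)) (flr x M) + 5 * V0 δ) / M) + ε * n) := by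
  obtain ⟨q, hq⟩ : ∃ q : ℝ, q = 1 - (p:ℝ) := ⟨_, rfl⟩
  rw [← hq] at hh1 ⊢
  have h0 : 0 ≤ q := by have := p.2.2; rw [hq]; linarith
  have h1 : q ≤ 1 := by have := p.2.1; rw [hq]; linarith
  have hl : (0:ℤ) < l := by exact_mod_cast hl1
  have hlr : (1:ℝ) ≤ l := by exact_mod_cast hl1
  have hMr : (1:ℝ) ≤ M := by exact_mod_cast hM
  have hV := V0_pos hδ
  obtain ⟨r, hr⟩ : ∃ r : ℤ, r = (((K + 3) * M : ℕ) : ℤ) + 3 := ⟨_, rfl⟩
  obtain ⟨μ, hμ⟩ : ∃ μ : ℝ, μ = EL q l (((K + 3) * M : ℕ)) (flr x M) + 5 * V0 δ := ⟨_, rfl⟩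
  rw [← hμ]
  have hEL0 := EL_nonneg h0 h1 (l:ℤ) (((K + 3) * M : ℕ)) (flr x M)
  have hμ0 : 0 < μ := by rw [hμ]; linarith
  have hMK : (M:ℤ) + 2 ≤ (((K + 3) * M : ℕ) : ℤ) := by
    have : M + 2 ≤ (K + 3) * M := by nlinarith
    exact_mod_cast this
  have hflr := bdd_flr hx M
  have hstep : ∀ i, bdd (bsite x M i) (bsite x M (i + 1)) ≤ ((M + 2 : ℕ) : ℤ) := by
    intro i
    obtain ⟨e, he1, he2⟩ := bsite_step x M i
    have h2 : bdd (bsite x M i) (bsite x M (i + 1)) =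
        bdd 0 (bsite x M (i + 1) - bsite x M i) := by
      unfold bdd
      simp only [Prod.fst_zero, Prod.snd_zero, Prod.fst_sub, Prod.snd_sub]
      congr 2 <;> ring
    rw [h2, he2]
    have h3 := bdd_triangle 0 (flr x M) (flr x M + e)
    have h4 : bdd (flr x M) (flr x M + e) = bdd 0 e := by unfold bdd; simp
    push_cast
    omega
  have hrstep : ∀ i, bdd (bsite x M i) (bsite x M (i + 1)) + 1 ≤ r := by
    intro i
    have := hstep i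
    push_cast at this
    omega
  obtain ⟨Kb, hKb⟩ : ∃ Kb : ℝ, Kb = (4 * (M + 2) + 1) * (15 * l) + μ := ⟨_, rfl⟩
  have hKb0 : 0 < Kb := by rw [hKb]; positivity
  obtain ⟨ρ, hρ0, hρ1, hlln⟩ := lln_up (E := Edg) (c := 2 * K + 15) (by omega) (μ := μ)
    (ε := ε / 2) (Kb := Kb) (by positivity) hKb0
  obtain ⟨kk, hkk⟩ : ∃ kk : ℕ → ℕ, kk = fun n => n / (M * l) := ⟨_, rfl⟩
  have hMl : 0 < M * l := by positivity
  have hkk1 : ∀ n, kk n * (M * l) ≤ n := fun n => by rw [hkk]; exact Nat.div_mul_le_self _ _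
  have hkk2 : ∀ n, n < (kk n + 1) * (M * l) := fun n => by
    rw [hkk, mul_comm]; exact Nat.lt_mul_div_succ _ hMl
  obtain ⟨T, hT⟩ : ∃ T : ℕ → Finset Edg, T = fun n =>
    (Finset.range (kk n)).biUnion (fun i => bx l (bsite x M i) r) := ⟨_, rfl⟩
  obtain ⟨Y, hY⟩ : ∃ Y : ℕ → Finset Edg → ℝ, Y = fun i G =>
    (lk l (bx l (bsite x M i) r) (bsite x M i) (bsite x M (i + 1)) G : ℝ) := ⟨_, rfl⟩
  have hpr : ∀ n, Pr (fun _ => q) (T n) (fun G => (kk n : ℝ) * (μ + ε / 2) ≤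
      ∑ i ∈ Finset.range (kk n), Y i G) ≤ ((2 * K + 15 : ℕ) : ℝ) * ρ ^ (kk n) := by
    intro n
    refine hlln (okq h0 h1) (kk n) (T n) (fun i => bx l (bsite x M i) r) Y ?_ ?_ ?_ ?_ ?_
    · intro i hi
      rw [hT]
      exact Finset.subset_biUnion_of_mem (fun i => bx l (bsite x M i) r)
        (Finset.mem_range.mpr hi)
    · intro i _ j _ hij
      apply bx_disj hl (by omega)
      refine le_trans ?_ (bsite_far hx (by omega))
      rw [hr]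
      have h2 : 2 * ((K + 3) * M + 3) + 2 + 1 ≤ (j - i) * M := by
        have h3 : 2 * K + 15 ≤ j - i := by omega
        calc 2 * ((K + 3) * M + 3) + 2 + 1 ≤ (2 * K + 15) * M := by nlinarith
          _ ≤ _ := Nat.mul_le_mul_right _ h3
      have h3 : 2 * ((((K + 3) * M : ℕ) : ℤ) + 3) + 2 + 1 ≤ ((j - i : ℕ) : ℤ) * M := by
        exact_mod_cast h2
      linarith
    · intro i _ F _
      rw [hY]
      simp only
      rw [lk_local (Finset.Subset.refl _)]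
    · intro i _ F _
      rw [hY, hKb]
      simp only
      have h2 := lk_bound hl (a := bsite x M i) (b := bsite x M (i + 1)) (r := r) (n := M + 2)
        (hstep i) (by push_cast; omega) F
      have h3 : (lk l (bx l (bsite x M i) r) (bsite x M i) (bsite x M (i + 1)) F : ℝ) ≤
          (4 * (M + 2) + 1) * (15 * l) := by exact_mod_cast h2
      have h4 : (0:ℝ) ≤ lk l (bx l (bsite x M i) r) (bsite x M i) (bsite x M (i + 1)) F :=
        Nat.cast_nonneg _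
      rw [abs_le]
      constructor <;> linarith
    · intro i hi
      obtain ⟨e, he1, he2⟩ := bsite_step x M i
      have h2 : bsite x M (i + 1) = bsite x M i + (flr x M + e) := by rw [← he2]; abel
      rw [hY]
      simp only
      rw [h2, EL_eq q _ _ (by
        rw [hT]
        exact Finset.subset_biUnion_of_mem (fun i => bx l (bsite x M i) r)
          (Finset.mem_range.mpr hi)), hμ]
      refine (EL_add h0 h1 hl (r := (((K + 3) * M : ℕ) : ℤ)) (r' := 2) (by omega) (by omega)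
        (by omega) (by omega)).trans ?_
      have h3 := EL_le h0 h1 hl hδ hδ1 hh1 (z := e) (r := 2) (n := 1) (by exact_mod_cast he1)
        (by norm_num)
      push_cast at h3
      linarith
  -- summability
  obtain ⟨ρ1, hρ1d⟩ : ∃ ρ1 : ℝ, ρ1 = ρ ^ (1 / ((M * l : ℕ):ℝ)) := ⟨_, rfl⟩
  have hMlr : (0:ℝ) < ((M * l : ℕ):ℝ) := by exact_mod_cast hMl
  have hρ10 : 0 < ρ1 := by rw [hρ1d]; positivity
  have hρ11 : ρ1 < 1 := by
    rw [hρ1d]; exact Real.rpow_lt_one hρ0.le hρ1 (by positivity)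
  have hsum : Summable (fun n : ℕ => ((2 * K + 15 : ℕ) : ℝ) / ρ * ρ1 ^ n) :=
    (summable_geometric_of_lt_one hρ10.le hρ11).mul_left _
  have hBC := borel_cantelli p T (fun n G => (kk n : ℝ) * (μ + ε / 2) ≤
      ∑ i ∈ Finset.range (kk n), Y i G) _ hsum 0 (by
    intro n _
    rw [← hq]
    refine (hpr n).trans ?_
    have h2 : ρ ^ (kk n) ≤ ρ1 ^ n / ρ := by
      have h3 : (n:ℝ) / ((M * l : ℕ):ℝ) - 1 ≤ kk n := by
        have h4 : (n:ℝ) < ((kk n : ℝ) + 1) * ((M * l : ℕ):ℝ) := by exact_mod_cast hkk2 n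
        rw [sub_le_iff_le_add, div_le_iff₀ hMlr]
        exact h4.le
      calc ρ ^ (kk n) = ρ ^ ((kk n : ℕ) : ℝ) := (Real.rpow_natCast _ _).symm
        _ ≤ ρ ^ ((n:ℝ) / ((M * l : ℕ):ℝ) - 1) :=
            Real.rpow_le_rpow_of_exponent_ge hρ0 hρ1.le h3
        _ = ρ1 ^ n / ρ := by
            rw [Real.rpow_sub hρ0, Real.rpow_one, hρ1d, ← Real.rpow_natCast
              (ρ ^ (1 / ((M * l : ℕ):ℝ))), ← Real.rpow_mul hρ0.le]
            congr 2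
            ring
    calc ((2 * K + 15 : ℕ) : ℝ) * ρ ^ (kk n) ≤ ((2 * K + 15 : ℕ) : ℝ) * (ρ1 ^ n / ρ) :=
          mul_le_mul_of_nonneg_left h2 (by positivity)
      _ = _ := by ring)
  obtain ⟨W, hW⟩ : ∃ W : ℕ, (W:ℤ) = (r + M + 10) * l + 10 := by
    refine ⟨((r + M + 10) * l + 10).toNat, Int.toNat_of_nonneg ?_⟩
    have : 0 ≤ (r + M + 10) * (l:ℤ) := mul_nonneg (by omega) hl.le
    omega
  refine ⟨W + 1, ?_⟩
  obtain ⟨cc, hcc⟩ : ∃ cc : ℕ, cc = 2 * l + 2 * ((M + 2) * l + 2) := ⟨_, rfl⟩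
  have hlarge1 : ∀ᶠ n : ℕ in atTop, (cc:ℝ) / (ε / 2) ≤ n :=
    tendsto_natCast_atTop_atTop.eventually_ge_atTop _
  filter_upwards [hBC] with ω hω
  filter_upwards [hω, hlarge1, eventually_ge_atTop (M * l)] with n hn hn1 hn2
  have hk1 : 1 ≤ kk n := by
    rw [hkk]
    exact Nat.div_pos hn2 hMl
  push Not at hn
  obtain ⟨G, hG⟩ : ∃ G, G = GG (T n) ω := ⟨_, rfl⟩
  rw [← hG] at hn
  obtain ⟨C, c1, c2, z, c3, c4⟩ := LK_chain' hl G (bsite x M) hrstep (kk n) hk1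
  obtain ⟨u, hu, hu'⟩ := c3.touch hl
  obtain ⟨v, hv, hv'⟩ := c4.touch hl
  have hb0 : bsite x M 0 = 0 := by unfold bsite; simp
  rw [hb0] at hu
  have hub := Qb_bounds hu
  have hvb := Qb_bounds hv
  simp only [Prod.fst_zero, Prod.snd_zero, zero_mul, zero_add] at hub
  obtain ⟨P, hP⟩ : ∃ P : ℤ, P = ⌊(n:ℝ) * x.1⌋ := ⟨_, rfl⟩
  obtain ⟨Q, hQ⟩ : ∃ Q : ℤ, Q = ⌊(n:ℝ) * x.2⌋ := ⟨_, rfl⟩
  have hflrn : flr x n = (P, Q) := by unfold flr; rw [hP, hQ]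
  have hx1 : |x.1| ≤ 1 := by rw [← hx]; exact norm_fst_le x
  have hx2 : |x.2| ≤ 1 := by rw [← hx]; exact norm_snd_le x
  have hend1 := bsite_end hx1 hl1 (hkk1 n) (hkk2 n)
  have hend2 := bsite_end hx2 hl1 (hkk1 n) (hkk2 n)
  rw [← hP] at hend1
  rw [← hQ] at hend2
  have hbk1 : (bsite x M (kk n)).1 = ⌊((kk n * M : ℕ):ℝ) * x.1⌋ := rfl
  have hbk2 : (bsite x M (kk n)).2 = ⌊((kk n * M : ℕ):ℝ) * x.2⌋ := rfl
  rw [← hbk1] at hend1
  rw [← hbk2] at hend2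
  obtain ⟨vx, hvx⟩ : ∃ vx : ℤ, vx = (bsite x M (kk n)).1 * (l:ℤ) := ⟨_, rfl⟩
  obtain ⟨vy, hvy⟩ : ∃ vy : ℤ, vy = (bsite x M (kk n)).2 * (l:ℤ) := ⟨_, rfl⟩
  rw [← hvx] at hend1 hvb
  rw [← hvy] at hend2 hvb
  have hend1' := abs_le.mp hend1
  have hend2' := abs_le.mp hend2
  obtain ⟨Ml, hMld⟩ : ∃ Ml : ℤ, Ml = (M:ℤ) * l := ⟨_, rfl⟩
  have eM1 : ((M:ℤ) + 1) * l = Ml + l := by rw [hMld]; ring
  rw [eM1] at hend1' hend2'
  have hMl0 : 0 < Ml := by rw [hMld]; positivity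
  obtain ⟨S1, a1, a2, a3⟩ := seg (2 * l) (0, 0) u (by
    simp only
    have i1 : |(0:ℤ) - u.1| ≤ l := abs_le.mpr (by omega)
    have i2 : |(0:ℤ) - u.2| ≤ l := abs_le.mpr (by omega)
    push_cast
    omega)
  obtain ⟨S2, b1, b2, b3⟩ := seg (2 * ((M + 2) * l + 2)) v (P, Q) (by
    simp only
    have i1 : |v.1 - P| ≤ Ml + 2 * l + 2 := abs_le.mpr (by omega)
    have i2 : |v.2 - Q| ≤ Ml + 2 * l + 2 := abs_le.mpr (by omega)
    push_cast
    have : 2 * (((M:ℤ) + 2) * l + 2) = 2 * (Ml + 2 * l + 2) := by rw [hMld]; ring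
    omega)
  simp only at a3 b3
  rw [hflrn]
  have hreach : Reach ↑(S1 ∪ C ∪ S2) (0, 0) (P, Q) := by
    refine (a1.mono ?_).trans (((hu'.trans hv'.symm).mono ?_).trans (b1.mono ?_)) <;>
      intro e he <;> simp only [Finset.coe_union, Set.mem_union] <;> tauto
  have hcard : ((S1 ∪ C ∪ S2) \ G).card ≤ ∑ i ∈ Finset.range (kk n),
      lk l (bx l (bsite x M i) r) (bsite x M i) (bsite x M (i + 1)) G + cc := by
    have := card_sdiff_union3 S1 C S2 G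
    omega
  have hcoord : ∀ e ∈ S1 ∪ C ∪ S2, (min 0 P - W ≤ e.1 ∧ e.1 ≤ max 0 P + W) ∧
      (min 0 Q - W ≤ e.2.1 ∧ e.2.1 ≤ max 0 Q + W) := by
    have hWl : (W:ℤ) = r * l + Ml + 10 * l + 10 := by rw [hW, hMld]; ring
    have hrl : 0 ≤ r * (l:ℤ) := mul_nonneg (by omega) hl.le
    have hP0 := min_le_left 0 P
    have hP1 := min_le_right 0 P
    have hP2 := le_max_left 0 P
    have hP3 := le_max_right 0 P
    have hQ0 := min_le_left 0 Q
    have hQ1 := min_le_right 0 Q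
    have hQ2 := le_max_left 0 Q
    have hQ3 := le_max_right 0 Q
    have hposk1 := bsite_pos (x1 := x.1) hl1 hM (le_refl (kk n)) (hkk1 n)
    have hposk2 := bsite_pos (x1 := x.2) hl1 hM (le_refl (kk n)) (hkk1 n)
    rw [← hbk1, ← hP, ← hvx] at hposk1
    rw [← hbk2, ← hQ, ← hvy] at hposk2
    intro e he
    simp only [Finset.mem_union] at he
    rcases he with (he | he) | he
    · have := a3 e he
      omega
    · have h2 := c1 he
      rw [Finset.mem_biUnion] at h2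
      obtain ⟨i, hi, h3⟩ := h2
      rw [Finset.mem_range] at hi
      have g1 := bsite_pos (x1 := x.1) hl1 hM hi.le (hkk1 n)
      have g2 := bsite_pos (x1 := x.2) hl1 hM hi.le (hkk1 n)
      rw [← hP] at g1
      rw [← hQ] at g2
      have k1 : (bsite x M i).1 = ⌊((i * M : ℕ):ℝ) * x.1⌋ := rfl
      have k2 : (bsite x M i).2 = ⌊((i * M : ℕ):ℝ) * x.2⌋ := rfl
      rw [← k1] at g1
      rw [← k2] at g2
      obtain ⟨X, hX⟩ : ∃ X : ℤ, X = (bsite x M i).1 * (l:ℤ) := ⟨_, rfl⟩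
      obtain ⟨Z, hZ⟩ : ∃ Z : ℤ, Z = (bsite x M i).2 * (l:ℤ) := ⟨_, rfl⟩
      rw [← hX] at g1
      rw [← hZ] at g2
      unfold bx at h3
      have e1 : ((bsite x M i).1 - r) * (l:ℤ) = X - r * l := by rw [hX]; ring
      have e2 : ((bsite x M i).1 + r + 1) * (l:ℤ) = X + r * l + l := by rw [hX]; ring
      have e3 : ((bsite x M i).2 - r) * (l:ℤ) = Z - r * l := by rw [hZ]; ring
      have e4 : ((bsite x M i).2 + r + 1) * (l:ℤ) = Z + r * l + l := by rw [hZ]; ring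
      rw [e1, e2, e3, e4] at h3
      obtain ⟨ex, ey, eb⟩ := e
      cases eb
      · rw [mem_RE_false] at h3; simp only; omega
      · rw [mem_RE_true] at h3; simp only; omega
    · have := b3 e he
      omega
  obtain ⟨C0, g1, g2, g3⟩ := hasPath_of' (F := opn ω) (G := G) hreach hcard hcoord (by
    intro e he
    rw [hG, mem_GG] at he
    exact he.2)
  refine ⟨C0, g1, g2.trans ?_, g3⟩
  have hsumY : ((∑ i ∈ Finset.range (kk n),
      lk l (bx l (bsite x M i) r) (bsite x M i) (bsite x M (i + 1)) G + cc : ℕ) : ℝ) =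
      ∑ i ∈ Finset.range (kk n), Y i G + cc := by
    rw [hY]; push_cast; ring
  rw [hsumY]
  have hkr : (kk n : ℝ) ≤ n / l / M := by
    have h2 : (kk n : ℝ) * (M * l) ≤ n := by exact_mod_cast hkk1 n
    rw [div_div, le_div_iff₀ (by positivity)]
    linarith
  have hkr' : (kk n : ℝ) ≤ n := by
    refine hkr.trans ?_
    rw [div_div]
    apply div_le_self (Nat.cast_nonneg _)
    nlinarith
  rw [div_le_iff₀ (by positivity)] at hn1
  have h2 : (kk n : ℝ) * μ ≤ n / l * (μ / M) := by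
    calc (kk n : ℝ) * μ ≤ (n / l / M) * μ := mul_le_mul_of_nonneg_right hkr hμ0.le
      _ = _ := by ring
  have h3 : (kk n : ℝ) * (ε / 2) ≤ n * (ε / 2) := mul_le_mul_of_nonneg_right hkr' (by positivity)
  linarith

end Pool.Agent.Helper59_BN
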