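import Pool.Agent.Helper59_BN.Shift
import Pool.Agent.Helper59_BN.LowerCore
import Pool.Agent.Helper59_BN.UpperFin

/-!
Uniform finite-size approximation of boundary distances and passage times.
-/

namespace Pool.Agent.Helper59_BN

open H974 MeasureTheory Filter

/-- The vector of norm one in the direction of `x`. -/
noncomputable def ux (x : ℝ × ℝ) : ℝ × ℝ := ‖x‖⁻¹ • x

theorem norm_ux {x : ℝ × ℝ} (hx : x ≠ 0) : ‖ux x‖ = 1 := by
  unfold ux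
  rw [norm_smul, norm_inv, norm_norm, inv_mul_cancel₀ (norm_ne_zero_iff.mpr hx)]

theorem ux_smul {x : ℝ × ℝ} (hx : x ≠ 0) : x.1 = ‖x‖ * (ux x).1 ∧ x.2 = ‖x‖ * (ux x).2 := by
  have h := norm_ne_zero_iff.mpr hx
  unfold ux
  simp only [Prod.smul_fst, Prod.smul_snd, smul_eq_mul]
  constructor <;> rw [mul_inv_cancel_left₀ h]

theorem floor_near {a b : ℝ} (h : |a - b| ≤ 1) : |⌊a⌋ - ⌊b⌋| ≤ ((2:ℕ):ℤ) := by
  have h1 := Int.floor_le a
  have h2 := Int.lt_floor_add_one a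
  have h3 := Int.floor_le b
  have h4 := Int.lt_floor_add_one b
  have h5 := abs_le.mp h
  have h6 : (⌊a⌋:ℝ) - ⌊b⌋ < 3 := by linarith
  have h7 : -3 < (⌊a⌋:ℝ) - ⌊b⌋ := by linarith
  have h8 : ⌊a⌋ - ⌊b⌋ < 3 := by exact_mod_cast h6
  have h9 : -3 < ⌊a⌋ - ⌊b⌋ := by exact_mod_cast h7
  rw [abs_le]
  push_cast
  omega

theorem core_fin {δ : ℝ} (hδ : 0 < δ) (hδ1 : δ ≤ 1) {B : ℕ} (hB : 1 ≤ B) :
    ∃ K : ℕ, ∀ ε : ℝ, 0 < ε → ∃ M0 : ℕ, 1 ≤ M0 ∧ ∀ (p : unitInterval) (l : ℕ),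
      1/2 < (p:ℝ) → 1 ≤ l → δ ≤ hh (1 - (p:ℝ)) (3 * (l:ℤ)) l →
      4 * hh (1 - (p:ℝ)) ((B:ℤ) * l) (3 * ((B:ℤ) * l) - 1) ≤ 1 / (2 * 50 ^ 18) →
      ∀ M : ℕ, M0 ≤ M → ∀ x : ℝ × ℝ, x ≠ 0 → ∀ᵐ ω ∂bondLaw p, ∀ᶠ n : ℕ in atTop,
        |(l:ℝ) * tim (opn ω)ᶜ (opn ω) (0, 0) (flr x n) -
          n * ‖x‖ * (EL (1 - (p:ℝ)) l (((K + 3) * M : ℕ)) (flr (ux x) M) / M)| ≤ ε * ‖x‖ * n ∧
        ∀ u v : Vtx, IsNearest ω 0 u → IsNearest ω ((n:ℝ) • x) v →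
          |(l:ℝ) * bdist (openGraph ω).Adj u v -
            n * ‖x‖ * (EL (1 - (p:ℝ)) l (((K + 3) * M : ℕ)) (flr (ux x) M) / M)| ≤
              ε * ‖x‖ * n := by
  obtain ⟨K, hlow⟩ := lower_core hδ hδ1 hB
  refine ⟨K, fun ε hε => ?_⟩
  obtain ⟨M1, θ, hθ, hlow⟩ := hlow (ε / 4) (by positivity)
  have hV := V0_pos hδ
  refine ⟨M1 + ⌈20 * V0 δ / ε⌉₊ + 1, by omega, ?_⟩
  intro p l hp hl1 hh1 hh2 M hM x hx
  have hx0 : 0 < ‖x‖ := norm_pos_iff.mpr hx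
  obtain ⟨y, hy⟩ : ∃ y, y = ux x := ⟨_, rfl⟩
  have hy1 : ‖y‖ = 1 := by rw [hy]; exact norm_ux hx
  have hxy := ux_smul hx
  rw [← hy] at hxy ⊢
  have hM1 : 1 ≤ M := by omega
  have hMr : (1:ℝ) ≤ M := by exact_mod_cast hM1
  have hlr : (1:ℝ) ≤ l := by exact_mod_cast hl1
  have hVM : 5 * V0 δ / M ≤ ε / 4 := by
    have h1 : (⌈20 * V0 δ / ε⌉₊ : ℝ) ≤ M := by exact_mod_cast (by omega)
    have h2 := (Nat.le_ceil (20 * V0 δ / ε)).trans h1
    rw [div_le_iff₀ hε] at h2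
    rw [div_le_iff₀ (by linarith)]
    linarith
  have L := hlow p l hl1 hh1 hh2 M (by omega) y hy1
  obtain ⟨w, U⟩ := upper_core hδ hδ1 K M hM1 p l hl1 hh1 y hy1 (ε := ε / (4 * l)) (by positivity)
  obtain ⟨ε', hε'⟩ : ∃ ε' : ℝ, ε' = min (ε * ‖x‖ / (8 * l)) (θ * ‖x‖ / 4) := ⟨_, rfl⟩
  have hε'0 : 0 < ε' := by rw [hε']; positivity
  have hε'1 : ε' ≤ ε * ‖x‖ / (8 * l) := by rw [hε']; exact min_le_left _ _
  have hε'2 : ε' ≤ θ * ‖x‖ / 4 := by rw [hε']; exact min_le_right _ _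
  have Cp := compare_ae p hp x hx (w + 2 + 1) hε'0
  obtain ⟨E, hE⟩ : ∃ E : ℝ, E = EL (1 - (p:ℝ)) l (((K + 3) * M : ℕ)) (flr y M) / M := ⟨_, rfl⟩
  have hE0 : 0 ≤ E := by
    rw [hE]
    apply div_nonneg _ (by linarith)
    apply EL_nonneg
    · have := p.2.2; linarith
    · linarith
  have hEV : (EL (1 - (p:ℝ)) l (((K + 3) * M : ℕ)) (flr y M) + 5 * V0 δ) / M ≤ E + ε / 4 := by
    rw [add_div, ← hE]; linarith
  rw [← hE] at L ⊢
  filter_upwards [L, U, Cp] with ω k1 k2 k3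
  obtain ⟨m, hm⟩ : ∃ m : ℕ → ℕ, m = fun n : ℕ => ⌊(n:ℝ) * ‖x‖⌋₊ := ⟨_, rfl⟩
  have hmt : Tendsto m atTop atTop := by
    rw [hm]
    apply tendsto_nat_floor_atTop.comp
    exact tendsto_natCast_atTop_atTop.atTop_mul_const hx0
  have k1' := hmt.eventually k1
  have k2' := hmt.eventually k2
  have hbig1 : ∀ᶠ n : ℕ in atTop, 8 * (E + 4 * l + 1) / (ε * ‖x‖) ≤ (n:ℝ) :=
    tendsto_natCast_atTop_atTop.eventually_ge_atTop _
  have hbig2 : ∀ᶠ n : ℕ in atTop, 8 * (1 + θ) / (θ * ‖x‖) ≤ (n:ℝ) :=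
    tendsto_natCast_atTop_atTop.eventually_ge_atTop _
  filter_upwards [k1', k2', k3, hbig1, hbig2] with n l1 l2 l3 b1 b2
  rw [div_le_iff₀ (by positivity)] at b1 b2
  have hn0 : (0:ℝ) ≤ n := Nat.cast_nonneg n
  have hm1 : (m n : ℝ) ≤ n * ‖x‖ := by rw [hm]; exact Nat.floor_le (by positivity)
  have hm2 : (n:ℝ) * ‖x‖ - 1 ≤ m n := by
    rw [hm]; have := Nat.lt_floor_add_one ((n:ℝ) * ‖x‖); simp only; linarith
  have hm0 : (0:ℝ) ≤ m n := Nat.cast_nonneg _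
  -- the lower bound
  have lower : ∀ (f g : Vtx) (k : ℕ), |(f.1:ℝ)| ≤ ε' * n + 2 → |(f.2:ℝ)| ≤ ε' * n + 2 →
      |(g.1:ℝ) - n * x.1| ≤ ε' * n + 2 → |(g.2:ℝ) - n * x.2| ≤ ε' * n + 2 →
      DC (opn ω)ᶜ (opn ω) f g k → n * ‖x‖ * E - ε * ‖x‖ * n ≤ l * k := by
    intro f g k h1 h2 h3 h4 h5
    have hw : ε' * n + 3 ≤ θ * m n := by
      have c1 : ε' * n ≤ θ * ‖x‖ / 4 * n := mul_le_mul_of_nonneg_right hε'2 hn0
      have c2 : θ * (n * ‖x‖ - 1) ≤ θ * m n := mul_le_mul_of_nonneg_left hm2 hθ.le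
      nlinarith
    have hdiff : ∀ a b : ℝ, b = ‖x‖ * a → |a| ≤ 1 → |n * b - m n * a| ≤ 1 := by
      intro a b hb ha
      have : n * b - m n * a = (n * ‖x‖ - m n) * a := by rw [hb]; ring
      rw [this, abs_mul]
      have c1 : |(n:ℝ) * ‖x‖ - m n| ≤ 1 := by rw [abs_le]; constructor <;> linarith
      calc |(n:ℝ) * ‖x‖ - m n| * |a| ≤ 1 * 1 :=
            mul_le_mul c1 ha (abs_nonneg _) (by norm_num)
        _ = 1 := one_mul 1
    have hy1' : |y.1| ≤ 1 := by rw [← hy1]; exact norm_fst_le y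
    have hy2' : |y.2| ≤ 1 := by rw [← hy1]; exact norm_snd_le y
    have d1 := hdiff y.1 x.1 hxy.1 hy1'
    have d2 := hdiff y.2 x.2 hxy.2 hy2'
    have d3 : |(g.1:ℝ) - m n * y.1| ≤ θ * m n := by
      have : (g.1:ℝ) - m n * y.1 = ((g.1:ℝ) - n * x.1) + (n * x.1 - m n * y.1) := by ring
      rw [this]
      refine (abs_add_le _ _).trans ?_
      linarith
    have d4 : |(g.2:ℝ) - m n * y.2| ≤ θ * m n := by
      have : (g.2:ℝ) - m n * y.2 = ((g.2:ℝ) - n * x.2) + (n * x.2 - m n * y.2) := by ring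
      rw [this]
      refine (abs_add_le _ _).trans ?_
      linarith
    have key := l1 f g k (by linarith) (by linarith) d3 d4 h5
    have key2 : (m n : ℝ) * (E - ε / 4) ≤ l * k := by
      have e1 : (m n : ℝ) * (E - ε / 4) = l * ((m n : ℝ) / l * (E - ε / 4)) := by
        field_simp
      rw [e1]
      exact mul_le_mul_of_nonneg_left key (by linarith)
    have e2 : (n * ‖x‖ - 1) * E ≤ m n * E := mul_le_mul_of_nonneg_right hm2 hE0
    have e3 : (m n : ℝ) * (ε / 4) ≤ n * ‖x‖ * (ε / 4) :=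
      mul_le_mul_of_nonneg_right hm1 (by positivity)
    nlinarith
  -- the upper bound
  obtain ⟨b, hb⟩ : ∃ b : ℝ, b = (m n : ℝ) / l *
      ((EL (1 - (p:ℝ)) l (((K + 3) * M : ℕ)) (flr y M) + 5 * V0 δ) / M) + ε / (4 * l) * m n :=
    ⟨_, rfl⟩
  rw [← hb] at l2
  have hshift : |(flr y (m n)).1 - (flr x n).1| ≤ ((2:ℕ):ℤ) ∧
      |(flr y (m n)).2 - (flr x n).2| ≤ ((2:ℕ):ℤ) := by
    have hdiff : ∀ a b : ℝ, b = ‖x‖ * a → |a| ≤ 1 → |m n * a - n * b| ≤ 1 := by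
      intro a b hb ha
      have : m n * a - n * b = (m n - n * ‖x‖) * a := by rw [hb]; ring
      rw [this, abs_mul]
      have c1 : |(m n : ℝ) - n * ‖x‖| ≤ 1 := by rw [abs_le]; constructor <;> linarith
      calc |(m n : ℝ) - n * ‖x‖| * |a| ≤ 1 * 1 :=
            mul_le_mul c1 ha (abs_nonneg _) (by norm_num)
        _ = 1 := one_mul 1
    have hy1' : |y.1| ≤ 1 := by rw [← hy1]; exact norm_fst_le y
    have hy2' : |y.2| ≤ 1 := by rw [← hy1]; exact norm_snd_le y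
    exact ⟨floor_near (hdiff y.1 x.1 hxy.1 hy1'), floor_near (hdiff y.2 x.2 hxy.2 hy2')⟩
  obtain ⟨b', hb'⟩ : ∃ b' : ℝ, b' = b + 4 := ⟨_, rfl⟩
  have l2' : HasPath (opn ω) (flr x n) (w + 2 + 1) b' := by
    have := l2.shift hshift.1 hshift.2
    rw [show b + 2 * ((2:ℕ):ℝ) = b' by rw [hb']; push_cast; ring] at this
    exact this
  have hlb : l * b ≤ n * ‖x‖ * (E + ε / 2) := by
    have e1 : l * b = (m n : ℝ) *
        ((EL (1 - (p:ℝ)) l (((K + 3) * M : ℕ)) (flr y M) + 5 * V0 δ) / M) + ε / 4 * m n := by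
      rw [hb]; field_simp
    rw [e1]
    have e2 := mul_le_mul_of_nonneg_left hEV hm0
    have e3 : (m n : ℝ) * (E + ε / 2) ≤ n * ‖x‖ * (E + ε / 2) :=
      mul_le_mul_of_nonneg_right hm1 (by positivity)
    nlinarith
  have hb4 : l * b' + ε * ‖x‖ * n / 8 ≤ n * ‖x‖ * E + ε * ‖x‖ * n := by
    rw [hb']
    nlinarith
  have hfl : ∀ a : ℝ, |((⌊(n:ℝ) * a⌋ : ℤ) : ℝ) - n * a| ≤ 1 := by
    intro a
    have c1 := Int.floor_le ((n:ℝ) * a)
    have c2 := Int.lt_floor_add_one ((n:ℝ) * a)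
    rw [abs_le]; constructor <;> linarith
  have hεn : 0 ≤ ε' * n := by positivity
  refine ⟨?_, ?_⟩
  · have h1 : n * ‖x‖ * E - ε * ‖x‖ * n ≤ l * tim (opn ω)ᶜ (opn ω) (0, 0) (flr x n) := by
      refine lower (0, 0) (flr x n) _ ?_ ?_ ?_ ?_ (tim_spec ?_)
      · simp only [Int.cast_zero, abs_zero]; linarith
      · simp only [Int.cast_zero, abs_zero]; linarith
      · exact (hfl x.1).trans (by linarith)
      · exact (hfl x.2).trans (by linarith)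
      · rw [Set.compl_union_self]; exact dreach_univ _ _
    have h2 := mul_le_mul_of_nonneg_left l2'.tim_le (show (0:ℝ) ≤ l by linarith)
    have h3 : 0 ≤ ε * ‖x‖ * n := by positivity
    rw [abs_le]
    constructor <;> linarith
  · intro u v hu hv
    rw [adj_eq]
    obtain ⟨m1, m2, m3, m4, m5⟩ := l3 u v hu hv
    have h1 : n * ‖x‖ * E - ε * ‖x‖ * n ≤ l * bdist (Adj (opn ω)) u v := by
      obtain ⟨f, g, k, j1, j2, j3, j4⟩ := bdist_lower m1 m2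
      have i1 : |(f.1:ℝ) - u.1| ≤ 1 := by exact_mod_cast j3.1
      have i2 : |(f.2:ℝ) - u.2| ≤ 1 := by exact_mod_cast j3.2
      have i3 : |(g.1:ℝ) - v.1| ≤ 2 := by exact_mod_cast j4.1
      have i4 : |(g.2:ℝ) - v.2| ≤ 2 := by exact_mod_cast j4.2
      have a1 := abs_le.mp i1
      have a2 := abs_le.mp i2
      have a3 := abs_le.mp i3
      have a4 := abs_le.mp i4
      have b1 := abs_le.mp m3.1
      have b2 := abs_le.mp m3.2
      have b3 := abs_le.mp m4.1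
      have b4 := abs_le.mp m4.2
      have hk := lower f g k (abs_le.mpr ⟨by linarith, by linarith⟩)
        (abs_le.mpr ⟨by linarith, by linarith⟩) (abs_le.mpr ⟨by linarith, by linarith⟩)
        (abs_le.mpr ⟨by linarith, by linarith⟩) j2
      have hk' : (k:ℝ) ≤ bdist (Adj (opn ω)) u v := by exact_mod_cast j1
      have := mul_le_mul_of_nonneg_left hk' (show (0:ℝ) ≤ l by linarith)
      linarith
    have h2 := mul_le_mul_of_nonneg_left (m5 _ l2') (show (0:ℝ) ≤ l by linarith)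
    have h3 : l * (ε' * n) ≤ ε * ‖x‖ * n / 8 := by
      have c1 : l * ε' ≤ ε * ‖x‖ / 8 := by
        have := mul_le_mul_of_nonneg_left hε'1 (show (0:ℝ) ≤ l by linarith)
        refine this.trans (le_of_eq ?_)
        field_simp
      have := mul_le_mul_of_nonneg_right c1 hn0
      linarith
    rw [mul_add] at h2
    rw [abs_le]
    constructor <;> linarith

end Pool.Agent.Helper59_BN
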