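import Pool.Agent.Helper59_BN.PathUp
import Pool.Agent.Helper59_BN.AE

/-!
Almost surely there are dual paths of the near-critical cost.
-/

namespace Pool.Agent.Helper59_BN

open H974 MeasureTheory Filter

/-- The integer part of `n x`. -/
noncomputable def flr (x : ℝ × ℝ) (n : ℕ) : Vtx := (⌊(n:ℝ) * x.1⌋, ⌊(n:ℝ) * x.2⌋)

theorem flr_bound (x : ℝ × ℝ) (n : ℕ) :
    |((flr x n).1 : ℝ)| ≤ n * ‖x‖ + 1 ∧ |((flr x n).2 : ℝ)| ≤ n * ‖x‖ + 1 := by
  have key : ∀ a : ℝ, |a| ≤ ‖x‖ → |((⌊(n:ℝ) * a⌋ : ℤ) : ℝ)| ≤ n * ‖x‖ + 1 := by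
    intro a ha
    have h1 := Int.floor_le ((n:ℝ) * a)
    have h2 := Int.lt_floor_add_one ((n:ℝ) * a)
    have h3 : |(n:ℝ) * a| ≤ n * ‖x‖ := by
      rw [abs_mul, Nat.abs_cast]
      exact mul_le_mul_of_nonneg_left ha (Nat.cast_nonneg n)
    have h4 := abs_le.mp h3
    rw [abs_le]
    constructor <;> linarith
  exact ⟨key _ (norm_fst_le x), key _ (norm_snd_le x)⟩

/-- The path statement: a dual path from `(0, 0)` to `z` of cost at most `b`. -/
def HasPath (F : Set Edg) (z : Vtx) (w : ℕ) (b : ℝ) : Prop :=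
  ∃ C0 : Finset Edg, DReach ↑C0 (0, 0) z ∧ (((↑C0 : Set Edg) ∩ F).ncard : ℝ) ≤ b ∧
    ∀ e ∈ C0, |e.1| ≤ |z.1| + w ∧ min 0 z.2 - w ≤ e.2.1 ∧ e.2.1 ≤ max 0 z.2 + w

theorem hasPath_of {l : ℕ} {F : Set Edg} {P Q : ℤ} {C G : Finset Edg}
    (h1 : Reach ↑C (0, 0) (P, Q)) {b : ℕ} (h2 : (C \ G).card ≤ b)
    (h3 : ∀ e ∈ C, (min 0 P ≤ e.1 ∧ e.1 ≤ max 0 P + 2 * l) ∧
        (min 0 Q ≤ e.2.1 ∧ e.2.1 ≤ max 0 Q + 2 * l)) (hG : ∀ e ∈ G, dl.symm e ∉ F) :
    HasPath F (P, Q) (2 * l + 1) b := by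
  classical
  refine ⟨C.map dl.symm.toEmbedding, ?_, ?_, ?_⟩
  · rw [← reach_dl]
    have : dl '' ↑(C.map dl.symm.toEmbedding) = (↑C : Set Edg) := by
      rw [← coe_dmp, dmp_map]
    rw [this]
    exact h1
  · have hinj : (((↑(C.map dl.symm.toEmbedding) : Set Edg)) ∩ F).ncard ≤ (C \ G).card := by
      rw [← Set.ncard_coe_finset, ← Set.ncard_image_of_injective _ dl.injective]
      apply Set.ncard_le_ncard _ (Finset.finite_toSet _)
      rintro _ ⟨e, ⟨he1, he2⟩, rfl⟩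
      rw [Finset.mem_coe, Finset.mem_map_equiv, Equiv.symm_symm] at he1
      rw [Finset.mem_coe, Finset.mem_sdiff]
      refine ⟨he1, fun h => hG _ h ?_⟩
      rwa [Equiv.symm_apply_apply]
    exact_mod_cast hinj.trans h2
  · intro e he
    rw [Finset.mem_map_equiv, Equiv.symm_symm] at he
    have h4 := h3 _ he
    simp only
    push_cast
    obtain ⟨x, y, t⟩ := e
    cases t
    · rw [dl_f] at h4
      simp only at h4 ⊢
      rcases le_total 0 P with hP | hP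
      · rw [min_eq_left hP, max_eq_right hP] at h4
        rw [abs_of_nonneg hP]
        exact ⟨abs_le.mpr (by omega), by omega, by omega⟩
      · rw [min_eq_right hP, max_eq_left hP] at h4
        rw [abs_of_nonpos hP]
        exact ⟨abs_le.mpr (by omega), by omega, by omega⟩
    · rw [dl_t] at h4
      simp only at h4 ⊢
      rcases le_total 0 P with hP | hP
      · rw [min_eq_left hP, max_eq_right hP] at h4
        rw [abs_of_nonneg hP]
        exact ⟨abs_le.mpr (by omega), by omega, by omega⟩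
      · rw [min_eq_right hP, max_eq_left hP] at h4
        rw [abs_of_nonpos hP]
        exact ⟨abs_le.mpr (by omega), by omega, by omega⟩

theorem path_event {l : ℕ} (hl : 1 ≤ l) (P Q : ℤ) {M a : ℕ} (hP : P.natAbs / l + 1 ≤ M)
    (hQ : Q.natAbs / l + 1 ≤ M) : ∃ (T : Finset Edg) (E : Finset Edg → Prop),
    (∀ ω, ¬ HasPath (opn ω) (P, Q) (2 * l + 1) ((8 * (a * M) + 8 * l : ℕ):ℝ) → E (GG T ω)) ∧
    ∀ q δ : ℝ, 0 ≤ q → q ≤ 1 → 0 < δ → δ ≤ 1 → δ ≤ hh q (2 * (l:ℤ)) l →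
      2 * (1 + 1 / δ) ≤ (1 + δ) ^ a → Pr (fun _ => q) T E ≤ 8 * (1/2) ^ M := by
  have hl' : (0:ℤ) < l := by exact_mod_cast hl
  obtain ⟨W, hW⟩ : ∃ W : ℤ, W = |P| + |Q| + 3 * l := ⟨_, rfl⟩
  have hbd : ∀ X : ℤ, |X| ≤ |P| + |Q| → min 0 X ≤ 0 ∧ -W ≤ min 0 X ∧
      min 0 X + (((X.natAbs / l : ℕ):ℤ) + 2) * l ≤ W := by
    intro X hX
    have h1 : ((X.natAbs / l : ℕ):ℤ) * l ≤ |X| := by
      rw [← Int.natCast_natAbs]; exact_mod_cast Nat.div_mul_le_self _ _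
    have e1 : (((X.natAbs / l : ℕ):ℤ) + 2) * l = ((X.natAbs / l : ℕ):ℤ) * l + 2 * l := by ring
    rcases le_total 0 X with h | h
    · rw [min_eq_left h]
      rw [abs_of_nonneg h] at hX h1
      omega
    · rw [min_eq_right h]
      rw [abs_of_nonpos h] at hX h1
      omega
  have hP' := hbd P (by have := abs_nonneg Q; omega)
  have hQ' := hbd Q (by have := abs_nonneg P; omega)
  have hPa := abs_le.mp (show |P| ≤ W - 3 * l - |Q| by omega)
  have hQn := abs_nonneg Q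
  refine ⟨RE (-W) W (-W) W, fun G => (4 * (a * M) ≤ hcost l (min 0 P, 0) (P.natAbs / l) G) ∨
    (4 * (a * M) ≤ hcost l (min 0 Q, P) (Q.natAbs / l) (tps.mp G)), ?_, ?_⟩
  · intro ω hno
    by_contra hcon
    push Not at hcon
    apply hno
    obtain ⟨C, h1, h2, h3⟩ := path_up hl P Q (GG (RE (-W) W (-W) W) ω)
    refine hasPath_of h1 (h2.trans (by omega)) h3 ?_
    intro e he
    rw [mem_GG] at he
    exact he.2
  · intro q δ h0 h1 hδ hδ1 hh1 ha
    refine (Pr_or_le (okq h0 h1) _ _ _).trans ?_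
    have i1 := pr_hcost h0 h1 hl' hδ hδ1 hh1 (min 0 P, 0) (N := P.natAbs / l) hP ha
      (U := RE (-W) W (-W) W) (RE_subset (by simp only; omega) (by simp only; omega)
        (by simp only; omega) (by simp only; omega))
    have i2 := pr_hcost h0 h1 hl' hδ hδ1 hh1 (min 0 Q, P) (N := Q.natAbs / l) hQ ha
      (U := RE (-W) W (-W) W) (RE_subset (by simp only; omega) (by simp only; omega)
        (by simp only; omega) (by simp only; omega))
    have e1 : Pr (fun _ => q) (RE (-W) W (-W) W) (fun G =>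
        4 * (a * M) ≤ hcost l (min 0 Q, P) (Q.natAbs / l) (tps.mp G)) =
        Pr (fun _ => q) (RE (-W) W (-W) W) (fun G =>
        4 * (a * M) ≤ hcost l (min 0 Q, P) (Q.natAbs / l) G) := by
      have := LSym.pr tps q (RE (-W) W (-W) W) (fun G =>
        4 * (a * M) ≤ hcost l (min 0 Q, P) (Q.natAbs / l) G)
      rw [tps_RE] at this
      exact this.symm
    rw [e1]
    linarith

/-- **Cheap dual paths.** -/
theorem upper_path_ae : ∃ C : ℝ, 0 < C ∧ ∀ p : unitInterval, 1/2 < (p:ℝ) → ∃ w : ℕ,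
    ∀ x : ℝ × ℝ, x ≠ 0 → ∀ᵐ ω ∂bondLaw p, ∀ᶠ n : ℕ in atTop,
      HasPath (opn ω) (flr x n) w (C * ((p:ℝ) - 1/2) ^ (4/3 : ℝ) * ‖x‖ * n) := by
  obtain ⟨c1, C1, hc1, hC1, hlow⟩ := Pool.Agent.W424.NC.win_lower 2 (by norm_num)
  obtain ⟨δ, hδ⟩ : ∃ δ : ℝ, δ = min 1 (c1 * Real.exp (-(C1 * 4))) := ⟨_, rfl⟩
  have hδ0 : 0 < δ := by rw [hδ]; positivity
  have hδ1 : δ ≤ 1 := by rw [hδ]; exact min_le_left _ _
  obtain ⟨a, ha⟩ := pow_unbounded_of_one_lt (2 * (1 + 1 / δ)) (show 1 < 1 + δ by linarith)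
  refine ⟨16 * a + 32, by positivity, ?_⟩
  intro p hp
  have hp1 : (p:ℝ) ≤ 1 := p.2.2
  obtain ⟨σ, hσ⟩ : ∃ σ : ℝ, σ = ((p:ℝ) - 1/2) ^ (4/3 : ℝ) := ⟨_, rfl⟩
  have hσ0 : 0 < σ := by rw [hσ]; exact Real.rpow_pos_of_pos (by linarith) _
  have hσ1 : σ ≤ 1 := by
    rw [hσ]; exact Real.rpow_le_one (by linarith) (by linarith) (by norm_num)
  rw [← hσ]
  rcases le_or_gt (p:ℝ) (3/4) with hp34 | hp34
  · obtain ⟨l, hl⟩ : ∃ l : ℕ, l = ⌈1 / σ⌉₊ := ⟨_, rfl⟩
    have hl1 : 1 / σ ≤ l := by rw [hl]; exact Nat.le_ceil _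
    have hl2 : (l:ℝ) < 1 / σ + 1 := by rw [hl]; exact Nat.ceil_lt_add_one (by positivity)
    have hl0 : 1 ≤ l := by rw [hl, Nat.one_le_ceil_iff]; positivity
    have hlr : (1:ℝ) ≤ l := by exact_mod_cast hl0
    have hlσ : (l:ℝ) * σ ≤ 2 := by
      have := mul_le_mul_of_nonneg_right hl2.le hσ0.le
      rw [add_mul, div_mul_cancel₀ _ hσ0.ne'] at this
      linarith
    have hσl : 1 / (l:ℝ) ≤ σ := by
      rw [div_le_iff₀ (by positivity)]
      rw [div_le_iff₀ hσ0] at hl1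
      linarith
    have hhl : δ ≤ hh (1 - (p:ℝ)) (2 * (l:ℤ)) l := by
      have h1 := hlow (1 - (p:ℝ)) (by linarith) (by linarith) (2 * l) l (by omega) hl0 le_rfl
        (by omega)
      rw [show 1/2 - (1 - (p:ℝ)) = (p:ℝ) - 1/2 by ring, ← hσ] at h1
      push_cast at h1
      refine le_trans ?_ h1
      rw [hδ]
      refine (min_le_right _ _).trans ?_
      apply mul_le_mul_of_nonneg_left _ hc1.le
      apply Real.exp_le_exp.mpr
      have : C1 * (2 * l * σ) ≤ C1 * 4 := mul_le_mul_of_nonneg_left (by linarith) hC1.le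
      linarith
    refine ⟨2 * l + 1, fun x hx => ?_⟩
    have hx0 : 0 < ‖x‖ := norm_pos_iff.mpr hx
    obtain ⟨M, hM⟩ : ∃ M : ℕ → ℕ, M = fun n : ℕ => ⌊((n:ℝ) * ‖x‖ + 1) / l⌋₊ + 1 := ⟨_, rfl⟩
    have hMle : ∀ (n : ℕ) (X : ℤ), |(X:ℝ)| ≤ n * ‖x‖ + 1 → X.natAbs / l + 1 ≤ M n := by
      intro n X hX
      rw [hM]
      simp only
      gcongr
      apply Nat.le_floor
      refine Nat.cast_div_le.trans ?_
      rw [Nat.cast_natAbs, Int.cast_abs]
      gcongr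
    have hev := fun n : ℕ => path_event (a := a) hl0 (flr x n).1 (flr x n).2
      (hMle n _ (flr_bound x n).1) (hMle n _ (flr_bound x n).2)
    choose T E hTE hle using hev
    obtain ⟨ρ, hρ⟩ : ∃ ρ : ℝ, ρ = (1/2 : ℝ) ^ (‖x‖ / l) := ⟨_, rfl⟩
    have hρ0 : 0 < ρ := by rw [hρ]; positivity
    have hρ1 : ρ < 1 := by
      rw [hρ]; exact Real.rpow_lt_one (by norm_num) (by norm_num) (by positivity)
    have hsum : Summable (fun n : ℕ => 8 * ρ ^ n) :=
      (summable_geometric_of_lt_one hρ0.le hρ1).mul_left _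
    have hBC := borel_cantelli p T E _ hsum 0 (by
      intro n _
      refine (hle n (1 - (p:ℝ)) δ (by linarith) (by linarith) hδ0 hδ1 hhl ha.le).trans ?_
      have h3 : ((1:ℝ)/2) ^ (M n) ≤ ρ ^ n := by
        have h4 : (n:ℝ) * ‖x‖ / l ≤ M n := by
          rw [hM]
          push_cast
          have h5 := Nat.lt_floor_add_one (((n:ℝ) * ‖x‖ + 1) / l)
          have h6 : (n:ℝ) * ‖x‖ / l ≤ ((n:ℝ) * ‖x‖ + 1) / l := by gcongr; linarith
          linarith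
        calc ((1:ℝ)/2) ^ (M n) = ((1:ℝ)/2) ^ ((M n : ℕ) : ℝ) := (Real.rpow_natCast _ _).symm
          _ ≤ ((1:ℝ)/2) ^ ((n:ℝ) * ‖x‖ / l) :=
              Real.rpow_le_rpow_of_exponent_ge (by norm_num) (by norm_num) h4
          _ = ρ ^ n := by
              rw [hρ, ← Real.rpow_natCast ((1/2 : ℝ) ^ (‖x‖ / l)), ← Real.rpow_mul (by norm_num)]
              congr 1
              ring
      linarith)
    have hlarge : ∀ᶠ n : ℕ in atTop, (16 * (a:ℝ) + 8 * l) / (σ * ‖x‖) ≤ n :=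
      tendsto_natCast_atTop_atTop.eventually_ge_atTop _
    filter_upwards [hBC] with ω hω
    filter_upwards [hω, hlarge] with n hn hn1
    have hpath : HasPath (opn ω) ((flr x n).1, (flr x n).2) (2 * l + 1)
        ((8 * (a * M n) + 8 * l : ℕ):ℝ) := by
      by_contra hcon
      exact hn (hTE n ω hcon)
    obtain ⟨C0, k1, k2, k3⟩ := hpath
    refine ⟨C0, k1, k2.trans ?_, k3⟩
    rw [div_le_iff₀ (by positivity)] at hn1
    have hMr : (M n : ℝ) ≤ ((n:ℝ) * ‖x‖ + 1) / l + 1 := by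
      rw [hM]
      push_cast
      have := Nat.floor_le (show 0 ≤ ((n:ℝ) * ‖x‖ + 1) / l by positivity)
      linarith
    have h5 : ((n:ℝ) * ‖x‖ + 1) / l ≤ σ * (n * ‖x‖) + 1 := by
      have h6 : ((n:ℝ) * ‖x‖ + 1) / l = (1 / l) * (n * ‖x‖) + 1 / l := by ring
      have h7 : (1 / (l:ℝ)) * (n * ‖x‖) ≤ σ * (n * ‖x‖) :=
        mul_le_mul_of_nonneg_right hσl (by positivity)
      rw [h6]
      linarith
    push_cast
    have h8 : (a:ℝ) * M n ≤ a * (σ * (n * ‖x‖) + 2) :=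
      mul_le_mul_of_nonneg_left (by linarith) (by positivity)
    have h9 : 0 ≤ σ * ‖x‖ * n := by positivity
    nlinarith
  · refine ⟨3, fun x hx => ?_⟩
    have hx0 : 0 < ‖x‖ := norm_pos_iff.mpr hx
    have hσ8 : 1/8 ≤ σ := by
      have h1 : (1/8 : ℝ) = (1/4 : ℝ) ^ (3/2 : ℝ) := by
        rw [show (1/4 : ℝ) = (1/2 : ℝ) ^ (2:ℝ) by norm_num, ← Real.rpow_mul (by norm_num)]
        norm_num
      rw [h1, hσ]
      calc (1/4 : ℝ) ^ (3/2 : ℝ) ≤ (1/4 : ℝ) ^ (4/3 : ℝ) :=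
            Real.rpow_le_rpow_of_exponent_ge (by norm_num) (by norm_num) (by norm_num)
        _ ≤ _ := Real.rpow_le_rpow (by norm_num) (by linarith) (by norm_num)
    have hlarge : ∀ᶠ n : ℕ in atTop, 1 / ‖x‖ ≤ n :=
      tendsto_natCast_atTop_atTop.eventually_ge_atTop _
    refine Filter.Eventually.of_forall (fun ω => ?_)
    filter_upwards [hlarge] with n hn1
    rw [div_le_iff₀ hx0] at hn1
    obtain ⟨P, hPdef⟩ : ∃ P : ℤ, P = (flr x n).1 := ⟨_, rfl⟩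
    obtain ⟨Q, hQdef⟩ : ∃ Q : ℤ, Q = (flr x n).2 := ⟨_, rfl⟩
    have hPb := (flr_bound x n).1
    have hQb := (flr_bound x n).2
    rw [← hPdef] at hPb
    rw [← hQdef] at hQb
    obtain ⟨C, k1, k2, k3⟩ := seg (P.natAbs + Q.natAbs) (0, 0) (P, Q) (by
      simp only
      rw [abs_sub_comm, sub_zero, abs_sub_comm, sub_zero]
      push_cast
      omega)
    have := hasPath_of (l := 1) (F := opn ω) (G := ∅) k1 (b := P.natAbs + Q.natAbs)
      (by rw [Finset.sdiff_empty]; exact k2) (by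
        intro e he
        have := k3 e he
        simp only at this
        push_cast
        omega) (by simp)
    obtain ⟨C0, l1, l2, l3⟩ := this
    have hz : flr x n = (P, Q) := by rw [hPdef, hQdef]
    rw [hz]
    refine ⟨C0, l1, l2.trans ?_, l3⟩
    push_cast
    rw [Nat.cast_natAbs, Nat.cast_natAbs, Int.cast_abs, Int.cast_abs]
    have h1 : |(P:ℝ)| + |(Q:ℝ)| ≤ 4 * (n * ‖x‖) := by linarith
    have h2 : 4 * ((n:ℝ) * ‖x‖) ≤ 32 * (σ * (n * ‖x‖)) := by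
      have : (1/8) * ((n:ℝ) * ‖x‖) ≤ σ * (n * ‖x‖) :=
        mul_le_mul_of_nonneg_right hσ8 (by positivity)
      linarith
    have h3 : 0 ≤ 16 * (a:ℝ) * (σ * (n * ‖x‖)) := by positivity
    nlinarith

end Pool.Agent.Helper59_BN
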