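import Pool.Agent.Helper59_BN.PeierlsR
import Pool.Agent.Helper59_BN.UpperAE

/-!
The mean link cost of a long vector is at most the rescaled sum of the mean link costs of the steps
of a chain.
-/

namespace Pool.Agent.Helper59_BN

open H974

/-- A vector which is reached at mean cost `c` within the radius `L`. -/
def Rch (q : ℝ) (l : ℤ) (ρ : ℤ) (z : Vtx) (L : ℤ) (c : ℝ) : Prop :=
  bdd 0 z ≤ L ∧ ∀ r, L + ρ ≤ r → EL q l r z ≤ c

theorem Rch.step {q : ℝ} (h0 : 0 ≤ q) (h1 : q ≤ 1) {l : ℤ} (hl : 0 < l) {ρ : ℤ} {z y : Vtx}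
    {L : ℤ} {c : ℝ} (h : Rch q l ρ z L c) (hy : bdd 0 y + 1 ≤ ρ) :
    Rch q l ρ (z + y) (L + bdd 0 y) (c + EL q l ρ y) := by
  have hb := bdd_nonneg 0 y
  constructor
  · have h2 := bdd_triangle 0 z (z + y)
    have h3 : bdd z (z + y) = bdd 0 y := by unfold bdd; simp
    have := h.1
    omega
  · intro r hr
    have h2 := h.1
    refine (EL_add h0 h1 hl (r := r) (r' := ρ) (by omega) hy le_rfl (by omega)).trans ?_
    have := h.2 r (by omega)
    linarith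

theorem Rch.steps {q : ℝ} (h0 : 0 ≤ q) (h1 : q ≤ 1) {l : ℤ} (hl : 0 < l) {ρ : ℤ} {z y : Vtx}
    {L : ℤ} {c : ℝ} (h : Rch q l ρ z L c) (hy : bdd 0 y + 1 ≤ ρ) (n : ℕ) :
    Rch q l ρ (z + sm n y) (L + n * bdd 0 y) (c + n * EL q l ρ y) := by
  induction n with
  | zero =>
    have : sm ((0:ℕ):ℤ) y = 0 := by unfold sm; simp
    rw [this]
    simpa using h
  | succ n ih =>
    have h2 := ih.step h0 h1 hl hy
    have e1 : z + sm ((n + 1 : ℕ):ℤ) y = z + sm n y + y := by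
      unfold sm
      ext <;> simp <;> ring
    have e2 : L + ((n + 1 : ℕ):ℤ) * bdd 0 y = L + n * bdd 0 y + bdd 0 y := by push_cast; ring
    have e3 : c + ((n + 1 : ℕ):ℝ) * EL q l ρ y = c + n * EL q l ρ y + EL q l ρ y := by
      push_cast; ring
    rw [e1, e2, e3]
    exact h2

theorem Rch.total {q : ℝ} (h0 : 0 ≤ q) (h1 : q ≤ 1) {l : ℤ} (hl : 0 < l) {ρ : ℤ}
    (I : Finset Vtx) (n : Vtx → ℕ) {c : ℝ} (hI : ∀ y ∈ I, bdd 0 y + 1 ≤ ρ)
    (h : Rch q l ρ 0 0 c) : Rch q l ρ (∑ y ∈ I, sm (n y) y) (∑ y ∈ I, n y * bdd 0 y)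
      (c + ∑ y ∈ I, n y * EL q l ρ y) := by
  classical
  induction I using Finset.induction_on with
  | empty => simpa using h
  | insert a I ha ih =>
    have h2 := (ih (fun y hy => hI y (Finset.mem_insert_of_mem hy))).steps h0 h1 hl
      (hI a (Finset.mem_insert_self _ _)) (n a)
    rw [Finset.sum_insert ha, Finset.sum_insert ha, Finset.sum_insert ha,
      add_comm (sm (n a) a), add_comm ((n a : ℤ) * bdd 0 a), add_comm ((n a : ℝ) * _),
      ← add_assoc]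
    exact h2

/-- **Rescaling of a chain.** -/
theorem counts {q δ : ℝ} (h0 : 0 ≤ q) (h1 : q ≤ 1) {l : ℤ} (hl : 0 < l) (hδ : 0 < δ)
    (hδ1 : δ ≤ 1) (hh1 : δ ≤ hh q (3 * l) l) {R s : ℕ} (hR : 1 ≤ R) (hs : 1 ≤ s) {J : ℕ}
    {κ : ℕ → Vtx} (hκ : ∀ j < J, bdd (κ j) (κ (j + 1)) = R) {ν θ : ℝ} (hν : 0 < ν) (hθ : 0 ≤ θ)
    (hθ1 : θ ≤ 1) {x : ℝ × ℝ} (hx1 : |(s:ℝ) * ((κ J).1 - (κ 0).1) - ν * x.1| ≤ θ * ν)
    (hx2 : |(s:ℝ) * ((κ J).2 - (κ 0).2) - ν * x.2| ≤ θ * ν) {K : ℕ}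
    (hJ : (J:ℝ) * (R * s) ≤ K * ν) {M : ℕ} (hM : (2 * R + 1) ^ 2 * (s * R) + (R + 3) * s + 3 ≤ M) :
    EL q l (((K + 3) * M : ℕ)) (flr x M) ≤
      M / ν * ∑ j ∈ Finset.range J, EL q l (((R + 3) * s : ℕ)) (sm s (κ (j + 1) - κ j)) +
        V0 δ * (4 * ((2 * R + 1) ^ 2 * (s * R) + θ * M + 2) + 2) := by
  classical
  have hV := V0_pos hδ
  obtain ⟨ρ, hρ⟩ : ∃ ρ : ℤ, ρ = (((R + 3) * s : ℕ) : ℤ) := ⟨_, rfl⟩
  rw [← hρ]
  have hRr : (1:ℝ) ≤ R := by exact_mod_cast hR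
  have hsr : (1:ℝ) ≤ s := by exact_mod_cast hs
  have hMr : (2 * (R:ℝ) + 1) ^ 2 * (s * R) + (R + 3) * s + 3 ≤ M := by exact_mod_cast hM
  have hM0 : (0:ℝ) ≤ M := Nat.cast_nonneg _
  obtain ⟨w, hw⟩ : ∃ w : ℕ → Vtx, w = fun j => κ (j + 1) - κ j := ⟨_, rfl⟩
  have hwr : ∀ j ∈ Finset.range J, w j ∈ ring R := by
    intro j hj
    rw [Finset.mem_range] at hj
    rw [hw, mem_ring, ← hκ j hj]
    unfold bdd
    simp only [Prod.fst_zero, Prod.snd_zero, Prod.fst_sub, Prod.snd_sub]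
    congr 2 <;> ring
  obtain ⟨c, hc⟩ : ∃ c : Vtx → ℕ, c = fun v => ((Finset.range J).filter (fun j => w j = v)).card :=
    ⟨_, rfl⟩
  have hsumw : ∀ φ : Vtx → ℝ, ∑ j ∈ Finset.range J, φ (w j) = ∑ v ∈ ring R, (c v : ℝ) * φ v := by
    intro φ
    rw [← Finset.sum_fiberwise_of_maps_to hwr]
    apply Finset.sum_congr rfl
    intro v _
    rw [Finset.sum_congr rfl (g := fun _ => φ v)
      (fun j hj => by rw [(Finset.mem_filter.mp hj).2]), Finset.sum_const, nsmul_eq_mul, hc]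
  obtain ⟨c', hc'⟩ : ∃ c' : Vtx → ℕ, c' = fun v => ⌊(c v : ℝ) * (M / ν)⌋₊ := ⟨_, rfl⟩
  have hMν : 0 ≤ M / ν := by positivity
  have hc1 : ∀ v, (c' v : ℝ) ≤ c v * (M / ν) := fun v => by
    rw [hc']; exact Nat.floor_le (by positivity)
  have hc2 : ∀ v, (c v : ℝ) * (M / ν) - 1 ≤ c' v := fun v => by
    rw [hc']; exact (Nat.sub_one_lt_floor _).le
  obtain ⟨z, hz⟩ : ∃ z : Vtx, z = ∑ v ∈ ring R, sm (c' v) (sm s v) := ⟨_, rfl⟩
  have hbs : ∀ v ∈ ring R, bdd 0 (sm s v) = (R * s : ℕ) := by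
    intro v hv
    rw [mem_ring] at hv
    rw [bdd_zero_sm, hv, abs_of_nonneg (by positivity)]
    push_cast; ring
  have hρ1 : ((R * s : ℕ) : ℤ) + 1 ≤ ρ := by
    rw [hρ]
    have : R * s + 1 ≤ (R + 3) * s := by nlinarith
    exact_mod_cast this
  -- the reachable vector
  have hbase : Rch q l ρ 0 0 (V0 δ) := by
    have hb0 : bdd (0:Vtx) 0 = 0 := by simp [bdd]
    refine ⟨hb0.le, fun r hr => ?_⟩
    have := EL_le h0 h1 hl hδ hδ1 hh1 (z := 0) (r := r) (n := 0) (by rw [hb0]; simp) (by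
      push_cast; omega)
    simpa using this
  have hinj : Set.InjOn (fun v => sm s v) (↑(ring R) : Set Vtx) := by
    intro a _ b _ hab
    unfold sm at hab
    simp only [Prod.mk.injEq] at hab
    have hs0 : (s:ℤ) ≠ 0 := by exact_mod_cast (by omega : s ≠ 0)
    exact Prod.ext (mul_left_cancel₀ hs0 hab.1) (mul_left_cancel₀ hs0 hab.2)
  have htot : Rch q l ρ z (∑ v ∈ ring R, (c' v : ℤ) * (R * s : ℕ))
      (V0 δ + ∑ v ∈ ring R, c' v * EL q l ρ (sm s v)) := by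
    have hgen : ∀ I ⊆ ring R, Rch q l ρ (∑ v ∈ I, sm (c' v) (sm s v))
        (∑ v ∈ I, (c' v : ℤ) * (R * s : ℕ)) (V0 δ + ∑ v ∈ I, c' v * EL q l ρ (sm s v)) := by
      intro I
      induction I using Finset.induction_on with
      | empty => intro _; simpa using hbase
      | insert a I ha ih =>
        intro hI
        have hbb := hbs a (hI (Finset.mem_insert_self _ _))
        have h2 := (ih ((Finset.subset_insert _ _).trans hI)).steps h0 h1 hl
          (y := sm s a) (by rw [hbb]; exact hρ1) (c' a)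
        rw [hbb] at h2
        rw [Finset.sum_insert ha, Finset.sum_insert ha, Finset.sum_insert ha,
          add_comm (sm (c' a) (sm s a)), add_comm ((c' a : ℤ) * _), add_comm ((c' a : ℝ) * _),
          ← add_assoc]
        exact h2
    rw [hz]
    exact hgen _ (Finset.Subset.refl _)
  -- the coordinates
  obtain ⟨E1, hE1⟩ : ∃ E1 : ℝ, E1 = (2 * R + 1) ^ 2 * (s * R) + θ * M + 1 := ⟨_, rfl⟩
  have hcardr : ((ring R).card : ℝ) ≤ (2 * R + 1) ^ 2 := by exact_mod_cast card_ring R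
  have hcoord : ∀ (φ : Vtx →+ ℤ) (xi : ℝ), (∀ n v, φ (sm n v) = n * φ v) →
      (∀ v ∈ ring R, |(φ v : ℝ)| ≤ R) → |(s:ℝ) * (φ (κ J) - φ (κ 0)) - ν * xi| ≤ θ * ν →
      |((φ z : ℤ) : ℝ) - ⌊(M:ℝ) * xi⌋| ≤ E1 := by
    intro φ xi hφ hφR hxi
    have e1 : ((φ z : ℤ) : ℝ) = ∑ v ∈ ring R, (c' v : ℝ) * (s * φ v) := by
      rw [hz, map_sum]
      push_cast
      apply Finset.sum_congr rfl
      intro v _
      rw [hφ, hφ]
      push_cast
      ring
    have e2 : (s:ℝ) * (φ (κ J) - φ (κ 0)) = ∑ v ∈ ring R, (c v : ℝ) * (s * φ v) := by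
      rw [← hsumw (fun v => (s:ℝ) * φ v), ← Finset.mul_sum]
      congr 1
      have h2 : φ (κ J) - φ (κ 0) = ∑ j ∈ Finset.range J, φ (w j) := by
        rw [← map_sub, ← map_sum]
        congr 1
        rw [hw, Finset.sum_range_sub]
      exact_mod_cast h2
    have h2 : |((φ z : ℤ) : ℝ) - M / ν * ((s:ℝ) * (φ (κ J) - φ (κ 0)))| ≤
        (2 * R + 1) ^ 2 * (s * R) := by
      rw [e1, e2, Finset.mul_sum, ← Finset.sum_sub_distrib]
      refine (Finset.abs_sum_le_sum_abs _ _).trans ?_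
      have h3 : ∀ v ∈ ring R, |(c' v : ℝ) * (s * φ v) - M / ν * (c v * (s * φ v))| ≤ s * R := by
        intro v hv
        have e3 : (c' v : ℝ) * (s * φ v) - M / ν * (c v * (s * φ v)) =
            (c' v - c v * (M / ν)) * (s * φ v) := by ring
        rw [e3, abs_mul, abs_mul, abs_of_nonneg (show (0:ℝ) ≤ s by positivity)]
        have h4 : |(c' v : ℝ) - c v * (M / ν)| ≤ 1 := by
          rw [abs_le]
          have := hc1 v
          have := hc2 v
          constructor <;> linarith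
        calc |(c' v : ℝ) - c v * (M / ν)| * (s * |(φ v : ℝ)|) ≤ 1 * (s * R) := by
              apply mul_le_mul h4 _ (by positivity) (by norm_num)
              exact mul_le_mul_of_nonneg_left (hφR v hv) (by positivity)
          _ = _ := one_mul _
      refine (Finset.sum_le_sum h3).trans ?_
      rw [Finset.sum_const, nsmul_eq_mul]
      exact mul_le_mul_of_nonneg_right hcardr (by positivity)
    have h3 : |M / ν * ((s:ℝ) * (φ (κ J) - φ (κ 0))) - M * xi| ≤ θ * M := by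
      have e3 : M / ν * ((s:ℝ) * (φ (κ J) - φ (κ 0))) - M * xi =
          M / ν * ((s:ℝ) * (φ (κ J) - φ (κ 0)) - ν * xi) := by
        field_simp
      rw [e3, abs_mul, abs_of_nonneg hMν]
      calc M / ν * |(s:ℝ) * (φ (κ J) - φ (κ 0)) - ν * xi| ≤ M / ν * (θ * ν) :=
            mul_le_mul_of_nonneg_left hxi hMν
        _ = θ * M := by field_simp
    have h4 : |(M:ℝ) * xi - ⌊(M:ℝ) * xi⌋| ≤ 1 := by
      rw [abs_le]
      have := Int.floor_le ((M:ℝ) * xi)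
      have := Int.lt_floor_add_one ((M:ℝ) * xi)
      constructor <;> linarith
    have h5 : ((φ z : ℤ) : ℝ) - ⌊(M:ℝ) * xi⌋ =
        (((φ z : ℤ) : ℝ) - M / ν * ((s:ℝ) * (φ (κ J) - φ (κ 0)))) +
        (M / ν * ((s:ℝ) * (φ (κ J) - φ (κ 0))) - M * xi) + ((M:ℝ) * xi - ⌊(M:ℝ) * xi⌋) := by ring
    rw [h5, hE1]
    refine (abs_add_le _ _).trans ?_
    have := abs_add_le (((φ z : ℤ) : ℝ) - M / ν * ((s:ℝ) * (φ (κ J) - φ (κ 0))))
      (M / ν * ((s:ℝ) * (φ (κ J) - φ (κ 0))) - M * xi)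
    linarith
  have hringb : ∀ v ∈ ring R, |(v.1 : ℝ)| ≤ R ∧ |(v.2 : ℝ)| ≤ R := by
    intro v hv
    rw [mem_ring] at hv
    have := (bdd_le (a := 0) (b := v)).mp hv.le
    simp only [Prod.fst_zero, Prod.snd_zero] at this
    constructor
    · rw [abs_le]
      constructor
      · have : -(R:ℤ) ≤ v.1 := by omega
        exact_mod_cast this
      · have : v.1 ≤ (R:ℤ) := by omega
        exact_mod_cast this
    · rw [abs_le]
      constructor
      · have : -(R:ℤ) ≤ v.2 := by omega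
        exact_mod_cast this
      · have : v.2 ≤ (R:ℤ) := by omega
        exact_mod_cast this
  have hco1 := hcoord (AddMonoidHom.fst ℤ ℤ) x.1 (fun n v => rfl) (fun v hv => (hringb v hv).1) hx1
  have hco2 := hcoord (AddMonoidHom.snd ℤ ℤ) x.2 (fun n v => rfl) (fun v hv => (hringb v hv).2) hx2
  simp only [AddMonoidHom.coe_fst, AddMonoidHom.coe_snd] at hco1 hco2
  -- the last step
  obtain ⟨y, hy⟩ : ∃ y : Vtx, y = flr x M - z := ⟨_, rfl⟩
  have hzy : flr x M = z + y := by rw [hy]; abel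
  obtain ⟨n1, hn1⟩ : ∃ n1 : ℕ, n1 = ⌈E1⌉₊ := ⟨_, rfl⟩
  have hE1pos : 0 ≤ E1 := by rw [hE1]; positivity
  have hn1a : E1 ≤ n1 := by rw [hn1]; exact Nat.le_ceil _
  have hn1b : (n1:ℝ) < E1 + 1 := by rw [hn1]; exact Nat.ceil_lt_add_one hE1pos
  have hby : bdd 0 y ≤ n1 := by
    unfold bdd
    simp only [Prod.fst_zero, Prod.snd_zero, zero_sub, abs_neg]
    apply max_le
    · have : |((y.1 : ℤ) : ℝ)| ≤ n1 := by
        rw [hy]
        unfold flr
        simp only [Prod.fst_sub]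
        push_cast
        rw [abs_sub_comm]
        exact hco1.trans hn1a
      exact_mod_cast this
    · have : |((y.2 : ℤ) : ℝ)| ≤ n1 := by
        rw [hy]
        unfold flr
        simp only [Prod.snd_sub]
        push_cast
        rw [abs_sub_comm]
        exact hco2.trans hn1a
      exact_mod_cast this
  have hlen : (∑ v ∈ ring R, (c' v : ℤ) * ((R * s : ℕ) : ℤ)) ≤ ((K * M : ℕ) : ℤ) := by
    have h2 : (∑ v ∈ ring R, (c' v : ℝ) * ((R * s : ℕ) : ℝ)) ≤ ((K * M : ℕ) : ℝ) := by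
      have h3 : ∑ v ∈ ring R, (c v : ℝ) = J := by
        have := hsumw (fun _ => 1)
        simp only [mul_one, Finset.sum_const, Finset.card_range, nsmul_eq_mul] at this
        exact this.symm
      calc ∑ v ∈ ring R, (c' v : ℝ) * ((R * s : ℕ) : ℝ)
          ≤ ∑ v ∈ ring R, ((c v : ℝ) * (M / ν)) * ((R * s : ℕ) : ℝ) := by
            apply Finset.sum_le_sum
            intro v _
            exact mul_le_mul_of_nonneg_right (hc1 v) (by positivity)
        _ = (∑ v ∈ ring R, (c v : ℝ)) * ((M / ν) * ((R * s : ℕ) : ℝ)) := by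
            rw [Finset.sum_mul]
            apply Finset.sum_congr rfl
            intros; ring
        _ = ((J:ℝ) * (R * s)) * (M / ν) := by rw [h3]; push_cast; ring
        _ ≤ (K * ν) * (M / ν) := mul_le_mul_of_nonneg_right hJ hMν
        _ = ((K * M : ℕ) : ℝ) := by push_cast; field_simp
    exact_mod_cast h2
  have hnM : (n1:ℤ) + 1 ≤ 3 * M := by
    have h2 : (n1:ℝ) + 1 < 3 * M + 1 := by
      have h3 : θ * M ≤ M := by nlinarith
      have h4 : (0:ℝ) ≤ (R + 3) * s := by positivity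
      rw [hE1] at hn1b
      linarith
    have h3 : n1 + 1 < 3 * M + 1 := by exact_mod_cast h2
    have h4 : n1 + 1 ≤ 3 * M := by omega
    exact_mod_cast h4
  have hρM : ρ ≤ 3 * M := by
    rw [hρ]
    have : (R + 3) * s ≤ 3 * M := by omega
    exact_mod_cast this
  have eKM : (((K + 3) * M : ℕ) : ℤ) = ((K * M : ℕ) : ℤ) + 3 * M := by push_cast; ring
  rw [hzy]
  have hz1 : bdd 0 z ≤ ((K * M : ℕ) : ℤ) := htot.1.trans hlen
  have hM1 : (1:ℤ) ≤ 3 * M := by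
    have : 3 ≤ M := by omega
    omega
  refine (EL_add h0 h1 hl (r := (((K + 3) * M : ℕ) : ℤ)) (r' := (n1:ℤ) + 1) ?_ ?_ le_rfl ?_).trans ?_
  · rw [eKM]; omega
  · omega
  · rw [eKM]; omega
  · have g1 := htot.2 (((K + 3) * M : ℕ) : ℤ) (by rw [eKM]; omega)
    have g2 := EL_le h0 h1 hl hδ hδ1 hh1 hby (r := (n1:ℤ) + 1) le_rfl
    have g3 : ∑ v ∈ ring R, (c' v : ℝ) * EL q l ρ (sm s v) ≤
        M / ν * ∑ j ∈ Finset.range J, EL q l ρ (sm s (κ (j + 1) - κ j)) := by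
      have h2 := hsumw (fun v => EL q l ρ (sm s v))
      rw [hw] at h2
      simp only at h2
      rw [h2, Finset.mul_sum]
      apply Finset.sum_le_sum
      intro v _
      calc (c' v : ℝ) * EL q l ρ (sm s v) ≤ (c v * (M / ν)) * EL q l ρ (sm s v) :=
            mul_le_mul_of_nonneg_right (hc1 v) (EL_nonneg h0 h1 _ _ _)
        _ = _ := by ring
    have g4 : (4 * (n1:ℝ) + 1) * V0 δ ≤ (4 * (E1 + 1) + 1) * V0 δ :=
      mul_le_mul_of_nonneg_right (by linarith) hV.le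
    have g5 : V0 δ * (4 * ((2 * R + 1) ^ 2 * (s * R) + θ * M + 2) + 2) =
        V0 δ + (4 * (E1 + 1) + 1) * V0 δ := by rw [hE1]; ring
    rw [g5]
    linarith

end Pool.Agent.Helper59_BN
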