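import Pool.Agent.H974R2.Model

/-!
Right-most paths, their right boundary, the boundary norm of percolation, and passage times on
the dual lattice: definitions.
-/

namespace Pool.Agent.Helper59_BN

/-- The four unit vectors of the square lattice, in counter-clockwise order. -/
def dir : Fin 4 → ℤ × ℤ
  | 0 => (1, 0)
  | 1 => (0, 1)
  | 2 => (-1, 0)
  | 3 => (0, -1)

/-- `a`, `b`, `w` are neighbours of `v`, and the oriented edge `(v, w)` is passed when one turns
counter-clockwise from `(v, a)` to `(v, b)`, both excluded (a full turn if `a = b`). -/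
def Between (v a b w : ℤ × ℤ) : Prop :=
  ∃ (d : Fin 4) (j k : ℕ), 0 < k ∧ k < j ∧ j ≤ 4 ∧
    a = v + dir d ∧ b = v + dir (d + Fin.ofNat 4 j) ∧ w = v + dir (d + Fin.ofNat 4 k)

/-- The path `x 0, x 1, ..., x n` uses only open edges; `R` is the relation of being joined by an
open edge. -/
def OpenPath (R : ℤ × ℤ → ℤ × ℤ → Prop) (x : ℕ → ℤ × ℤ) (n : ℕ) : Prop :=
  ∀ i < n, R (x i) (x (i + 1))

/-- The right boundary of the path `x 0, ..., x n`: the oriented edges which leave an interior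
visit `x i` and are passed when one turns counter-clockwise from `(x i, x (i - 1))` to
`(x i, x (i + 1))`. -/
def rbd (x : ℕ → ℤ × ℤ) (n : ℕ) : Set ((ℤ × ℤ) × (ℤ × ℤ)) :=
  {e | ∃ i, 0 < i ∧ i < n ∧ e.1 = x i ∧ Between (x i) (x (i - 1)) (x (i + 1)) e.2}

/-- The path `x 0, ..., x n` is right-most: it uses each edge at most once in each direction and
it uses no edge of its right boundary, in either orientation. -/
def RightMost (x : ℕ → ℤ × ℤ) (n : ℕ) : Prop :=
  (∀ i j, i < j → j < n → (x i, x (i + 1)) ≠ (x j, x (j + 1))) ∧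
    ∀ i < n, (x i, x (i + 1)) ∉ rbd x n ∧ (x (i + 1), x i) ∉ rbd x n

/-- The number of open edges in the right boundary. -/
noncomputable def bcost (R : ℤ × ℤ → ℤ × ℤ → Prop) (x : ℕ → ℤ × ℤ) (n : ℕ) : ℕ :=
  {e | e ∈ rbd x n ∧ R e.1 e.2}.ncard

/-- The boundary distance: the infimum of `bcost` over the open right-most paths from `u` to
`v`. -/
noncomputable def bdist (R : ℤ × ℤ → ℤ × ℤ → Prop) (u v : ℤ × ℤ) : ℕ :=
  sInf {k | ∃ (x : ℕ → ℤ × ℤ) (n : ℕ), x 0 = u ∧ x n = v ∧ OpenPath R x n ∧ RightMost x n ∧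
    bcost R x n = k}

/-- The lattice edge which is crossed by the step from the face `f` to the face `f + dir k`. The
face `f` is the unit square with lower left corner `f`. -/
def crossed (f : ℤ × ℤ) : Fin 4 → (ℤ × ℤ) × (ℤ × ℤ)
  | 0 => ((f.1 + 1, f.2), (f.1 + 1, f.2 + 1))
  | 1 => ((f.1, f.2 + 1), (f.1 + 1, f.2 + 1))
  | 2 => ((f.1, f.2), (f.1, f.2 + 1))
  | 3 => ((f.1, f.2), (f.1 + 1, f.2))

/-- The passage time from the face `f` to the face `g`: the least number of open edges crossed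
(counted with multiplicity) by a nearest-neighbour path of faces from `f` to `g`. -/
noncomputable def passageTime (R : ℤ × ℤ → ℤ × ℤ → Prop) (f g : ℤ × ℤ) : ℕ :=
  sInf {c | ∃ (y : ℕ → ℤ × ℤ) (k : ℕ → Fin 4) (n : ℕ), y 0 = f ∧ y n = g ∧
    (∀ i < n, y (i + 1) = y i + dir (k i)) ∧
    c = {i | i < n ∧ R (crossed (y i) (k i)).1 (crossed (y i) (k i)).2}.ncard}

/-- The vertices of the infinite open cluster (the vertices whose open cluster is infinite). -/
def infCluster (ω : H974.sqLattice.edgeSet → Bool) : Set (ℤ × ℤ) :=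
  {v | {w | (H974.openGraph ω).Reachable v w}.Infinite}

/-- `v` is a vertex of the infinite cluster which is closest to the point `x` of the plane in the
maximum norm (the norm of `ℝ × ℝ`). -/
def IsNearest (ω : H974.sqLattice.edgeSet → Bool) (x : ℝ × ℝ) (v : ℤ × ℤ) : Prop :=
  v ∈ infCluster ω ∧ ∀ w ∈ infCluster ω,
    ‖(((v.1 : ℝ), (v.2 : ℝ)) : ℝ × ℝ) - x‖ ≤ ‖(((w.1 : ℝ), (w.2 : ℝ)) : ℝ × ℝ) - x‖

/-- `β` is the boundary norm at parameter `p`: for every `x`, almost surely, for some choice of a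
nearest vertex `v n` of the infinite cluster to `n x`, the boundary distance of `v 0` and `v n`
divided by `n` converges to `β x`. -/
def IsBoundaryNorm (p : unitInterval) (β : ℝ × ℝ → ℝ) : Prop :=
  ∀ x : ℝ × ℝ, ∀ᵐ ω ∂H974.bondLaw p, ∃ v : ℕ → ℤ × ℤ,
    (∀ n : ℕ, IsNearest ω ((n:ℝ) • x) (v n)) ∧
    Filter.Tendsto (fun n : ℕ => (bdist (H974.openGraph ω).Adj (v 0) (v n) : ℝ) / n) Filter.atTop
      (nhds (β x))

/-- The Wulff crystal of `β`. -/
def wulff (β : ℝ × ℝ → ℝ) : Set (ℝ × ℝ) :=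
  {x | ∀ y : ℝ × ℝ, x.1 * y.1 + x.2 * y.2 ≤ β y}

/-- The closed Euclidean disc of radius `r` around the origin. -/
def disc (r : ℝ) : Set (ℝ × ℝ) := {x | x.1 ^ 2 + x.2 ^ 2 ≤ r ^ 2}

end Pool.Agent.Helper59_BN
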