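import Pool.Agent.Helper59_BN.Lower

/-!
The right-hand walker: it follows the open edges of `G` and keeps the closed edges on its right.
-/

namespace Pool.Agent.Helper59_BN

open H974

open Classical in
/-- The direction in which the walker leaves `w`, when `d` is the direction of the vertex it comes
from: the first edge of `G` counter-clockwise after `d`. -/
noncomputable def outd (G : Set Edg) (w : Vtx) (d : Fin 4) : Fin 4 :=
  if ed w (d + 1) ∈ G then d + 1 else if ed w (d + 2) ∈ G then d + 2 else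
    if ed w (d + 3) ∈ G then d + 3 else d

/-- One step of the walker. -/
noncomputable def nx (G : Set Edg) (s : Vtx × Fin 4) : Vtx × Fin 4 :=
  (s.1 + dir (outd G s.1 s.2), outd G s.1 s.2 + 2)

theorem outd_1 {G : Set Edg} {w : Vtx} {d : Fin 4} (h : ed w (d + 1) ∈ G) :
    outd G w d = d + 1 := by
  unfold outd; rw [if_pos h]

theorem outd_2 {G : Set Edg} {w : Vtx} {d : Fin 4} (h1 : ed w (d + 1) ∉ G)
    (h : ed w (d + 2) ∈ G) : outd G w d = d + 2 := by
  unfold outd; rw [if_neg h1, if_pos h]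

theorem outd_3 {G : Set Edg} {w : Vtx} {d : Fin 4} (h1 : ed w (d + 1) ∉ G)
    (h2 : ed w (d + 2) ∉ G) (h : ed w (d + 3) ∈ G) : outd G w d = d + 3 := by
  unfold outd; rw [if_neg h1, if_neg h2, if_pos h]

theorem outd_4 {G : Set Edg} {w : Vtx} {d : Fin 4} (h1 : ed w (d + 1) ∉ G)
    (h2 : ed w (d + 2) ∉ G) (h3 : ed w (d + 3) ∉ G) : outd G w d = d := by
  unfold outd; rw [if_neg h1, if_neg h2, if_neg h3]

theorem outd_mem {G : Set Edg} {w : Vtx} {d : Fin 4} (h : ed w d ∈ G) :
    ed w (outd G w d) ∈ G := by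
  by_cases h1 : ed w (d + 1) ∈ G
  · rw [outd_1 h1]; exact h1
  · by_cases h2 : ed w (d + 2) ∈ G
    · rw [outd_2 h1 h2]; exact h2
    · by_cases h3 : ed w (d + 3) ∈ G
      · rw [outd_3 h1 h2 h3]; exact h3
      · rw [outd_4 h1 h2 h3]; exact h

theorem outd_turn (G : Set Edg) (w : Vtx) (d : Fin 4) :
    ∃ j : ℕ, 0 < j ∧ j ≤ 4 ∧ outd G w d = d + Fin.ofNat 4 j ∧
      ∀ k : ℕ, 0 < k → k < j → ed w (d + Fin.ofNat 4 k) ∉ G := by
  by_cases h1 : ed w (d + 1) ∈ G
  · refine ⟨1, by omega, by omega, by rw [outd_1 h1]; rfl, fun k hk hk' => by omega⟩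
  · by_cases h2 : ed w (d + 2) ∈ G
    · refine ⟨2, by omega, by omega, by rw [outd_2 h1 h2]; rfl, fun k hk hk' => ?_⟩
      have : k = 1 := by omega
      subst this; exact h1
    · by_cases h3 : ed w (d + 3) ∈ G
      · refine ⟨3, by omega, by omega, by rw [outd_3 h1 h2 h3]; rfl, fun k hk hk' => ?_⟩
        have : k = 1 ∨ k = 2 := by omega
        rcases this with rfl | rfl
        · exact h1
        · exact h2
      · refine ⟨4, by omega, by omega, ?_, fun k hk hk' => ?_⟩
        · rw [outd_4 h1 h2 h3]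
          have : Fin.ofNat 4 4 = 0 := rfl
          rw [this, add_zero]
        · have : k = 1 ∨ k = 2 ∨ k = 3 := by omega
          rcases this with rfl | rfl | rfl
          · exact h1
          · exact h2
          · exact h3

/-- Boolean version of `outd`. -/
def outB (f : Fin 4 → Bool) (d : Fin 4) : Fin 4 :=
  if f (d + 1) then d + 1 else if f (d + 2) then d + 2 else if f (d + 3) then d + 3 else d

theorem outB_inj : ∀ (f : Fin 4 → Bool) (d d' : Fin 4), f d = true → f d' = true →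
    outB f d = outB f d' → d = d' := by
  decide

open Classical in
theorem outd_eq_outB (G : Set Edg) (w : Vtx) (d : Fin 4) :
    outd G w d = outB (fun k => decide (ed w k ∈ G)) d := by
  unfold outd outB
  simp only [decide_eq_true_eq]

theorem outd_inj {G : Set Edg} {w : Vtx} {d d' : Fin 4} (h : ed w d ∈ G) (h' : ed w d' ∈ G)
    (he : outd G w d = outd G w d') : d = d' := by
  classical
  rw [outd_eq_outB, outd_eq_outB] at he
  exact outB_inj _ d d' (by simpa using h) (by simpa using h') he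

/-- Valid states. -/
def Val (G : Set Edg) (s : Vtx × Fin 4) : Prop := ed s.1 s.2 ∈ G

theorem nx_val {G : Set Edg} {s : Vtx × Fin 4} (h : Val G s) : Val G (nx G s) := by
  unfold Val nx
  simp only
  rw [ed_opp]
  exact outd_mem h

theorem nx_inj {G : Set Edg} {s s' : Vtx × Fin 4} (h : Val G s) (h' : Val G s')
    (he : nx G s = nx G s') : s = s' := by
  obtain ⟨w, d⟩ := s
  obtain ⟨w', d'⟩ := s'
  unfold nx at he
  simp only [Prod.mk.injEq] at he
  obtain ⟨h1, h2⟩ := he
  have h3 : outd G w d = outd G w' d' := by simpa using h2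
  rw [h3] at h1
  have h4 : w = w' := by simpa using h1
  subst h4
  exact Prod.ext rfl (outd_inj h h' h3)

theorem ed_inj (k : Fin 4) : Function.Injective (fun v => ed v k) := by
  rintro ⟨x, y⟩ ⟨x', y'⟩ h
  fin_cases k <;> simp [ed] at h ⊢ <;> omega

theorem val_finite {G : Set Edg} (hG : G.Finite) : {s | Val G s}.Finite := by
  have h1 : {s : Vtx × Fin 4 | Val G s} ⊆
      ⋃ k : Fin 4, (fun v => (v, k)) '' ((fun v => ed v k) ⁻¹' G) := by
    rintro ⟨v, k⟩ h
    rw [Set.mem_iUnion]
    exact ⟨k, v, h, rfl⟩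
  refine Set.Finite.subset (Set.finite_iUnion (fun k => ?_)) h1
  exact (hG.preimage (ed_inj k).injOn).image _

/-- The walker comes back. -/
theorem orbit_back {G : Set Edg} (hG : G.Finite) {a b : Vtx × Fin 4} (ha : Val G a) {j : ℕ}
    (h : (nx G)^[j] a = b) : ∃ n, (nx G)^[n] b = a := by
  classical
  have hfin : Finite {s : Vtx × Fin 4 // Val G s} := (val_finite hG).to_subtype
  set f : {s : Vtx × Fin 4 // Val G s} → {s : Vtx × Fin 4 // Val G s} :=
    fun s => ⟨nx G s.1, nx_val s.2⟩ with hf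
  have hinj : Function.Injective f := by
    rintro ⟨s, hs⟩ ⟨s', hs'⟩ h
    simp only [hf, Subtype.mk.injEq] at h
    exact Subtype.ext (nx_inj hs hs' h)
  have hit : ∀ (n : ℕ) (s : {s : Vtx × Fin 4 // Val G s}), (f^[n] s).1 = (nx G)^[n] s.1 := by
    intro n
    induction n with
    | zero => intro s; rfl
    | succ n ih => intro s; rw [Function.iterate_succ_apply, Function.iterate_succ_apply, ih]
  have hper := hinj.mem_periodicPts (x := ⟨a, ha⟩)
  obtain ⟨p, hp0, hp⟩ := hper
  have hp' : (nx G)^[p] a = a := by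
    have := congrArg Subtype.val hp
    rw [hit] at this
    exact this
  have hmul : ∀ q : ℕ, (nx G)^[p * q] a = a := by
    intro q
    induction q with
    | zero => rfl
    | succ q ih => rw [Nat.mul_succ, Function.iterate_add_apply, hp', ih]
  refine ⟨p * j - j, ?_⟩
  rw [← h, ← Function.iterate_add_apply]
  have h1 : j ≤ p * j := Nat.le_mul_of_pos_left _ hp0
  rw [Nat.sub_add_cancel h1]
  exact hmul j

/-- The states visited by the walker. -/
noncomputable def st (G : Set Edg) (s0 : Vtx × Fin 4) (i : ℕ) : Vtx × Fin 4 := (nx G)^[i] s0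

theorem st_succ (G : Set Edg) (s0 : Vtx × Fin 4) (i : ℕ) :
    st G s0 (i + 1) = nx G (st G s0 i) := Function.iterate_succ_apply' _ _ _

theorem st_val {G : Set Edg} {s0 : Vtx × Fin 4} (h : Val G s0) (i : ℕ) : Val G (st G s0 i) := by
  induction i with
  | zero => exact h
  | succ i ih => rw [st_succ]; exact nx_val ih

/-- The outgoing direction at time `i`. -/
noncomputable def od (G : Set Edg) (s0 : Vtx × Fin 4) (i : ℕ) : Fin 4 :=
  outd G (st G s0 i).1 (st G s0 i).2

theorem st_fst_succ (G : Set Edg) (s0 : Vtx × Fin 4) (i : ℕ) :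
    (st G s0 (i + 1)).1 = (st G s0 i).1 + dir (od G s0 i) := by rw [st_succ]; rfl

theorem st_snd_succ (G : Set Edg) (s0 : Vtx × Fin 4) (i : ℕ) :
    (st G s0 (i + 1)).2 = od G s0 i + 2 := by rw [st_succ]; rfl

theorem st_back (G : Set Edg) (s0 : Vtx × Fin 4) (i : ℕ) :
    (st G s0 i).1 = (st G s0 (i + 1)).1 + dir (st G s0 (i + 1)).2 := by
  rw [st_fst_succ, st_snd_succ, dir_opp]

theorem st_adj {G : Set Edg} {s0 : Vtx × Fin 4} (h : Val G s0) (i : ℕ) :
    Adj G (st G s0 i).1 (st G s0 (i + 1)).1 := by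
  rw [st_fst_succ, adj_dir]
  exact outd_mem (st_val h i)

/-- The right boundary of a piece of the walk consists of edges which are not in `G`. -/
theorem st_rbd {G : Set Edg} {s0 : Vtx × Fin 4} {a n : ℕ} {e : Vtx × Vtx}
    (he : e ∈ rbd (fun i => (st G s0 (a + i)).1) n) :
    ∃ i, 0 < i ∧ i < n ∧ e.1 = (st G s0 (a + i)).1 ∧
      ∃ k, e.2 = (st G s0 (a + i)).1 + dir k ∧ ed (st G s0 (a + i)).1 k ∉ G := by
  obtain ⟨i, hi1, hi2, h1, h2⟩ := he
  simp only at h1 h2
  refine ⟨i, hi1, hi2, h1, ?_⟩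
  obtain ⟨l, hl⟩ : ∃ l, a + i = l + 1 := ⟨a + i - 1, by omega⟩
  have e1 : a + (i - 1) = l := by omega
  have e2 : a + (i + 1) = (l + 1) + 1 := by omega
  rw [hl, e1, e2, st_back G s0 l, st_fst_succ G s0 (l + 1), between_iff] at h2
  rw [hl]
  obtain ⟨j, k, hk1, hk2, hj4, ho, hw⟩ := h2
  obtain ⟨j', hj1, hj2, hj3, hj5⟩ := outd_turn G (st G s0 (l + 1)).1 (st G s0 (l + 1)).2
  have hjj : j = j' := by
    have h3 : (st G s0 (l + 1)).2 + Fin.ofNat 4 j = (st G s0 (l + 1)).2 + Fin.ofNat 4 j' := by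
      rw [← ho, ← hj3]; rfl
    have h4 : Fin.ofNat 4 j = Fin.ofNat 4 j' := by simpa using h3
    have h5 : j % 4 = j' % 4 := congrArg Fin.val h4
    omega
  subst hjj
  exact ⟨_, hw, hj5 k hk1 hk2⟩

end Pool.Agent.Helper59_BN
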