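import Pool.Agent.H974R2.Cross
import Pool.Agent.Helper59_BN.Walk

/-!
A rectangle cut by a dual path from its bottom side to its top side, and the walker along the left
side of the cut.
-/

namespace Pool.Agent.Helper59_BN

open H974

/-- The rectangle `[-W, W] × [c, d]` and the edges `Cr` crossed by a dual path from its bottom
side to its top side. -/
structure Dom (W c d s t : ℤ) (Cr : Set Edg) : Prop where
  hcd : c + 2 ≤ d
  hs : -W < s ∧ s < W
  ht : -W < t ∧ t < W
  sub : Cr ⊆ ↑(LRE (-W) W c d)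
  bot : ∀ x, ((x, c, true) : Edg) ∈ Cr → x = s
  bot' : ((s, c, true) : Edg) ∈ Cr
  top : ∀ x, ((x, d, true) : Edg) ∈ Cr → x = t
  path : DReach Cr (s, c - 1) (t, d)

/-- The left part of the rectangle. -/
def LA (W c d : ℤ) (Cr : Set Edg) (v : Vtx) : Prop :=
  inR (-W) W c d v ∧ Reach (↑(RE (-W) W c d) \ Cr) (-W, c) v

theorem LA.inR {W c d : ℤ} {Cr : Set Edg} {v : Vtx} (h : LA W c d Cr v) :
    H974.inR (-W) W c d v := h.1

theorem LA.step {W c d : ℤ} {Cr : Set Edg} {v : Vtx} {k : Fin 4} (h : LA W c d Cr v)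
    (he : ed v k ∈ RE (-W) W c d) (hc : ed v k ∉ Cr) : LA W c d Cr (v + dir k) := by
  refine ⟨?_, h.2.trans (Adj.reach (adj_dir.mpr ⟨he, hc⟩))⟩
  obtain ⟨x, y⟩ := v
  have h1 := h.1
  unfold H974.inR at h1 ⊢
  fin_cases k <;> simp [ed, dir] at he ⊢ <;> simp only at h1 <;> omega

theorem Dom.sep {W c d s t : ℤ} {Cr : Set Edg} (D : Dom W c d s t Cr) {y : ℤ}
    (h : LA W c d Cr (W, y)) : False := by
  have hW : -W < W := by have := D.hs; omega
  obtain ⟨y1, y2, h1, h2, h3, -⟩ := sub_LR (a := -W) (b := W) (c := c) (d := d) hW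
    (by rintro x y ⟨h, -⟩ _ _; simp only [Finset.mem_coe, mem_RE_true] at h; omega)
    (by rintro x y ⟨h, -⟩ _ _; simp only [Finset.mem_coe, mem_RE_false] at h; omega) h.2 le_rfl
    le_rfl
  refine no_both (F := Crᶜ) (by have := D.hcd; omega) h2 (x := s) (x' := t)
    ⟨D.hs.1.le, D.hs.2⟩ (h3.mono ?_) ?_
  · rintro e ⟨⟨h4, h5⟩, h6⟩
    exact ⟨h5, h6⟩
  · rw [compl_compl]
    refine DReach.mono ?_ D.path
    intro e he
    exact ⟨he, D.sub he⟩

theorem Dom.left {W c d s t : ℤ} {Cr : Set Edg} (D : Dom W c d s t Cr) {y : ℤ} (h1 : c ≤ y)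
    (h2 : y ≤ d) : LA W c d Cr (-W, y) := by
  have hs := D.hs
  have key : ∀ n : ℕ, c + n ≤ d → LA W c d Cr (-W, c + n) := by
    intro n
    induction n with
    | zero =>
      intro _
      refine ⟨?_, ?_⟩
      · unfold H974.inR; simp only; have := D.hcd; push_cast; omega
      · simp only [Nat.cast_zero, add_zero]; exact Reach.refl _ _
    | succ n ih =>
      intro hn
      push_cast at hn ⊢
      have h3 := (ih (by omega)).step (k := 1) (by
        simp only [ed, mem_RE_false]; omega) (by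
        intro h
        have := D.sub h
        simp only [ed, Finset.mem_coe, mem_LRE_false] at this
        omega)
      have e : ((-W, c + (n:ℤ)) : ℤ × ℤ) + dir 1 = (-W, c + (n + 1)) := by
        simp [dir]; ring
      rwa [e] at h3
  obtain ⟨n, hn⟩ := Int.eq_ofNat_of_zero_le (sub_nonneg.mpr h1)
  have := key n (by omega)
  have e : c + (n:ℤ) = y := by omega
  rwa [e] at this

theorem Dom.row {W c d s t : ℤ} {Cr : Set Edg} {y u : ℤ} (D : Dom W c d s t Cr)
    (hy : c ≤ y ∧ y ≤ d) (hu : ∀ x, ((x, y, true) : Edg) ∈ Cr → x = u) {x x' : ℤ}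
    (h : LA W c d Cr (x, y)) (hxx : x ≤ x') (hx' : x' ≤ W) (hno : ∀ z, x ≤ z → z < x' → z ≠ u) :
    LA W c d Cr (x', y) := by
  obtain ⟨n, hn⟩ := Int.eq_ofNat_of_zero_le (sub_nonneg.mpr hxx)
  have key : ∀ m : ℕ, x + m ≤ x' → LA W c d Cr (x + m, y) := by
    intro m
    induction m with
    | zero => intro _; simpa using h
    | succ m ih =>
      intro hm
      push_cast at hm ⊢
      have h1 := h.1
      unfold H974.inR at h1
      simp only at h1
      have h3 := (ih (by omega)).step (k := 0) (by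
        simp only [ed, mem_RE_true]; omega) (by
        intro hc
        have := hu _ hc
        exact hno _ (by omega) (by omega) this)
      have e : ((x + (m:ℤ), y) : ℤ × ℤ) + dir 0 = (x + (m + 1), y) := by
        simp [dir]; ring
      rwa [e] at h3
  have := key n (by omega)
  have e : x + (n:ℤ) = x' := by omega
  rwa [e] at this

theorem Dom.bot_iff {W c d s t : ℤ} {Cr : Set Edg} (D : Dom W c d s t Cr) {x : ℤ}
    (hx : -W ≤ x ∧ x ≤ W) : LA W c d Cr (x, c) ↔ x ≤ s := by
  have hcd := D.hcd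
  have hs := D.hs
  constructor
  · intro h
    by_contra hcon
    push Not at hcon
    exact D.sep (D.row ⟨le_rfl, by omega⟩ D.bot h hx.2 le_rfl (fun z h1 h2 => by omega))
  · intro h
    exact D.row ⟨le_rfl, by omega⟩ D.bot (D.left le_rfl (by omega)) hx.1 hx.2
      (fun z h1 h2 => by omega)

theorem Dom.top_iff {W c d s t : ℤ} {Cr : Set Edg} (D : Dom W c d s t Cr) {x : ℤ}
    (hx : -W ≤ x ∧ x ≤ W) : LA W c d Cr (x, d) ↔ x ≤ t := by
  have hcd := D.hcd
  have ht := D.ht
  constructor
  · intro h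
    by_contra hcon
    push Not at hcon
    exact D.sep (D.row ⟨by omega, le_rfl⟩ D.top h hx.2 le_rfl (fun z h1 h2 => by omega))
  · intro h
    exact D.row ⟨by omega, le_rfl⟩ D.top (D.left (by omega) le_rfl) hx.1 hx.2
      (fun z h1 h2 => by omega)

/-- The edges used by the walker: the open edges of the left part, and the edges of the bottom,
left and top sides. -/
def WG (F : Set Edg) (W c d : ℤ) (Cr : Set Edg) : Set Edg :=
  {e | e ∈ RE (-W) W c d ∧ LA W c d Cr (src e) ∧ LA W c d Cr (tgt e) ∧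
    (e ∈ F ∨ (e.2.2 = true ∧ (e.2.1 = c ∨ e.2.1 = d)) ∨ (e.2.2 = false ∧ e.1 = -W))}

theorem WG_finite (F : Set Edg) (W c d : ℤ) (Cr : Set Edg) : (WG F W c d Cr).Finite :=
  (Finset.finite_toSet (RE (-W) W c d)).subset (fun _ h => h.1)

theorem ed_mem_WG {F : Set Edg} {W c d : ℤ} {Cr : Set Edg} {v : Vtx} {k : Fin 4} :
    ed v k ∈ WG F W c d Cr ↔ ed v k ∈ RE (-W) W c d ∧ LA W c d Cr v ∧
      LA W c d Cr (v + dir k) ∧ (ed v k ∈ F ∨ ((ed v k).2.2 = true ∧ ((ed v k).2.1 = c ∨
        (ed v k).2.1 = d)) ∨ ((ed v k).2.2 = false ∧ (ed v k).1 = -W)) := by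
  show (_ ∧ _ ∧ _ ∧ _) ↔ _
  rcases ed_ends v k with ⟨h1, h2⟩ | ⟨h1, h2⟩
  · rw [h1, h2]
  · rw [h1, h2]; tauto

/-- Reaching by the walker. -/
def Orb (G : Set Edg) (a b : Vtx × Fin 4) : Prop := ∃ n, (nx G)^[n] a = b

theorem Orb.refl (G : Set Edg) (a : Vtx × Fin 4) : Orb G a a := ⟨0, rfl⟩

theorem Orb.trans {G : Set Edg} {a b c : Vtx × Fin 4} (h1 : Orb G a b) (h2 : Orb G b c) :
    Orb G a c := by
  obtain ⟨n, rfl⟩ := h1
  obtain ⟨m, rfl⟩ := h2
  exact ⟨m + n, Function.iterate_add_apply _ _ _ _⟩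

theorem Orb.single {G : Set Edg} {a b : Vtx × Fin 4} (h : nx G a = b) : Orb G a b := ⟨1, h⟩

/-- The walk along the bottom row. -/
theorem Dom.orb_bot {F : Set Edg} {W c d s t : ℤ} {Cr : Set Edg} (D : Dom W c d s t Cr) {x : ℤ}
    (hx : -W < x) (hxs : x ≤ s) : Orb (WG F W c d Cr) ((x, c), 2) ((s, c), 2) := by
  have hcd := D.hcd
  have hs := D.hs
  obtain ⟨n, hn⟩ := Int.eq_ofNat_of_zero_le (sub_nonneg.mpr hxs)
  have key : ∀ m : ℕ, x + m ≤ s → Orb (WG F W c d Cr) ((x, c), 2) ((x + m, c), 2) := by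
    intro m
    induction m with
    | zero => intro _; simpa using Orb.refl _ _
    | succ m ih =>
      intro hm
      push_cast at hm ⊢
      refine (ih (by omega)).trans (Orb.single ?_)
      have h1 : ed (x + m, c) (2 + 1) ∉ WG F W c d Cr := by
        intro h
        have := h.1
        simp [ed] at this
      have h2 : ed (x + m, c) (2 + 2) ∈ WG F W c d Cr := by
        rw [ed_mem_WG]
        refine ⟨?_, (D.bot_iff (by omega)).mpr (by omega), ?_, ?_⟩
        · simp only [show (2:Fin 4) + 2 = 0 from rfl, ed, mem_RE_true]; omega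
        · have e : ((x + (m:ℤ), c) : ℤ × ℤ) + dir (2 + 2) = (x + m + 1, c) := by simp [dir]
          rw [e]
          exact (D.bot_iff (by omega)).mpr (by omega)
        · right; left; simp [ed]
      unfold nx
      simp only
      rw [outd_2 h1 h2]
      simp [dir]; ring
  have := key n (by omega)
  have e : x + (n:ℤ) = s := by omega
  rwa [e] at this

/-- The walk along the top row. -/
theorem Dom.orb_top {F : Set Edg} {W c d s t : ℤ} {Cr : Set Edg} (D : Dom W c d s t Cr) {x : ℤ}
    (hx : -W ≤ x) (hxt : x ≤ t) : Orb (WG F W c d Cr) ((x, d), 0) ((-W, d), 0) := by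
  have hcd := D.hcd
  have ht := D.ht
  obtain ⟨n, hn⟩ := Int.eq_ofNat_of_zero_le (sub_nonneg.mpr hx)
  have key : ∀ m : ℕ, -W ≤ x - m → Orb (WG F W c d Cr) ((x, d), 0) ((x - m, d), 0) := by
    intro m
    induction m with
    | zero => intro _; simpa using Orb.refl _ _
    | succ m ih =>
      intro hm
      push_cast at hm ⊢
      refine (ih (by omega)).trans (Orb.single ?_)
      have h1 : ed (x - m, d) (0 + 1) ∉ WG F W c d Cr := by
        intro h
        have := h.1
        simp [ed] at this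
      have h2 : ed (x - m, d) (0 + 2) ∈ WG F W c d Cr := by
        rw [ed_mem_WG]
        refine ⟨?_, (D.top_iff (by omega)).mpr (by omega), ?_, ?_⟩
        · simp only [zero_add, ed, mem_RE_true]; omega
        · have e : ((x - (m:ℤ), d) : ℤ × ℤ) + dir (0 + 2) = (x - m - 1, d) := by
            simp [dir]; ring
          rw [e]
          exact (D.top_iff (by omega)).mpr (by omega)
        · right; left; simp [ed]
      unfold nx
      simp only
      rw [outd_2 h1 h2]
      simp [dir]; ring
  have := key n (by omega)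
  have e : x - (n:ℤ) = -W := by omega
  rwa [e] at this

/-- The walk along the left column. -/
theorem Dom.orb_left {F : Set Edg} {W c d s t : ℤ} {Cr : Set Edg} (D : Dom W c d s t Cr) :
    Orb (WG F W c d Cr) ((-W, d - 1), 1) ((-W, c), 1) := by
  have hcd := D.hcd
  have hs := D.hs
  obtain ⟨n, hn⟩ := Int.eq_ofNat_of_zero_le (sub_nonneg.mpr (show c ≤ d - 1 by omega))
  have key : ∀ m : ℕ, c ≤ d - 1 - m →
      Orb (WG F W c d Cr) ((-W, d - 1), 1) ((-W, d - 1 - m), 1) := by
    intro m
    induction m with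
    | zero => intro _; simpa using Orb.refl _ _
    | succ m ih =>
      intro hm
      push_cast at hm ⊢
      refine (ih (by omega)).trans (Orb.single ?_)
      have h1 : ed (-W, d - 1 - m) (1 + 1) ∉ WG F W c d Cr := by
        intro h
        have := h.1
        simp [ed] at this
      have h2 : ed (-W, d - 1 - m) (1 + 2) ∈ WG F W c d Cr := by
        rw [ed_mem_WG]
        refine ⟨?_, D.left (by omega) (by omega), ?_, ?_⟩
        · simp only [show (1:Fin 4) + 2 = 3 from rfl, ed, mem_RE_false]; omega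
        · have e : ((-W, d - 1 - (m:ℤ)) : ℤ × ℤ) + dir (1 + 2) = (-W, d - 1 - m - 1) := by
            simp [dir]; ring
          rw [e]
          exact D.left (by omega) (by omega)
        · right; right; simp [ed]
      unfold nx
      simp only
      rw [outd_2 h1 h2]
      simp [dir]; ring
  have := key n (by omega)
  have e : d - 1 - (n:ℤ) = c := by omega
  rwa [e] at this

/-- From the top row to the bottom row along the left side. -/
theorem Dom.orb_all {F : Set Edg} {W c d s t : ℤ} {Cr : Set Edg} (D : Dom W c d s t Cr) :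
    Orb (WG F W c d Cr) ((t - 1, d), 0) ((s, c), 2) := by
  have hcd := D.hcd
  have hs := D.hs
  have ht := D.ht
  refine (D.orb_top (x := t - 1) (by omega) (by omega)).trans ?_
  refine Orb.trans (b := ((-W, d - 1), 1)) (Orb.single ?_) ?_
  · have h1 : ed (-W, d) (0 + 1) ∉ WG F W c d Cr := by
      intro h
      have := h.1
      simp [ed] at this
    have h2 : ed (-W, d) (0 + 2) ∉ WG F W c d Cr := by
      intro h
      have := h.1
      simp [ed] at this
    have h3 : ed (-W, d) (0 + 3) ∈ WG F W c d Cr := by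
      rw [ed_mem_WG]
      refine ⟨?_, D.left (by omega) (by omega), ?_, ?_⟩
      · simp only [zero_add, ed, mem_RE_false]; omega
      · have e : ((-W, d) : ℤ × ℤ) + dir (0 + 3) = (-W, d - 1) := by
          simp [dir]; ring
        rw [e]
        exact D.left (by omega) (by omega)
      · right; right; simp [ed]
    unfold nx
    simp only
    rw [outd_3 h1 h2 h3]
    simp [dir]; ring
  · refine D.orb_left.trans ?_
    refine Orb.trans (b := ((-W + 1, c), 2)) (Orb.single ?_)
      (D.orb_bot (by omega) (by omega))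
    have h1 : ed (-W, c) (1 + 1) ∉ WG F W c d Cr := by
      intro h
      have := h.1
      simp [ed] at this
    have h2 : ed (-W, c) (1 + 2) ∉ WG F W c d Cr := by
      intro h
      have := h.1
      simp [ed] at this
    have h3 : ed (-W, c) (1 + 3) ∈ WG F W c d Cr := by
      rw [ed_mem_WG]
      refine ⟨?_, D.left (by omega) (by omega), ?_, ?_⟩
      · simp only [show (1:Fin 4) + 3 = 0 from rfl, ed, mem_RE_true]; omega
      · have e : ((-W, c) : ℤ × ℤ) + dir (1 + 3) = (-W + 1, c) := by
          simp [dir]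
        rw [e]
        exact (D.bot_iff (by omega)).mpr (by omega)
      · right; left; simp [ed]
    unfold nx
    simp only
    rw [outd_3 h1 h2 h3]
    simp [dir]

/-- The walker which starts at `(s, c)` reaches the top row. -/
theorem Dom.reach_top {F : Set Edg} {W c d s t : ℤ} {Cr : Set Edg} (D : Dom W c d s t Cr) :
    ∃ n, (st (WG F W c d Cr) ((s, c), 2) n).1.2 = d := by
  have hcd := D.hcd
  have hs := D.hs
  have ht := D.ht
  obtain ⟨j, hj⟩ := D.orb_all (F := F)
  have hval : Val (WG F W c d Cr) ((t - 1, d), 0) := by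
    unfold Val
    simp only
    rw [ed_mem_WG]
    refine ⟨?_, (D.top_iff (by omega)).mpr (by omega), ?_, ?_⟩
    · simp only [ed, mem_RE_true]; omega
    · have e : ((t - 1, d) : ℤ × ℤ) + dir 0 = (t, d) := by simp [dir]
      rw [e]
      exact (D.top_iff (by omega)).mpr le_rfl
    · right; left; simp [ed]
  obtain ⟨n, hn⟩ := orbit_back (WG_finite F W c d Cr) hval hj
  exact ⟨n, by show ((nx _)^[n] ((s, c), 2)).1.2 = d; rw [hn]⟩

end Pool.Agent.Helper59_BN
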