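import Pool.Agent.Helper59_BN.Passage
import Pool.Agent.W424.NC.ArmLow

/-!
The boundary norm is the time constant of first-passage percolation on the dual lattice.
-/

namespace Pool.Agent.Helper59_BN

open H974 MeasureTheory Filter

/-- Approximation of passage times and boundary distances by a deterministic rate. -/
def Appr (ω : sqLattice.edgeSet → Bool) (x : ℝ × ℝ) (n : ℕ) (a ε : ℝ) : Prop :=
  |(tim (opn ω)ᶜ (opn ω) (0, 0) (flr x n) : ℝ) - n * a| ≤ ε * n ∧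
    ∀ u v : Vtx, IsNearest ω 0 u → IsNearest ω ((n:ℝ) • x) v →
      |(bdist (openGraph ω).Adj u v : ℝ) - n * a| ≤ ε * n

theorem appr_lt {p : unitInterval} (hp : 1/2 < (p:ℝ)) (hp1 : (p:ℝ) < 1) {x : ℝ × ℝ} (hx : x ≠ 0)
    {ε : ℝ} (hε : 0 < ε) : ∃ a : ℝ, ∀ᵐ ω ∂bondLaw p, ∀ᶠ n : ℕ in atTop, Appr ω x n a ε := by
  have hx0 : 0 < ‖x‖ := norm_pos_iff.mpr hx
  obtain ⟨δ, hδ⟩ : ∃ δ : ℝ, δ = hh (1 - (p:ℝ)) ((3:ℕ):ℤ) 1 := ⟨_, rfl⟩
  have hδ0 : 0 < δ := by rw [hδ]; exact Pool.Agent.W424.NC.hh_pos (by linarith) (by linarith) 3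
  have hδ1 : δ ≤ 1 := by rw [hδ]; exact hh_le_one (by linarith) (by linarith) _ _
  obtain ⟨K0, hK0, hblk⟩ := block_const
  obtain ⟨σ, hσ⟩ : ∃ σ : ℝ, σ = ((p:ℝ) - 1/2) ^ (4/3 : ℝ) := ⟨_, rfl⟩
  have hσ0 : 0 < σ := by rw [hσ]; exact Real.rpow_pos_of_pos (by linarith) _
  obtain ⟨B, hB⟩ : ∃ B : ℕ, B = ⌈K0 / σ⌉₊ := ⟨_, rfl⟩
  have hB1 : 1 ≤ B := by rw [hB, Nat.one_le_ceil_iff]; positivity
  have hB2 : K0 / σ ≤ B := by rw [hB]; exact Nat.le_ceil _
  obtain ⟨K, hK⟩ := core_fin hδ0 hδ1 hB1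
  obtain ⟨M, hM1, h⟩ := hK (ε / ‖x‖) (by positivity)
  have h2 := h p 1 hp le_rfl (by rw [hδ]; push_cast; exact le_rfl) (by
    have h1 := hblk (1 - (p:ℝ)) (by linarith) (by linarith) B (by
      rw [show 1/2 - (1 - (p:ℝ)) = (p:ℝ) - 1/2 by ring, ← hσ]
      rwa [div_le_iff₀ hσ0] at hB2) hB1
    rw [Nat.cast_one, mul_one]
    exact h1) M le_rfl x hx
  obtain ⟨E, hE⟩ : ∃ E : ℝ, E = EL (1 - (p:ℝ)) ((1:ℕ):ℤ) (((K + 3) * M : ℕ)) (flr (ux x) M) / M :=
    ⟨_, rfl⟩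
  rw [← hE] at h2
  refine ⟨‖x‖ * E, ?_⟩
  filter_upwards [h2] with ω hω
  filter_upwards [hω] with n hn
  have e1 : ε / ‖x‖ * ‖x‖ * n = ε * n := by rw [div_mul_cancel₀ _ hx0.ne']
  obtain ⟨h3, h4⟩ := hn
  rw [e1] at h3
  constructor
  · rw [Nat.cast_one, one_mul] at h3
    rw [← mul_assoc]
    exact h3
  · intro u v hu hv
    have h5 := h4 u v hu hv
    rw [e1, Nat.cast_one, one_mul] at h5
    rw [← mul_assoc]
    exact h5

/-! ### The case `p = 1` -/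

theorem hasPath_all (F : Set Edg) (z : Vtx) : HasPath F z 1 (|(z.1:ℝ)| + |(z.2:ℝ)|) := by
  classical
  obtain ⟨n, hn⟩ := Int.eq_ofNat_of_zero_le (add_nonneg (abs_nonneg z.1) (abs_nonneg z.2))
  obtain ⟨C, m1, m2, m3⟩ := seg n (0, 0) z (by simp only [zero_sub, abs_neg, hn, le_refl])
  refine ⟨C.map dl.symm.toEmbedding, ?_, ?_, ?_⟩
  · rw [← reach_dl]
    have : dl '' ↑(C.map dl.symm.toEmbedding) = (↑C : Set Edg) := by
      rw [← coe_dmp, dmp_map]
    rw [this]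
    exact m1
  · have h1 : ((↑(C.map dl.symm.toEmbedding) : Set Edg) ∩ F).ncard ≤ n := by
      refine (Set.ncard_le_ncard Set.inter_subset_left (Finset.finite_toSet _)).trans ?_
      rw [Set.ncard_coe_finset, Finset.card_map]
      exact m2
    have h2 : (n:ℝ) = |(z.1:ℝ)| + |(z.2:ℝ)| := by
      have : ((n:ℤ):ℝ) = ((|z.1| + |z.2| : ℤ) : ℝ) := by rw [hn]
      push_cast at this
      exact this
    rw [← h2]
    exact_mod_cast h1
  · intro e he
    rw [Finset.mem_map_equiv, Equiv.symm_symm] at he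
    have h4 := m3 _ he
    have g4 := neg_abs_le z.1
    have g5 := le_abs_self z.1
    obtain ⟨x, y, t⟩ := e
    cases t
    · rw [dl_f] at h4
      simp only at h4 ⊢
      rw [abs_le]
      push_cast
      omega
    · rw [dl_t] at h4
      simp only at h4 ⊢
      rw [abs_le]
      push_cast
      omega

theorem dc_l1 {F : Set Edg} (hF : F = Set.univ) {f g : Vtx} {k : ℕ} (h : DC Fᶜ F f g k) :
    |f.1 - g.1| + |f.2 - g.2| ≤ k := by
  subst hF
  induction h with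
  | refl => simp
  | free _ hs _ =>
    obtain ⟨e, he, -⟩ := hs
    exact absurd (Set.mem_univ e) he
  | @pay g h k _ hs ih =>
    obtain ⟨j, hj, -⟩ := dadj_dir.mp hs
    push_cast
    have h1 : |g.1 - h.1| + |g.2 - h.2| ≤ 1 := by
      rw [hj]
      fin_cases j <;> simp [dir]
    have h2 := abs_sub_le f.1 g.1 h.1
    have h3 := abs_sub_le f.2 g.2 h.2
    omega

theorem ae_all_open {p : unitInterval} (hp : (p:ℝ) = 1) : ∀ᵐ ω ∂bondLaw p, opn ω = Set.univ := by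
  have key : ∀ e : Edg, ∀ᵐ ω ∂bondLaw p, ω (toE e) = true := by
    intro e
    have h1 := law_event p {e} (fun F => F = ∅)
    have h2 : Pr (fun _ => (p:ℝ)) {e} (fun F => F = ∅) = 0 := by
      unfold Pr Ex
      rw [hp]
      apply Finset.sum_eq_zero
      intro F hF
      rw [Finset.mem_powerset, Finset.subset_singleton_iff] at hF
      rcases hF with rfl | rfl
      · simp
      · have h3 : ind (({e} : Finset Edg) = ∅) = 0 := ind_not_of (by simp)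
        show _ * ind (({e} : Finset Edg) = ∅) = 0
        rw [h3, mul_zero]
    rw [h2] at h1
    have h3 : (bondLaw p) {ω | FF {e} ω = ∅} = 0 := by
      rw [measureReal_def, ENNReal.toReal_eq_zero_iff] at h1
      rcases h1 with h1 | h1
      · exact h1
      · exact absurd h1 (measure_ne_top _ _)
    rw [ae_iff]
    refine measure_mono_null ?_ h3
    intro ω hω
    rw [Set.mem_ofPred_eq] at hω ⊢
    rw [Finset.eq_empty_iff_forall_notMem]
    intro e' he'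
    rw [mem_FF, Finset.mem_singleton] at he'
    rw [he'.1] at he'
    exact hω he'.2
  filter_upwards [ae_all_iff.mpr key] with ω hω
  ext e
  exact ⟨fun _ => trivial, fun _ => hω e⟩

theorem appr_one {p : unitInterval} (hp : (p:ℝ) = 1) {x : ℝ × ℝ} (hx : x ≠ 0)
    {ε : ℝ} (hε : 0 < ε) : ∃ a : ℝ, ∀ᵐ ω ∂bondLaw p, ∀ᶠ n : ℕ in atTop, Appr ω x n a ε := by
  obtain ⟨N, hN⟩ : ∃ N : ℝ, N = |x.1| + |x.2| := ⟨_, rfl⟩
  refine ⟨N, ?_⟩
  filter_upwards [ae_all_open hp, compare_ae p (by rw [hp]; norm_num) x hx 1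
    (ε := ε / 8) (by positivity)] with ω h1 h2
  have hbig : ∀ᶠ n : ℕ in atTop, 16 / ε ≤ (n:ℝ) :=
    tendsto_natCast_atTop_atTop.eventually_ge_atTop _
  filter_upwards [h2, hbig] with n h3 h4
  rw [div_le_iff₀ hε] at h4
  have hn0 : (0:ℝ) ≤ n := Nat.cast_nonneg n
  have hfl : ∀ a : ℝ, |((⌊(n:ℝ) * a⌋ : ℤ) : ℝ) - n * a| ≤ 1 := by
    intro a
    have c1 := Int.floor_le ((n:ℝ) * a)
    have c2 := Int.lt_floor_add_one ((n:ℝ) * a)
    rw [abs_le]; constructor <;> linarith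
  obtain ⟨z, hz⟩ : ∃ z, z = flr x n := ⟨_, rfl⟩
  have hz1 : |(z.1:ℝ) - n * x.1| ≤ 1 := by rw [hz]; exact hfl x.1
  have hz2 : |(z.2:ℝ) - n * x.2| ≤ 1 := by rw [hz]; exact hfl x.2
  have hup : |(z.1:ℝ)| + |(z.2:ℝ)| ≤ n * N + 2 := by
    have c1 := abs_sub_abs_le_abs_sub (z.1:ℝ) (n * x.1)
    have c2 := abs_sub_abs_le_abs_sub (z.2:ℝ) (n * x.2)
    rw [abs_mul, Nat.abs_cast] at c1 c2
    rw [hN]
    linarith
  -- general lower bound
  have lower : ∀ (f g : Vtx) (k : ℕ), |(f.1:ℝ)| ≤ ε / 8 * n + 2 → |(f.2:ℝ)| ≤ ε / 8 * n + 2 →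
      |(g.1:ℝ) - n * x.1| ≤ ε / 8 * n + 2 → |(g.2:ℝ) - n * x.2| ≤ ε / 8 * n + 2 →
      DC (opn ω)ᶜ (opn ω) f g k → n * N - ε * n ≤ k := by
    intro f g k i1 i2 i3 i4 i5
    have h5 := dc_l1 h1 i5
    have h6 : |(f.1:ℝ) - g.1| + |(f.2:ℝ) - g.2| ≤ k := by exact_mod_cast h5
    have c1 : |(n:ℝ) * x.1| ≤ |(f.1:ℝ)| + |(f.1:ℝ) - g.1| + |(g.1:ℝ) - n * x.1| := by
      have d1 : (n:ℝ) * x.1 = (g.1:ℝ) - ((g.1:ℝ) - n * x.1) := by ring
      have d2 : (g.1:ℝ) = (f.1:ℝ) - ((f.1:ℝ) - g.1) := by ring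
      have d3 := abs_sub (g.1:ℝ) ((g.1:ℝ) - n * x.1)
      have d4 := abs_sub (f.1:ℝ) ((f.1:ℝ) - g.1)
      rw [← d1] at d3
      rw [← d2] at d4
      linarith
    have c2 : |(n:ℝ) * x.2| ≤ |(f.2:ℝ)| + |(f.2:ℝ) - g.2| + |(g.2:ℝ) - n * x.2| := by
      have d1 : (n:ℝ) * x.2 = (g.2:ℝ) - ((g.2:ℝ) - n * x.2) := by ring
      have d2 : (g.2:ℝ) = (f.2:ℝ) - ((f.2:ℝ) - g.2) := by ring
      have d3 := abs_sub (g.2:ℝ) ((g.2:ℝ) - n * x.2)
      have d4 := abs_sub (f.2:ℝ) ((f.2:ℝ) - g.2)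
      rw [← d1] at d3
      rw [← d2] at d4
      linarith
    rw [abs_mul, Nat.abs_cast] at c1 c2
    have e1 : (n:ℝ) * N = n * |x.1| + n * |x.2| := by rw [hN]; ring
    rw [e1]
    linarith
  have hpath := hasPath_all (opn ω) z
  have hεn : 0 ≤ ε * n := by positivity
  constructor
  · rw [← hz]
    have l1 := lower (0, 0) z _ (by simp only [Int.cast_zero, abs_zero]; linarith)
      (by simp only [Int.cast_zero, abs_zero]; linarith) (hz1.trans (by linarith))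
      (hz2.trans (by linarith)) (tim_spec (by rw [Set.compl_union_self]; exact dreach_univ _ _))
    have l2 := hpath.tim_le
    rw [abs_le]
    constructor <;> linarith
  · intro u v hu hv
    rw [adj_eq]
    obtain ⟨m1, m2, m3, m4, m5⟩ := h3 u v hu hv
    obtain ⟨f, g, k, j1, j2, j3, j4⟩ := bdist_lower m1 m2
    have i1 : |(f.1:ℝ) - u.1| ≤ 1 := by exact_mod_cast j3.1
    have i2 : |(f.2:ℝ) - u.2| ≤ 1 := by exact_mod_cast j3.2
    have i3 : |(g.1:ℝ) - v.1| ≤ 2 := by exact_mod_cast j4.1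
    have i4 : |(g.2:ℝ) - v.2| ≤ 2 := by exact_mod_cast j4.2
    have a1 := abs_le.mp i1
    have a2 := abs_le.mp i2
    have a3 := abs_le.mp i3
    have a4 := abs_le.mp i4
    have b1 := abs_le.mp m3.1
    have b2 := abs_le.mp m3.2
    have b3 := abs_le.mp m4.1
    have b4 := abs_le.mp m4.2
    have hk := lower f g k (abs_le.mpr ⟨by linarith, by linarith⟩)
      (abs_le.mpr ⟨by linarith, by linarith⟩) (abs_le.mpr ⟨by linarith, by linarith⟩)
      (abs_le.mpr ⟨by linarith, by linarith⟩) j2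
    have hk' : (k:ℝ) ≤ bdist (Adj (opn ω)) u v := by exact_mod_cast j1
    have l2 := m5 _ (by rw [← hz]; exact hpath)
    rw [abs_le]
    constructor <;> linarith

theorem appr_all {p : unitInterval} (hp : 1/2 < (p:ℝ)) {x : ℝ × ℝ} (hx : x ≠ 0)
    {ε : ℝ} (hε : 0 < ε) : ∃ a : ℝ, ∀ᵐ ω ∂bondLaw p, ∀ᶠ n : ℕ in atTop, Appr ω x n a ε := by
  rcases lt_or_eq_of_le p.2.2 with h | h
  · exact appr_lt hp h hx hε
  · exact appr_one h hx hε

/-- **The boundary norm is a time constant.** -/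
theorem dual_fpp (p : unitInterval) (hp : 1/2 < (p:ℝ)) : ∃ β : ℝ × ℝ → ℝ, ∀ x : ℝ × ℝ, x ≠ 0 →
    ∀ᵐ ω ∂bondLaw p,
      Tendsto (fun n : ℕ => (passageTime (openGraph ω).Adj (0, 0)
        (⌊(n:ℝ) * x.1⌋, ⌊(n:ℝ) * x.2⌋) : ℝ) / n) atTop (nhds (β x)) ∧
      ∀ u v : ℕ → ℤ × ℤ, (∀ n, IsNearest ω 0 (u n)) → (∀ n : ℕ, IsNearest ω ((n:ℝ) • x) (v n)) →
        Tendsto (fun n : ℕ => (bdist (openGraph ω).Adj (u n) (v n) : ℝ) / n) atTop
          (nhds (β x)) := by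
  have key : ∀ x : ℝ × ℝ, ∃ b : ℝ, x ≠ 0 → ∀ᵐ ω ∂bondLaw p,
      Tendsto (fun n : ℕ => (passageTime (openGraph ω).Adj (0, 0)
        (⌊(n:ℝ) * x.1⌋, ⌊(n:ℝ) * x.2⌋) : ℝ) / n) atTop (nhds b) ∧
      ∀ u v : ℕ → ℤ × ℤ, (∀ n, IsNearest ω 0 (u n)) → (∀ n : ℕ, IsNearest ω ((n:ℝ) • x) (v n)) →
        Tendsto (fun n : ℕ => (bdist (openGraph ω).Adj (u n) (v n) : ℝ) / n) atTop
          (nhds b) := by
    intro x
    by_cases hx : x = 0
    · exact ⟨0, fun h => absurd hx h⟩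
    have h1 : ∀ k : ℕ, ∃ a : ℝ, ∀ᵐ ω ∂bondLaw p, ∀ᶠ n : ℕ in atTop,
        Appr ω x n a (1 / ((k:ℝ) + 1)) := fun k => appr_all hp hx (by positivity)
    choose a ha using h1
    have hC : ∀ j k : ℕ, |a j - a k| ≤ 1 / ((j:ℝ) + 1) + 1 / ((k:ℝ) + 1) := by
      intro j k
      obtain ⟨ω, h2, h3⟩ := ((ha j).and (ha k)).exists
      obtain ⟨n, ⟨h4, h5⟩, h6⟩ := ((h2.and h3).and (eventually_gt_atTop 0)).exists
      have hn : (0:ℝ) < n := by exact_mod_cast h6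
      have h7 := h4.1
      have h8 := h5.1
      have h9 : (n:ℝ) * |a j - a k| ≤ n * (1 / ((j:ℝ) + 1) + 1 / ((k:ℝ) + 1)) := by
        have e1 : (n:ℝ) * |a j - a k| = |n * a j - n * a k| := by
          rw [← mul_sub, abs_mul, Nat.abs_cast]
        rw [e1]
        obtain ⟨t, ht⟩ : ∃ t : ℝ, t = (tim (opn ω)ᶜ (opn ω) (0, 0) (flr x n) : ℝ) := ⟨_, rfl⟩
        rw [← ht] at h7 h8
        have e2 : (n:ℝ) * a j - n * a k = (t - n * a k) - (t - n * a j) := by ring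
        rw [e2]
        refine (abs_sub _ _).trans ?_
        linarith
      exact le_of_mul_le_mul_left h9 hn
    have hcau : CauchySeq a := by
      rw [Metric.cauchySeq_iff']
      intro ε hε
      obtain ⟨k, hk⟩ := exists_nat_one_div_lt (show 0 < ε / 2 by positivity)
      refine ⟨k, fun n hn => ?_⟩
      rw [Real.dist_eq]
      have h2 := hC n k
      have h3 : 1 / ((n:ℝ) + 1) ≤ 1 / ((k:ℝ) + 1) := by
        apply one_div_le_one_div_of_le (by positivity)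
        have : (k:ℝ) ≤ n := by exact_mod_cast hn
        linarith
      linarith
    obtain ⟨b, hb⟩ := cauchySeq_tendsto_of_complete hcau
    have hkb : ∀ k : ℕ, |b - a k| ≤ 1 / ((k:ℝ) + 1) := by
      intro k
      have h2 : Tendsto (fun j : ℕ => 1 / ((j:ℝ) + 1) + 1 / ((k:ℝ) + 1)) atTop
          (nhds (0 + 1 / ((k:ℝ) + 1))) := tendsto_one_div_add_atTop_nhds_zero_nat.add_const _
      rw [zero_add] at h2
      exact le_of_tendsto_of_tendsto' ((hb.sub_const (a k)).abs) h2 (fun j => hC j k)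
    refine ⟨b, fun _ => ?_⟩
    filter_upwards [ae_all_iff.mpr ha] with ω hω
    have fin : ∀ T : ℕ → ℝ, (∀ k : ℕ, ∀ᶠ n : ℕ in atTop, |T n - n * a k| ≤ 1 / ((k:ℝ) + 1) * n) →
        Tendsto (fun n : ℕ => T n / n) atTop (nhds b) := by
      intro T hT
      rw [Metric.tendsto_atTop']
      intro ε hε
      obtain ⟨k, hk⟩ := exists_nat_one_div_lt (show 0 < ε / 2 by positivity)
      have h2 := hT k
      rw [eventually_atTop] at h2
      obtain ⟨N, hN⟩ := h2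
      refine ⟨N + 1, fun n hn => ?_⟩
      have hn0 : (0:ℝ) < n := by exact_mod_cast (show 0 < n by omega)
      have h3 := hN n (by omega)
      rw [Real.dist_eq]
      have h4 : |T n / n - a k| ≤ 1 / ((k:ℝ) + 1) := by
        have e1 : T n / n - a k = (T n - n * a k) / n := by field_simp
        rw [e1, abs_div, Nat.abs_cast, div_le_iff₀ hn0]
        exact h3
      have h5 : |T n / n - b| ≤ |T n / n - a k| + |b - a k| := by
        have e1 : T n / n - b = (T n / n - a k) - (b - a k) := by ring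
        rw [e1]
        exact abs_sub _ _
      have h6 := hkb k
      linarith
    refine ⟨fin _ (fun k => ?_), fun u v hu hv => fin _ (fun k => ?_)⟩
    · filter_upwards [hω k] with n hn
      rw [adj_eq, passageTime_eq]
      exact hn.1
    · filter_upwards [hω k] with n hn
      exact hn.2 _ _ (hu n) (hv n)
  choose β hβ using key
  exact ⟨β, hβ⟩

end Pool.Agent.Helper59_BN
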