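import Pool.Agent.Helper59_BN.Defs

/-!
Passage times between sets of faces, and the finite-size means of the near-critical regime:
definitions.
-/

namespace Pool.Agent.Helper59_BN

open MeasureTheory

/-- The faces `f` whose lower left corner lies in the square `[a.1, a.1 + s] × [a.2, a.2 + s]`. -/
def sqr (a : ℤ × ℤ) (s : ℤ) : Set (ℤ × ℤ) :=
  {f | (a.1 ≤ f.1 ∧ f.1 ≤ a.1 + s) ∧ (a.2 ≤ f.2 ∧ f.2 ≤ a.2 + s)}

/-- The least number of open edges crossed (counted with multiplicity) by a nearest-neighbour path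
of faces which starts in `A`, ends in `B` and stays in `D`. -/
noncomputable def setTime (R : ℤ × ℤ → ℤ × ℤ → Prop) (D A B : Set (ℤ × ℤ)) : ℕ :=
  sInf {c | ∃ (y : ℕ → ℤ × ℤ) (k : ℕ → Fin 4) (n : ℕ), y 0 ∈ A ∧ y n ∈ B ∧ (∀ i ≤ n, y i ∈ D) ∧
    (∀ i < n, y (i + 1) = y i + dir (k i)) ∧
    c = {i | i < n ∧ R (crossed (y i) (k i)).1 (crossed (y i) (k i)).2}.ncard}

/-- The length scale `⌈(p - 1/2)^(-4/3)⌉`. -/
noncomputable def scale (p : unitInterval) : ℕ := ⌈1 / ((p:ℝ) - 1/2) ^ (4/3 : ℝ)⌉₊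

/-- The finite-size passage time on scale `l` in direction `x`: the least number of open edges
crossed by a path of faces from the square of side `l` with corner `0` to the square of side `l`
with corner `l ⌊M x⌋` inside the square `[-K M l, (K M + 1) l]²`. -/
noncomputable def boxTime (ω : H974.sqLattice.edgeSet → Bool) (l K M : ℕ) (x : ℝ × ℝ) : ℕ :=
  setTime (H974.openGraph ω).Adj
    (sqr (-((K * M * l : ℕ) : ℤ), -((K * M * l : ℕ) : ℤ)) (((2 * K * M + 1) * l : ℕ) : ℤ))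
    (sqr (0, 0) l) (sqr (l * ⌊(M:ℝ) * x.1⌋, l * ⌊(M:ℝ) * x.2⌋) l)

/-- The finite-size mean: the mean of `boxTime` on the scale `scale p`, divided by `M`. -/
noncomputable def fsMean (p : unitInterval) (K M : ℕ) (x : ℝ × ℝ) : ℝ :=
  (∫ ω, (boxTime ω (scale p) K M x : ℝ) ∂H974.bondLaw p) / M

end Pool.Agent.Helper59_BN
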