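import Pool.Agent.Helper59_BN.CoreFin
import Pool.Agent.Helper59_BN.FSDefs

/-!
Passage times between sets of faces in terms of sets of dual edges.
-/

namespace Pool.Agent.Helper59_BN

open H974 MeasureTheory Filter

theorem crossed_iff {F : Set Edg} (f : Vtx) (k : Fin 4) :
    Adj F (crossed f k).1 (crossed f k).2 ↔ dl.symm (ed f k) ∈ F := by
  obtain ⟨x, y⟩ := f
  have huniq : ∀ (v : Vtx) (j : Fin 4), Adj F v (v + dir j) ↔ ed v j ∈ F := by
    intro v j
    rw [adj_iff]
    constructor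
    · rintro ⟨k, h1, h2⟩
      have : dir j = dir k := add_left_cancel h1
      rw [dir_inj this]; exact h2
    · intro h; exact ⟨j, rfl, h⟩
  have e0 : crossed (x, y) 0 = ((x + 1, y), (x + 1, y) + dir 1) := by simp [crossed, dir]
  have e1 : crossed (x, y) 1 = ((x, y + 1), (x, y + 1) + dir 0) := by simp [crossed, dir]
  have e2 : crossed (x, y) 2 = ((x, y), (x, y) + dir 1) := by simp [crossed, dir]
  have e3 : crossed (x, y) 3 = ((x, y), (x, y) + dir 0) := by simp [crossed, dir]
  fin_cases k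
  · show Adj F (crossed (x, y) 0).1 (crossed (x, y) 0).2 ↔ _
    rw [e0, huniq]; exact Iff.rfl
  · show Adj F (crossed (x, y) 1).1 (crossed (x, y) 1).2 ↔ _
    rw [e1, huniq]; exact Iff.rfl
  · show Adj F (crossed (x, y) 2).1 (crossed (x, y) 2).2 ↔ _
    rw [e2, huniq]
    have : dl.symm (ed (x, y) 2) = ed (x, y) 1 := by simp [ed]
    show _ ↔ dl.symm (ed (x, y) 2) ∈ F
    rw [this]
  · show Adj F (crossed (x, y) 3).1 (crossed (x, y) 3).2 ↔ _
    rw [e3, huniq]
    have : dl.symm (ed (x, y) 3) = ed (x, y) 0 := by simp [ed]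
    show _ ↔ dl.symm (ed (x, y) 3) ∈ F
    rw [this]

theorem ed_mem_RE {a b c d : ℤ} {v : Vtx} {k : Fin 4} :
    ed v k ∈ RE a b c d ↔ inR a b c d v ∧ inR a b c d (v + dir k) := by
  obtain ⟨x, y⟩ := v
  unfold inR
  fin_cases k
  · simp only [ed, dir, mem_RE_true, Prod.mk_add_mk]; omega
  · simp only [ed, dir, mem_RE_false, Prod.mk_add_mk]; omega
  · simp only [ed, dir, mem_RE_true, Prod.mk_add_mk]; omega
  · simp only [ed, dir, mem_RE_false, Prod.mk_add_mk]; omega

theorem sInf_eq_of {S1 S2 : Set ℕ} (h1 : ∀ c ∈ S1, ∃ k ∈ S2, k ≤ c)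
    (h2 : ∀ k ∈ S2, ∃ c ∈ S1, c ≤ k) : sInf S1 = sInf S2 := by
  rcases S1.eq_empty_or_nonempty with h | h
  · have : S2 = ∅ := by
      by_contra hne
      obtain ⟨k, hk⟩ := Set.nonempty_iff_ne_empty.mpr hne
      obtain ⟨c, hc, -⟩ := h2 k hk
      rw [h] at hc; exact hc
    rw [h, this]
  · obtain ⟨k, hk, hk'⟩ := h1 _ (Nat.sInf_mem h)
    apply le_antisymm
    · obtain ⟨c, hc, hc'⟩ := h2 _ (Nat.sInf_mem ⟨k, hk⟩)
      exact (Nat.sInf_le hc).trans hc'
    · exact (Nat.sInf_le hk).trans hk'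

theorem ed_inj2 {v w : Vtx} {j k : Fin 4} (h : ed v j = ed w k) :
    (v = w ∧ v + dir j = w + dir k) ∨ (v = w + dir k ∧ v + dir j = w) := by
  rcases ed_ends v j with ⟨h1, h2⟩ | ⟨h1, h2⟩ <;> rcases ed_ends w k with ⟨h3, h4⟩ | ⟨h3, h4⟩
  · left; rw [h] at h1 h2; exact ⟨h1.symm.trans h3, h2.symm.trans h4⟩
  · right; rw [h] at h1 h2; exact ⟨h1.symm.trans h3, h2.symm.trans h4⟩
  · right; rw [h] at h1 h2; exact ⟨h2.symm.trans h4, h1.symm.trans h3⟩
  · left; rw [h] at h1 h2; exact ⟨h2.symm.trans h4, h1.symm.trans h3⟩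

theorem setTime_eq (ω : sqLattice.edgeSet → Bool) {a b c d : ℤ} {A B : Set Vtx}
    (hA : ∀ v ∈ A, inR a b c d v) :
    setTime (openGraph ω).Adj {f | inR a b c d f} A B =
      tt (RE a b c d) A B (GG (RE a b c d) ω) := by
  classical
  rw [adj_eq]
  unfold setTime tt
  apply sInf_eq_of
  · rintro t ⟨y, k, n, h1, h2, h3, h4, rfl⟩
    obtain ⟨C, hC⟩ : ∃ C : Finset Edg, C = (Finset.range n).image (fun i => ed (y i) (k i)) :=
      ⟨_, rfl⟩
    have hmem : ∀ i < n, ed (y i) (k i) ∈ C := fun i hi => by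
      rw [hC]; exact Finset.mem_image_of_mem _ (Finset.mem_range.mpr hi)
    refine ⟨(C \ GG (RE a b c d) ω).card, ⟨C, ?_, le_rfl, y 0, h1, y n, h2, ?_⟩, ?_⟩
    · intro e he
      rw [hC, Finset.mem_image] at he
      obtain ⟨i, hi, rfl⟩ := he
      rw [Finset.mem_range] at hi
      rw [ed_mem_RE, ← h4 i hi]
      exact ⟨h3 i hi.le, h3 (i + 1) hi⟩
    · have : ∀ i ≤ n, Reach ↑C (y 0) (y i) := by
        intro i
        induction i with
        | zero => intro _; exact Reach.refl _ _
        | succ i ih =>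
          intro hi
          refine (ih (by omega)).trans (Adj.reach ?_)
          rw [adj_iff]
          exact ⟨k i, h4 i hi, hmem i hi⟩
      exact this n le_rfl
    · have hsub : (↑(C \ GG (RE a b c d) ω) : Set Edg) ⊆ (fun i => ed (y i) (k i)) ''
          {i | i < n ∧ Adj (opn ω) (crossed (y i) (k i)).1 (crossed (y i) (k i)).2} := by
        intro e he
        rw [Finset.mem_coe, Finset.mem_sdiff, hC, Finset.mem_image] at he
        obtain ⟨⟨i, hi, rfl⟩, hG⟩ := he
        rw [Finset.mem_range] at hi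
        refine ⟨i, ⟨hi, ?_⟩, rfl⟩
        rw [crossed_iff]
        by_contra hcon
        apply hG
        rw [mem_GG, ed_mem_RE, ← h4 i hi]
        exact ⟨⟨h3 i hi.le, h3 (i + 1) hi⟩, hcon⟩
      have hfin : {i | i < n ∧ Adj (opn ω) (crossed (y i) (k i)).1
          (crossed (y i) (k i)).2}.Finite :=
        (Set.finite_lt_nat n).subset (fun i hi => hi.1)
      rw [← Set.ncard_coe_finset]
      exact (Set.ncard_le_ncard hsub (hfin.image _)).trans (Set.ncard_image_le hfin)
  · rintro t ⟨C, h1, h2, u, hu, v, hv, hr⟩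
    obtain ⟨x, n, k1, k2, k3, -, k5⟩ := simple_path hr
    obtain ⟨o, ho⟩ := exists_dirs (F := (↑C : Set Edg)) (x := x) (n := n) k3
    refine ⟨_, ⟨x, o, n, by rw [k1]; exact hu, by rw [k2]; exact hv, ?_, fun i hi => (ho i hi).1,
      rfl⟩, le_trans ?_ h2⟩
    · intro i hi
      rcases Nat.eq_zero_or_pos i with rfl | hi0
      · rw [k1]; exact hA u hu
      · have h6 := ho (i - 1) (by omega)
        have h7 := ed_mem_RE.mp (h1 h6.2)
        rw [← h6.1, Nat.sub_add_cancel hi0] at h7
        exact h7.2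
    · rw [← Set.ncard_coe_finset]
      apply Set.ncard_le_ncard_of_injOn (fun i => ed (x i) (o i)) _ _ (Finset.finite_toSet _)
      · rintro i ⟨hi, hR⟩
        rw [crossed_iff] at hR
        rw [Finset.mem_coe, Finset.mem_sdiff]
        refine ⟨(ho i hi).2, fun hG => ?_⟩
        rw [mem_GG] at hG
        exact hG.2 hR
      · rintro i ⟨hi, -⟩ j ⟨hj, -⟩ hij
        have h6 := (ho i hi).1
        have h7 := (ho j hj).1
        have h8 := ed_inj2 hij
        rw [← h6, ← h7] at h8
        have hinj : ∀ i j, i ≤ n → j ≤ n → x i = x j → i = j := by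
          intro i j hi hj hij
          rcases lt_trichotomy i j with h | h | h
          · exact absurd hij (k5 i j h hj)
          · exact h
          · exact absurd hij.symm (k5 j i h hi)
        rcases h8 with ⟨h8, -⟩ | ⟨h8, h9⟩
        · exact hinj i j hi.le hj.le h8
        · have a1 := hinj i (j + 1) hi.le hj h8
          have a2 := hinj (i + 1) j hi hj.le h9
          omega

theorem Ex_decomp (q : ℝ) (T : Finset Edg) (φ : Finset Edg → ℝ) :
    Ex (fun _ => q) T φ = ∑ G ∈ T.powerset, φ G * Pr (fun _ => q) T (fun F => F = G) := by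
  classical
  have h1 : ∀ F ⊆ T, φ F = ∑ G ∈ T.powerset, φ G * ind (F = G) := by
    intro F hF
    rw [Finset.sum_eq_single F]
    · rw [ind_of rfl, mul_one]
    · intro G _ hG
      rw [ind_not_of (fun h => hG h.symm), mul_zero]
    · intro h; exact absurd (Finset.mem_powerset.mpr hF) h
  rw [Ex_congr h1, Ex_sum]
  apply Finset.sum_congr rfl
  intro G _
  rw [Ex_mul_left]
  rfl

theorem integral_GG (p : unitInterval) (T : Finset Edg) (φ : Finset Edg → ℝ) :
    ∫ ω, φ (GG T ω) ∂bondLaw p = Ex (fun _ => 1 - (p:ℝ)) T φ := by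
  classical
  have h1 : (fun ω => φ (GG T ω)) = fun ω => ∑ G ∈ T.powerset,
      Set.indicator {ω | GG T ω = G} (fun _ => φ G) ω := by
    funext ω
    rw [Finset.sum_eq_single (GG T ω)]
    · rw [Set.indicator_of_mem]; rfl
    · intro G _ hG
      rw [Set.indicator_of_notMem]
      intro h; exact hG h.symm
    · intro h
      exfalso
      apply h
      rw [Finset.mem_powerset]
      intro e he
      exact (mem_GG.mp he).1
  rw [h1, Ex_decomp, integral_finsetSum]
  · apply Finset.sum_congr rfl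
    intro G _
    rw [integral_indicator_const _ (meas_dual T (fun F => F = G)), smul_eq_mul, mul_comm]
    congr 1
    exact law_dual p T (fun F => F = G)
  · intro G _
    exact (integrable_const _).indicator (meas_dual T (fun F => F = G))

end Pool.Agent.Helper59_BN
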