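import Pool.Agent.Helper59_BN.Assembly

/-!
The boundary norm of supercritical bond percolation on the square lattice is, uniformly in the
parameter, of order `(p - 1/2)^(4/3)`, and so is the size of its Wulff crystal.
-/

namespace Pool.Agent.Helper59_BN

open H974 MeasureTheory Filter

theorem order_main : ∃ c C : ℝ, 0 < c ∧ 0 < C ∧ ∀ p : unitInterval, 1/2 < (p:ℝ) →
    ∀ x : ℝ × ℝ, x ≠ 0 → ∀ᵐ ω ∂bondLaw p, ∀ᶠ n : ℕ in atTop, ∀ u v : ℤ × ℤ,
      IsNearest ω 0 u → IsNearest ω ((n:ℝ) • x) v →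
        c * ((p:ℝ) - 1/2) ^ (4/3 : ℝ) * ‖x‖ * n ≤ bdist (openGraph ω).Adj u v ∧
        bdist (openGraph ω).Adj u v ≤ C * ((p:ℝ) - 1/2) ^ (4/3 : ℝ) * ‖x‖ * n := by
  obtain ⟨c, hc, hlow⟩ := lower_ae
  obtain ⟨C, hC, hup⟩ := upper_path_ae
  refine ⟨c, C + 1, hc, by positivity, ?_⟩
  intro p hp x hx
  obtain ⟨σ, hσ⟩ : ∃ σ : ℝ, σ = ((p:ℝ) - 1/2) ^ (4/3 : ℝ) := ⟨_, rfl⟩
  have hσ0 : 0 < σ := by rw [hσ]; exact Real.rpow_pos_of_pos (by linarith) _
  have hx0 : 0 < ‖x‖ := norm_pos_iff.mpr hx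
  obtain ⟨w, hw⟩ := hup p hp
  have h1 := hlow p hp x hx
  have h2 := hw x hx
  rw [← hσ] at h1 h2 ⊢
  have h3 := compare_ae p hp x hx w (ε := min (σ * ‖x‖) (‖x‖ / 16)) (by positivity)
  filter_upwards [h1, h2, h3] with ω k1 k2 k3
  have hbig : ∀ᶠ n : ℕ in atTop, 64 / ‖x‖ ≤ (n:ℝ) :=
    tendsto_natCast_atTop_atTop.eventually_ge_atTop _
  filter_upwards [k1, k2, k3, hbig] with n l1 l2 l3 l4
  intro u v hu hv
  rw [div_le_iff₀ hx0] at l4
  rw [adj_eq]
  obtain ⟨m1, m2, m3, m4, m5⟩ := l3 u v hu hv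
  have hn0 : (0:ℝ) ≤ n := Nat.cast_nonneg n
  have e1 : min (σ * ‖x‖) (‖x‖ / 16) * n ≤ n * ‖x‖ / 16 := by
    have := mul_le_mul_of_nonneg_right (min_le_right (σ * ‖x‖) (‖x‖ / 16)) hn0
    linarith
  have e2 : min (σ * ‖x‖) (‖x‖ / 16) * n ≤ σ * ‖x‖ * n :=
    mul_le_mul_of_nonneg_right (min_le_left (σ * ‖x‖) (‖x‖ / 16)) hn0
  constructor
  · obtain ⟨f, g, k, j1, j2, j3, j4⟩ := bdist_lower m1 m2
    have i1 : |(f.1:ℝ) - u.1| ≤ 1 := by exact_mod_cast j3.1
    have i2 : |(f.2:ℝ) - u.2| ≤ 1 := by exact_mod_cast j3.2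
    have i3 : |(g.1:ℝ) - v.1| ≤ 2 := by exact_mod_cast j4.1
    have i4 : |(g.2:ℝ) - v.2| ≤ 2 := by exact_mod_cast j4.2
    have a1 := abs_le.mp i1
    have a2 := abs_le.mp i2
    have a3 := abs_le.mp i3
    have a4 := abs_le.mp i4
    have b1 := abs_le.mp m3.1
    have b2 := abs_le.mp m3.2
    have b3 := abs_le.mp m4.1
    have b4 := abs_le.mp m4.2
    have hk := l1 f g k (abs_le.mpr ⟨by linarith, by linarith⟩)
      (abs_le.mpr ⟨by linarith, by linarith⟩) (abs_le.mpr ⟨by linarith, by linarith⟩)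
      (abs_le.mpr ⟨by linarith, by linarith⟩) j2
    have hk' : (k:ℝ) ≤ bdist (Adj (opn ω)) u v := by exact_mod_cast j1
    linarith
  · have := m5 _ l2
    linarith

theorem norm_bounds {c C σ : ℝ} {p : unitInterval} {β : ℝ × ℝ → ℝ} (hβ : IsBoundaryNorm p β)
    (h : ∀ x : ℝ × ℝ, x ≠ 0 → ∀ᵐ ω ∂bondLaw p, ∀ᶠ n : ℕ in atTop, ∀ u v : ℤ × ℤ,
      IsNearest ω 0 u → IsNearest ω ((n:ℝ) • x) v →
        c * σ * ‖x‖ * n ≤ bdist (openGraph ω).Adj u v ∧
        bdist (openGraph ω).Adj u v ≤ C * σ * ‖x‖ * n) (x : ℝ × ℝ) :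
    c * σ * ‖x‖ ≤ β x ∧ β x ≤ C * σ * ‖x‖ := by
  by_cases hx : x = 0
  · obtain ⟨ω, v, hv, ht⟩ := (hβ x).exists
    have hb : β x = 0 := by
      have h0 : Tendsto (fun n : ℕ => (bdist (openGraph ω).Adj (v 0) (v n) : ℝ) / n) atTop
          (nhds 0) := by
        have hfin : (Set.range (fun n : ℕ => bdist (openGraph ω).Adj (v 0) (v n))).Finite := by
          have hv' : ∀ n, IsNearest ω 0 (v n) := by
            intro n
            have := hv n
            rwa [hx, smul_zero] at this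
          have hvf : (Set.range v).Finite := by
            have hsub : Set.range v ⊆
                Set.Icc (-⌈‖(((v 0).1 : ℝ), ((v 0).2 : ℝ))‖⌉) ⌈‖(((v 0).1 : ℝ), ((v 0).2 : ℝ))‖⌉ ×ˢ
                Set.Icc (-⌈‖(((v 0).1 : ℝ), ((v 0).2 : ℝ))‖⌉)
                  ⌈‖(((v 0).1 : ℝ), ((v 0).2 : ℝ))‖⌉ := by
              rintro _ ⟨n, rfl⟩
              have h1 := (hv' n).2 (v 0) (hv' 0).1
              rw [sub_zero, sub_zero] at h1
              have h2 := h1.trans (Int.le_ceil _)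
              have h3 := (norm_fst_le _).trans h2
              have h4 := (norm_snd_le _).trans h2
              simp only [Real.norm_eq_abs] at h3 h4
              have h5 : |(v n).1| ≤ ⌈‖(((v 0).1 : ℝ), ((v 0).2 : ℝ))‖⌉ := by exact_mod_cast h3
              have h6 : |(v n).2| ≤ ⌈‖(((v 0).1 : ℝ), ((v 0).2 : ℝ))‖⌉ := by exact_mod_cast h4
              rw [Set.mem_prod, Set.mem_Icc, Set.mem_Icc]
              exact ⟨abs_le.mp h5, abs_le.mp h6⟩
            exact ((Set.finite_Icc _ _).prod (Set.finite_Icc _ _)).subset hsub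
          have : Set.range (fun n : ℕ => bdist (openGraph ω).Adj (v 0) (v n)) =
              (fun w => bdist (openGraph ω).Adj (v 0) w) '' Set.range v := by
            rw [← Set.range_comp]; rfl
          rw [this]
          exact hvf.image _
        obtain ⟨M, hM⟩ := hfin.bddAbove
        have hM' : ∀ n : ℕ, (bdist (openGraph ω).Adj (v 0) (v n) : ℝ) ≤ M := by
          intro n
          exact_mod_cast hM ⟨n, rfl⟩
        refine squeeze_zero (fun n => by positivity) (fun n => ?_)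
          (tendsto_const_div_atTop_nhds_zero_nat (M:ℝ))
        exact div_le_div_of_nonneg_right (hM' n) (Nat.cast_nonneg n)
      exact tendsto_nhds_unique ht h0
    rw [hb, hx, norm_zero, mul_zero, mul_zero]
    exact ⟨le_rfl, le_rfl⟩
  · obtain ⟨ω, ⟨v, hv, ht⟩, h1⟩ := ((hβ x).and (h x hx)).exists
    have hv0 : IsNearest ω 0 (v 0) := by
      have := hv 0
      rwa [Nat.cast_zero, zero_smul] at this
    constructor
    · apply ge_of_tendsto ht
      filter_upwards [h1, eventually_gt_atTop 0] with n hn hn0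
      have := (hn (v 0) (v n) hv0 (hv n)).1
      rw [le_div_iff₀ (by exact_mod_cast hn0)]
      exact this
    · apply le_of_tendsto ht
      filter_upwards [h1, eventually_gt_atTop 0] with n hn hn0
      have := (hn (v 0) (v n) hv0 (hv n)).2
      rw [div_le_iff₀ (by exact_mod_cast hn0)]
      exact this

/-- **The order of the boundary norm near criticality.** There are constants `0 < c ≤ C` such that
for every `p > 1/2`: almost surely the boundary distance between nearest vertices of the infinite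
cluster to `0` and to `n x` lies between `c (p - 1/2)^(4/3) ‖x‖ n` and
`C (p - 1/2)^(4/3) ‖x‖ n` for all large `n`; and the Wulff crystal of the boundary norm contains
the disc of radius `c (p - 1/2)^(4/3)` and is contained in the disc of radius
`C (p - 1/2)^(4/3)`. -/
theorem order_result : ∃ c C : ℝ, 0 < c ∧ 0 < C ∧ ∀ p : unitInterval, 1/2 < (p:ℝ) →
    (∀ x : ℝ × ℝ, x ≠ 0 → ∀ᵐ ω ∂bondLaw p, ∀ᶠ n : ℕ in atTop, ∀ u v : ℤ × ℤ,
      IsNearest ω 0 u → IsNearest ω ((n:ℝ) • x) v →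
        c * ((p:ℝ) - 1/2) ^ (4/3 : ℝ) * ‖x‖ * n ≤ bdist (openGraph ω).Adj u v ∧
        bdist (openGraph ω).Adj u v ≤ C * ((p:ℝ) - 1/2) ^ (4/3 : ℝ) * ‖x‖ * n) ∧
    ∀ β : ℝ × ℝ → ℝ, IsBoundaryNorm p β →
      disc (c * ((p:ℝ) - 1/2) ^ (4/3 : ℝ)) ⊆ wulff β ∧
      wulff β ⊆ disc (C * ((p:ℝ) - 1/2) ^ (4/3 : ℝ)) := by
  obtain ⟨c, C, hc, hC, h⟩ := order_main
  refine ⟨c / 2, C, by positivity, hC, ?_⟩
  intro p hp
  obtain ⟨σ, hσ⟩ : ∃ σ : ℝ, σ = ((p:ℝ) - 1/2) ^ (4/3 : ℝ) := ⟨_, rfl⟩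
  have hσ0 : 0 < σ := by rw [hσ]; exact Real.rpow_pos_of_pos (by linarith) _
  have hp' := h p hp
  rw [← hσ] at hp' ⊢
  refine ⟨?_, ?_⟩
  · intro x hx
    filter_upwards [hp' x hx] with ω hω
    filter_upwards [hω] with n hn
    intro u v hu hv
    have := hn u v hu hv
    refine ⟨?_, this.2⟩
    have h2 : 0 ≤ c / 2 * σ * ‖x‖ * n := by positivity
    linarith [this.1]
  · intro β hβ
    have hb := norm_bounds hβ hp'
    constructor
    · intro x hx y
      have h1 := (hb y).1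
      have h2 : x.1 ^ 2 + x.2 ^ 2 ≤ (c / 2 * σ) ^ 2 := hx
      have h3 : (0:ℝ) ≤ c / 2 * σ := by positivity
      have h4 : |x.1| ≤ c / 2 * σ := abs_le_of_sq_le_sq (by nlinarith [sq_nonneg x.2]) h3
      have h5 : |x.2| ≤ c / 2 * σ := abs_le_of_sq_le_sq (by nlinarith [sq_nonneg x.1]) h3
      have h6 : |y.1| ≤ ‖y‖ := norm_fst_le y
      have h7 : |y.2| ≤ ‖y‖ := norm_snd_le y
      have h8 : x.1 * y.1 ≤ c / 2 * σ * ‖y‖ := by
        calc x.1 * y.1 ≤ |x.1 * y.1| := le_abs_self _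
          _ = |x.1| * |y.1| := abs_mul _ _
          _ ≤ _ := mul_le_mul h4 h6 (abs_nonneg _) h3
      have h9 : x.2 * y.2 ≤ c / 2 * σ * ‖y‖ := by
        calc x.2 * y.2 ≤ |x.2 * y.2| := le_abs_self _
          _ = |x.2| * |y.2| := abs_mul _ _
          _ ≤ _ := mul_le_mul h5 h7 (abs_nonneg _) h3
      linarith
    · intro x hx
      have h1 := hx x
      have h2 := (hb x).2
      obtain ⟨e, he⟩ : ∃ e : ℝ, e = Real.sqrt (x.1 ^ 2 + x.2 ^ 2) := ⟨_, rfl⟩
      have he0 : 0 ≤ e := by rw [he]; exact Real.sqrt_nonneg _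
      have he2 : e ^ 2 = x.1 ^ 2 + x.2 ^ 2 := by
        rw [he]; exact Real.sq_sqrt (by positivity)
      have h3 : ‖x‖ ≤ e := by
        rw [Prod.norm_def, Real.norm_eq_abs, Real.norm_eq_abs]
        apply max_le
        · exact abs_le_of_sq_le_sq (by nlinarith [sq_nonneg x.2]) he0
        · exact abs_le_of_sq_le_sq (by nlinarith [sq_nonneg x.1]) he0
      have h4 : e ^ 2 ≤ C * σ * e := by
        have := mul_le_mul_of_nonneg_left h3 (show 0 ≤ C * σ by positivity)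
        nlinarith
      show x.1 ^ 2 + x.2 ^ 2 ≤ (C * σ) ^ 2
      rw [← he2]
      rcases he0.eq_or_lt with h5 | h5
      · have h6 : 0 ≤ (C * σ) ^ 2 := by positivity
        rw [← h5, zero_pow (by norm_num)]
        exact h6
      · have h6 : e ≤ C * σ := by
          have : e * e ≤ (C * σ) * e := by nlinarith
          exact le_of_mul_le_mul_right this h5
        exact pow_le_pow_left₀ he0 h6 2

end Pool.Agent.Helper59_BN
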