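import Pool.Agent.Helper59_BN.FSMain
import Pool.Agent.Helper59_BN.Order

/-!
The final form of the finite-size approximation, and the criterion for asymptotic isotropy.
-/

namespace Pool.Agent.Helper59_BN

open H974 MeasureTheory Filter

theorem ux_of_norm_one {x : ℝ × ℝ} (hx : ‖x‖ = 1) : ux x = x := by
  unfold ux; rw [hx, inv_one, one_smul]

/-- **Uniform finite-size approximation of the boundary norm.** -/
theorem fs_result : ∃ K : ℕ, ∀ ε : ℝ, 0 < ε → ∃ M0 : ℕ, ∀ p : unitInterval,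
    1/2 < (p:ℝ) → (p:ℝ) ≤ 3/4 → ∀ M : ℕ, M0 ≤ M → ∀ x : ℝ × ℝ, ‖x‖ = 1 →
      (∀ᵐ ω ∂bondLaw p, ∀ᶠ n : ℕ in atTop, ∀ u v : ℤ × ℤ, IsNearest ω 0 u →
        IsNearest ω ((n:ℝ) • x) v →
          |(scale p : ℝ) * bdist (openGraph ω).Adj u v / n - fsMean p K M x| ≤ ε) ∧
      ∀ β : ℝ × ℝ → ℝ, IsBoundaryNorm p β → |(scale p : ℝ) * β x - fsMean p K M x| ≤ ε := by
  obtain ⟨K, hK⟩ := fs_main
  refine ⟨K, fun ε hε => ?_⟩
  obtain ⟨M0, h⟩ := hK ε hε
  refine ⟨M0, fun p hp hp34 M hM x hx1 => ?_⟩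
  have hx : x ≠ 0 := by rintro rfl; rw [norm_zero] at hx1; norm_num at hx1
  have h1 := h p hp hp34 M hM x hx
  rw [ux_of_norm_one hx1, hx1] at h1
  have h2 : ∀ᵐ ω ∂bondLaw p, ∀ᶠ n : ℕ in atTop, ∀ u v : ℤ × ℤ, IsNearest ω 0 u →
      IsNearest ω ((n:ℝ) • x) v →
        |(scale p : ℝ) * bdist (openGraph ω).Adj u v / n - fsMean p K M x| ≤ ε := by
    filter_upwards [h1] with ω hω
    filter_upwards [hω, eventually_gt_atTop 0] with n hn hn0
    intro u v hu hv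
    have hnr : (0:ℝ) < n := by exact_mod_cast hn0
    have h2 := hn.2 u v hu hv
    have e1 : (scale p : ℝ) * bdist (openGraph ω).Adj u v / n - fsMean p K M x =
        ((scale p : ℝ) * bdist (openGraph ω).Adj u v - n * 1 * fsMean p K M x) / n := by
      field_simp
    rw [e1, abs_div, Nat.abs_cast, div_le_iff₀ hnr]
    rw [mul_one] at h2 ⊢
    rw [mul_one] at h2
    exact h2
  refine ⟨h2, fun β hβ => ?_⟩
  obtain ⟨ω, ⟨v, hv, ht⟩, h3⟩ := ((hβ x).and h2).exists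
  have hv0 : IsNearest ω 0 (v 0) := by
    have := hv 0
    rwa [Nat.cast_zero, zero_smul] at this
  have ht2 : Tendsto (fun n : ℕ => |(scale p : ℝ) *
      ((bdist (openGraph ω).Adj (v 0) (v n) : ℝ) / n) - fsMean p K M x|) atTop
      (nhds |(scale p : ℝ) * β x - fsMean p K M x|) :=
    ((ht.const_mul _).sub_const _).abs
  apply le_of_tendsto ht2
  filter_upwards [h3] with n hn
  rw [← mul_div_assoc]
  exact hn (v 0) (v n) hv0 (hv n)

/-- The Euclidean norm. -/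
noncomputable def euc (x : ℝ × ℝ) : ℝ := √(x.1 ^ 2 + x.2 ^ 2)

theorem norm_le_euc (x : ℝ × ℝ) : ‖x‖ ≤ euc x := by
  unfold euc
  rw [Prod.norm_def, Real.norm_eq_abs, Real.norm_eq_abs]
  apply max_le <;> apply Real.abs_le_sqrt <;> nlinarith [sq_nonneg x.1, sq_nonneg x.2]

theorem euc_smul {t : ℝ} (ht : 0 ≤ t) (x : ℝ × ℝ) : euc (t • x) = t * euc x := by
  unfold euc
  simp only [Prod.smul_fst, Prod.smul_snd, smul_eq_mul]
  rw [show (t * x.1) ^ 2 + (t * x.2) ^ 2 = t ^ 2 * (x.1 ^ 2 + x.2 ^ 2) by ring,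
    Real.sqrt_mul (by positivity), Real.sqrt_sq ht]

theorem euc_le (x : ℝ × ℝ) : euc x ≤ 2 * ‖x‖ := by
  unfold euc
  have h1 := norm_fst_le x
  have h2 := norm_snd_le x
  rw [Real.norm_eq_abs] at h1 h2
  rw [show 2 * ‖x‖ = √((2 * ‖x‖) ^ 2) by rw [Real.sqrt_sq (by positivity)]]
  apply Real.sqrt_le_sqrt
  have h3 : x.1 ^ 2 ≤ ‖x‖ ^ 2 := sq_le_sq' (by linarith [(abs_le.mp h1).1]) (abs_le.mp h1).2
  have h4 : x.2 ^ 2 ≤ ‖x‖ ^ 2 := sq_le_sq' (by linarith [(abs_le.mp h2).1]) (abs_le.mp h2).2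
  nlinarith [sq_nonneg ‖x‖]

theorem ux_smul' {x : ℝ × ℝ} (hx : x ≠ 0) {t : ℝ} (ht : 0 < t) : ux (t • x) = ux x := by
  unfold ux
  rw [norm_smul, Real.norm_of_nonneg ht.le, smul_smul]
  congr 1
  have := norm_ne_zero_iff.mpr hx
  field_simp

/-- Homogeneity of the boundary norm. -/
theorem norm_homog {p : unitInterval} (hp : 1/2 < (p:ℝ)) (hp34 : (p:ℝ) ≤ 3/4) {β : ℝ × ℝ → ℝ}
    (hβ : IsBoundaryNorm p β) {x : ℝ × ℝ} (hx : x ≠ 0) {t : ℝ} (ht : 0 < t) :
    β (t • x) = t * β x := by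
  obtain ⟨K, hK⟩ := fs_norm
  obtain ⟨-, hl⟩ : True ∧ (1:ℝ) ≤ scale p := by
    obtain ⟨δ, B, -, -, -, hpar⟩ := near_params
    exact ⟨trivial, by exact_mod_cast (hpar p (scale p) hp hp34 rfl).1⟩
  have hx0 : 0 < ‖x‖ := norm_pos_iff.mpr hx
  have hle : ∀ ε : ℝ, 0 < ε → |β (t • x) - t * β x| ≤ ε := by
    intro ε hε
    obtain ⟨M, hM⟩ := hK (ε / (2 * (t * ‖x‖))) (by positivity)
    have h1 := hM p hp hp34 M le_rfl β hβ x hx
    have h2 := hM p hp hp34 M le_rfl β hβ (t • x) (smul_ne_zero ht.ne' hx)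
    rw [ux_smul' hx ht, norm_smul, Real.norm_of_nonneg ht.le] at h2
    obtain ⟨F, hF⟩ : ∃ F : ℝ, F = fsMean p K M (ux x) := ⟨_, rfl⟩
    rw [← hF] at h1 h2
    have e1 : ε / (2 * (t * ‖x‖)) * ‖x‖ = ε / (2 * t) := by field_simp
    have e2 : ε / (2 * (t * ‖x‖)) * (t * ‖x‖) = ε / 2 := by field_simp
    rw [e1] at h1
    rw [e2] at h2
    have h3 : |(scale p : ℝ) * (β (t • x) - t * β x)| ≤ ε := by
      have e3 : (scale p : ℝ) * (β (t • x) - t * β x) =
          ((scale p : ℝ) * β (t • x) - t * ‖x‖ * F) - t * ((scale p : ℝ) * β x - ‖x‖ * F) := by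
        ring
      rw [e3]
      refine (abs_sub _ _).trans ?_
      rw [abs_mul t, abs_of_pos ht]
      have h4 := mul_le_mul_of_nonneg_left h1 ht.le
      have e4 : t * (ε / (2 * t)) = ε / 2 := by field_simp
      rw [e4] at h4
      linarith
    rw [abs_mul, abs_of_nonneg (by linarith)] at h3
    have h4 : 1 * |β (t • x) - t * β x| ≤ (scale p : ℝ) * |β (t • x) - t * β x| :=
      mul_le_mul_of_nonneg_right hl (abs_nonneg _)
    linarith
  have h0 : |β (t • x) - t * β x| ≤ 0 := le_of_forall_pos_le_add (fun ε hε => by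
    rw [zero_add]; exact hle ε hε)
  have := abs_nonpos_iff.mp h0
  linarith

/-- **The criterion.** -/
theorem criterion : ∃ K : ℕ, ∀ β : unitInterval → ℝ × ℝ → ℝ,
    (∀ p : unitInterval, 1/2 < (p:ℝ) → IsBoundaryNorm p (β p)) →
    ((∃ c : unitInterval → ℝ, (∀ p : unitInterval, 1/2 < (p:ℝ) → 0 < c p) ∧ ∀ η : ℝ, 0 < η →
        ∃ p0 : ℝ, 1/2 < p0 ∧ ∀ p : unitInterval, 1/2 < (p:ℝ) → (p:ℝ) < p0 → ∀ x : ℝ × ℝ,
          euc x = 1 → |β p x / c p - 1| ≤ η) ↔
      ∀ ε : ℝ, 0 < ε → ∃ M0 : ℕ, ∀ M : ℕ, M0 ≤ M → ∃ p0 : ℝ, 1/2 < p0 ∧ ∀ p : unitInterval,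
        1/2 < (p:ℝ) → (p:ℝ) < p0 → ∀ x y : ℝ × ℝ, ‖x‖ = 1 → ‖y‖ = 1 →
          |fsMean p K M x / euc x - fsMean p K M y / euc y| ≤ ε) := by
  obtain ⟨K, hK⟩ := fs_norm
  obtain ⟨c1, C1, hc1, hC1, hord⟩ := order_main
  refine ⟨K, fun β hβ => ?_⟩
  -- bounds on the scale
  have hsc : ∀ p : unitInterval, 1/2 < (p:ℝ) → (p:ℝ) ≤ 3/4 →
      0 < ((p:ℝ) - 1/2) ^ (4/3 : ℝ) ∧ 1 ≤ (scale p : ℝ) * ((p:ℝ) - 1/2) ^ (4/3 : ℝ) ∧
      (scale p : ℝ) * ((p:ℝ) - 1/2) ^ (4/3 : ℝ) ≤ 2 := by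
    intro p hp hp34
    have hp1 : (p:ℝ) ≤ 1 := p.2.2
    obtain ⟨σ, hσ⟩ : ∃ σ : ℝ, σ = ((p:ℝ) - 1/2) ^ (4/3 : ℝ) := ⟨_, rfl⟩
    have hσ0 : 0 < σ := by rw [hσ]; exact Real.rpow_pos_of_pos (by linarith) _
    have hσ1 : σ ≤ 1 := by
      rw [hσ]; exact Real.rpow_le_one (by linarith) (by linarith) (by norm_num)
    have hl : scale p = ⌈1 / σ⌉₊ := by rw [hσ]; rfl
    rw [← hσ]
    have hl1 : 1 / σ ≤ scale p := by rw [hl]; exact Nat.le_ceil _
    have hl2 : (scale p:ℝ) < 1 / σ + 1 := by rw [hl]; exact Nat.ceil_lt_add_one (by positivity)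
    refine ⟨hσ0, by rwa [div_le_iff₀ hσ0] at hl1, ?_⟩
    have := mul_le_mul_of_nonneg_right hl2.le hσ0.le
    rw [add_mul, div_mul_cancel₀ _ hσ0.ne'] at this
    linarith
  have hbd : ∀ p : unitInterval, 1/2 < (p:ℝ) → (p:ℝ) ≤ 3/4 → ∀ x : ℝ × ℝ, ‖x‖ = 1 →
      0 < β p x ∧ c1 ≤ (scale p : ℝ) * β p x ∧ (scale p : ℝ) * β p x ≤ 2 * C1 := by
    intro p hp hp34 x hx
    obtain ⟨h1, h2⟩ := norm_bounds (hβ p hp) (hord p hp) x
    obtain ⟨h3, h4, h5⟩ := hsc p hp hp34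
    obtain ⟨σ, hσ⟩ : ∃ σ : ℝ, σ = ((p:ℝ) - 1/2) ^ (4/3 : ℝ) := ⟨_, rfl⟩
    rw [← hσ] at h1 h2 h3 h4 h5
    rw [hx, mul_one] at h1 h2
    have hs0 : (0:ℝ) ≤ scale p := Nat.cast_nonneg _
    refine ⟨lt_of_lt_of_le (by positivity) h1, ?_, ?_⟩
    · have := mul_le_mul_of_nonneg_left h1 hs0
      nlinarith
    · have := mul_le_mul_of_nonneg_left h2 hs0
      nlinarith
  have heuc : ∀ x : ℝ × ℝ, ‖x‖ = 1 → 1 ≤ euc x := fun x hx => by
    have := norm_le_euc x; rwa [hx] at this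
  constructor
  · -- from isotropy of the norm to isotropy of the finite-size means
    rintro ⟨c, hc0, hc⟩ ε hε
    obtain ⟨M0, hM0⟩ := hK (ε / 4) (by positivity)
    obtain ⟨η, hη⟩ : ∃ η : ℝ, η = min (1/2) (ε / (16 * C1)) := ⟨_, rfl⟩
    have hη0 : 0 < η := by rw [hη]; positivity
    obtain ⟨p0, hp0, h⟩ := hc η hη0
    refine ⟨M0, fun M hM => ⟨min p0 (3/4), lt_min hp0 (by norm_num), ?_⟩⟩
    intro p hp hpp0 x y hx hy
    have hp34 : (p:ℝ) ≤ 3/4 := (hpp0.le).trans (min_le_right _ _)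
    have hpp : (p:ℝ) < p0 := lt_of_lt_of_le hpp0 (min_le_left _ _)
    have key : ∀ x : ℝ × ℝ, ‖x‖ = 1 → |fsMean p K M x / euc x - (scale p : ℝ) * c p| ≤ ε / 2 := by
      intro x hx
      have hx0 : x ≠ 0 := by rintro rfl; rw [norm_zero] at hx; norm_num at hx
      have he := heuc x hx
      have he0 : 0 < euc x := by linarith
      have h1 := hM0 p hp hp34 M hM (β p) (hβ p hp) x hx0
      rw [ux_of_norm_one hx, hx, one_mul, mul_one] at h1
      have h2 := h p hp hpp ((euc x)⁻¹ • x) (by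
        rw [euc_smul (by positivity), inv_mul_cancel₀ he0.ne'])
      rw [norm_homog hp hp34 (hβ p hp) hx0 (by positivity)] at h2
      obtain ⟨hb0, hb1, hb2⟩ := hbd p hp hp34 x hx
      have hcp := hc0 p hp
      obtain ⟨b, hb⟩ : ∃ b : ℝ, b = β p x := ⟨_, rfl⟩
      obtain ⟨s, hs⟩ : ∃ s : ℝ, s = (scale p : ℝ) := ⟨_, rfl⟩
      obtain ⟨e, he'⟩ : ∃ e : ℝ, e = euc x := ⟨_, rfl⟩
      obtain ⟨F, hF⟩ : ∃ F : ℝ, F = fsMean p K M x := ⟨_, rfl⟩
      have hs0 : 0 ≤ s := by rw [hs]; exact Nat.cast_nonneg _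
      rw [← hb, ← hs] at h1 hb1 hb2
      rw [← hF] at h1 ⊢
      rw [← hb, ← he'] at h2
      rw [← hb] at hb0
      rw [← he', ← hs]
      rw [← he'] at he he0
      have h3 : |e⁻¹ * b - c p| ≤ η * c p := by
        have e1 : e⁻¹ * b / c p - 1 = (e⁻¹ * b - c p) / c p := by field_simp
        rw [e1, abs_div, abs_of_pos hcp, div_le_iff₀ hcp] at h2
        exact h2
      have h4 := abs_le.mp h3
      have hη1 : η ≤ 1/2 := by rw [hη]; exact min_le_left _ _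
      have hη2 : η ≤ ε / (16 * C1) := by rw [hη]; exact min_le_right _ _
      have hinv : e⁻¹ ≤ 1 := inv_le_one_of_one_le₀ he
      have hinv0 : 0 < e⁻¹ := by positivity
      have h5 : c p ≤ 2 * b := by
        have c2 : e⁻¹ * b ≤ 1 * b := mul_le_mul_of_nonneg_right hinv hb0.le
        have c3 : η * c p ≤ 1/2 * c p := mul_le_mul_of_nonneg_right hη1 hcp.le
        linarith
      have h6 : s * c p ≤ 4 * C1 := by
        have := mul_le_mul_of_nonneg_left h5 hs0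
        linarith
      have h7 : s * (η * c p) ≤ ε / 4 := by
        have c2 : η * (s * c p) ≤ ε / (16 * C1) * (4 * C1) :=
          mul_le_mul hη2 h6 (by positivity) (by positivity)
        have c3 : ε / (16 * C1) * (4 * C1) = ε / 4 := by field_simp; norm_num
        linarith
      have h8 : |F / e - e⁻¹ * (s * b)| ≤ ε / 4 := by
        have e1 : F / e - e⁻¹ * (s * b) = -(e⁻¹ * (s * b - F)) := by field_simp; ring
        rw [e1, abs_neg, abs_mul, abs_of_pos hinv0]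
        have := mul_le_mul hinv h1 (abs_nonneg _) (by norm_num)
        linarith
      have h9 : |e⁻¹ * (s * b) - s * c p| ≤ ε / 4 := by
        have e1 : e⁻¹ * (s * b) - s * c p = s * (e⁻¹ * b - c p) := by ring
        rw [e1, abs_mul, abs_of_nonneg hs0]
        exact (mul_le_mul_of_nonneg_left h3 hs0).trans h7
      have e2 : F / e - s * c p = (F / e - e⁻¹ * (s * b)) + (e⁻¹ * (s * b) - s * c p) := by ring
      rw [e2]
      refine (abs_add_le _ _).trans ?_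
      linarith
    have h1 := key x hx
    have h2 := key y hy
    have e1 : fsMean p K M x / euc x - fsMean p K M y / euc y =
        (fsMean p K M x / euc x - (scale p : ℝ) * c p) -
          (fsMean p K M y / euc y - (scale p : ℝ) * c p) := by ring
    rw [e1]
    refine (abs_sub _ _).trans ?_
    linarith
  · -- from isotropy of the finite-size means to isotropy of the norm
    intro h
    have hone : ‖((1:ℝ), (0:ℝ))‖ = 1 := by rw [Prod.norm_def]; simp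
    have heone : euc ((1:ℝ), (0:ℝ)) = 1 := by unfold euc; simp
    refine ⟨fun p => if (p:ℝ) ≤ 3/4 then β p (1, 0) else 1, ?_, ?_⟩
    · intro p hp
      simp only
      split_ifs with h34
      · exact (hbd p hp h34 _ hone).1
      · norm_num
    · intro η hη
      obtain ⟨M0, hM0⟩ := hK (η * c1 / 4) (by positivity)
      obtain ⟨M1, hM1⟩ := h (η * c1 / 4) (by positivity)
      obtain ⟨p0, hp0, hiso⟩ := hM1 (max M0 M1) (le_max_right _ _)
      refine ⟨min p0 (3/4), lt_min hp0 (by norm_num), ?_⟩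
      intro p hp hpp0 x hx
      have hp34 : (p:ℝ) ≤ 3/4 := (hpp0.le).trans (min_le_right _ _)
      have hpp : (p:ℝ) < p0 := lt_of_lt_of_le hpp0 (min_le_left _ _)
      simp only [if_pos hp34]
      have hx0 : x ≠ 0 := by
        rintro rfl
        unfold euc at hx
        simp at hx
      have hxn : 0 < ‖x‖ := norm_pos_iff.mpr hx0
      obtain ⟨y, hy⟩ : ∃ y, y = ux x := ⟨_, rfl⟩
      have hy1 : ‖y‖ = 1 := by rw [hy]; exact norm_ux hx0
      have hy0 : y ≠ 0 := by rintro rfl; rw [norm_zero] at hy1; norm_num at hy1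
      have hxy : x = ‖x‖ • y := by
        rw [hy]; unfold ux
        rw [smul_smul, mul_inv_cancel₀ hxn.ne', one_smul]
      have hey : ‖x‖ * euc y = 1 := by
        rw [← euc_smul hxn.le, ← hxy]; exact hx
      have hey1 := heuc y hy1
      have hbx : β p x = ‖x‖ * β p y := by
        conv_lhs => rw [hxy]
        exact norm_homog hp hp34 (hβ p hp) hy0 hxn
      have h1 := hM0 p hp hp34 (max M0 M1) (le_max_left _ _) (β p) (hβ p hp) y hy0
      have h2 := hM0 p hp hp34 (max M0 M1) (le_max_left _ _) (β p) (hβ p hp) (1, 0) (by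
        intro hcon; simp at hcon)
      rw [ux_of_norm_one hy1, hy1, one_mul, mul_one] at h1
      rw [ux_of_norm_one hone, hone, one_mul, mul_one] at h2
      have h3 := hiso p hp hpp y (1, 0) hy1 hone
      rw [heone, div_one] at h3
      obtain ⟨hb0, hb1, hb2⟩ := hbd p hp hp34 (1, 0) hone
      obtain ⟨b, hb⟩ : ∃ b : ℝ, b = β p (1, 0) := ⟨_, rfl⟩
      obtain ⟨s, hs⟩ : ∃ s : ℝ, s = (scale p : ℝ) := ⟨_, rfl⟩
      obtain ⟨e, he'⟩ : ∃ e : ℝ, e = euc y := ⟨_, rfl⟩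
      obtain ⟨F, hF⟩ : ∃ F : ℝ, F = fsMean p K (max M0 M1) y := ⟨_, rfl⟩
      obtain ⟨G, hG⟩ : ∃ G : ℝ, G = fsMean p K (max M0 M1) (1, 0) := ⟨_, rfl⟩
      rw [← hs, ← hF] at h1
      rw [← hs, ← hb, ← hG] at h2
      rw [← hF, ← he', ← hG] at h3
      rw [← hb] at hb0 ⊢
      rw [← hb, ← hs] at hb1
      rw [← he'] at hey hey1
      rw [hbx]
      have hxe : ‖x‖ = e⁻¹ := eq_inv_of_mul_eq_one_left hey
      rw [hxe]
      have he0 : 0 < e := by linarith
      have hinv : e⁻¹ ≤ 1 := inv_le_one_of_one_le₀ hey1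
      have hinv0 : 0 < e⁻¹ := by positivity
      have hs0 : 0 ≤ s := by rw [hs]; exact Nat.cast_nonneg _
      have hspos : 0 < s := by
        rcases hs0.lt_or_eq with h | h
        · exact h
        · rw [← h, zero_mul] at hb1; linarith
      have h4 : |s * (e⁻¹ * β p y) - s * b| ≤ 3 * (η * c1 / 4) := by
        have h8 : |e⁻¹ * (s * β p y) - F / e| ≤ η * c1 / 4 := by
          have e1 : e⁻¹ * (s * β p y) - F / e = e⁻¹ * (s * β p y - F) := by field_simp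
          rw [e1, abs_mul, abs_of_pos hinv0]
          have := mul_le_mul hinv h1 (abs_nonneg _) (by norm_num)
          linarith
        have e2 : s * (e⁻¹ * β p y) - s * b =
            (e⁻¹ * (s * β p y) - F / e) + (F / e - G) - (s * b - G) := by ring
        rw [e2]
        refine (abs_sub _ _).trans ?_
        have := abs_add_le (e⁻¹ * (s * β p y) - F / e) (F / e - G)
        linarith
      have e3 : e⁻¹ * β p y / b - 1 = (s * (e⁻¹ * β p y) - s * b) / (s * b) := by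
        field_simp
      rw [e3, abs_div, abs_of_pos (mul_pos hspos hb0), div_le_iff₀ (mul_pos hspos hb0)]
      have h5 : η * c1 ≤ η * (s * b) := mul_le_mul_of_nonneg_left hb1 hη.le
      have h6 : 0 < η * c1 := by positivity
      linarith

end Pool.Agent.Helper59_BN
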