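import Pool.Agent.Helper59_BN.FSBridge

/-!
Uniform finite-size approximation of the boundary norm near the critical point.
-/

namespace Pool.Agent.Helper59_BN

open H974 MeasureTheory Filter

theorem sqr_eq (a : Vtx) (s : ℤ) : sqr a s = {f | inR a.1 (a.1 + s) a.2 (a.2 + s) f} := rfl

theorem boxTime_eq (ω : sqLattice.edgeSet → Bool) (l K M : ℕ) (x : ℝ × ℝ) :
    boxTime ω l K M x = tt (bx l 0 (K * M : ℕ)) (Qb l 0) (Qb l (flr x M))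
      (GG (bx l 0 (K * M : ℕ)) ω) := by
  unfold boxTime
  have e1 : sqr (-((K * M * l : ℕ) : ℤ), -((K * M * l : ℕ) : ℤ))
      (((2 * K * M + 1) * l : ℕ) : ℤ) = {f | inR (((0:Vtx).1 - (K * M : ℕ)) * l)
        (((0:Vtx).1 + (K * M : ℕ) + 1) * l) (((0:Vtx).2 - (K * M : ℕ)) * l)
        (((0:Vtx).2 + (K * M : ℕ) + 1) * l) f} := by
    rw [sqr_eq]
    ext f
    simp only [Set.mem_ofPred_eq, Prod.fst_zero, Prod.snd_zero]
    have a1 : -((K * M * l : ℕ) : ℤ) = (0 - ((K * M : ℕ) : ℤ)) * l := by push_cast; ring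
    have a2 : -((K * M * l : ℕ) : ℤ) + (((2 * K * M + 1) * l : ℕ) : ℤ) =
        (0 + ((K * M : ℕ) : ℤ) + 1) * l := by push_cast; ring
    rw [a2, a1]
  have e2 : sqr (0, 0) (l:ℤ) = Qb l 0 := by
    rw [sqr_eq]
    unfold Qb
    simp
  have e3 : sqr ((l:ℤ) * ⌊(M:ℝ) * x.1⌋, (l:ℤ) * ⌊(M:ℝ) * x.2⌋) l = Qb l (flr x M) := by
    rw [sqr_eq]
    unfold Qb flr
    have a1 : ∀ z : ℤ, (z + 1) * l = l * z + l := fun z => by ring
    have a2 : ∀ z : ℤ, z * l = l * z := fun z => by ring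
    simp only [a1, a2]
  rw [e1, e2, e3, setTime_eq]
  · rfl
  · intro v hv
    obtain ⟨⟨h1, h2⟩, ⟨h3, h4⟩⟩ := hv
    simp only [Prod.fst_zero, Prod.snd_zero, zero_mul, zero_add, one_mul] at h1 h2 h3 h4 ⊢
    have h5 : (0 - ((K * M : ℕ) : ℤ)) * l ≤ 0 := by
      have : (0:ℤ) ≤ ((K * M : ℕ) : ℤ) * l := by positivity
      linarith
    have h6 : (l:ℤ) ≤ (((K * M : ℕ) : ℤ) + 1) * l := by
      have : (0:ℤ) ≤ ((K * M : ℕ) : ℤ) * l := by positivity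
      linarith
    exact ⟨⟨h5.trans h1, h2.trans h6⟩, ⟨h5.trans h3, h4.trans h6⟩⟩

theorem bdd_flr_ge {x : ℝ × ℝ} (hx : ‖x‖ = 1) (M : ℕ) : (M:ℤ) ≤ bdd 0 (flr x M) := by
  have h1 : ‖x‖ = max |x.1| |x.2| := by rw [Prod.norm_def, Real.norm_eq_abs, Real.norm_eq_abs]
  have key : ∀ a : ℝ, |a| = 1 → (M:ℤ) ≤ |⌊(M:ℝ) * a⌋| := by
    intro a ha
    rcases abs_eq (by norm_num : (0:ℝ) ≤ 1) |>.mp ha with h | h
    · rw [h, mul_one, Int.floor_natCast, Nat.abs_cast]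
    · have : (M:ℝ) * a = ((-(M:ℤ) : ℤ) : ℝ) := by rw [h]; push_cast; ring
      rw [this, Int.floor_intCast, abs_neg, Nat.abs_cast]
  unfold bdd flr
  simp only [Prod.fst_zero, Prod.snd_zero, zero_sub, abs_neg]
  rw [h1] at hx
  rcases max_choice |x.1| |x.2| with h | h
  · rw [h] at hx; exact (key _ hx).trans (le_max_left _ _)
  · rw [h] at hx; exact (key _ hx).trans (le_max_right _ _)

/-- The mean of `boxTime` and the mean link cost. -/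
theorem boxTime_mean {δ : ℝ} (hδ : 0 < δ) (hδ1 : δ ≤ 1) (p : unitInterval) {l : ℕ} (hl1 : 1 ≤ l)
    (hh1 : δ ≤ hh (1 - (p:ℝ)) (3 * (l:ℤ)) l) {K M : ℕ} (hK : 3 ≤ K) (hM : 2 ≤ M) {x : ℝ × ℝ}
    (hx : ‖x‖ = 1) :
    ∫ ω, (boxTime ω l K M x : ℝ) ∂bondLaw p ≤ EL (1 - (p:ℝ)) l ((K * M : ℕ)) (flr x M) ∧
    EL (1 - (p:ℝ)) l ((K * M : ℕ)) (flr x M) ≤
      ∫ ω, (boxTime ω l K M x : ℝ) ∂bondLaw p + 2 * V0 δ := by
  have h0 : 0 ≤ 1 - (p:ℝ) := by have := p.2.2; linarith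
  have h1 : 1 - (p:ℝ) ≤ 1 := by have := p.2.1; linarith
  have hl : (0:ℤ) < l := by exact_mod_cast hl1
  obtain ⟨r, hr⟩ : ∃ r : ℤ, r = ((K * M : ℕ) : ℤ) := ⟨_, rfl⟩
  obtain ⟨z, hz⟩ : ∃ z, z = flr x M := ⟨_, rfl⟩
  have hz1 : bdd 0 z ≤ M + 1 := by rw [hz]; exact bdd_flr hx M
  have hz2 : (M:ℤ) ≤ bdd 0 z := by rw [hz]; exact bdd_flr_ge hx M
  have hrM : (3:ℤ) * M ≤ r := by
    rw [hr]; push_cast
    exact mul_le_mul_of_nonneg_right (by exact_mod_cast hK) (by positivity)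
  have hM2 : (2:ℤ) ≤ M := by exact_mod_cast hM
  have e1 : ∫ ω, (boxTime ω l K M x : ℝ) ∂bondLaw p =
      Ex (fun _ => 1 - (p:ℝ)) (bx l 0 r) (fun G => (tt (bx l 0 r) (Qb l 0) (Qb l z) G : ℝ)) := by
    rw [← integral_GG]
    apply integral_congr_ae
    filter_upwards with ω
    rw [boxTime_eq, hr, hz]
  rw [e1, ← hr, ← hz]
  have s0 : bx (l:ℤ) 0 1 ⊆ bx l 0 r := bx_subset hl (by
    have : bdd (0:Vtx) 0 = 0 := by simp [bdd]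
    omega)
  have sz : bx (l:ℤ) z 1 ⊆ bx l 0 r := bx_subset hl (by rw [bdd_symm]; omega)
  constructor
  · apply Ex_mono (okq h0 h1)
    intro G _
    obtain ⟨k, hk⟩ := LK_ex hl G (a := 0) (b := z) (r := r) (by omega) (Finset.Subset.refl _)
    exact_mod_cast tt_le_LK hl (lk_spec hk)
  · have h2 : EL (1 - (p:ℝ)) l r z ≤ Ex (fun _ => 1 - (p:ℝ)) (bx l 0 r)
        (fun G => (tt (bx l 0 r) (Qb l 0) (Qb l z) G : ℝ) + ((sc l 0 G : ℝ) + (sc l z G : ℝ))) := by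
      apply Ex_mono (okq h0 h1)
      intro G _
      obtain ⟨k, hk⟩ := LK_ex hl G (a := 0) (b := z) (r := r) (by omega) (Finset.Subset.refl _)
      obtain ⟨C, c1, -, z', c3, c4⟩ := hk
      obtain ⟨u, hu, hu'⟩ := c3.touch hl
      obtain ⟨v, hv, hv'⟩ := c4.touch hl
      obtain ⟨P, g1, g2, u', g3, v', g4, g5⟩ := tt_spec G c1 hu hv (hu'.trans hv'.symm)
      have := lk_le (LK_path hl G g1 s0 sz (by omega) g3 g4 g5)
      have h3 : lk l (bx l 0 r) 0 z G ≤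
          tt (bx l 0 r) (Qb l 0) (Qb l z) G + (sc l 0 G + sc l z G) := by omega
      exact_mod_cast h3
    rw [Ex_add, Ex_add] at h2
    have h4 := sc_mean h0 h1 hl hδ hδ1 hh1 0 s0
    have h5 := sc_mean h0 h1 hl hδ hδ1 hh1 z sz
    linarith

/-- **Uniform finite-size approximation.** -/
theorem fs_main : ∃ K : ℕ, ∀ ε : ℝ, 0 < ε → ∃ M0 : ℕ, ∀ p : unitInterval,
    1/2 < (p:ℝ) → (p:ℝ) ≤ 3/4 → ∀ M : ℕ, M0 ≤ M → ∀ x : ℝ × ℝ, x ≠ 0 →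
      ∀ᵐ ω ∂bondLaw p, ∀ᶠ n : ℕ in atTop,
        |(scale p : ℝ) * tim (opn ω)ᶜ (opn ω) (0, 0) (flr x n) -
          n * ‖x‖ * fsMean p K M (ux x)| ≤ ε * ‖x‖ * n ∧
        ∀ u v : Vtx, IsNearest ω 0 u → IsNearest ω ((n:ℝ) • x) v →
          |(scale p : ℝ) * bdist (openGraph ω).Adj u v -
            n * ‖x‖ * fsMean p K M (ux x)| ≤ ε * ‖x‖ * n := by
  obtain ⟨δ, B, hδ, hδ1, hB, hpar⟩ := near_params
  obtain ⟨K, hK⟩ := core_fin hδ hδ1 hB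
  refine ⟨K + 3, fun ε hε => ?_⟩
  obtain ⟨M1, hM1, h⟩ := hK (ε / 2) (by positivity)
  refine ⟨M1 + ⌈4 * V0 δ / ε⌉₊ + 2, ?_⟩
  intro p hp hp34 M hM x hx
  obtain ⟨hl1, hh1, hh2⟩ := hpar p (scale p) hp hp34 rfl
  have hV := V0_pos hδ
  have hx0 : 0 < ‖x‖ := norm_pos_iff.mpr hx
  have hM2 : 2 ≤ M := by omega
  have hMr : (1:ℝ) ≤ M := by exact_mod_cast (by omega : 1 ≤ M)
  have hVM : 2 * V0 δ / M ≤ ε / 2 := by
    have h1 : (⌈4 * V0 δ / ε⌉₊ : ℝ) ≤ M := by exact_mod_cast (by omega)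
    have h2 := (Nat.le_ceil (4 * V0 δ / ε)).trans h1
    rw [div_le_iff₀ hε] at h2
    rw [div_le_iff₀ (by linarith)]
    linarith
  have hbt := boxTime_mean hδ hδ1 p hl1 hh1 (K := K + 3) (by omega) hM2 (norm_ux hx)
  have hfs : |EL (1 - (p:ℝ)) (scale p) (((K + 3) * M : ℕ)) (flr (ux x) M) / M -
      fsMean p (K + 3) M (ux x)| ≤ ε / 2 := by
    unfold fsMean
    rw [← sub_div, abs_div, Nat.abs_cast]
    refine le_trans (div_le_div_of_nonneg_right (abs_le.mpr ⟨?_, ?_⟩) (by linarith)) hVM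
    · linarith [hbt.1]
    · linarith [hbt.2]
  obtain ⟨E, hE⟩ : ∃ E : ℝ, E = EL (1 - (p:ℝ)) (scale p) (((K + 3) * M : ℕ)) (flr (ux x) M) / M :=
    ⟨_, rfl⟩
  obtain ⟨F, hF⟩ : ∃ F : ℝ, F = fsMean p (K + 3) M (ux x) := ⟨_, rfl⟩
  rw [← hE, ← hF] at hfs
  have hmain := h p (scale p) hp hl1 hh1 hh2 M (by omega) x hx
  rw [← hE] at hmain
  rw [← hF]
  filter_upwards [hmain] with ω hω
  filter_upwards [hω] with n hn
  have hn0 : (0:ℝ) ≤ n := Nat.cast_nonneg n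
  have key : ∀ b : ℝ, |b - n * ‖x‖ * E| ≤ ε / 2 * ‖x‖ * n → |b - n * ‖x‖ * F| ≤ ε * ‖x‖ * n := by
    intro b hb
    have e1 : b - n * ‖x‖ * F = (b - n * ‖x‖ * E) + n * ‖x‖ * (E - F) := by ring
    rw [e1]
    refine (abs_add_le _ _).trans ?_
    rw [abs_mul (n * ‖x‖), abs_of_nonneg (show 0 ≤ n * ‖x‖ by positivity)]
    have := mul_le_mul_of_nonneg_left hfs (show 0 ≤ n * ‖x‖ by positivity)
    linarith
  exact ⟨key _ hn.1, fun u v hu hv => key _ (hn.2 u v hu hv)⟩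

/-- The approximation of the boundary norm. -/
theorem fs_norm : ∃ K : ℕ, ∀ ε : ℝ, 0 < ε → ∃ M0 : ℕ, ∀ p : unitInterval,
    1/2 < (p:ℝ) → (p:ℝ) ≤ 3/4 → ∀ M : ℕ, M0 ≤ M → ∀ β : ℝ × ℝ → ℝ, IsBoundaryNorm p β →
      ∀ x : ℝ × ℝ, x ≠ 0 → |(scale p : ℝ) * β x - ‖x‖ * fsMean p K M (ux x)| ≤ ε * ‖x‖ := by
  obtain ⟨K, hK⟩ := fs_main
  refine ⟨K, fun ε hε => ?_⟩
  obtain ⟨M0, h⟩ := hK ε hε
  refine ⟨M0, fun p hp hp34 M hM β hβ x hx => ?_⟩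
  obtain ⟨ω, ⟨v, hv, ht⟩, h1⟩ := ((hβ x).and (h p hp hp34 M hM x hx)).exists
  have hv0 : IsNearest ω 0 (v 0) := by
    have := hv 0
    rwa [Nat.cast_zero, zero_smul] at this
  obtain ⟨F, hF⟩ : ∃ F : ℝ, F = fsMean p K M (ux x) := ⟨_, rfl⟩
  rw [← hF] at h1 ⊢
  have ht2 : Tendsto (fun n : ℕ => |(scale p : ℝ) *
      ((bdist (openGraph ω).Adj (v 0) (v n) : ℝ) / n) - ‖x‖ * F|) atTop
      (nhds |(scale p : ℝ) * β x - ‖x‖ * F|) :=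
    ((ht.const_mul _).sub_const _).abs
  apply le_of_tendsto ht2
  filter_upwards [h1, eventually_gt_atTop 0] with n hn hn0
  have hnr : (0:ℝ) < n := by exact_mod_cast hn0
  have h2 := (hn.2 (v 0) (v n) hv0 (hv n))
  have e1 : (scale p : ℝ) * ((bdist (openGraph ω).Adj (v 0) (v n) : ℝ) / n) - ‖x‖ * F =
      ((scale p : ℝ) * bdist (openGraph ω).Adj (v 0) (v n) - n * ‖x‖ * F) / n := by
    field_simp
  rw [e1, abs_div, Nat.abs_cast, div_le_iff₀ hnr]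
  exact h2

end Pool.Agent.Helper59_BN
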