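import Pool.Agent.H974R2.BK
import Pool.Agent.H974R2.Circ

/-!
The cost of a crossing: geometric tails (by the level sets and the van den Berg-Kesten inequality)
and sums of independent costs.
-/

namespace Pool.Agent.Helper59_BN

open H974

section general

variable {E : Type*} [DecidableEq E]

/-- `n` disjoint occurrences of `A`. -/
def Dn (A : Finset E → Prop) : ℕ → Finset E → Prop
  | 0 => fun _ => True
  | n + 1 => DisjOcc A (Dn A n)

omit [DecidableEq E] in
theorem Dn_mono (A : Finset E → Prop) (n : ℕ) {F G : Finset E} (h : F ⊆ G) (hF : Dn A n F) :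
    Dn A n G := by
  cases n with
  | zero => trivial
  | succ n =>
    obtain ⟨K, L, h1, h2, h3, h4, h5⟩ := hF
    exact ⟨K, L, h1.trans h, h2.trans h, h3, h4, h5⟩

theorem pr_Dn {p : E → ℝ} (hp : Ok p) {S : Finset E} {A : Finset E → Prop} (hA : IncrE S A)
    (n : ℕ) : Pr p S (Dn A n) ≤ (Pr p S A) ^ n := by
  induction n with
  | zero => rw [pow_zero]; exact Pr_le_one hp _ _
  | succ n ih =>
    have h := bk hp hA (fun F G h1 _ h3 => Dn_mono A n h1 h3 : IncrE S (Dn A n))
    calc Pr p S (Dn A (n + 1)) = Pr p S (DisjOcc A (Dn A n)) := rfl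
      _ ≤ Pr p S A * Pr p S (Dn A n) := h
      _ ≤ Pr p S A * (Pr p S A) ^ n := mul_le_mul_of_nonneg_left ih (Pr_nonneg hp _ _)
      _ = _ := by rw [pow_succ]; ring

/-- Products of functions of disjoint sets of edges. -/
theorem Ex_prod {p : E → ℝ} {ι : Type*} [DecidableEq ι] (I : Finset ι) {U : Finset E}
    (S : ι → Finset E) (f : ι → Finset E → ℝ) (hS : ∀ i ∈ I, S i ⊆ U)
    (hd : ∀ i ∈ I, ∀ j ∈ I, i ≠ j → Disjoint (S i) (S j))
    (hf : ∀ i ∈ I, ∀ F, F ⊆ U → f i F = f i (F ∩ S i)) :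
    Ex p U (fun F => ∏ i ∈ I, f i F) = ∏ i ∈ I, Ex p U (f i) := by
  induction I using Finset.induction_on with
  | empty => simp only [Finset.prod_empty]; exact Ex_const _ _ _
  | insert a I ha ih =>
    rw [Finset.prod_insert ha, ← ih (fun i hi => hS i (Finset.mem_insert_of_mem hi))
      (fun i hi j hj => hd i (Finset.mem_insert_of_mem hi) j (Finset.mem_insert_of_mem hj))
      (fun i hi => hf i (Finset.mem_insert_of_mem hi)),
      ← Ex_mul_indep (S := S a) (T := I.biUnion S) (hS a (Finset.mem_insert_self _ _))]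
    · apply Ex_congr
      intro F _
      rw [Finset.prod_insert ha]
    · rw [Finset.biUnion_subset]
      exact fun i hi => hS i (Finset.mem_insert_of_mem hi)
    · rw [Finset.disjoint_biUnion_right]
      intro i hi
      apply hd a (Finset.mem_insert_self _ _) i (Finset.mem_insert_of_mem hi)
      rintro rfl
      exact ha hi
    · exact hf a (Finset.mem_insert_self _ _)
    · intro F hF
      apply Finset.prod_congr rfl
      intro i hi
      have hi' := Finset.mem_insert_of_mem hi (b := a)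
      rw [hf i hi' F hF, hf i hi' (F ∩ I.biUnion S) (Finset.inter_subset_left.trans hF)]
      congr 1
      rw [Finset.inter_assoc]
      congr 1
      exact (Finset.inter_eq_right.mpr (Finset.subset_biUnion_of_mem S hi)).symm

/-- The exponential moment of a cost with geometric tail. -/
theorem moment {p : E → ℝ} (hp : Ok p) {S : Finset E} {δ : ℝ} (h0 : 0 < δ) (h1 : δ ≤ 1)
    (X : Finset E → ℕ) (K : ℕ) (hX : ∀ F, F ⊆ S → X F ≤ K)
    (ht : ∀ k : ℕ, Pr p S (fun F => k < X F) ≤ (1 - δ) ^ (k + 1)) :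
    Ex p S (fun F => (1 + δ) ^ (X F)) ≤ 1 + 1 / δ := by
  have key : ∀ F, F ⊆ S → (1 + δ) ^ (X F) =
      1 + ∑ k ∈ Finset.range K, (δ * (1 + δ) ^ k) * ind (k < X F) := by
    intro F hF
    have hk := hX F hF
    have h2 : ∑ k ∈ Finset.range K, (δ * (1 + δ) ^ k) * ind (k < X F) =
        ∑ k ∈ Finset.range (X F), δ * (1 + δ) ^ k := by
      rw [← Finset.sum_subset (Finset.range_subset_range.mpr hk)]
      · apply Finset.sum_congr rfl
        intro k hk'
        rw [ind_of (Finset.mem_range.mp hk'), mul_one]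
      · intro k _ hk'
        rw [ind_not_of (fun h => hk' (Finset.mem_range.mpr h)), mul_zero]
    have h3 := geom_sum_mul (1 + δ) (X F)
    rw [add_sub_cancel_left] at h3
    rw [h2, ← Finset.mul_sum, mul_comm, h3]
    ring
  rw [Ex_congr key, Ex_add, Ex_const, Ex_sum]
  have h3 : ∀ k ∈ Finset.range K, Ex p S (fun F => (δ * (1 + δ) ^ k) * ind (k < X F)) ≤
      δ * (1 - δ ^ 2) ^ k := by
    intro k _
    rw [Ex_mul_left]
    have h4 : Ex p S (fun F => ind (k < X F)) ≤ (1 - δ) ^ (k + 1) := ht k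
    calc δ * (1 + δ) ^ k * Ex p S (fun F => ind (k < X F))
        ≤ δ * (1 + δ) ^ k * (1 - δ) ^ (k + 1) := mul_le_mul_of_nonneg_left h4 (by positivity)
      _ = (1 - δ) * (δ * ((1 + δ) * (1 - δ)) ^ k) := by rw [mul_pow]; ring
      _ ≤ 1 * (δ * ((1 + δ) * (1 - δ)) ^ k) := by
          apply mul_le_mul_of_nonneg_right (by linarith)
          have : 0 ≤ (1 + δ) * (1 - δ) := mul_nonneg (by linarith) (by linarith)
          positivity
      _ = δ * (1 - δ ^ 2) ^ k := by rw [one_mul]; congr 2; ring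
  have h5 : ∑ k ∈ Finset.range K, δ * (1 - δ ^ 2) ^ k ≤ 1 / δ := by
    rw [← Finset.mul_sum]
    have h6 : 0 ≤ 1 - δ ^ 2 := by nlinarith
    have h7 : ∑ k ∈ Finset.range K, (1 - δ ^ 2) ^ k = (1 - (1 - δ ^ 2) ^ K) / δ ^ 2 := by
      rw [geom_sum_eq (by nlinarith)]
      field_simp
      ring
    rw [h7]
    have h8 : 0 ≤ (1 - δ ^ 2) ^ K := pow_nonneg h6 _
    rw [mul_div_assoc', div_le_div_iff₀ (by positivity) h0]
    nlinarith [mul_nonneg (mul_nonneg h0.le h0.le) h8]
  have := (Finset.sum_le_sum h3).trans h5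
  linarith

theorem markov {p : E → ℝ} (hp : Ok p) {S : Finset E} {f : Finset E → ℝ} (hf : ∀ F, 0 ≤ f F)
    {t : ℝ} (ht : 0 < t) : Pr p S (fun F => t ≤ f F) ≤ Ex p S f / t := by
  rw [le_div_iff₀ ht]
  unfold Pr
  rw [mul_comm, ← Ex_mul_left]
  apply Ex_mono hp
  intro F _
  by_cases h : t ≤ f F
  · rw [ind_of h, mul_one]; exact h
  · rw [ind_not_of h, mul_zero]; exact hf F

/-- Sums of costs over a family with disjoint supports. -/
theorem sum_tail1 {p : E → ℝ} (hp : Ok p) {ι : Type*} [DecidableEq ι] {U : Finset E} {δ : ℝ}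
    (h0 : 0 < δ) (h1 : δ ≤ 1) (I : Finset ι) (S : ι → Finset E) (X : ι → Finset E → ℕ) (K : ℕ)
    (hS : ∀ i ∈ I, S i ⊆ U) (hd : ∀ i ∈ I, ∀ j ∈ I, i ≠ j → Disjoint (S i) (S j))
    (hf : ∀ i ∈ I, ∀ F, F ⊆ U → X i F = X i (F ∩ S i))
    (hX : ∀ i ∈ I, ∀ F, F ⊆ U → X i F ≤ K)
    (ht : ∀ i ∈ I, ∀ k : ℕ, Pr p U (fun F => k < X i F) ≤ (1 - δ) ^ (k + 1)) (m : ℕ) :
    Pr p U (fun F => m ≤ ∑ i ∈ I, X i F) ≤ (1 + 1 / δ) ^ I.card / (1 + δ) ^ m := by
  have h2 : Ex p U (fun F => ∏ i ∈ I, (1 + δ) ^ (X i F)) ≤ (1 + 1 / δ) ^ I.card := by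
    rw [Ex_prod I S (fun i F => (1 + δ) ^ (X i F)) hS hd (fun i hi F hF => by
      rw [hf i hi F hF])]
    rw [← Finset.prod_const]
    apply Finset.prod_le_prod
    · intro i _
      exact Ex_nonneg hp (fun _ _ => by positivity)
    · intro i hi
      exact moment hp h0 h1 (X i) K (hX i hi) (ht i hi)
  have h3 : Pr p U (fun F => m ≤ ∑ i ∈ I, X i F) ≤
      Pr p U (fun F => (1 + δ) ^ m ≤ ∏ i ∈ I, (1 + δ) ^ (X i F)) := by
    apply Pr_mono hp
    intro F _ h
    rw [Finset.prod_pow_eq_pow_sum]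
    exact pow_le_pow_right₀ (by linarith) h
  refine h3.trans ((markov hp (fun F => Finset.prod_nonneg fun i _ => by positivity)
    (by positivity)).trans ?_)
  gcongr

/-- Sums of costs over a family with finite range dependence. -/
theorem sum_tail {p : E → ℝ} (hp : Ok p) {U : Finset E} {δ : ℝ}
    (h0 : 0 < δ) (h1 : δ ≤ 1) (n : ℕ) (S : ℕ → Finset E) (X : ℕ → Finset E → ℕ) (K : ℕ)
    (hS : ∀ i < n, S i ⊆ U) (hd : ∀ i < n, ∀ j < n, i + 2 ≤ j → Disjoint (S i) (S j))
    (hf : ∀ i < n, ∀ F, F ⊆ U → X i F = X i (F ∩ S i))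
    (hX : ∀ i < n, ∀ F, F ⊆ U → X i F ≤ K)
    (ht : ∀ i < n, ∀ k : ℕ, Pr p U (fun F => k < X i F) ≤ (1 - δ) ^ (k + 1)) (m : ℕ) :
    Pr p U (fun F => 2 * m ≤ ∑ i ∈ Finset.range n, X i F) ≤
      2 * ((1 + 1 / δ) ^ n / (1 + δ) ^ m) := by
  have hcl : ∀ b : ℕ, Pr p U (fun F => m ≤ ∑ i ∈ (Finset.range n).filter (fun i => i % 2 = b),
      X i F) ≤ (1 + 1 / δ) ^ n / (1 + δ) ^ m := by
    intro b
    refine (sum_tail1 hp h0 h1 _ S X K ?_ ?_ ?_ ?_ ?_ m).trans ?_
    · intro i hi
      exact hS i (Finset.mem_range.mp (Finset.mem_filter.mp hi).1)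
    · intro i hi j hj hij
      rw [Finset.mem_filter, Finset.mem_range] at hi hj
      rcases Nat.lt_or_gt_of_ne hij with h | h
      · exact hd i hi.1 j hj.1 (by omega)
      · exact (hd j hj.1 i hi.1 (by omega)).symm
    · intro i hi
      exact hf i (Finset.mem_range.mp (Finset.mem_filter.mp hi).1)
    · intro i hi
      exact hX i (Finset.mem_range.mp (Finset.mem_filter.mp hi).1)
    · intro i hi
      exact ht i (Finset.mem_range.mp (Finset.mem_filter.mp hi).1)
    · have h3 : ((Finset.range n).filter (fun i => i % 2 = b)).card ≤ n := by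
        refine (Finset.card_filter_le _ _).trans ?_
        rw [Finset.card_range]
      have h4 : (1 + 1 / δ) ^ ((Finset.range n).filter (fun i => i % 2 = b)).card ≤
          (1 + 1 / δ) ^ n := pow_le_pow_right₀ (by
            have : 0 < 1 / δ := by positivity
            linarith) h3
      gcongr
  have hor : Pr p U (fun F => 2 * m ≤ ∑ i ∈ Finset.range n, X i F) ≤
      Pr p U (fun F => (m ≤ ∑ i ∈ (Finset.range n).filter (fun i => i % 2 = 0), X i F) ∨
        (m ≤ ∑ i ∈ (Finset.range n).filter (fun i => i % 2 = 1), X i F)) := by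
    apply Pr_mono hp
    intro F _ h
    by_contra hcon
    push Not at hcon
    have h5 := Finset.sum_filter_add_sum_filter_not (Finset.range n) (fun i => i % 2 = 0)
      (fun i => X i F)
    have h6 : (Finset.range n).filter (fun i => ¬ i % 2 = 0) =
        (Finset.range n).filter (fun i => i % 2 = 1) := by
      apply Finset.filter_congr
      intro i _
      omega
    rw [h6] at h5
    omega
  refine hor.trans ((Pr_or_le hp _ _ _).trans ?_)
  have h0' := hcl 0
  have h1' := hcl 1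
  linarith

end general

/-- There is a left-right crossing of cost at most `k`: the edges outside `G` cost one. -/
def XL (a b c d : ℤ) (k : ℕ) (G : Finset Edg) : Prop :=
  ∃ C : Finset Edg, C ⊆ LRE a b c d ∧ (C \ G).card ≤ k ∧ LRc a b c d C

/-- The vertices reached from the left side at cost at most `j`. -/
def lev (a b c d : ℤ) (G : Finset Edg) (j : ℕ) : Set Vtx :=
  {v | ∃ C : Finset Edg, C ⊆ LRE a b c d ∧ (C \ G).card ≤ j ∧
    ∃ y, (c ≤ y ∧ y ≤ d) ∧ Reach ↑C (a, y) v}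

theorem lev_step {a b c d : ℤ} {G : Finset Edg} {j : ℕ} {u v : Vtx}
    (hu : u ∈ lev a b c d G j) {e : Edg} (he : e ∈ LRE a b c d)
    (hc : (src e = u ∧ tgt e = v) ∨ (src e = v ∧ tgt e = u)) :
    v ∈ lev a b c d G (j + 1) ∧ (e ∈ G → v ∈ lev a b c d G j) := by
  obtain ⟨C, h1, h2, y, h3, h4⟩ := hu
  have h5 : Reach ↑(insert e C) (a, y) v := by
    refine (h4.mono (by rw [Finset.coe_insert]; exact Set.subset_insert _ _)).trans
      (Adj.reach ⟨e, by simp, hc⟩)
  have h6 : insert e C ⊆ LRE a b c d := Finset.insert_subset he h1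
  constructor
  · refine ⟨insert e C, h6, ?_, y, h3, h5⟩
    have h7 : insert e C \ G ⊆ insert e (C \ G) := by
      intro x hx
      simp only [Finset.mem_sdiff, Finset.mem_insert] at hx ⊢
      tauto
    have h8 := Finset.card_le_card h7
    have h9 := Finset.card_insert_le e (C \ G)
    omega
  · intro heG
    refine ⟨insert e C, h6, ?_, y, h3, h5⟩
    rw [Finset.insert_sdiff_of_mem _ heG]
    exact h2

theorem lev_mono {a b c d : ℤ} {G : Finset Edg} {i j : ℕ} (h : i ≤ j) :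
    lev a b c d G i ⊆ lev a b c d G j := by
  rintro v ⟨C, h1, h2, h3⟩
  exact ⟨C, h1, h2.trans h, h3⟩

open Classical in
/-- The edge boundary of a level. -/
noncomputable def lbd (a b c d : ℤ) (G : Finset Edg) (j : ℕ) : Finset Edg :=
  (LRE a b c d).filter (fun e => ¬ (src e ∈ lev a b c d G j ↔ tgt e ∈ lev a b c d G j))

theorem mem_lbd {a b c d : ℤ} {G : Finset Edg} {j : ℕ} {e : Edg} : e ∈ lbd a b c d G j ↔
    e ∈ LRE a b c d ∧ ¬ (src e ∈ lev a b c d G j ↔ tgt e ∈ lev a b c d G j) := by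
  classical
  unfold lbd
  rw [Finset.mem_filter]

theorem lbd_spec {a b c d : ℤ} {G : Finset Edg} {j : ℕ} {e : Edg} (he : e ∈ lbd a b c d G j) :
    e ∈ LRE a b c d ∧ e ∉ G ∧ src e ∈ lev a b c d G (j + 1) ∧ tgt e ∈ lev a b c d G (j + 1) := by
  rw [mem_lbd] at he
  obtain ⟨h1, h2⟩ := he
  by_cases hs : src e ∈ lev a b c d G j
  · have h3 := lev_step hs h1 (v := tgt e) (Or.inl ⟨rfl, rfl⟩)
    refine ⟨h1, fun h4 => h2 ⟨fun _ => h3.2 h4, fun _ => hs⟩, lev_mono (by omega) hs, h3.1⟩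
  · have ht : tgt e ∈ lev a b c d G j := by
      by_contra ht
      exact h2 ⟨fun h => absurd h hs, fun h => absurd h ht⟩
    have h3 := lev_step ht h1 (v := src e) (Or.inr ⟨rfl, rfl⟩)
    refine ⟨h1, fun h4 => h2 ⟨fun _ => ht, fun _ => h3.2 h4⟩, h3.1, lev_mono (by omega) ht⟩

/-- Without a cheap crossing there are many disjoint cuts. -/
theorem not_XL {a b c d : ℤ} {G : Finset Edg} {k : ℕ} (h : ¬ XL a b c d k G) :
    Dn (fun H => ¬ LRc a b c d (LRE a b c d \ H)) (k + 1) (LRE a b c d \ G) := by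
  have hcut : ∀ j ≤ k, ¬ LRc a b c d (LRE a b c d \ lbd a b c d G j) := by
    rintro j hj ⟨y, y', hy, hy', hr⟩
    have hin : ∀ v, Reach (↑(LRE a b c d \ lbd a b c d G j) ∩ ↑(LRE a b c d)) (a, y) v →
        v ∈ lev a b c d G j := by
      intro v hv
      induction hv with
      | refl => exact ⟨∅, by simp, by simp, y, hy, Reach.refl _ _⟩
      | @tail w w' _ hs ih =>
        obtain ⟨e, ⟨he, -⟩, hc⟩ := hs
        rw [Finset.mem_coe, Finset.mem_sdiff] at he
        have he2 := he.2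
        rw [mem_lbd, not_and, not_not] at he2
        have h1 := he2 he.1
        rcases hc with ⟨h2, h3⟩ | ⟨h2, h3⟩
        · rw [h2, h3] at h1; exact h1.mp ih
        · rw [h2, h3] at h1; exact h1.mpr ih
    obtain ⟨C, h1, h2, y0, h3, h4⟩ := hin _ hr
    apply h
    refine ⟨C, h1, h2.trans hj, y0, y', h3, hy', ?_⟩
    rwa [Set.inter_eq_left.mpr (by exact_mod_cast h1)]
  have key : ∀ n ≤ k + 1, Dn (fun H => ¬ LRc a b c d (LRE a b c d \ H)) n
      ((Finset.range n).biUnion (lbd a b c d G)) := by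
    intro n
    induction n with
    | zero => intro _; trivial
    | succ n ih =>
      intro hn
      refine ⟨lbd a b c d G n, (Finset.range n).biUnion (lbd a b c d G), ?_, ?_, ?_,
        hcut n (by omega), ih (by omega)⟩
      · exact Finset.subset_biUnion_of_mem _ (Finset.self_mem_range_succ n)
      · apply Finset.biUnion_subset_biUnion_of_subset_left
        exact Finset.range_subset_range.mpr (by omega)
      · rw [Finset.disjoint_biUnion_right]
        intro i hi
        rw [Finset.mem_range] at hi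
        rw [Finset.disjoint_left]
        intro e h1 h2
        have h3 := lbd_spec h2
        have h4 := lev_mono (show i + 1 ≤ n by omega) h3.2.2.1
        have h5 := lev_mono (show i + 1 ≤ n by omega) h3.2.2.2
        rw [mem_lbd] at h1
        exact h1.2 ⟨fun _ => h5, fun _ => h4⟩
  refine Dn_mono _ _ ?_ (key (k + 1) le_rfl)
  intro e he
  rw [Finset.mem_biUnion] at he
  obtain ⟨j, -, hj⟩ := he
  have := lbd_spec hj
  exact Finset.mem_sdiff.mpr ⟨this.1, this.2.1⟩

theorem XL_local {a b c d : ℤ} {k : ℕ} {G S : Finset Edg} (hS : LRE a b c d ⊆ S) :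
    XL a b c d k G ↔ XL a b c d k (G ∩ S) := by
  unfold XL
  have : ∀ C : Finset Edg, C ⊆ LRE a b c d → C \ G = C \ (G ∩ S) := by
    intro C hC
    ext e
    simp only [Finset.mem_sdiff, Finset.mem_inter]
    constructor
    · rintro ⟨h1, h2⟩; exact ⟨h1, fun h => h2 h.1⟩
    · rintro ⟨h1, h2⟩; exact ⟨h1, fun h => h2 ⟨h, hS (hC h1)⟩⟩
  constructor
  · rintro ⟨C, h1, h2, h3⟩
    exact ⟨C, h1, by rwa [← this C h1], h3⟩
  · rintro ⟨C, h1, h2, h3⟩
    exact ⟨C, h1, by rwa [this C h1], h3⟩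

theorem pr_not_XL {q : ℝ} (h0 : 0 ≤ q) (h1 : q ≤ 1) {a b c d : ℤ} {S : Finset Edg}
    (hS : LRE a b c d ⊆ S) (k : ℕ) :
    Pr (fun _ => q) S (fun G => ¬ XL a b c d k G) ≤ (1 - hh q (b - a) (d - c)) ^ (k + 1) := by
  have e0 : Pr (fun _ => q) S (fun G => ¬ XL a b c d k G) =
      Pr (fun _ => q) (LRE a b c d) (fun G => ¬ XL a b c d k G) :=
    Pr_local hS (fun F _ => not_congr (XL_local (Finset.Subset.refl _)))
  rw [e0]
  obtain ⟨A, hA⟩ : ∃ A : Finset Edg → Prop, A = fun H => ¬ LRc a b c d (LRE a b c d \ H) :=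
    ⟨_, rfl⟩
  have h2 : Pr (fun _ => q) (LRE a b c d) (fun G => ¬ XL a b c d k G) ≤
      Pr (fun _ => q) (LRE a b c d) (fun G => Dn A (k + 1) (LRE a b c d \ G)) :=
    Pr_mono (okq h0 h1) (fun G _ h => by rw [hA]; exact not_XL h)
  have h3 : Pr (fun _ => 1 - q) (LRE a b c d) (Dn A (k + 1)) =
      Pr (fun _ => q) (LRE a b c d) (fun G => Dn A (k + 1) (LRE a b c d \ G)) :=
    Pr_compl (fun _ => q) (LRE a b c d) (Dn A (k + 1))
  have h4 : Pr (fun _ => 1 - q) (LRE a b c d) A =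
      Pr (fun _ => q) (LRE a b c d) (fun G => A (LRE a b c d \ G)) :=
    Pr_compl (fun _ => q) (LRE a b c d) A
  have h5 : Pr (fun _ => q) (LRE a b c d) (fun G => A (LRE a b c d \ G)) =
      1 - hh q (b - a) (d - c) := by
    rw [← pr_LRc q (Finset.Subset.refl (LRE a b c d)), ← Pr_not]
    apply Pr_congr
    intro F hF
    rw [hA]
    simp only [Finset.sdiff_sdiff_eq_self hF]
  have h6 : IncrE (LRE a b c d) A := by
    intro F G h3 h4 h5
    rw [hA] at h5 ⊢
    intro h6
    exact h5 (h6.mono (Finset.sdiff_subset_sdiff le_rfl h3))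
  have h7 := pr_Dn (okq (q := 1 - q) (by linarith) (by linarith)) h6 (k + 1)
  rw [h4, h5, h3] at h7
  exact h2.trans h7

/-- The cost of the cheapest left-right crossing. -/
noncomputable def xc (a b c d : ℤ) (G : Finset Edg) : ℕ := sInf {k | XL a b c d k G}

theorem XL_line {a b c d : ℤ} (hab : a ≤ b) (hcd : c ≤ d) (G : Finset Edg) :
    XL a b c d (b - a).toNat G := by
  classical
  obtain ⟨C, hC⟩ : ∃ C : Finset Edg, C = (Finset.Ico a b).image (fun x => ((x, c, true) : Edg)) :=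
    ⟨_, rfl⟩
  have hmem : ∀ x, a ≤ x → x < b → ((x, c, true) : Edg) ∈ C := by
    intro x h1 h2
    rw [hC, Finset.mem_image]
    exact ⟨x, Finset.mem_Ico.mpr ⟨h1, h2⟩, rfl⟩
  refine ⟨C, ?_, ?_, c, c, ⟨le_rfl, hcd⟩, ⟨le_rfl, hcd⟩, ?_⟩
  · intro e he
    rw [hC, Finset.mem_image] at he
    obtain ⟨x, hx, rfl⟩ := he
    rw [Finset.mem_Ico] at hx
    rw [mem_LRE_true]; omega
  · refine (Finset.card_le_card Finset.sdiff_subset).trans ?_
    rw [hC]
    refine Finset.card_image_le.trans ?_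
    rw [Int.card_Ico]
  · have key : ∀ n : ℕ, a + n ≤ b → Reach (↑C ∩ ↑(LRE a b c d)) (a, c) (a + n, c) := by
      intro n
      induction n with
      | zero =>
        intro _
        have e : a + ((0:ℕ):ℤ) = a := by simp
        rw [e]
        exact Reach.refl _ _
      | succ n ih =>
        intro hn
        push_cast at hn ⊢
        refine (ih (by omega)).trans (Adj.reach ⟨(a + n, c, true),
          ⟨Finset.mem_coe.mpr (hmem _ (by omega) (by omega)), ?_⟩, Or.inl ⟨rfl, ?_⟩⟩)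
        · rw [Finset.mem_coe, mem_LRE_true]; omega
        · rw [tgt_true]; congr 1; ring
    have := key (b - a).toNat (by omega)
    rwa [show a + ((b - a).toNat : ℤ) = b by omega] at this

theorem XL_xc {a b c d : ℤ} (hab : a ≤ b) (hcd : c ≤ d) (G : Finset Edg) :
    XL a b c d (xc a b c d G) G :=
  Nat.sInf_mem (s := {k | XL a b c d k G}) ⟨_, XL_line hab hcd G⟩

theorem xc_le {a b c d : ℤ} (hab : a ≤ b) (hcd : c ≤ d) (G : Finset Edg) :
    xc a b c d G ≤ (b - a).toNat :=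
  Nat.sInf_le (XL_line hab hcd G)

theorem lt_xc {a b c d : ℤ} {G : Finset Edg} {k : ℕ} (h : k < xc a b c d G) :
    ¬ XL a b c d k G := fun h2 => absurd (Nat.sInf_le h2) (not_le.mpr h)

theorem xc_local {a b c d : ℤ} {G S : Finset Edg} (hS : LRE a b c d ⊆ S) :
    xc a b c d G = xc a b c d (G ∩ S) := by
  unfold xc
  congr 1
  ext k
  exact XL_local hS

theorem pr_xc {q : ℝ} (h0 : 0 ≤ q) (h1 : q ≤ 1) {a b c d : ℤ} {S : Finset Edg}
    (hS : LRE a b c d ⊆ S) (k : ℕ) :
    Pr (fun _ => q) S (fun G => k < xc a b c d G) ≤ (1 - hh q (b - a) (d - c)) ^ (k + 1) :=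
  (Pr_mono (okq h0 h1) (fun _ _ h => lt_xc h)).trans (pr_not_XL h0 h1 hS k)

end Pool.Agent.Helper59_BN
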