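import Pool.Agent.Helper59_BN.Walker

/-!
Joining the path of the walker to two given vertices.
-/

namespace Pool.Agent.Helper59_BN

open H974

/-- A vertex-simple path inside a cluster. -/
theorem simple_path {F : Set Edg} {u v : Vtx} (h : Reach F u v) :
    ∃ (x : ℕ → Vtx) (n : ℕ), x 0 = u ∧ x n = v ∧ (∀ i < n, Adj F (x i) (x (i + 1))) ∧
      (∀ i ≤ n, Reach F u (x i)) ∧ ∀ i j, i < j → j ≤ n → x i ≠ x j := by
  classical
  have hex : ∃ n, ∃ x : ℕ → Vtx, x 0 = u ∧ x n = v ∧ (∀ i < n, Adj F (x i) (x (i + 1))) := by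
    induction h with
    | refl => exact ⟨0, fun _ => u, rfl, rfl, fun i hi => absurd hi (by omega)⟩
    | @tail w w' _ hs ih =>
      obtain ⟨n, x, h1, h2, h3⟩ := ih
      refine ⟨n + 1, fun i => if i ≤ n then x i else w', by simp [h1], by simp, ?_⟩
      intro i hi
      by_cases hin : i = n
      · subst hin
        simp only [le_refl, if_true, show ¬ (i + 1 ≤ i) by omega, if_false, h2]
        exact hs
      · simp only [show i ≤ n by omega, show i + 1 ≤ n by omega, if_true]
        exact h3 i (by omega)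
  obtain ⟨x, h1, h2, h3⟩ := Nat.find_spec hex
  have hmin : ∀ k < Nat.find hex, ¬ ∃ x : ℕ → Vtx, x 0 = u ∧ x k = v ∧
      (∀ i < k, Adj F (x i) (x (i + 1))) := fun k hk => Nat.find_min hex hk
  obtain ⟨n, hn⟩ : ∃ n, n = Nat.find hex := ⟨_, rfl⟩
  rw [← hn] at h2 h3 hmin
  refine ⟨x, n, h1, h2, h3, ?_, ?_⟩
  · intro i
    induction i with
    | zero => intro _; rw [h1]; exact Reach.refl _ _
    | succ i ih =>
      intro hi
      exact (ih (by omega)).trans (h3 i (by omega)).reach
  · intro i j hij hj heq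
    refine hmin (n - (j - i)) (by omega) ⟨fun k => if k ≤ i then x k else x (k + (j - i)), ?_, ?_,
      ?_⟩
    · simp [h1]
    · by_cases hc : n - (j - i) ≤ i
      · have : n - (j - i) = i := by omega
        have hjn : j = n := by omega
        simp only [this, le_refl, if_true]
        rw [heq, hjn, h2]
      · simp only [hc, if_false]
        have : n - (j - i) + (j - i) = n := by omega
        rw [this, h2]
    · intro k hk
      by_cases hc : k + 1 ≤ i
      · simp only [show k ≤ i by omega, hc, if_true]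
        exact h3 k (by omega)
      · by_cases hc2 : k = i
        · subst hc2
          simp only [le_refl, if_true, show ¬ (k + 1 ≤ k) by omega, if_false]
          rw [heq]
          have : k + 1 + (j - k) = j + 1 := by omega
          rw [this]
          exact h3 j (by omega)
        · simp only [show ¬ (k ≤ i) by omega, show ¬ (k + 1 ≤ i) by omega, if_false]
          have : k + 1 + (j - i) = (k + (j - i)) + 1 := by omega
          rw [this]
          exact h3 _ (by omega)

theorem between_ne {v a b w : Vtx} (h : Between v a b w) : w ≠ a ∧ w ≠ b := by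
  obtain ⟨d, j, k, h1, h2, h3, rfl, rfl, rfl⟩ := h
  have hk : Fin.ofNat 4 k ≠ 0 := by
    intro h
    have := congrArg Fin.val h
    simp only [Fin.val_ofNat, Fin.coe_ofNat_eq_mod] at this
    omega
  have hkj : Fin.ofNat 4 k ≠ Fin.ofNat 4 j := by
    intro h
    have := congrArg Fin.val h
    simp only [Fin.val_ofNat] at this
    omega
  constructor
  · intro h
    have h4 : d + Fin.ofNat 4 k = d := dir_inj (by simpa using h)
    exact hk (by simpa using h4)
  · intro h
    have h4 : d + Fin.ofNat 4 k = d + Fin.ofNat 4 j := dir_inj (by simpa using h)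
    exact hkj (by simpa using h4)

/-- The concatenated path. -/
def cat3 (a y b : ℕ → Vtx) (la i0 p : ℕ) (i : ℕ) : Vtx :=
  if i ≤ la then a i else if i ≤ p then y (i0 + (i - la)) else b (i - p)

structure Glue (F G : Set Edg) (S1 S2 : Vtx → Prop) (a y b : ℕ → Vtx) (la lb i0 i1 m : ℕ) :
    Prop where
  a_adj : ∀ i < la, Adj F (a i) (a (i + 1))
  a_in : ∀ i ≤ la, S1 (a i)
  a_inj : ∀ i j, i < j → j ≤ la → a i ≠ a j
  a_end : a la = y i0
  b_adj : ∀ i < lb, Adj F (b i) (b (i + 1))
  b_in : ∀ i ≤ lb, S2 (b i)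
  b_inj : ∀ i j, i < j → j ≤ lb → b i ≠ b j
  b_start : b 0 = y i1
  dis : ∀ w, S1 w → ¬ S2 w
  i01 : i0 < i1
  i1m : i1 ≤ m
  mid : ∀ i, i0 < i → i < i1 → ¬ S1 (y i) ∧ ¬ S2 (y i)
  y_adjG : ∀ i < m, Adj G (y i) (y (i + 1))
  y_adjF : ∀ i < m, Adj F (y i) (y (i + 1))
  y_rb : ∀ e ∈ rbd y m, ¬ Adj G e.1 e.2
  y_simple : ∀ i j, i < j → j < m → (y i, y (i + 1)) ≠ (y j, y (j + 1))

variable {F G : Set Edg} {S1 S2 : Vtx → Prop} {a y b : ℕ → Vtx} {la lb i0 i1 m : ℕ}

theorem cat_a (H : Glue F G S1 S2 a y b la lb i0 i1 m) {i : ℕ} (hi : i ≤ la) :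
    cat3 a y b la i0 (la + (i1 - i0)) i = a i := by
  unfold cat3; rw [if_pos hi]

theorem cat_y (H : Glue F G S1 S2 a y b la lb i0 i1 m) {i : ℕ} (hi : la ≤ i)
    (hi' : i ≤ la + (i1 - i0)) :
    cat3 a y b la i0 (la + (i1 - i0)) i = y (i0 + (i - la)) := by
  unfold cat3
  by_cases h : i ≤ la
  · have : i = la := by omega
    rw [if_pos h, this, H.a_end]; simp
  · rw [if_neg h, if_pos hi']

theorem cat_b (H : Glue F G S1 S2 a y b la lb i0 i1 m) {i : ℕ} (hi : la + (i1 - i0) ≤ i) :
    cat3 a y b la i0 (la + (i1 - i0)) i = b (i - (la + (i1 - i0))) := by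
  have h01 := H.i01
  unfold cat3
  rw [if_neg (by omega)]
  by_cases h : i ≤ la + (i1 - i0)
  · have : i = la + (i1 - i0) := by omega
    rw [if_pos h, this]
    have e1 : i0 + (la + (i1 - i0) - la) = i1 := by omega
    rw [e1, Nat.sub_self, H.b_start]
  · rw [if_neg h]

/-- Vertices of the end pieces are visited once. -/
theorem cat_once (H : Glue F G S1 S2 a y b la lb i0 i1 m) {i j : ℕ}
    (hi : i ≤ la ∨ la + (i1 - i0) ≤ i) (hin : i ≤ la + (i1 - i0) + lb)
    (hjn : j ≤ la + (i1 - i0) + lb)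
    (h : cat3 a y b la i0 (la + (i1 - i0)) i = cat3 a y b la i0 (la + (i1 - i0)) j) : i = j := by
  have h01 := H.i01
  rcases hi with hi | hi
  · rw [cat_a H hi] at h
    have hS := H.a_in i hi
    by_cases hj : j ≤ la
    · rw [cat_a H hj] at h
      rcases lt_trichotomy i j with h1 | h1 | h1
      · exact absurd h (H.a_inj i j h1 hj)
      · exact h1
      · exact absurd h.symm (H.a_inj j i h1 hi)
    · exfalso
      by_cases hj2 : j < la + (i1 - i0)
      · rw [cat_y H (by omega) hj2.le] at h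
        rw [h] at hS
        exact (H.mid _ (by omega) (by omega)).1 hS
      · rw [cat_b H (by omega)] at h
        rw [h] at hS
        exact H.dis _ hS (H.b_in _ (by omega))
  · rw [cat_b H hi] at h
    have hS := H.b_in (i - (la + (i1 - i0))) (by omega)
    by_cases hj : la + (i1 - i0) ≤ j
    · rw [cat_b H hj] at h
      rcases lt_trichotomy i j with h1 | h1 | h1
      · exact absurd h (H.b_inj _ _ (by omega) (by omega))
      · exact h1
      · exact absurd h.symm (H.b_inj _ _ (by omega) (by omega))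
    · exfalso
      by_cases hj2 : j ≤ la
      · rw [cat_a H hj2] at h
        rw [h] at hS
        exact H.dis _ (H.a_in _ hj2) hS
      · rw [cat_y H (by omega) (by omega)] at h
        rw [h] at hS
        exact (H.mid _ (by omega) (by omega)).2 hS

/-- A visit of the middle piece is a visit of the middle piece. -/
theorem cat_mid (H : Glue F G S1 S2 a y b la lb i0 i1 m) {i j : ℕ}
    (hi : la < i ∧ i < la + (i1 - i0)) (hjn : j ≤ la + (i1 - i0) + lb)
    (h : cat3 a y b la i0 (la + (i1 - i0)) i = cat3 a y b la i0 (la + (i1 - i0)) j) :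
    la < j ∧ j < la + (i1 - i0) := by
  by_contra hcon
  have := cat_once H (i := j) (j := i) (by omega) hjn (by omega) h.symm
  omega

/-- The right boundary at a visit of the middle piece. -/
theorem cat_rbd (H : Glue F G S1 S2 a y b la lb i0 i1 m) {i : ℕ}
    (hi : la < i ∧ i < la + (i1 - i0)) {w : Vtx}
    (h : Between (cat3 a y b la i0 (la + (i1 - i0)) i) (cat3 a y b la i0 (la + (i1 - i0)) (i - 1))
      (cat3 a y b la i0 (la + (i1 - i0)) (i + 1)) w) :
    (cat3 a y b la i0 (la + (i1 - i0)) i, w) ∈ rbd y m := by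
  have h01 := H.i01
  have h1m := H.i1m
  rw [cat_y H hi.1.le hi.2.le] at h ⊢
  rw [cat_y H (i := i - 1) (by omega) (by omega), cat_y H (i := i + 1) (by omega) (by omega)] at h
  refine ⟨i0 + (i - la), by omega, by omega, rfl, ?_⟩
  have e1 : i0 + (i - la) - 1 = i0 + (i - 1 - la) := by omega
  have e2 : i0 + (i - la) + 1 = i0 + (i + 1 - la) := by omega
  rw [e1, e2]
  exact h

theorem cat_adjG (H : Glue F G S1 S2 a y b la lb i0 i1 m) {i : ℕ}
    (hi : la ≤ i ∧ i < la + (i1 - i0)) :
    Adj G (cat3 a y b la i0 (la + (i1 - i0)) i) (cat3 a y b la i0 (la + (i1 - i0)) (i + 1)) := by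
  have h01 := H.i01
  have h1m := H.i1m
  rw [cat_y H hi.1 hi.2.le, cat_y H (i := i + 1) (by omega) (by omega)]
  have e2 : i0 + (i + 1 - la) = i0 + (i - la) + 1 := by omega
  rw [e2]
  exact H.y_adjG _ (by omega)

theorem cat_rightMost (H : Glue F G S1 S2 a y b la lb i0 i1 m) :
    RightMost (cat3 a y b la i0 (la + (i1 - i0))) (la + (i1 - i0) + lb) := by
  have h01 := H.i01
  have h1m := H.i1m
  constructor
  · intro i j hij hj heq
    rw [Prod.mk.injEq] at heq
    obtain ⟨h1, h2⟩ := heq
    by_cases hc : la < i ∧ i < la + (i1 - i0)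
    · have hc2 := cat_mid H hc (by omega) h1
      rw [cat_y H hc.1.le hc.2.le, cat_y H hc2.1.le hc2.2.le] at h1
      rw [cat_y H (i := i + 1) (by omega) (by omega),
        cat_y H (i := j + 1) (by omega) (by omega)] at h2
      apply H.y_simple (i0 + (i - la)) (i0 + (j - la)) (by omega) (by omega)
      have e1 : i0 + (i - la) + 1 = i0 + (i + 1 - la) := by omega
      have e2 : i0 + (j - la) + 1 = i0 + (j + 1 - la) := by omega
      rw [e1, e2, h1, h2]
    · have := cat_once H (i := i) (j := j) (by omega) (by omega) (by omega) h1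
      omega
  · intro j hj
    constructor
    · rintro ⟨i, hi1, hi2, h1, h2⟩
      simp only at h1 h2
      by_cases hc : la < i ∧ i < la + (i1 - i0)
      · have hc2 := cat_mid H hc (j := j) (by omega) h1.symm
        have h3 := cat_rbd H hc h2
        rw [← h1] at h3
        exact H.y_rb _ h3 (cat_adjG H ⟨hc2.1.le, hc2.2⟩)
      · have := cat_once H (i := i) (j := j) (by omega) (by omega) (by omega) h1.symm
        subst this
        exact (between_ne h2).2 rfl
    · rintro ⟨i, hi1, hi2, h1, h2⟩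
      simp only at h1 h2
      by_cases hc : la < i ∧ i < la + (i1 - i0)
      · have hc2 := cat_mid H hc (j := j + 1) (by omega) h1.symm
        have h3 := cat_rbd H hc h2
        rw [← h1] at h3
        exact H.y_rb _ h3 (cat_adjG H ⟨by omega, by omega⟩).symm
      · have := cat_once H (i := i) (j := j + 1) (by omega) (by omega) (by omega) h1.symm
        subst this
        exact (between_ne h2).1 (by simp)

theorem cat_open (H : Glue F G S1 S2 a y b la lb i0 i1 m) :
    OpenPath (Adj F) (cat3 a y b la i0 (la + (i1 - i0))) (la + (i1 - i0) + lb) := by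
  have h01 := H.i01
  have h1m := H.i1m
  intro i hi
  by_cases h1 : i < la
  · rw [cat_a H h1.le, cat_a H (i := i + 1) h1]
    exact H.a_adj i h1
  · by_cases h2 : i < la + (i1 - i0)
    · rw [cat_y H (by omega) h2.le, cat_y H (i := i + 1) (by omega) (by omega)]
      have e2 : i0 + (i + 1 - la) = i0 + (i - la) + 1 := by omega
      rw [e2]
      exact H.y_adjF _ (by omega)
    · rw [cat_b H (by omega), cat_b H (i := i + 1) (by omega)]
      have e2 : i + 1 - (la + (i1 - i0)) = i - (la + (i1 - i0)) + 1 := by omega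
      rw [e2]
      exact H.b_adj _ (by omega)

theorem cat_cost (H : Glue F G S1 S2 a y b la lb i0 i1 m) :
    bcost (Adj F) (cat3 a y b la i0 (la + (i1 - i0))) (la + (i1 - i0) + lb) ≤
      {e | e ∈ rbd y m ∧ Adj F e.1 e.2}.ncard + 4 * (la + lb + 2) := by
  classical
  have h01 := H.i01
  obtain ⟨γ, hγ⟩ : ∃ γ, γ = cat3 a y b la i0 (la + (i1 - i0)) := ⟨_, rfl⟩
  obtain ⟨I, hI⟩ : ∃ I : Finset ℕ, I = Finset.range (la + 1) ∪
      Finset.Icc (la + (i1 - i0)) (la + (i1 - i0) + lb) := ⟨_, rfl⟩
  have hIc : I.card ≤ la + lb + 2 := by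
    rw [hI]
    refine (Finset.card_union_le _ _).trans ?_
    rw [Finset.card_range, Nat.card_Icc]
    omega
  obtain ⟨E, hE⟩ : ∃ E : Finset (Vtx × Vtx), E = (I ×ˢ (Finset.univ : Finset (Fin 4))).image
      (fun q => (γ q.1, γ q.1 + dir q.2)) := ⟨_, rfl⟩
  have hEc : E.card ≤ 4 * (la + lb + 2) := by
    rw [hE]
    refine Finset.card_image_le.trans ?_
    rw [Finset.card_product, Finset.card_univ, Fintype.card_fin]
    omega
  have hfin : {e | e ∈ rbd y m ∧ Adj F e.1 e.2}.Finite := (rbd_finite y m).subset (fun _ h => h.1)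
  have hsub : {e | e ∈ rbd γ (la + (i1 - i0) + lb) ∧ Adj F e.1 e.2} ⊆
      {e | e ∈ rbd y m ∧ Adj F e.1 e.2} ∪ ↑E := by
    rintro ⟨v, w⟩ ⟨⟨i, hi1, hi2, hv, hb⟩, hF⟩
    simp only at hv hb
    by_cases hc : la < i ∧ i < la + (i1 - i0)
    · left
      refine ⟨?_, hF⟩
      rw [hγ] at hb hv
      have := cat_rbd H hc hb
      rwa [← hv] at this
    · right
      obtain ⟨d, j, k, -, -, -, -, -, hw⟩ := hb
      rw [hE, Finset.coe_image, Set.mem_image]
      refine ⟨(i, d + Fin.ofNat 4 k), ?_, ?_⟩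
      · rw [Finset.mem_coe, Finset.mem_product]
        refine ⟨?_, Finset.mem_univ _⟩
        rw [hI, Finset.mem_union, Finset.mem_range, Finset.mem_Icc]
        simp only
        omega
      · simp only
        rw [hv, hw]
  rw [← hγ]
  calc bcost (Adj F) γ (la + (i1 - i0) + lb)
      ≤ ({e | e ∈ rbd y m ∧ Adj F e.1 e.2} ∪ (↑E : Set (Vtx × Vtx))).ncard :=
        Set.ncard_le_ncard hsub (hfin.union (Finset.finite_toSet E))
    _ ≤ {e | e ∈ rbd y m ∧ Adj F e.1 e.2}.ncard + (↑E : Set (Vtx × Vtx)).ncard :=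
        Set.ncard_union_le _ _
    _ ≤ _ := by
        rw [Set.ncard_coe_finset]
        omega

/-- Joining the walker to two clusters. -/
theorem join {F Cr G : Set Edg} {W c d : ℤ} {y : ℕ → Vtx} {m : ℕ}
    (hw : WalkOut F Cr W c d G y m) {F1 F2 : Set Edg} (hF1 : F1 ⊆ F) (hF2 : F2 ⊆ F) {u v : Vtx}
    {i0 i1 : ℕ} (h01 : i0 < i1) (h1m : i1 ≤ m) (hu : Reach F1 u (y i0)) (hv : Reach F2 v (y i1))
    (hdis : ∀ w, Reach F1 u w → ¬ Reach F2 v w) {N1 N2 : Finset Vtx}
    (hN1 : ∀ w, Reach F1 u w → w ∈ N1) (hN2 : ∀ w, Reach F2 v w → w ∈ N2) :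
    bdist (Adj F) u v ≤ (Cr ∩ F).ncard + 4 * (N1.card + N2.card) := by
  classical
  -- the first visit of the second cluster after `i0`
  have hex : ∃ j, i0 ≤ j ∧ Reach F2 v (y j) := ⟨i1, h01.le, hv⟩
  obtain ⟨q, hq⟩ : ∃ q, q = Nat.find hex := ⟨_, rfl⟩
  have hq1 : i0 ≤ q ∧ Reach F2 v (y q) := hq ▸ Nat.find_spec hex
  have hq2 : ∀ j < q, ¬ (i0 ≤ j ∧ Reach F2 v (y j)) := fun j hj =>
    Nat.find_min hex (hq ▸ hj)
  have hqle : q ≤ i1 := by
    by_contra hcon
    exact hq2 i1 (by omega) ⟨h01.le, hv⟩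
  -- the last visit of the first cluster before `q`
  obtain ⟨r, hr⟩ : ∃ r, r = Nat.findGreatest (fun i => Reach F1 u (y i)) q := ⟨_, rfl⟩
  have hr1 : Reach F1 u (y r) := by
    rw [hr]
    exact Nat.findGreatest_spec (P := fun i => Reach F1 u (y i)) hq1.1 hu
  have hr2 : r ≤ q := hr ▸ Nat.findGreatest_le q
  have hr3 : i0 ≤ r := by
    rw [hr]
    exact Nat.le_findGreatest hq1.1 hu
  have hr4 : ∀ i, r < i → i ≤ q → ¬ Reach F1 u (y i) := fun i hi hi' =>
    Nat.findGreatest_is_greatest (P := fun i => Reach F1 u (y i)) (hr ▸ hi) hi'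
  have hrq : r < q := by
    rcases eq_or_lt_of_le hr2 with h | h
    · exfalso
      rw [h] at hr1
      exact hdis _ hr1 hq1.2
    · exact h
  obtain ⟨a, la, ha1, ha2, ha3, ha4, ha5⟩ := simple_path hr1
  obtain ⟨b', lb, hb1, hb2, hb3, hb4, hb5⟩ := simple_path hq1.2
  obtain ⟨b, hb⟩ : ∃ b : ℕ → Vtx, b = fun i => b' (lb - i) := ⟨_, rfl⟩
  have H : Glue F G (fun w => Reach F1 u w) (fun w => Reach F2 v w) a y b la lb r q m := by
    constructor
    · exact fun i hi => (ha3 i hi).mono hF1
    · exact ha4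
    · exact ha5
    · exact ha2
    · intro i hi
      rw [hb]
      simp only
      have e1 : lb - i = (lb - (i + 1)) + 1 := by omega
      rw [e1]
      exact ((hb3 (lb - (i + 1)) (by omega)).symm).mono hF2
    · intro i hi
      rw [hb]
      exact hb4 _ (by omega)
    · intro i j hij hj heq
      rw [hb] at heq
      simp only at heq
      exact hb5 (lb - j) (lb - i) (by omega) (by omega) heq.symm
    · rw [hb]; simpa using hb2
    · exact hdis
    · exact hrq
    · omega
    · intro i hi hi'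
      refine ⟨hr4 i hi hi'.le, fun h => hq2 i hi' ⟨by omega, h⟩⟩
    · exact hw.adjG
    · exact hw.adjF
    · exact hw.rb
    · exact hw.simple
  have hlen : ∀ (x : ℕ → Vtx) (n : ℕ) (N : Finset Vtx), (∀ i ≤ n, x i ∈ N) →
      (∀ i j, i < j → j ≤ n → x i ≠ x j) → n + 1 ≤ N.card := by
    intro x n N h1 h2
    calc n + 1 = (Finset.range (n + 1)).card := by simp
      _ = ((Finset.range (n + 1)).image x).card := by
          rw [Finset.card_image_of_injOn]
          intro i hi j hj hij
          rw [Finset.coe_range, Set.mem_Iio] at hi hj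
          rcases lt_trichotomy i j with h | h | h
          · exact absurd hij (h2 i j h (by omega))
          · exact h
          · exact absurd hij.symm (h2 j i h (by omega))
      _ ≤ N.card := by
          apply Finset.card_le_card
          intro z hz
          rw [Finset.mem_image] at hz
          obtain ⟨i, hi, rfl⟩ := hz
          rw [Finset.mem_range] at hi
          exact h1 i (by omega)
  have hla := hlen a la N1 (fun i hi => hN1 _ (ha4 i hi)) ha5
  have hlb := hlen b' lb N2 (fun i hi => hN2 _ (hb4 i hi)) hb5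
  refine (Nat.sInf_le (s := {k | ∃ (x : ℕ → ℤ × ℤ) (n : ℕ), x 0 = u ∧ x n = v ∧
    OpenPath (Adj F) x n ∧ RightMost x n ∧ bcost (Adj F) x n = k})
    ⟨_, _, ?_, ?_, cat_open H, cat_rightMost H, rfl⟩).trans ?_
  · rw [cat_a H (Nat.zero_le _), ha1]
  · rw [cat_b H (by omega), hb]
    simp only
    have : lb - (la + (q - r) + lb - (la + (q - r))) = 0 := by omega
    rw [this, hb1]
  · have h1 := cat_cost H
    have h2 := hw.cost
    omega

end Pool.Agent.Helper59_BN
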