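import Pool.Agent.H974R2.Circ
import Pool.Agent.Helper59_BN.Join

/-!
Configurations all of whose closed dual clusters are small: crossings, circuits, and the upper
bound of the boundary distance by the cost of a dual path.
-/

namespace Pool.Agent.Helper59_BN

open H974

/-- All closed dual clusters which meet the box of radius `K` have radius at most `r`. -/
def Small (F : Set Edg) (K r : ℤ) : Prop :=
  ∀ f g : Vtx, |f.1| ≤ K → |f.2| ≤ K → DReach Fᶜ f g → |f.1 - g.1| ≤ r ∧ |f.2 - g.2| ≤ r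

theorem dl_tps (A : Set Edg) : tps.φ '' (dl '' A) = dl '' (tps.φ '' A) := by
  rw [Set.image_image, Set.image_image]
  apply Set.image_congr
  rintro ⟨x, y, _ | _⟩ _
  · rw [dl_f, tps_φ, tps_φ]; rfl
  · rw [dl_t, tps_φ, tps_φ]; rfl

theorem dreach_tps {A : Set Edg} {f g : Vtx} (h : DReach A f g) :
    DReach (tps.φ '' A) (f.2, f.1) (g.2, g.1) := by
  rw [← reach_dl, ← dl_tps]
  exact tps.reach (reach_dl.mpr h)

theorem tps_compl (F : Set Edg) : (tps.φ '' F)ᶜ = tps.φ '' Fᶜ := by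
  rw [Set.image_compl_eq tps.φ.bijective]

theorem Small.swap {F : Set Edg} {K r : ℤ} (h : Small F K r) : Small (tps.φ '' F) K r := by
  intro f g h1 h2 h3
  rw [tps_compl] at h3
  have h4 := dreach_tps h3
  rw [tps_image_image] at h4
  have := h _ _ h2 h1 h4
  exact ⟨this.2, this.1⟩

theorem Small.mono {F : Set Edg} {K r K' r' : ℤ} (h : Small F K r) (hK : K' ≤ K) (hr : r ≤ r') :
    Small F K' r' := by
  intro f g h1 h2 h3
  have := h f g (h1.trans hK) (h2.trans hK) h3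
  omega

/-- Open left-right crossings. -/
theorem Small.LR {F : Set Edg} {K r a b c d : ℤ} (h : Small F K r) (hab : a < b)
    (hcd : r ≤ d - c) (hc : c ≤ d) (hK : -K ≤ a ∧ b ≤ K ∧ -K + 1 ≤ c ∧ d ≤ K) :
    ∃ y y', (c ≤ y ∧ y ≤ d) ∧ (c ≤ y' ∧ y' ≤ d) ∧ Reach (F ∩ ↑(LRE a b c d)) (a, y) (b, y') := by
  by_contra hcon
  push Not at hcon
  set W : Vtx → Prop := fun v => ∃ y, (c ≤ y ∧ y ≤ d) ∧ Reach (F ∩ ↑(LRE a b c d)) (a, y) v with hW
  obtain ⟨x, x', hx, hx', hr⟩ := dual_crossing hab.le hc W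
    (fun y h1 h2 => ⟨y, ⟨h1, h2⟩, Reach.refl _ _⟩)
    (by
      rintro y h1 h2 ⟨y0, h3, h4⟩
      exact hcon y0 y h3 ⟨h1, h2⟩ h4)
  have h5 : DReach Fᶜ (x, c - 1) (x', d) := by
    refine DReach.mono ?_ hr
    rintro e ⟨he1, he2⟩ heF
    apply he1
    constructor
    · rintro ⟨y, h3, h4⟩
      exact ⟨y, h3, h4.trans (Adj.reach ⟨e, ⟨heF, he2⟩, Or.inl ⟨rfl, rfl⟩⟩)⟩
    · rintro ⟨y, h3, h4⟩
      exact ⟨y, h3, h4.trans (Adj.reach ⟨e, ⟨heF, he2⟩, Or.inr ⟨rfl, rfl⟩⟩)⟩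
  have h6 := (h _ _ (by simp only; rw [abs_le]; omega) (by simp only; rw [abs_le]; omega) h5).2
  simp only at h6
  rw [abs_le] at h6
  omega

/-- Open top-bottom crossings. -/
theorem Small.TB {F : Set Edg} {K r a b c d : ℤ} (h : Small F K r) (hcd : c < d)
    (hab : r ≤ b - a) (ha : a ≤ b) (hK : -K ≤ c ∧ d ≤ K ∧ -K + 1 ≤ a ∧ b ≤ K) :
    ∃ x x', (a ≤ x ∧ x ≤ b) ∧ (a ≤ x' ∧ x' ≤ b) ∧ Reach (F ∩ ↑(TBE a b c d)) (x, c) (x', d) := by
  obtain ⟨y, y', h1, h2, h3⟩ := h.swap.LR hcd hab ha hK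
  refine ⟨y, y', h1, h2, ?_⟩
  have h4 := tps.reach h3
  rw [tps_ψ, tps_ψ, Set.image_inter tps.φ.injective, tps_image_image, ← LSym.coe_mp,
    tps_LRE] at h4
  exact h4

/-- Two connections from an inner box to the boundary of an outer box meet. -/
theorem Small.meet {F : Set Edg} {K r R1 R2 : ℤ} {z : Vtx} (h : Small F K r) (h1 : 0 ≤ R1)
    (h2 : R1 < R2) (h12 : r ≤ R2 - R1) (hK : |z.1| + R2 < K ∧ |z.2| + R2 < K) :
    ∃ z0 : Vtx, ∀ u v : Vtx, inR (z.1 - R1) (z.1 + R1) (z.2 - R1) (z.2 + R1) u →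
      (v.1 = z.1 - R2 ∨ v.1 = z.1 + R2 ∨ v.2 = z.2 - R2 ∨ v.2 = z.2 + R2) →
      Reach (F ∩ ↑(RE (z.1 - R2) (z.1 + R2) (z.2 - R2) (z.2 + R2))) u v →
      Reach (F ∩ ↑(RE (z.1 - R2) (z.1 + R2) (z.2 - R2) (z.2 + R2))) u z0 := by
  obtain ⟨p, q⟩ := z
  simp only at hK ⊢
  have hp := abs_le.mp (show |p| ≤ K - R2 - 1 by omega)
  have hq := abs_le.mp (show |q| ≤ K - R2 - 1 by omega)
  obtain ⟨t, t', ht, ht', hT⟩ := h.LR (a := p - R2) (b := p + R2) (c := q + R1) (d := q + R2)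
    (by omega) (by omega) (by omega) (by omega)
  obtain ⟨b, b', hb, hb', hB⟩ := h.LR (a := p - R2) (b := p + R2) (c := q - R2) (d := q - R1)
    (by omega) (by omega) (by omega) (by omega)
  obtain ⟨r', r'', hr, hr', hR⟩ := h.TB (a := p + R1) (b := p + R2) (c := q - R2) (d := q + R2)
    (by omega) (by omega) (by omega) (by omega)
  obtain ⟨l, l', hl, hl', hL⟩ := h.TB (a := p - R2) (b := p - R1) (c := q - R2) (d := q + R2)
    (by omega) (by omega) (by omega) (by omega)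
  have hT' := hT.mono (Set.inter_subset_inter_right F
    (by exact_mod_cast LRE_subset_RE : (↑(LRE (p - R2) (p + R2) (q + R1) (q + R2)) : Set Edg) ⊆ _))
  have hB' := hB.mono (Set.inter_subset_inter_right F
    (by exact_mod_cast LRE_subset_RE : (↑(LRE (p - R2) (p + R2) (q - R2) (q - R1)) : Set Edg) ⊆ _))
  have hR' := hR.mono (Set.inter_subset_inter_right F
    (by exact_mod_cast TBE_subset_RE : (↑(TBE (p + R1) (p + R2) (q - R2) (q + R2)) : Set Edg) ⊆ _))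
  have hL' := hL.mono (Set.inter_subset_inter_right F
    (by exact_mod_cast TBE_subset_RE : (↑(TBE (p - R2) (p - R1) (q - R2) (q + R2)) : Set Edg) ⊆ _))
  have mTR : Reach (F ∩ ↑(RE (p - R2) (p + R2) (q - R2) (q + R2))) (p - R2, t) (r', q - R2) :=
    cross_meet (by omega) (by omega) le_rfl (by omega) (by omega) le_rfl hT' (by simp only; omega)
      le_rfl hR' (by simp only; omega) le_rfl
  have mBR : Reach (F ∩ ↑(RE (p - R2) (p + R2) (q - R2) (q + R2))) (p - R2, b) (r', q - R2) :=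
    cross_meet (by omega) (by omega) le_rfl le_rfl (by omega) (by omega) hB' (by simp only; omega)
      le_rfl hR' le_rfl (by simp only; omega)
  have mTL : Reach (F ∩ ↑(RE (p - R2) (p + R2) (q - R2) (q + R2))) (p - R2, t) (l, q - R2) :=
    cross_meet le_rfl (by omega) (by omega) (by omega) (by omega) le_rfl hT' le_rfl
      (by simp only; omega) hL' (by simp only; omega) le_rfl
  refine ⟨(r', q - R2), ?_⟩
  intro u v hu hv hP
  unfold inR at hu
  rcases hv with hv | hv | hv | hv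
  · have m : Reach (F ∩ ↑(RE (p - R2) (p + R2) (q - R2) (q + R2))) v (l, q - R2) :=
      cross_meet le_rfl (by omega) (by omega) le_rfl (by omega) le_rfl hP.symm hv.le
        (show p - R1 ≤ u.1 by omega) hL' le_rfl le_rfl
    exact hP.trans (m.trans (mTL.symm.trans mTR))
  · exact cross_meet (a := p + R1) (b := p + R2) (c := q - R2) (d := q + R2)
      (by omega) (by omega) le_rfl le_rfl (by omega) le_rfl hP (by omega) hv.ge hR' le_rfl
      le_rfl
  · have m : Reach (F ∩ ↑(RE (p - R2) (p + R2) (q - R2) (q + R2))) (p - R2, b) v :=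
      cross_meet le_rfl (by omega) le_rfl le_rfl (by omega) (by omega) hB' le_rfl le_rfl hP.symm
        hv.le (show q - R1 ≤ u.2 by omega)
    exact hP.trans (m.symm.trans mBR)
  · have m : Reach (F ∩ ↑(RE (p - R2) (p + R2) (q - R2) (q + R2))) (p - R2, t) u :=
      cross_meet le_rfl (by omega) le_rfl (by omega) (by omega) le_rfl hT' le_rfl le_rfl hP
        (by omega) hv.ge
    exact m.symm.trans mTR

/-- Two vertices of an inner box which are both connected to the outside of an outer box are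
connected inside the outer box. -/
theorem Small.conn {F : Set Edg} {K r R1 R2 : ℤ} {z : Vtx} (h : Small F K r) (h1 : 0 ≤ R1)
    (h2 : R1 < R2) (h12 : r ≤ R2 - R1) (hK : |z.1| + R2 < K ∧ |z.2| + R2 < K) {u u' v v' : Vtx}
    (hu : inR (z.1 - R1) (z.1 + R1) (z.2 - R1) (z.2 + R1) u)
    (hu' : inR (z.1 - R1) (z.1 + R1) (z.2 - R1) (z.2 + R1) u')
    (hv : v.1 ≤ z.1 - R2 ∨ z.1 + R2 ≤ v.1 ∨ v.2 ≤ z.2 - R2 ∨ z.2 + R2 ≤ v.2)
    (hv' : v'.1 ≤ z.1 - R2 ∨ z.1 + R2 ≤ v'.1 ∨ v'.2 ≤ z.2 - R2 ∨ z.2 + R2 ≤ v'.2)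
    (hr : Reach F u v) (hr' : Reach F u' v') :
    Reach (F ∩ ↑(RE (z.1 - R2) (z.1 + R2) (z.2 - R2) (z.2 + R2))) u u' := by
  obtain ⟨z0, hz0⟩ := h.meet h1 h2 h12 hK
  have hin : ∀ w : Vtx, inR (z.1 - R1) (z.1 + R1) (z.2 - R1) (z.2 + R1) w →
      inR (z.1 - R2) (z.1 + R2) (z.2 - R2) (z.2 + R2) w := by
    intro w hw
    unfold inR at hw ⊢
    omega
  obtain ⟨w, -, k2, k3⟩ := first_exit (hin u hu) hr hv
  obtain ⟨w', -, l2, l3⟩ := first_exit (hin u' hu') hr' hv'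
  exact (hz0 u w hu k2 k3).trans (hz0 u' w' hu' l2 l3).symm

/-- The vertices with an infinite open cluster. -/
def CInf (F : Set Edg) : Set Vtx := {v | {w | Reach F v w}.Infinite}

theorem CInf.exit {F : Set Edg} {v : Vtx} (h : v ∈ CInf F) (a b c d : ℤ) :
    ∃ w, Reach F v w ∧ (w.1 ≤ a ∨ b ≤ w.1 ∨ w.2 ≤ c ∨ d ≤ w.2) := by
  by_contra hcon
  push Not at hcon
  apply h
  have hfin : (Set.Icc a b ×ˢ Set.Icc c d : Set Vtx).Finite :=
    (Set.finite_Icc _ _).prod (Set.finite_Icc _ _)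
  refine hfin.subset ?_
  intro w hw
  have := hcon w hw
  rw [Set.mem_prod, Set.mem_Icc, Set.mem_Icc]
  omega

end Pool.Agent.Helper59_BN
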