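import Pool.Agent.Helper59_BN.Rot
import Pool.Agent.H974R2.Infinite

/-!
The law of the closed dual edges; the probability that all closed dual clusters are small.
-/

namespace Pool.Agent.Helper59_BN

open H974 MeasureTheory

/-- The closed dual edges in a finite set of dual edges. -/
def GG (T : Finset Edg) (ω : sqLattice.edgeSet → Bool) : Finset Edg :=
  T.filter (fun e => ¬ ω (toE (dl.symm e)) = true)

theorem mem_GG {T : Finset Edg} {ω : sqLattice.edgeSet → Bool} {e : Edg} :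
    e ∈ GG T ω ↔ e ∈ T ∧ ¬ ω (toE (dl.symm e)) = true := by
  unfold GG; rw [Finset.mem_filter]

theorem mem_dual {ω : sqLattice.edgeSet → Bool} {e : Edg} :
    e ∈ dl '' (opn ω)ᶜ ↔ ¬ ω (toE (dl.symm e)) = true := by
  constructor
  · rintro ⟨e', he, rfl⟩
    rw [Equiv.symm_apply_apply]
    exact he
  · intro h
    exact ⟨dl.symm e, h, Equiv.apply_symm_apply _ _⟩

theorem GG_coe (T : Finset Edg) (ω : sqLattice.edgeSet → Bool) :
    (↑(GG T ω) : Set Edg) = dl '' (opn ω)ᶜ ∩ ↑T := by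
  ext e
  rw [Finset.mem_coe, mem_GG, Set.mem_inter_iff, mem_dual, Finset.mem_coe]
  exact and_comm

theorem GG_eq (T : Finset Edg) (ω : sqLattice.edgeSet → Bool) :
    GG T ω = dmp ((T.map dl.symm.toEmbedding) \ FF (T.map dl.symm.toEmbedding) ω) := by
  ext e
  rw [mem_GG, mem_dmp, Finset.mem_sdiff, mem_FF, Finset.mem_map_equiv]
  simp only [Equiv.symm_symm, Equiv.apply_symm_apply]
  tauto

theorem dmp_map (T : Finset Edg) : dmp (T.map dl.symm.toEmbedding) = T := by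
  ext e
  rw [mem_dmp, Finset.mem_map_equiv]
  simp

theorem meas_dual (T : Finset Edg) (Q : Finset Edg → Prop) :
    MeasurableSet {ω | Q (GG T ω)} := by
  have := meas_event (T.map dl.symm.toEmbedding)
    (fun F => Q (dmp ((T.map dl.symm.toEmbedding) \ F)))
  simp only [GG_eq]
  exact this

theorem law_dual (p : unitInterval) (T : Finset Edg) (Q : Finset Edg → Prop) :
    (bondLaw p).real {ω | Q (GG T ω)} = Pr (fun _ => 1 - (p:ℝ)) T Q := by
  have h := law_event p (T.map dl.symm.toEmbedding)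
    (fun F => Q (dmp ((T.map dl.symm.toEmbedding) \ F)))
  simp only [GG_eq]
  rw [h, ← Pr_compl (fun _ => (p:ℝ)) (T.map dl.symm.toEmbedding) (fun F => Q (dmp F)),
    ← pr_dmp, dmp_map]

/-- The arm event around a vertex. -/
def ArmAt (f : Vtx) (n : ℕ) (G : Set Edg) : Prop :=
  ∃ w, inR (f.1 - n) (f.1 + n) (f.2 - n) (f.2 + n) w ∧
    (w.1 = f.1 - n ∨ w.1 = f.1 + n ∨ w.2 = f.2 - n ∨ w.2 = f.2 + n) ∧
    Reach (G ∩ ↑(RE (f.1 - n) (f.1 + n) (f.2 - n) (f.2 + n))) f w

theorem armAt_trl (f : Vtx) (n : ℕ) (F : Finset Edg) :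
    ArmAt f n (↑((trl f.1 f.2).mp F) : Set Edg) ↔ Arm n F := by
  obtain ⟨a, b⟩ := f
  have hkey : ∀ w : Vtx, Reach (↑((trl a b).mp F) ∩ ↑(RE (a - n) (a + n) (b - n) (b + n)))
      (a, b) (w.1 + a, w.2 + b) ↔ Reach (↑F ∩ ↑(boxE n)) (0, 0) w := by
    intro w
    rw [← (trl a b).reach_iff (F := ↑F ∩ ↑(boxE n)), Set.image_inter (trl a b).φ.injective,
      ← LSym.coe_mp, ← LSym.coe_mp]
    unfold boxE
    rw [trl_RE]
    have e1 : (trl a b).ψ (0, 0) = (a, b) := by rw [trl_ψ]; simp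
    have e2 : (trl a b).ψ w = (w.1 + a, w.2 + b) := rfl
    rw [e1, e2]
    have e3 : RE (a - n) (a + n) (b - n) (b + n) = RE (-n + a) (n + a) (-n + b) (n + b) := by
      congr 1 <;> ring
    rw [e3]
  unfold ArmAt Arm onB
  simp only
  constructor
  · rintro ⟨w, h1, h2, h3⟩
    refine ⟨(w.1 - a, w.2 - b), ?_, ?_⟩
    · unfold inR at h1 ⊢; simp only; omega
    · rw [← hkey]
      simp only [sub_add_cancel]
      exact h3
  · rintro ⟨w, ⟨h1, h2⟩, h3⟩
    refine ⟨(w.1 + a, w.2 + b), ?_, ?_, (hkey w).mpr h3⟩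
    · unfold inR at h1 ⊢; simp only; omega
    · simp only; omega

theorem pr_armAt (q : ℝ) (f : Vtx) (n : ℕ) {T : Finset Edg}
    (hT : RE (f.1 - n) (f.1 + n) (f.2 - n) (f.2 + n) ⊆ T) :
    Pr (fun _ => q) T (fun G => ArmAt f n ↑G) = arm q n := by
  rw [Pr_local hT]
  · have h1 : RE (f.1 - n) (f.1 + n) (f.2 - n) (f.2 + n) = (trl f.1 f.2).mp (boxE n) := by
      unfold boxE; rw [trl_RE]; congr 1 <;> ring
    rw [h1, LSym.pr]
    unfold arm
    apply Pr_congr
    intro F _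
    exact armAt_trl f n F
  · intro F _
    unfold ArmAt
    rw [Finset.coe_inter, Set.inter_assoc, Set.inter_self]

theorem Pr_exists_le {q : ℝ} (h0 : 0 ≤ q) (h1 : q ≤ 1) {ι : Type*} (S : Finset Edg)
    (I : Finset ι) (A : ι → Finset Edg → Prop) :
    Pr (fun _ => q) S (fun F => ∃ i ∈ I, A i F) ≤ ∑ i ∈ I, Pr (fun _ => q) S (A i) := by
  classical
  induction I using Finset.induction_on with
  | empty =>
    rw [Finset.sum_empty]
    have : Pr (fun _ => q) S (fun F => ∃ i ∈ (∅ : Finset ι), A i F) =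
        Pr (fun _ => q) S (fun _ => ¬ True) := by
      apply Pr_congr; intro F _; simp
    rw [this, Pr_not, Pr_true S (fun _ _ => trivial)]
    norm_num
  | insert i I hi ih =>
    rw [Finset.sum_insert hi]
    refine le_trans ?_ ((Pr_or_le (okq h0 h1) S (A i) (fun F => ∃ j ∈ I, A j F)).trans
      (add_le_add le_rfl ih))
    apply Pr_mono (okq h0 h1)
    rintro F _ ⟨j, hj, hA⟩
    rcases Finset.mem_insert.mp hj with rfl | hj
    · exact Or.inl hA
    · exact Or.inr ⟨j, hj, hA⟩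

/-- If some closed dual cluster is large then there is an arm. -/
theorem not_small {F : Set Edg} {K r : ℕ} (h : ¬ Small F K r) :
    ∃ f : Vtx, f ∈ Finset.Icc (-(K:ℤ)) K ×ˢ Finset.Icc (-(K:ℤ)) K ∧ ArmAt f r (dl '' Fᶜ) := by
  unfold Small at h
  push Not at h
  obtain ⟨f, g, h1, h2, h3, h4⟩ := h
  refine ⟨f, ?_, ?_⟩
  · rw [Finset.mem_product, Finset.mem_Icc, Finset.mem_Icc]
    exact ⟨abs_le.mp h1, abs_le.mp h2⟩
  · rw [← reach_dl] at h3
    have hout : g.1 ≤ f.1 - r ∨ f.1 + r ≤ g.1 ∨ g.2 ≤ f.2 - r ∨ f.2 + r ≤ g.2 := by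
      by_contra hcon
      push Not at hcon
      have h5 : |f.1 - g.1| ≤ r := abs_le.mpr (by omega)
      have h6 := h4 h5
      rcases lt_abs.mp h6 with h7 | h7 <;> omega
    obtain ⟨w, hw1, hw2, hw3⟩ := first_exit (a := f.1 - r) (b := f.1 + r) (c := f.2 - r)
      (d := f.2 + r) (by unfold inR; omega) h3 hout
    exact ⟨w, hw1, hw2, hw3⟩

theorem small_event {K r : ℕ} : ∃ (T : Finset Edg) (Q : Finset Edg → Prop),
    (∀ ω, ¬ Small (opn ω) K r → Q (GG T ω)) ∧
    ∀ q : ℝ, 0 ≤ q → q ≤ 1 → Pr (fun _ => q) T Q ≤ (2 * (K:ℝ) + 1) ^ 2 * arm q r := by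
  classical
  refine ⟨RE (-((K:ℤ) + r)) (K + r) (-((K:ℤ) + r)) (K + r),
    fun G => ∃ f ∈ Finset.Icc (-(K:ℤ)) K ×ˢ Finset.Icc (-(K:ℤ)) K, ArmAt f r ↑G, ?_, ?_⟩
  · intro ω h
    obtain ⟨f, hf, hA⟩ := not_small h
    refine ⟨f, hf, ?_⟩
    rw [Finset.mem_product, Finset.mem_Icc, Finset.mem_Icc] at hf
    obtain ⟨w, h1, h2, h3⟩ := hA
    refine ⟨w, h1, h2, ?_⟩
    rw [GG_coe, Set.inter_assoc]
    refine h3.mono (Set.inter_subset_inter_right _ (Set.subset_inter ?_ subset_rfl))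
    exact_mod_cast RE_subset (by omega) (by omega) (by omega) (by omega)
  · intro q h0 h1
    refine (Pr_exists_le h0 h1 _ _ _).trans ?_
    rw [Finset.sum_congr rfl (g := fun _ => arm q r)]
    · rw [Finset.sum_const, nsmul_eq_mul, Finset.card_product, Int.card_Icc]
      apply le_of_eq
      congr 1
      have : ((K:ℤ) + 1 - (-K)).toNat = 2 * K + 1 := by omega
      rw [this]
      push_cast
      ring
    · intro f hf
      rw [Finset.mem_product, Finset.mem_Icc, Finset.mem_Icc] at hf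
      exact pr_armAt q f r (RE_subset (by omega) (by omega) (by omega) (by omega))

end Pool.Agent.Helper59_BN
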