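import Pool.Agent.Helper59_BN.Peierls
import Pool.Agent.Helper59_BN.Prob

/-!
The probability that a Peierls chain has few good blocks.
-/

namespace Pool.Agent.Helper59_BN

open H974

/-- A path crosses from inside `x ≤ a'` to `b` in a rectangle. -/
theorem LRc_of_right {F : Finset Edg} {a a' b c d : ℤ} (hab : a' < b) {u v : Vtx}
    (h : Reach (↑F ∩ ↑(RE a b c d)) u v) (hu : u.1 ≤ a') (hv : b ≤ v.1) (_ha : a ≤ a') :
    LRc a' b c d F := by
  obtain ⟨y1, y2, h1, h2, h3, -⟩ := sub_LR (a := a') (b := b) (c := c) (d := d) hab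
    (by rintro x y ⟨-, h⟩ _ _; simp only [Finset.mem_coe, mem_RE_true] at h; omega)
    (by rintro x y ⟨-, h⟩ _ _; simp only [Finset.mem_coe, mem_RE_false] at h; omega) h hu hv
  refine ⟨y1, y2, h1, h2, h3.mono ?_⟩
  rintro e ⟨⟨h4, -⟩, h5⟩
  exact ⟨h4, h5⟩

theorem LRc_of_left {F : Finset Edg} {a b' b c d : ℤ} (hab : a < b') {u v : Vtx}
    (h : Reach (↑F ∩ ↑(RE a b c d)) u v) (hu : b' ≤ u.1) (hv : v.1 ≤ a) (_hb : b' ≤ b) :
    LRc a b' c d F := by
  obtain ⟨y1, y2, h1, h2, h3, -⟩ := sub_LR (a := a) (b := b') (c := c) (d := d) hab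
    (by rintro x y ⟨-, h⟩ _ _; simp only [Finset.mem_coe, mem_RE_true] at h; omega)
    (by rintro x y ⟨-, h⟩ _ _; simp only [Finset.mem_coe, mem_RE_false] at h; omega) h.symm hv hu
  refine ⟨y1, y2, h1, h2, h3.mono ?_⟩
  rintro e ⟨⟨h4, -⟩, h5⟩
  exact ⟨h4, h5⟩

theorem TBc_of_top {F : Finset Edg} {a b c c' d : ℤ} (hcd : c' < d) {u v : Vtx}
    (h : Reach (↑F ∩ ↑(RE a b c d)) u v) (hu : u.2 ≤ c') (hv : d ≤ v.2) (_hc : c ≤ c') :
    TBc a b c' d F := by
  obtain ⟨y1, y2, h1, h2, h3, -⟩ := sub_TB (a := a) (b := b) (c := c') (d := d) hcd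
    (by rintro x y ⟨-, h⟩ _ _; simp only [Finset.mem_coe, mem_RE_false] at h; omega)
    (by rintro x y ⟨-, h⟩ _ _; simp only [Finset.mem_coe, mem_RE_true] at h; omega) h hu hv
  refine ⟨y1, y2, h1, h2, h3.mono ?_⟩
  rintro e ⟨⟨h4, -⟩, h5⟩
  exact ⟨h4, h5⟩

theorem TBc_of_bottom {F : Finset Edg} {a b c d' d : ℤ} (hcd : c < d') {u v : Vtx}
    (h : Reach (↑F ∩ ↑(RE a b c d)) u v) (hu : d' ≤ u.2) (hv : v.2 ≤ c) (_hd : d' ≤ d) :
    TBc a b c d' F := by
  obtain ⟨y1, y2, h1, h2, h3, -⟩ := sub_TB (a := a) (b := b) (c := c) (d := d') hcd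
    (by rintro x y ⟨-, h⟩ _ _; simp only [Finset.mem_coe, mem_RE_false] at h; omega)
    (by rintro x y ⟨-, h⟩ _ _; simp only [Finset.mem_coe, mem_RE_true] at h; omega) h.symm hv hu
  refine ⟨y1, y2, h1, h2, h3.mono ?_⟩
  rintro e ⟨⟨h4, -⟩, h5⟩
  exact ⟨h4, h5⟩

/-- The edges of the neighbourhood of a block. -/
noncomputable def NE (s : ℤ) (k : Vtx) : Finset Edg :=
  RE ((k.1 - 1) * s) ((k.1 + 2) * s - 1) ((k.2 - 1) * s) ((k.2 + 2) * s - 1)

/-- The bad event of a block. -/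
def BE (s : ℤ) (k : Vtx) (G : Finset Edg) : Prop :=
  (LRc ((k.1 - 1) * s) (k.1 * s) ((k.2 - 1) * s) ((k.2 + 2) * s - 1) G ∨
    LRc (k.1 * s + s - 1) ((k.1 + 2) * s - 1) ((k.2 - 1) * s) ((k.2 + 2) * s - 1) G) ∨
  (TBc ((k.1 - 1) * s) ((k.1 + 2) * s - 1) ((k.2 - 1) * s) (k.2 * s) G ∨
    TBc ((k.1 - 1) * s) ((k.1 + 2) * s - 1) (k.2 * s + s - 1) ((k.2 + 2) * s - 1) G)

theorem blk_bounds {s x : ℤ} (hs : 1 ≤ s) : (x / s) * s ≤ x ∧ x ≤ (x / s) * s + s - 1 := by
  have h1 := Int.emod_add_mul_ediv x s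
  have h2 := Int.emod_nonneg x (show s ≠ 0 by omega)
  have h3 := Int.emod_lt_of_pos x (show 0 < s by omega)
  have h4 : s * (x / s) = (x / s) * s := mul_comm _ _
  omega

theorem BE_of_Bd {A : Set Edg} {s : ℤ} (hs : 1 ≤ s) {k : Vtx} (h : Bd A s k) {G : Finset Edg}
    (hG : dl '' A ∩ ↑(NE s k) ⊆ ↑G) : BE s k G := by
  obtain ⟨u, v, hu, hv, hr⟩ := h
  rw [← reach_dl] at hr
  obtain ⟨k1, k2⟩ := k
  obtain ⟨a, b⟩ := u
  obtain ⟨a', b'⟩ := v
  unfold blk at hu hv
  rw [Prod.mk.injEq] at hu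
  simp only at hu hv
  rw [le_bdd (by norm_num)] at hv
  simp only at hv
  have e1 : (k1 - 1) * s = k1 * s - s := by ring
  have e2 : (k1 + 2) * s = k1 * s + 2 * s := by ring
  have e3 : (k2 - 1) * s = k2 * s - s := by ring
  have e4 : (k2 + 2) * s = k2 * s + 2 * s := by ring
  have b1 := blk_bounds (x := a) hs
  have b2 := blk_bounds (x := b) hs
  have b3 := blk_bounds (x := a') hs
  have b4 := blk_bounds (x := b') hs
  rw [hu.1] at b1
  rw [hu.2] at b2
  obtain ⟨A1, hA1⟩ : ∃ A1, A1 = k1 * s := ⟨_, rfl⟩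
  obtain ⟨B1, hB1⟩ : ∃ B1, B1 = k2 * s := ⟨_, rfl⟩
  have hout : a' ≤ A1 - s ∨ A1 + 2 * s - 1 ≤ a' ∨ b' ≤ B1 - s ∨ B1 + 2 * s - 1 ≤ b' := by
    rcases hv with (hv | hv) | (hv | hv)
    · have : (k1 + 2) * s ≤ a' / s * s := mul_le_mul_of_nonneg_right (by omega) (by omega)
      omega
    · have : a' / s * s ≤ (k1 - 2) * s := mul_le_mul_of_nonneg_right (by omega) (by omega)
      have e5 : (k1 - 2) * s = k1 * s - 2 * s := by ring
      omega
    · have : (k2 + 2) * s ≤ b' / s * s := mul_le_mul_of_nonneg_right (by omega) (by omega)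
      omega
    · have : b' / s * s ≤ (k2 - 2) * s := mul_le_mul_of_nonneg_right (by omega) (by omega)
      have e5 : (k2 - 2) * s = k2 * s - 2 * s := by ring
      omega
  obtain ⟨w, hw1, hw2, hw3⟩ := first_exit (a := A1 - s) (b := A1 + 2 * s - 1) (c := B1 - s)
    (d := B1 + 2 * s - 1) (u := (a, b)) (by unfold inR; simp only; omega) hr hout
  have hNE : NE s (k1, k2) = RE (A1 - s) (A1 + 2 * s - 1) (B1 - s) (B1 + 2 * s - 1) := by
    unfold NE; simp only [e1, e2, e3, e4, hA1, hB1]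
  rw [hNE] at hG
  have hw4 : Reach (↑G ∩ ↑(RE (A1 - s) (A1 + 2 * s - 1) (B1 - s) (B1 + 2 * s - 1))) (a, b) w := by
    refine hw3.mono ?_
    intro e he
    exact ⟨hG he, he.2⟩
  unfold BE
  simp only [e1, e2, e3, e4, ← hA1, ← hB1]
  rcases hw2 with h | h | h | h
  · exact Or.inl (Or.inl (LRc_of_left (by omega) hw4 (by simp only; omega) h.le (by omega)))
  · exact Or.inl (Or.inr (LRc_of_right (by omega) hw4 (by simp only; omega) h.ge (by omega)))
  · exact Or.inr (Or.inl (TBc_of_bottom (by omega) hw4 (by simp only; omega) h.le (by omega)))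
  · exact Or.inr (Or.inr (TBc_of_top (by omega) hw4 (by simp only; omega) h.ge (by omega)))

theorem BE_local {s : ℤ} (hs : 1 ≤ s) (k : Vtx) (G : Finset Edg) :
    BE s k G ↔ BE s k (G ∩ NE s k) := by
  obtain ⟨k1, k2⟩ := k
  have e1 : (k1 - 1) * s = k1 * s - s := by ring
  have e2 : (k1 + 2) * s = k1 * s + 2 * s := by ring
  have e3 : (k2 - 1) * s = k2 * s - s := by ring
  have e4 : (k2 + 2) * s = k2 * s + 2 * s := by ring
  unfold BE NE
  simp only [e1, e2, e3, e4]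
  rw [← LRc_local, ← LRc_local, ← TBc_local, ← TBc_local]
  · exact TBE_subset_RE.trans (RE_subset (by omega) (by omega) (by omega) (by omega))
  · exact TBE_subset_RE.trans (RE_subset (by omega) (by omega) (by omega) (by omega))
  · exact LRE_subset_RE.trans (RE_subset (by omega) (by omega) (by omega) (by omega))
  · exact LRE_subset_RE.trans (RE_subset (by omega) (by omega) (by omega) (by omega))

theorem pr_BE {q : ℝ} (h0 : 0 ≤ q) (h1 : q ≤ 1) {s : ℤ} (hs : 1 ≤ s) (k : Vtx) {U : Finset Edg}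
    (hU : NE s k ⊆ U) : Pr (fun _ => q) U (BE s k) ≤ 4 * hh q s (3 * s - 1) := by
  obtain ⟨k1, k2⟩ := k
  have e1 : (k1 - 1) * s = k1 * s - s := by ring
  have e2 : (k1 + 2) * s = k1 * s + 2 * s := by ring
  have e3 : (k2 - 1) * s = k2 * s - s := by ring
  have e4 : (k2 + 2) * s = k2 * s + 2 * s := by ring
  have hN : RE (k1 * s - s) (k1 * s + 2 * s - 1) (k2 * s - s) (k2 * s + 2 * s - 1) ⊆ U := by
    unfold NE at hU
    simp only [e1, e2, e3, e4] at hU
    exact hU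
  unfold BE
  simp only [e1, e2, e3, e4]
  refine (Pr_or_le (okq h0 h1) U _ _).trans ?_
  have i1 := Pr_or_le (okq h0 h1) U
    (LRc (k1 * s - s) (k1 * s) (k2 * s - s) (k2 * s + 2 * s - 1))
    (LRc (k1 * s + s - 1) (k1 * s + 2 * s - 1) (k2 * s - s) (k2 * s + 2 * s - 1))
  have i2 := Pr_or_le (okq h0 h1) U
    (TBc (k1 * s - s) (k1 * s + 2 * s - 1) (k2 * s - s) (k2 * s))
    (TBc (k1 * s - s) (k1 * s + 2 * s - 1) (k2 * s + s - 1) (k2 * s + 2 * s - 1))
  rw [pr_LRc q (LRE_subset_RE.trans ((RE_subset (by omega) (by omega) (by omega)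
    (by omega)).trans hN)), pr_LRc q (LRE_subset_RE.trans ((RE_subset (by omega) (by omega)
    (by omega) (by omega)).trans hN))] at i1
  rw [pr_TBc q (TBE_subset_RE.trans ((RE_subset (by omega) (by omega) (by omega)
    (by omega)).trans hN)), pr_TBc q (TBE_subset_RE.trans ((RE_subset (by omega) (by omega)
    (by omega) (by omega)).trans hN))] at i2
  have f1 : k1 * s - (k1 * s - s) = s := by ring
  have f2 : k1 * s + 2 * s - 1 - (k1 * s + s - 1) = s := by ring
  have f3 : k2 * s + 2 * s - 1 - (k2 * s - s) = 3 * s - 1 := by ring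
  have f4 : k2 * s - (k2 * s - s) = s := by ring
  have f5 : k2 * s + 2 * s - 1 - (k2 * s + s - 1) = s := by ring
  have f6 : k1 * s + 2 * s - 1 - (k1 * s - s) = 3 * s - 1 := by ring
  rw [f1, f2, f3] at i1
  rw [f4, f5, f6] at i2
  linarith

/-- Many bad blocks of a family with disjoint neighbourhoods. -/
theorem pr_count {q ε : ℝ} (h0 : 0 ≤ q) (h1 : q ≤ 1) (hε : 0 ≤ ε) {ι : Type*} [DecidableEq ι]
    {U : Finset Edg} (I : Finset ι) (S : ι → Finset Edg) (B : ι → Finset Edg → Prop)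
    (hS : ∀ i ∈ I, S i ⊆ U) (hd : ∀ i ∈ I, ∀ j ∈ I, i ≠ j → Disjoint (S i) (S j))
    (hf : ∀ i ∈ I, ∀ F, F ⊆ U → (B i F ↔ B i (F ∩ S i)))
    (hB : ∀ i ∈ I, Pr (fun _ => q) U (B i) ≤ ε) (m : ℕ) :
    Pr (fun _ => q) U (fun F => ∃ J ∈ I.powersetCard m, ∀ i ∈ J, B i F) ≤
      2 ^ I.card * ε ^ m := by
  refine (Pr_exists_le h0 h1 U (I.powersetCard m) (fun J F => ∀ i ∈ J, B i F)).trans ?_
  have h2 : ∀ J ∈ I.powersetCard m, Pr (fun _ => q) U (fun F => ∀ i ∈ J, B i F) ≤ ε ^ m := by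
    intro J hJ
    rw [Finset.mem_powersetCard] at hJ
    have h3 : Pr (fun _ => q) U (fun F => ∀ i ∈ J, B i F) =
        Ex (fun _ => q) U (fun F => ∏ i ∈ J, ind (B i F)) := by
      unfold Pr
      apply Ex_congr
      intro F _
      by_cases hb : ∀ i ∈ J, B i F
      · rw [ind_of hb]
        symm
        apply Finset.prod_eq_one
        intro i hi
        exact ind_of (hb i hi)
      · rw [ind_not_of hb]
        push Not at hb
        obtain ⟨i, hi, hb⟩ := hb
        exact (Finset.prod_eq_zero hi (ind_not_of hb)).symm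
    rw [h3, Ex_prod J S (fun i F => ind (B i F)) (fun i hi => hS i (hJ.1 hi))
      (fun i hi j hj => hd i (hJ.1 hi) j (hJ.1 hj))
      (fun i hi F hF => ind_congr (hf i (hJ.1 hi) F hF)), ← hJ.2, ← Finset.prod_const]
    apply Finset.prod_le_prod
    · intro i _
      exact Pr_nonneg (okq h0 h1) _ _
    · intro i hi
      exact hB i (hJ.1 hi)
  refine (Finset.sum_le_sum h2).trans ?_
  rw [Finset.sum_const, nsmul_eq_mul, Finset.card_powersetCard]
  apply mul_le_mul_of_nonneg_right _ (by positivity)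
  exact_mod_cast Nat.choose_le_two_pow _ _

/-- The event that a chain of `18 m` blocks has few good blocks. -/
def FewGood (s : ℤ) (m : ℕ) (κ : ℕ → Vtx) (G : Finset Edg) : Prop :=
  ∃ J ∈ (Finset.range (18 * m)).powersetCard (9 * m), ∀ j ∈ J, BE s (κ j) G

/-- The class of a block. -/
def cls (k : Vtx) : ℤ × ℤ := (k.1 % 3, k.2 % 3)

theorem NE_disj {s : ℤ} (hs : 1 ≤ s) {k k' : Vtx} (hne : k ≠ k') (hc : cls k = cls k') :
    Disjoint (NE s k) (NE s k') := by
  obtain ⟨a, b⟩ := k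
  obtain ⟨a', b'⟩ := k'
  unfold cls at hc
  rw [Prod.mk.injEq] at hc
  simp only at hc
  have h3 : a + 3 ≤ a' ∨ a' + 3 ≤ a ∨ b + 3 ≤ b' ∨ b' + 3 ≤ b := by
    by_contra hcon
    apply hne
    rw [Prod.mk.injEq]
    omega
  have e1 : ∀ x : ℤ, (x - 1) * s = x * s - s := fun x => by ring
  have e2 : ∀ x : ℤ, (x + 2) * s = x * s + 2 * s := fun x => by ring
  have hmul : ∀ x y : ℤ, x + 3 ≤ y → x * s + 3 * s ≤ y * s := by
    intro x y h
    have := mul_le_mul_of_nonneg_right h (show 0 ≤ s by omega)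
    rw [add_mul] at this
    exact this
  unfold NE
  simp only [e1, e2]
  rw [Finset.disjoint_left]
  rintro ⟨x, y, _ | _⟩ k1 k2
  · rw [mem_RE_false] at k1 k2
    rcases h3 with h | h | h | h
    · have := hmul _ _ h; omega
    · have := hmul _ _ h; omega
    · have := hmul _ _ h; omega
    · have := hmul _ _ h; omega
  · rw [mem_RE_true] at k1 k2
    rcases h3 with h | h | h | h
    · have := hmul _ _ h; omega
    · have := hmul _ _ h; omega
    · have := hmul _ _ h; omega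
    · have := hmul _ _ h; omega

theorem pr_FewGood {q ε : ℝ} (h0 : 0 ≤ q) (h1 : q ≤ 1) (hε : 0 ≤ ε) {s : ℤ} (hs : 1 ≤ s)
    (hb : 4 * hh q s (3 * s - 1) ≤ ε) {m : ℕ} {κ : ℕ → Vtx}
    (hκ : ∀ j j', j < j' → j' < 18 * m → 2 ≤ bdd (κ j) (κ j')) {U : Finset Edg}
    (hU : ∀ j < 18 * m, NE s (κ j) ⊆ U) :
    Pr (fun _ => q) U (FewGood s m κ) ≤ 9 * (2 ^ (18 * m) * ε ^ m) := by
  classical
  obtain ⟨T, hT⟩ : ∃ T : Finset (ℤ × ℤ), T = Finset.Ico (0:ℤ) 3 ×ˢ Finset.Ico (0:ℤ) 3 :=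
    ⟨_, rfl⟩
  have hTc : T.card = 9 := by rw [hT]; rfl
  have hin : ∀ k : Vtx, cls k ∈ T := by
    intro k
    rw [hT, Finset.mem_product, Finset.mem_Ico, Finset.mem_Ico]
    unfold cls
    simp only
    omega
  obtain ⟨I, hI⟩ : ∃ I : ℤ × ℤ → Finset ℕ, I = fun c =>
    (Finset.range (18 * m)).filter (fun j => cls (κ j) = c) := ⟨_, rfl⟩
  have hor : Pr (fun _ => q) U (FewGood s m κ) ≤
      Pr (fun _ => q) U (fun G => ∃ c ∈ T, ∃ J ∈ (I c).powersetCard m, ∀ j ∈ J, BE s (κ j) G) := by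
    apply Pr_mono (okq h0 h1)
    rintro G _ ⟨J, hJ, hJB⟩
    rw [Finset.mem_powersetCard] at hJ
    by_contra hcon
    push Not at hcon
    have h2 : ∀ c ∈ T, (J.filter (fun j => cls (κ j) = c)).card < m := by
      intro c hc
      by_contra h3
      obtain ⟨J', hJ', hJ''⟩ := Finset.exists_subset_card_eq (not_lt.mp h3)
      have h4 := hcon c hc J' (by
        rw [Finset.mem_powersetCard, hI]
        refine ⟨?_, hJ''⟩
        intro j hj
        have h5 := Finset.mem_filter.mp (hJ' hj)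
        exact Finset.mem_filter.mpr ⟨hJ.1 h5.1, h5.2⟩)
      obtain ⟨j, hj, hjB⟩ := h4
      exact hjB (hJB j (Finset.mem_filter.mp (hJ' hj)).1)
    have h3 : J.card = ∑ c ∈ T, (J.filter (fun j => cls (κ j) = c)).card :=
      Finset.card_eq_sum_card_fiberwise (fun j _ => hin (κ j))
    rcases Nat.eq_zero_or_pos m with hm | hm
    · have := h2 (cls (0, 0)) (hin _)
      omega
    · have h4 : ∑ c ∈ T, (J.filter (fun j => cls (κ j) = c)).card ≤ ∑ c ∈ T, (m - 1) :=
        Finset.sum_le_sum (fun c hc => by have := h2 c hc; omega)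
      rw [Finset.sum_const, smul_eq_mul, hTc] at h4
      omega
  refine hor.trans ((Pr_exists_le h0 h1 U T _).trans ?_)
  have hone : ∀ c ∈ T, Pr (fun _ => q) U (fun G => ∃ J ∈ (I c).powersetCard m,
      ∀ j ∈ J, BE s (κ j) G) ≤ 2 ^ (18 * m) * ε ^ m := by
    intro c _
    have hmem : ∀ j ∈ I c, j < 18 * m ∧ cls (κ j) = c := by
      intro j hj
      rw [hI] at hj
      have := Finset.mem_filter.mp hj
      exact ⟨Finset.mem_range.mp this.1, this.2⟩
    refine (pr_count h0 h1 hε (I c) (fun j => NE s (κ j)) (fun j => BE s (κ j)) ?_ ?_ ?_ ?_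
      m).trans ?_
    · intro j hj
      exact hU j (hmem j hj).1
    · intro j hj j' hj' hne
      apply NE_disj hs
      · intro heq
        rcases Nat.lt_or_gt_of_ne hne with h | h
        · have := hκ j j' h (hmem j' hj').1
          rw [heq, le_bdd (by norm_num)] at this
          omega
        · have := hκ j' j h (hmem j hj).1
          rw [heq, le_bdd (by norm_num)] at this
          omega
      · rw [(hmem j hj).2, (hmem j' hj').2]
    · intro j _ F _
      exact BE_local hs _ _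
    · intro j hj
      exact (pr_BE h0 h1 hs _ (hU j (hmem j hj).1)).trans hb
    · apply mul_le_mul_of_nonneg_right _ (by positivity)
      apply pow_le_pow_right₀ (by norm_num)
      have h5 : (I c).card ≤ (Finset.range (18 * m)).card := by
        rw [hI]; exact Finset.card_filter_le _ _
      rwa [Finset.card_range] at h5
  refine (Finset.sum_le_sum hone).trans ?_
  rw [Finset.sum_const, hTc, nsmul_eq_mul]
  norm_num

end Pool.Agent.Helper59_BN
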