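import Pool.Agent.Helper59_BN.Star
import Pool.Agent.Helper59_BN.PeierlsPr

/-!
Links of coarse sites: the link cost, translations, links along lattice paths, hubs.
-/

namespace Pool.Agent.Helper59_BN

open H974

/-- The least cost of a link. -/
noncomputable def lk (l : ℤ) (S : Finset Edg) (a b : Vtx) (G : Finset Edg) : ℕ :=
  sInf {k | LK l S G a b k}

theorem lk_le {l : ℤ} {S G : Finset Edg} {a b : Vtx} {k : ℕ} (h : LK l S G a b k) :
    lk l S a b G ≤ k := Nat.sInf_le h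

theorem lk_spec {l : ℤ} {S G : Finset Edg} {a b : Vtx} {k : ℕ} (h : LK l S G a b k) :
    LK l S G a b (lk l S a b G) := Nat.sInf_mem (s := {k | LK l S G a b k}) ⟨k, h⟩

theorem lk_mono {l : ℤ} {S S' G : Finset Edg} {a b : Vtx} {k : ℕ} (h : LK l S G a b k)
    (hS : S ⊆ S') : lk l S' a b G ≤ lk l S a b G :=
  lk_le ((lk_spec h).mono hS le_rfl)

theorem lk_trans {l : ℤ} (hl : 0 < l) {S1 S2 S G : Finset Edg} {a b c : Vtx} {k k' : ℕ}
    (h : LK l S1 G a b k) (h' : LK l S2 G b c k') (h1 : S1 ⊆ S) (h2 : S2 ⊆ S) :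
    lk l S a c G ≤ lk l S1 a b G + lk l S2 b c G :=
  lk_le (((lk_spec h).mono h1 le_rfl).trans hl ((lk_spec h').mono h2 le_rfl))

theorem LK_local {l : ℤ} {S S' G : Finset Edg} (hS : S ⊆ S') {a b : Vtx} {k : ℕ} :
    LK l S G a b k ↔ LK l S (G ∩ S') a b k := by
  constructor
  · rintro ⟨C, h1, h2, h3⟩
    exact ⟨C, h1, by rwa [sdiff_inter_of_subset (h1.trans hS)], h3⟩
  · rintro ⟨C, h1, h2, h3⟩
    exact ⟨C, h1, by rwa [sdiff_inter_of_subset (h1.trans hS)] at h2, h3⟩

theorem lk_local {l : ℤ} {S S' : Finset Edg} (hS : S ⊆ S') (a b : Vtx) (G : Finset Edg) :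
    lk l S a b G = lk l S a b (G ∩ S') := by
  unfold lk
  congr 1
  ext k
  exact LK_local hS

/-! ### Translations -/

/-- Translation by a coarse vector. -/
def ct (l : ℤ) (v : Vtx) : LSym := trl (v.1 * l) (v.2 * l)

theorem ct_ψ (l : ℤ) (v u : Vtx) : (ct l v).ψ u = (u.1 + v.1 * l, u.2 + v.2 * l) := rfl

theorem trl_LRz {a b c d s t : ℤ} {C : Finset Edg} {z : Vtx} (h : LRz a b c d C z) :
    LRz (a + s) (b + s) (c + t) (d + t) ((trl s t).mp C) ((trl s t).ψ z) := by
  obtain ⟨y, y', h1, h2, h3, h4⟩ := h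
  have h3' := (trl s t).reach h3
  have h4' := (trl s t).reach h4
  rw [LSym.image_inter, trl_LRE] at h3'
  rw [← LSym.coe_mp] at h4'
  exact ⟨y + t, y' + t, ⟨by omega, by omega⟩, ⟨by omega, by omega⟩, h3', h4'⟩

theorem trl_TBz {a b c d s t : ℤ} {C : Finset Edg} {z : Vtx} (h : TBz a b c d C z) :
    TBz (a + s) (b + s) (c + t) (d + t) ((trl s t).mp C) ((trl s t).ψ z) := by
  obtain ⟨y, y', h1, h2, h3, h4⟩ := h
  have h3' := (trl s t).reach h3
  have h4' := (trl s t).reach h4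
  rw [LSym.image_inter, trl_TBE] at h3'
  rw [← LSym.coe_mp] at h4'
  exact ⟨y + s, y' + s, ⟨by omega, by omega⟩, ⟨by omega, by omega⟩, h3', h4'⟩

theorem Star.ct {l : ℤ} {a : Vtx} {C : Finset Edg} {z : Vtx} (h : Star l a C z) (v : Vtx) :
    Star l (a + v) ((ct l v).mp C) ((ct l v).ψ z) := by
  obtain ⟨p, q⟩ := a
  obtain ⟨x, y⟩ := v
  obtain ⟨h1, h2, h3, h4, h5⟩ := h
  have e1 : ∀ k : ℤ, (p + x + k) * l = (p + k) * l + x * l := fun k => by ring
  have e2 : ∀ k : ℤ, (q + y + k) * l = (q + k) * l + y * l := fun k => by ring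
  have e3 : ∀ k : ℤ, (p + x - k) * l = (p - k) * l + x * l := fun k => by ring
  have e4 : ∀ k : ℤ, (q + y - k) * l = (q - k) * l + y * l := fun k => by ring
  have e5 : (p + x) * l = p * l + x * l := by ring
  have e6 : (q + y) * l = q * l + y * l := by ring
  have g1 := trl_LRz (s := x * l) (t := y * l) h1
  have g2 := trl_LRz (s := x * l) (t := y * l) h2
  have g3 := trl_LRz (s := x * l) (t := y * l) h3
  have g4 := trl_TBz (s := x * l) (t := y * l) h4
  have g5 := trl_TBz (s := x * l) (t := y * l) h5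
  constructor
  · simp only [Prod.fst_add, Prod.snd_add, e1, e2, e3]; exact g1
  · simp only [Prod.fst_add, Prod.snd_add, e1, e2, e3, e6]; exact g2
  · simp only [Prod.fst_add, Prod.snd_add, e1, e3, e4, e6]; exact g3
  · simp only [Prod.fst_add, Prod.snd_add, e2, e3, e4, e5]; exact g4
  · simp only [Prod.fst_add, Prod.snd_add, e1, e2, e4]; exact g5

theorem mp_card (g : LSym) (C : Finset Edg) : (g.mp C).card = C.card := Finset.card_map _

theorem LK.ct {l : ℤ} {S G : Finset Edg} {a b : Vtx} {k : ℕ} (h : LK l S G a b k) (v : Vtx) :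
    LK l ((ct l v).mp S) ((ct l v).mp G) (a + v) (b + v) k := by
  obtain ⟨C, h1, h2, z, h3, h4⟩ := h
  refine ⟨(Helper59_BN.ct l v).mp C, LSym.mp_mono _ h1, ?_, _, h3.ct v, h4.ct v⟩
  rw [← LSym.mp_sdiff, mp_card]
  exact h2

theorem ct_neg {l : ℤ} (v : Vtx) (F : Finset Edg) : (ct l (-v)).mp ((ct l v).mp F) = F := by
  ext ⟨x, y, b⟩
  rw [LSym.mem_mp, LSym.mem_mp]
  have : (ct l v).φ.symm ((ct l (-v)).φ.symm (x, y, b)) = (x, y, b) := by
    show (x - (-v).1 * l - v.1 * l, y - (-v).2 * l - v.2 * l, b) = (x, y, b)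
    simp
  rw [this]

theorem LK_ct {l : ℤ} {S G : Finset Edg} {a b : Vtx} {k : ℕ} (v : Vtx) :
    LK l ((ct l v).mp S) ((ct l v).mp G) (a + v) (b + v) k ↔ LK l S G a b k := by
  constructor
  · intro h
    have := h.ct (-v)
    rwa [ct_neg, ct_neg, add_neg_cancel_right, add_neg_cancel_right] at this
  · exact fun h => h.ct v

theorem lk_ct {l : ℤ} {S G : Finset Edg} {a b : Vtx} (v : Vtx) :
    lk l ((ct l v).mp S) (a + v) (b + v) ((ct l v).mp G) = lk l S a b G := by
  unfold lk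
  congr 1
  ext k
  exact LK_ct v

theorem ct_bx {l : ℤ} (a v : Vtx) (r : ℤ) : (ct l v).mp (bx l a r) = bx l (a + v) r := by
  unfold ct bx
  rw [trl_RE]
  simp only [Prod.fst_add, Prod.snd_add]
  congr 1 <;> ring

/-! ### Links along lattice paths -/

/-- Two sites are linked through a list of sites. -/
theorem sites : ∀ (n : ℕ) (a b : Vtx), |a.1 - b.1| + |a.2 - b.2| ≤ n → ∃ (W : ℕ → Vtx) (m : ℕ),
    m ≤ 2 * n + 1 ∧ (∀ i < m, bdd a (W i) ≤ bdd a b) ∧ ∀ (l : ℤ), 0 < l → ∀ S G : Finset Edg,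
      (∀ i < m, bx l (W i) 1 ⊆ S) → LK l S G a b (∑ i ∈ Finset.range m, sc l (W i) G) := by
  suffices H : ∀ (n : ℕ) (a b : Vtx), |a.1 - b.1| + |a.2 - b.2| ≤ n → ∃ (W : ℕ → Vtx) (m : ℕ),
      m ≤ 2 * n + 1 ∧ (∀ i < m, (min a.1 b.1 ≤ (W i).1 ∧ (W i).1 ≤ max a.1 b.1) ∧
        (min a.2 b.2 ≤ (W i).2 ∧ (W i).2 ≤ max a.2 b.2)) ∧ ∀ (l : ℤ), 0 < l →
        ∀ S G : Finset Edg, (∀ i < m, bx l (W i) 1 ⊆ S) →
          LK l S G a b (∑ i ∈ Finset.range m, sc l (W i) G) by
    intro n a b h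
    obtain ⟨W, m, h1, h2, h3⟩ := H n a b h
    refine ⟨W, m, h1, fun i hi => ?_, h3⟩
    have h4 := h2 i hi
    have h5 := (bdd_le (a := a) (b := b)).mp le_rfl
    rw [bdd_le]
    omega
  intro n
  induction n with
  | zero =>
    rintro ⟨a, b⟩ ⟨c, d⟩ h
    simp only at h
    have h1 := abs_nonneg (a - c)
    have h2 := abs_nonneg (b - d)
    have h3 : a - c = 0 := abs_eq_zero.mp (by push_cast at h; omega)
    have h4 : b - d = 0 := abs_eq_zero.mp (by push_cast at h; omega)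
    have e1 : a = c := by omega
    have e2 : b = d := by omega
    subst e1 e2
    refine ⟨fun _ => (a, b), 1, by omega, by simp, ?_⟩
    intro l hl S G hS
    rw [Finset.sum_range_one]
    exact LK_self hl G (hS 0 (by omega))
  | succ n ih =>
    rintro ⟨a, b⟩ ⟨c, d⟩ h
    simp only at h
    push_cast at h
    have key : ∀ (a' b' : ℤ), (∀ (l : ℤ), 0 < l → ∀ S G : Finset Edg, bx l (a, b) 1 ⊆ S →
        bx l (a', b') 1 ⊆ S → LK l S G (a, b) (a', b') (sc l (a, b) G + sc l (a', b') G)) →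
        |a' - c| + |b' - d| ≤ n →
        (min a c ≤ a' ∧ a' ≤ max a c) → (min b d ≤ b' ∧ b' ≤ max b d) →
        ∃ (W : ℕ → Vtx) (m : ℕ), m ≤ 2 * (n + 1) + 1 ∧ (∀ i < m,
          (min a c ≤ (W i).1 ∧ (W i).1 ≤ max a c) ∧
          (min b d ≤ (W i).2 ∧ (W i).2 ≤ max b d)) ∧ ∀ (l : ℤ), 0 < l →
          ∀ S G : Finset Edg, (∀ i < m, bx l (W i) 1 ⊆ S) →
            LK l S G (a, b) (c, d) (∑ i ∈ Finset.range m, sc l (W i) G) := by
      intro a' b' he hn h1 h2
      obtain ⟨W, m, k1, k2, k3⟩ := ih (a', b') (c, d) hn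
      simp only at k2
      refine ⟨fun i => if i = 0 then (a, b) else if i = 1 then (a', b') else W (i - 2), m + 2,
        by omega, ?_, ?_⟩
      · intro i hi
        rcases Nat.eq_zero_or_pos i with rfl | hi0
        · simp only [if_pos]; omega
        · rcases Nat.eq_or_lt_of_le hi0 with h3 | h3
          · have : i = 1 := by omega
            subst this
            simp only [if_neg (show ¬ (1:ℕ) = 0 by omega), if_pos]
            exact ⟨h1, h2⟩
          · simp only [if_neg (show ¬ i = 0 by omega), if_neg (show ¬ i = 1 by omega)]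
            have := k2 (i - 2) (by omega)
            omega
      · intro l hl S G hS
        have i0 := hS 0 (by omega)
        have i1 := hS 1 (by omega)
        simp only [if_pos, if_neg (show ¬ (1:ℕ) = 0 by omega)] at i0 i1
        have g1 := he l hl S G i0 i1
        have g2 := k3 l hl S G (fun i hi => by
          have := hS (i + 2) (by omega)
          simp only [if_neg (show ¬ (i + 2 = 0) by omega),
            if_neg (show ¬ (i + 2 = 1) by omega), Nat.add_sub_cancel] at this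
          exact this)
        refine (g1.trans hl g2).mono (Finset.Subset.refl _) ?_
        rw [Finset.sum_range_succ', Finset.sum_range_succ']
        have e1 : ∀ i : ℕ, (if i + 1 + 1 = 0 then (a, b) else if i + 1 + 1 = 1 then (a', b')
            else W (i + 1 + 1 - 2)) = W i := by
          intro i
          rw [if_neg (by omega), if_neg (by omega)]
          congr 1
        simp only [e1]
        simp
        omega
    rcases lt_trichotomy a c with h1 | h1 | h1
    · refine key (a + 1) b (fun l hl S G i0 i1 => LK_right hl G i0 i1) ?_ ?_ ?_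
      · rw [abs_of_neg (by omega : a - c < 0)] at h
        rw [abs_of_nonpos (by omega : a + 1 - c ≤ 0)]
        omega
      · omega
      · omega
    · rcases lt_trichotomy b d with h2 | h2 | h2
      · refine key a (b + 1) (fun l hl S G i0 i1 => LK_up hl G i0 i1) ?_ ?_ ?_
        · rw [abs_of_neg (by omega : b - d < 0)] at h
          rw [abs_of_nonpos (by omega : b + 1 - d ≤ 0)]
          omega
        · omega
        · omega
      · subst h1 h2
        refine ⟨fun _ => (a, b), 1, by omega, by simp, ?_⟩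
        intro l hl S G hS
        rw [Finset.sum_range_one]
        exact LK_self hl G (hS 0 (by omega))
      · refine key a (b - 1) (fun l hl S G i0 i1 => ?_) ?_ ?_ ?_
        · have := LK_up hl G (p := a) (q := b - 1) i1 (by rwa [sub_add_cancel])
          rw [sub_add_cancel] at this
          exact this.symm.mono (Finset.Subset.refl _) (by omega)
        · rw [abs_of_pos (by omega : 0 < b - d)] at h
          rw [abs_of_nonneg (by omega : 0 ≤ b - 1 - d)]
          omega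
        · omega
        · omega
    · refine key (a - 1) b (fun l hl S G i0 i1 => ?_) ?_ ?_ ?_
      · have := LK_right hl G (p := a - 1) (q := b) i1 (by rwa [sub_add_cancel])
        rw [sub_add_cancel] at this
        exact this.symm.mono (Finset.Subset.refl _) (by omega)
      · rw [abs_of_pos (by omega : 0 < a - c)] at h
        rw [abs_of_nonneg (by omega : 0 ≤ a - 1 - c)]
        omega
      · omega
      · omega

theorem bdd_nonneg (a b : Vtx) : 0 ≤ bdd a b := (abs_nonneg _).trans (le_max_left _ _)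

theorem sites' (a b : Vtx) {n : ℕ} (hn : bdd a b ≤ n) : ∃ (W : ℕ → Vtx) (m : ℕ),
    m ≤ 4 * n + 1 ∧ (∀ i < m, bdd a (W i) ≤ n) ∧ ∀ (l : ℤ), 0 < l → ∀ S G : Finset Edg,
      (∀ i < m, bx l (W i) 1 ⊆ S) → LK l S G a b (∑ i ∈ Finset.range m, sc l (W i) G) := by
  have h1 := bdd_le.mp hn
  obtain ⟨W, m, k1, k2, k3⟩ := sites (2 * n) a b (by
    have i1 : |a.1 - b.1| ≤ n := abs_le.mpr h1.1
    have i2 : |a.2 - b.2| ≤ n := abs_le.mpr h1.2
    push_cast
    omega)
  exact ⟨W, m, by omega, fun i hi => (k2 i hi).trans hn, k3⟩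

theorem LK_ex {l : ℤ} (hl : 0 < l) {S : Finset Edg} (G : Finset Edg) {a b : Vtx} {r : ℤ}
    (hr : bdd a b + 1 ≤ r) (hS : bx l a r ⊆ S) : ∃ k, LK l S G a b k := by
  obtain ⟨n, hn⟩ : ∃ n : ℕ, bdd a b = n := ⟨(bdd a b).toNat, by
    have := bdd_nonneg a b; omega⟩
  obtain ⟨W, m, -, k2, k3⟩ := sites' a b hn.le
  refine ⟨_, k3 l hl S G (fun i hi => (bx_subset hl ?_).trans hS)⟩
  have := k2 i hi
  rw [bdd_symm]
  omega

/-! ### Hubs -/

theorem xc_le_hcost {l a b c d : ℤ} (hl : 0 < l) {N : ℕ} (hb : b = a + (N + 2) * l)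
    (hd : c + l ≤ d) (G : Finset Edg) : xc a b c d G ≤ hcost l (a, c) N G := by
  obtain ⟨C, h1, h2, y, y', h3, h4, h5⟩ := hchain hl (a, c) G N
  simp only at h1 h3 h4 h5
  rw [← hb] at h1 h5
  have hab : a < b := by
    have : 0 < ((N:ℤ) + 2) * l := by positivity
    omega
  have h6 : LRc a b c d C := LRc_of_right (a := a) hab (h5.mono (by
    intro e he
    exact ⟨he, by exact_mod_cast (RE_subset le_rfl le_rfl le_rfl hd) (h1 he)⟩)) le_rfl le_rfl
    le_rfl
  apply Nat.sInf_le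
  refine ⟨C ∩ LRE a b c d, Finset.inter_subset_right, ?_, ?_⟩
  · refine (Finset.card_le_card ?_).trans h2
    exact Finset.sdiff_subset_sdiff Finset.inter_subset_left le_rfl
  · rwa [← LRc_local (Finset.Subset.refl _)]

theorem yc_le_hcost {l a b c d : ℤ} (hl : 0 < l) {N : ℕ} (hd : d = c + (N + 2) * l)
    (hb : a + l ≤ b) (G : Finset Edg) : yc a b c d G ≤ hcost l (c, a) N (tps.mp G) :=
  xc_le_hcost hl hd hb _

/-- The cost of joining the small star of `s κ` and the large star of `κ`. -/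
noncomputable def hub (l : ℤ) (s : ℕ) (κ : Vtx) (G : Finset Edg) : ℕ :=
  sc l ((s:ℤ) * κ.1, (s:ℤ) * κ.2) G + sc (s * l) κ G +
    hcost l ((s:ℤ) * κ.1 * l, (s:ℤ) * κ.2 * l) (2 * s - 2) G

theorem hub_ex {l : ℤ} (hl : 0 < l) {s : ℕ} (hs : 1 ≤ s) (κ : Vtx) (G : Finset Edg) :
    ∃ C : Finset Edg, C ⊆ bx (s * l) κ 1 ∧ (C \ G).card ≤ hub l s κ G ∧
      ∃ z, Star l ((s:ℤ) * κ.1, (s:ℤ) * κ.2) C z ∧ Star (s * l) κ C z := by
  obtain ⟨p, q⟩ := κ
  have hs' : (1:ℤ) ≤ s := by exact_mod_cast hs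
  have hL : 0 < (s:ℤ) * l := by positivity
  have hLl : l ≤ (s:ℤ) * l := by nlinarith
  obtain ⟨C1, a1, a2, z1, a3⟩ := star_ex hl ((s:ℤ) * p, (s:ℤ) * q) G
  obtain ⟨C2, b1, b2, z2, b3⟩ := star_ex hL (p, q) G
  obtain ⟨C3, c1, c2, y, y', c3, c4, c5⟩ := hchain hl ((s:ℤ) * p * l, (s:ℤ) * q * l) G (2 * s - 2)
  have eN : (((2 * s - 2 : ℕ) : ℤ) + 2) * l = 2 * ((s:ℤ) * l) := by
    have : ((2 * s - 2 : ℕ) : ℤ) = 2 * s - 2 := by omega
    rw [this]; ring
  simp only [eN] at c1 c3 c4 c5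
  obtain ⟨L, hLd⟩ : ∃ L : ℤ, L = (s:ℤ) * l := ⟨_, rfl⟩
  obtain ⟨X, hX⟩ : ∃ X : ℤ, X = p * L := ⟨_, rfl⟩
  obtain ⟨Y, hY⟩ : ∃ Y : ℤ, Y = q * L := ⟨_, rfl⟩
  have eX : (s:ℤ) * p * l = X := by rw [hX, hLd]; ring
  have eY : (s:ℤ) * q * l = Y := by rw [hY, hLd]; ring
  rw [← hLd] at c1 c5 hL hLl b1 b3 b2 ⊢
  rw [eX, eY] at c1
  rw [eY] at c3 c4
  rw [eX] at c5
  have r1 : Reach ↑(C3 ∪ C1) (X, y) z1 := by
    refine a3.hit hl ?_ ?_ c5
    · unfold Qb inR
      simp only [eX, eY, add_mul, one_mul, Set.mem_ofPred_eq]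
      omega
    · right; left
      simp only [add_mul, eX]
      omega
  have r2 : Reach ↑(C3 ∪ C2) (X, y) z2 := by
    refine b3.hit hL ?_ ?_ c5
    · unfold Qb inR
      simp only [add_mul, one_mul, Set.mem_ofPred_eq, ← hX, ← hY]
      omega
    · right; left
      simp only [add_mul, ← hX]
      omega
  have s0 : C3 ⊆ C3 ∪ C1 ∪ C2 := by intro e he; simp only [Finset.mem_union]; tauto
  have s1 : C1 ⊆ C3 ∪ C1 ∪ C2 := by intro e he; simp only [Finset.mem_union]; tauto
  have s2 : C2 ⊆ C3 ∪ C1 ∪ C2 := by intro e he; simp only [Finset.mem_union]; tauto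
  have s3 : C3 ∪ C1 ⊆ C3 ∪ C1 ∪ C2 := Finset.subset_union_left
  have s4 : C3 ∪ C2 ⊆ C3 ∪ C1 ∪ C2 := Finset.union_subset s0 s2
  refine ⟨C3 ∪ C1 ∪ C2, ?_, ?_, z1, a3.mono s1, (b3.mono s2).base ?_⟩
  · have hbx : bx L (p, q) 1 = RE (X - L) (X + 2 * L) (Y - L) (Y + 2 * L) := by
      unfold bx; rw [hX, hY]; congr 1 <;> ring
    refine Finset.union_subset (Finset.union_subset ?_ ?_) b1
    · rw [hbx]
      exact c1.trans (RE_subset (by omega) (by omega) (by omega) (by omega))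
    · refine a1.trans ?_
      rw [hbx]
      have : bx l ((s:ℤ) * p, (s:ℤ) * q) 1 = RE (X - l) (X + 2 * l) (Y - l) (Y + 2 * l) := by
        unfold bx
        simp only
        rw [← eX, ← eY]
        congr 1 <;> ring
      rw [this]
      exact RE_subset (by omega) (by omega) (by omega) (by omega)
  · have g1 := card_union_sdiff (C3 ∪ C1) C2 G
    have g2 := card_union_sdiff C3 C1 G
    unfold hub
    simp only
    rw [← hLd]
    omega
  · exact (r2.symm.mono (by exact_mod_cast s4)).trans (r1.mono (by exact_mod_cast s3))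

/-- A path between large boxes gives a link of small boxes. -/
theorem LK_big {l : ℤ} (hl : 0 < l) {s : ℕ} (hs : 1 ≤ s) {S P : Finset Edg} (G : Finset Edg)
    {κ κ' u v : Vtx} (hP : P ⊆ S) (hS : bx (s * l) κ 1 ⊆ S) (hS' : bx (s * l) κ' 1 ⊆ S)
    (hab : 2 ≤ bdd κ κ') (hu : u ∈ Qb (s * l) κ) (hv : v ∈ Qb (s * l) κ') (hr : Reach ↑P u v) :
    LK l S G ((s:ℤ) * κ.1, (s:ℤ) * κ.2) ((s:ℤ) * κ'.1, (s:ℤ) * κ'.2)
      ((P \ G).card + hub l s κ G + hub l s κ' G) := by
  have hs' : (1:ℤ) ≤ s := by exact_mod_cast hs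
  have hL : 0 < (s:ℤ) * l := by positivity
  obtain ⟨C, h1, h2, z, h3, g3⟩ := hub_ex hl hs κ G
  obtain ⟨C', h1', h2', z', h3', g3'⟩ := hub_ex hl hs κ' G
  rw [le_bdd (by norm_num)] at hab
  have hu' := hu
  have hv' := hv
  obtain ⟨⟨u1, u2⟩, ⟨u3, u4⟩⟩ := hu'
  obtain ⟨⟨v1, v2⟩, ⟨v3, v4⟩⟩ := hv'
  have key : ∀ x y : ℤ, x + 2 ≤ y → (x + 2) * (s * l) ≤ y * (s * l) :=
    fun x y h => mul_le_mul_of_nonneg_right h hL.le
  have key' : ∀ x y : ℤ, x + 2 ≤ y → (x + 1) * (s * l) ≤ (y - 1) * (s * l) :=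
    fun x y h => mul_le_mul_of_nonneg_right (by omega) hL.le
  have r1 : Reach ↑(P ∪ C) u z := by
    refine g3.hit hL hu ?_ hr
    rcases hab with (h | h) | (h | h)
    · left; have := key' κ'.1 κ.1 (by omega); omega
    · right; left; have := key κ.1 κ'.1 (by omega); omega
    · right; right; left; have := key' κ'.2 κ.2 (by omega); omega
    · right; right; right; have := key κ.2 κ'.2 (by omega); omega
  have r2 : Reach ↑(P ∪ C') v z' := by
    refine g3'.hit hL hv ?_ hr.symm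
    rcases hab with (h | h) | (h | h)
    · right; left; have := key κ'.1 κ.1 (by omega); omega
    · left; have := key' κ.1 κ'.1 (by omega); omega
    · right; right; right; have := key κ'.2 κ.2 (by omega); omega
    · right; right; left; have := key' κ.2 κ'.2 (by omega); omega
  have s0 : P ⊆ P ∪ C ∪ C' := by intro e he; simp only [Finset.mem_union]; tauto
  have s1 : C ⊆ P ∪ C ∪ C' := by intro e he; simp only [Finset.mem_union]; tauto
  have s2 : C' ⊆ P ∪ C ∪ C' := by intro e he; simp only [Finset.mem_union]; tauto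
  have s3 : P ∪ C ⊆ P ∪ C ∪ C' := Finset.subset_union_left
  have s4 : P ∪ C' ⊆ P ∪ C ∪ C' := Finset.union_subset s0 s2
  refine ⟨P ∪ C ∪ C', Finset.union_subset (Finset.union_subset hP (h1.trans hS))
    (h1'.trans hS'), ?_, z, h3.mono s1, (h3'.mono s2).base ?_⟩
  · have g1 := card_union_sdiff (P ∪ C) C' G
    have g2 := card_union_sdiff P C G
    omega
  · exact (r2.symm.mono (by exact_mod_cast s4)).trans ((hr.symm.mono (by exact_mod_cast s0)).trans
      (r1.mono (by exact_mod_cast s3)))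

end Pool.Agent.Helper59_BN
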