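import Pool.Agent.H974R2.Lattice
import Pool.Agent.Helper59_BN.Defs

/-!
Local geometry: edges and faces around a vertex.
-/

namespace Pool.Agent.Helper59_BN

open H974

/-- The edge which leaves `v` in direction `k`. -/
def ed (v : Vtx) : Fin 4 → Edg
  | 0 => (v.1, v.2, true)
  | 1 => (v.1, v.2, false)
  | 2 => (v.1 - 1, v.2, true)
  | 3 => (v.1, v.2 - 1, false)

/-- The face between the directions `k` and `k + 1` at `v`. -/
def sec (v : Vtx) : Fin 4 → Vtx
  | 0 => (v.1, v.2)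
  | 1 => (v.1 - 1, v.2)
  | 2 => (v.1 - 1, v.2 - 1)
  | 3 => (v.1, v.2 - 1)

theorem dir_inj : Function.Injective dir := by
  intro a b h
  fin_cases a <;> fin_cases b <;> simp [dir] at h ⊢

theorem ed_opp (v : Vtx) (k : Fin 4) : ed (v + dir k) (k + 2) = ed v k := by
  obtain ⟨x, y⟩ := v
  fin_cases k <;> simp [ed, dir] <;> ring

theorem dir_opp (v : Vtx) (k : Fin 4) : v + dir k + dir (k + 2) = v := by
  obtain ⟨x, y⟩ := v
  fin_cases k <;> simp [dir]

theorem sec_opp (v : Vtx) (k : Fin 4) : sec (v + dir k) (k + 2) = sec v (k + 3) := by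
  obtain ⟨x, y⟩ := v
  fin_cases k <;> simp [sec, dir] <;> ring

theorem ed_ends (v : Vtx) (k : Fin 4) :
    (src (ed v k) = v ∧ tgt (ed v k) = v + dir k) ∨
      (src (ed v k) = v + dir k ∧ tgt (ed v k) = v) := by
  obtain ⟨x, y⟩ := v
  fin_cases k
  · left; simp [ed, dir]
  · left; simp [ed, dir]
  · right; simp [ed, dir]; ring
  · right; simp [ed, dir]; ring

theorem ed_faces (v : Vtx) (k : Fin 4) :
    (dsrc (ed v (k + 1)) = sec v k ∧ dtgt (ed v (k + 1)) = sec v (k + 1)) ∨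
      (dsrc (ed v (k + 1)) = sec v (k + 1) ∧ dtgt (ed v (k + 1)) = sec v k) := by
  obtain ⟨x, y⟩ := v
  fin_cases k <;> simp [ed, sec]

theorem adj_iff {F : Set Edg} {v w : Vtx} :
    Adj F v w ↔ ∃ k : Fin 4, w = v + dir k ∧ ed v k ∈ F := by
  constructor
  · rintro ⟨⟨x, y, b⟩, he, h⟩
    rcases h with ⟨h1, h2⟩ | ⟨h1, h2⟩
    · subst h1
      cases b
      · exact ⟨1, by rw [← h2]; simp [dir], by simpa [ed] using he⟩
      · exact ⟨0, by rw [← h2]; simp [dir], by simpa [ed] using he⟩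
    · cases b
      · refine ⟨3, ?_, ?_⟩
        · rw [← h1, ← h2]; simp [dir]
        · rw [← h2]; simpa [ed] using he
      · refine ⟨2, ?_, ?_⟩
        · rw [← h1, ← h2]; simp [dir]
        · rw [← h2]; simpa [ed] using he
  · rintro ⟨k, rfl, he⟩
    exact ⟨_, he, (ed_ends v k)⟩

theorem adj_dir {F : Set Edg} {v : Vtx} {k : Fin 4} : Adj F v (v + dir k) ↔ ed v k ∈ F := by
  rw [adj_iff]
  constructor
  · rintro ⟨k', h, he⟩
    have : dir k = dir k' := by simpa using h
    rwa [dir_inj this]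
  · intro h
    exact ⟨k, rfl, h⟩

theorem dadj_sec {F : Set Edg} {v : Vtx} {k : Fin 4} (h : ed v (k + 1) ∈ F) :
    DAdj F (sec v k) (sec v (k + 1)) := by
  rcases ed_faces v k with h1 | h1
  · exact ⟨_, h, Or.inl h1⟩
  · exact ⟨_, h, Or.inr h1⟩

theorem ofNat_succ (j : ℕ) : Fin.ofNat 4 (j + 1) = Fin.ofNat 4 j + 1 := by
  apply Fin.ext
  simp [Fin.val_add]

/-- Turning around a vertex. -/
theorem dreach_turn {F : Set Edg} {v : Vtx} {d : Fin 4} {j : ℕ} (hj : 0 < j)
    (h : ∀ k : ℕ, 0 < k → k < j → ed v (d + Fin.ofNat 4 k) ∈ F) :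
    DReach F (sec v d) (sec v (d + Fin.ofNat 4 j + 3)) := by
  induction j with
  | zero => omega
  | succ j ih =>
    rcases Nat.eq_zero_or_pos j with h0 | h0
    · subst h0
      have : d + Fin.ofNat 4 (0 + 1) + 3 = d := by
        clear ih h
        revert d
        decide
      rw [this]
      exact DReach.refl _ _
    · have h1 := ih h0 (fun k hk hkj => h k hk (by omega))
      have h2 := h j h0 (by omega)
      have h31 : (3 : Fin 4) + 1 = 0 := rfl
      have h13 : (1 : Fin 4) + 3 = 0 := rfl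
      have e1 : d + Fin.ofNat 4 j + 3 + 1 = d + Fin.ofNat 4 j := by
        rw [add_assoc, h31, add_zero]
      have e2 : d + Fin.ofNat 4 (j + 1) + 3 = d + Fin.ofNat 4 j + 3 + 1 := by
        rw [ofNat_succ, e1, ← add_assoc, add_assoc, h13, add_zero]
      rw [e2]
      exact h1.trans (DAdj.reach (dadj_sec (by rw [e1]; exact h2)))

theorem between_iff {v : Vtx} {d o : Fin 4} {w : Vtx} :
    Between v (v + dir d) (v + dir o) w ↔
      ∃ j k : ℕ, 0 < k ∧ k < j ∧ j ≤ 4 ∧ o = d + Fin.ofNat 4 j ∧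
        w = v + dir (d + Fin.ofNat 4 k) := by
  constructor
  · rintro ⟨d', j, k, h1, h2, h3, h4, h5, h6⟩
    have hd : d = d' := dir_inj (by simpa using h4)
    subst hd
    have ho : o = d + Fin.ofNat 4 j := dir_inj (by simpa using h5)
    exact ⟨j, k, h1, h2, h3, ho, h6⟩
  · rintro ⟨j, k, h1, h2, h3, h4, h5⟩
    exact ⟨d, j, k, h1, h2, h3, rfl, by rw [h4], h5⟩

theorem exists_turn (d o : Fin 4) : ∃ j : ℕ, 0 < j ∧ j ≤ 4 ∧ o = d + Fin.ofNat 4 j := by
  refine ⟨if o = d then 4 else (o - d).val, ?_⟩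
  revert d o
  decide

end Pool.Agent.Helper59_BN
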