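import Pool.Agent.Helper59_BN.Local

/-!
The right boundary of a right-most path carries a dual path: the boundary cost dominates a passage
time.
-/

namespace Pool.Agent.Helper59_BN

open H974

/-- Dual paths which cross edges of `A` for free and edges of `B` at cost one. -/
inductive DC (A B : Set Edg) (f : Vtx) : Vtx → ℕ → Prop
  | refl : DC A B f f 0
  | free {g h : Vtx} {k : ℕ} : DC A B f g k → DAdj A g h → DC A B f h k
  | pay {g h : Vtx} {k : ℕ} : DC A B f g k → DAdj B g h → DC A B f h (k + 1)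

theorem DC.mono {A B A' B' : Set Edg} (hA : A ⊆ A') (hB : B ⊆ B') {f g : Vtx} {k : ℕ}
    (h : DC A B f g k) : DC A' B' f g k := by
  induction h with
  | refl => exact DC.refl
  | free _ h ih => exact DC.free ih (h.mono hA)
  | pay _ h ih => exact DC.pay ih (h.mono hB)

theorem DC.trans {A B : Set Edg} {f g h : Vtx} {k l : ℕ} (h1 : DC A B f g k)
    (h2 : DC A B g h l) : DC A B f h (k + l) := by
  induction h2 with
  | refl => exact h1
  | free _ h ih => exact DC.free ih h
  | pay _ h ih => exact DC.pay ih h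

theorem DC.of_dreach {A B : Set Edg} {f g : Vtx} (h : DReach A f g) : DC A B f g 0 := by
  induction h with
  | refl => exact DC.refl
  | tail _ hs ih => exact DC.free ih hs

theorem DC.symm {A B : Set Edg} {f g : Vtx} {k : ℕ} (h : DC A B f g k) : DC A B g f k := by
  induction h with
  | refl => exact DC.refl
  | free _ hs ih =>
    have := (DC.free (B := B) DC.refl hs.symm).trans ih
    simpa using this
  | pay _ hs ih =>
    have := (DC.pay (A := A) DC.refl hs.symm).trans ih
    rwa [zero_add, add_comm] at this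

/-- A dual path through `A ∪ B`. -/
theorem DC.dreach {A B : Set Edg} {f g : Vtx} {k : ℕ} (h : DC A B f g k) :
    DReach (A ∪ B) f g := by
  induction h with
  | refl => exact DReach.refl _ _
  | free _ hs ih => exact ih.trans (hs.mono Set.subset_union_left).reach
  | pay _ hs ih => exact ih.trans (hs.mono Set.subset_union_right).reach

theorem DC.exists_of_dreach {A B : Set Edg} {f g : Vtx} (h : DReach (A ∪ B) f g) :
    ∃ k, DC A B f g k := by
  induction h with
  | refl => exact ⟨0, DC.refl⟩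
  | tail _ hs ih =>
    obtain ⟨k, ih⟩ := ih
    obtain ⟨e, he, hc⟩ := hs
    rcases he with he | he
    · exact ⟨k, DC.free ih ⟨e, he, hc⟩⟩
    · exact ⟨k + 1, DC.pay ih ⟨e, he, hc⟩⟩

/-- The passage time. -/
noncomputable def tim (A B : Set Edg) (f g : Vtx) : ℕ := sInf {k | DC A B f g k}

theorem tim_le {A B : Set Edg} {f g : Vtx} {k : ℕ} (h : DC A B f g k) : tim A B f g ≤ k :=
  Nat.sInf_le h

theorem tim_spec {A B : Set Edg} {f g : Vtx} (h : DReach (A ∪ B) f g) :
    DC A B f g (tim A B f g) :=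
  Nat.sInf_mem (s := {k | DC A B f g k}) (DC.exists_of_dreach h)

theorem tim_spec' {A B : Set Edg} {f g : Vtx} {k : ℕ} (h : DC A B f g k) :
    DC A B f g (tim A B f g) :=
  Nat.sInf_mem (s := {k | DC A B f g k}) ⟨k, h⟩

theorem tim_self (A B : Set Edg) (f : Vtx) : tim A B f f = 0 :=
  Nat.le_zero.mp (tim_le DC.refl)

/-- A dual path crosses at least `tim` different edges of `B`. -/
theorem tim_le_ncard {A B G : Set Edg} (hG : G ⊆ A ∪ B) (hfin : (G ∩ B).Finite) {f g : Vtx}
    (h : DReach G f g) : tim A B f g ≤ (G ∩ B).ncard := by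
  classical
  -- for every `j < tim` there is an edge of `G ∩ B` between the levels `j` and `j + 1`
  have key : ∀ j < tim A B f g, ∃ e ∈ G ∩ B,
      (tim A B f (dsrc e) = j ∧ tim A B f (dtgt e) = j + 1) ∨
        (tim A B f (dtgt e) = j ∧ tim A B f (dsrc e) = j + 1) := by
    intro j hj
    have hgen : ∀ w, DReach G f w → DC A B f w (tim A B f w) ∧ (j < tim A B f w →
        ∃ e ∈ G ∩ B, (tim A B f (dsrc e) = j ∧ tim A B f (dtgt e) = j + 1) ∨
        (tim A B f (dtgt e) = j ∧ tim A B f (dsrc e) = j + 1)) := by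
      intro w hw
      induction hw with
      | refl => exact ⟨by rw [tim_self]; exact DC.refl, by rw [tim_self]; omega⟩
      | @tail w w' _ hs ih =>
        obtain ⟨ih1, ih2⟩ := ih
        obtain ⟨e, he, hc⟩ := hs
        have hd : DAdj G w w' := ⟨e, he, hc⟩
        rcases hG he with hA | hB
        · have h1 : tim A B f w' ≤ tim A B f w := tim_le (DC.free ih1 ⟨e, hA, hc⟩)
          exact ⟨tim_spec' (DC.free ih1 ⟨e, hA, hc⟩), fun h2 => ih2 (by omega)⟩
        · have h1 : tim A B f w' ≤ tim A B f w + 1 := tim_le (DC.pay ih1 ⟨e, hB, hc⟩)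
          refine ⟨tim_spec' (DC.pay ih1 ⟨e, hB, hc⟩), fun h2 => ?_⟩
          by_cases h3 : j < tim A B f w
          · exact ih2 h3
          · refine ⟨e, ⟨he, hB⟩, ?_⟩
            rcases hc with ⟨h4, h5⟩ | ⟨h4, h5⟩
            · left; rw [h4, h5]; omega
            · right; rw [h4, h5]; omega
    exact (hgen g h).2 hj
  choose! e he1 he2 using key
  have hinj : Set.InjOn e (↑(Finset.range (tim A B f g)) : Set ℕ) := by
    intro i hi j hj hij
    rw [Finset.coe_range, Set.mem_Iio] at hi hj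
    have h1 := he2 i hi
    have h2 := he2 j hj
    rw [hij] at h1
    omega
  calc tim A B f g = (Finset.range (tim A B f g)).card := by simp
    _ = ((Finset.range (tim A B f g)).image e).card := (Finset.card_image_of_injOn hinj).symm
    _ = (↑((Finset.range (tim A B f g)).image e) : Set Edg).ncard := by
        rw [Set.ncard_coe_finset]
    _ ≤ (G ∩ B).ncard := by
        apply Set.ncard_le_ncard _ hfin
        intro x hx
        rw [Finset.coe_image, Set.mem_image] at hx
        obtain ⟨j, hj, rfl⟩ := hx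
        exact he1 j (by simpa using hj)

/-- The directions of a path. -/
theorem exists_dirs {F : Set Edg} {x : ℕ → Vtx} {n : ℕ} (h : OpenPath (Adj F) x n) :
    ∃ o : ℕ → Fin 4, ∀ i < n, x (i + 1) = x i + dir (o i) ∧ ed (x i) (o i) ∈ F := by
  have : ∀ i, ∃ k : Fin 4, i < n → x (i + 1) = x i + dir k ∧ ed (x i) k ∈ F := by
    intro i
    by_cases hi : i < n
    · obtain ⟨k, h1, h2⟩ := adj_iff.mp (h i hi)
      exact ⟨k, fun _ => ⟨h1, h2⟩⟩
    · exact ⟨0, fun h => absurd h hi⟩
  choose o ho using this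
  exact ⟨o, fun i hi => ho i hi⟩

/-- The edges of the right boundary. -/
def rbe (x : ℕ → Vtx) (n : ℕ) : Set Edg :=
  {e | (src e, tgt e) ∈ rbd x n ∨ (tgt e, src e) ∈ rbd x n}

theorem ed_mem_rbe {x : ℕ → Vtx} {n : ℕ} {v : Vtx} {k : Fin 4}
    (h : (v, v + dir k) ∈ rbd x n) : ed v k ∈ rbe x n := by
  rcases ed_ends v k with ⟨h1, h2⟩ | ⟨h1, h2⟩
  · left; rw [h1, h2]; exact h
  · right; rw [h1, h2]; exact h

theorem back_dir {x : ℕ → Vtx} {o : ℕ → Fin 4} {i : ℕ} (h : x (i + 1) = x i + dir (o i)) :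
    x i = x (i + 1) + dir (o i + 2) := by
  rw [h, dir_opp]

/-- The dual path along the right side of a path. -/
theorem rbd_dreach {x : ℕ → Vtx} {o : ℕ → Fin 4} {n : ℕ}
    (h : ∀ i < n, x (i + 1) = x i + dir (o i)) :
    ∀ i < n, DReach (rbe x n) (sec (x 0) (o 0 + 3)) (sec (x i) (o i + 3)) := by
  intro i
  induction i with
  | zero => intro _; exact DReach.refl _ _
  | succ i ih =>
    intro hi
    have h1 := ih (by omega)
    have h2 := h i (by omega)
    have h3 := h (i + 1) hi
    rw [← sec_opp (x i) (o i), ← h2] at h1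
    obtain ⟨j, hj1, hj2, hj3⟩ := exists_turn (o i + 2) (o (i + 1))
    have h4 : DReach (rbe x n) (sec (x (i + 1)) (o i + 2))
        (sec (x (i + 1)) (o i + 2 + Fin.ofNat 4 j + 3)) := by
      apply dreach_turn hj1
      intro k hk1 hk2
      apply ed_mem_rbe
      refine ⟨i + 1, by omega, hi, rfl, ?_⟩
      have e1 : i + 1 - 1 = i := by omega
      rw [e1]
      have h5 : Between (x (i + 1)) (x (i + 1) + dir (o i + 2)) (x (i + 1) + dir (o (i + 1)))
          (x (i + 1) + dir (o i + 2 + Fin.ofNat 4 k)) :=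
        between_iff.mpr ⟨j, k, hk1, hk2, hj2, hj3, rfl⟩
      rw [← back_dir h2, ← h3] at h5
      exact h5
    rw [← hj3] at h4
    exact h1.trans h4

theorem rbd_finite (x : ℕ → Vtx) (n : ℕ) : (rbd x n).Finite := by
  have h1 : ((Finset.range n ×ˢ (Finset.univ : Finset (Fin 4))).image
      (fun p => (x p.1, x p.1 + dir p.2)) : Set (Vtx × Vtx)).Finite := Finset.finite_toSet _
  refine h1.subset ?_
  rintro ⟨v, w⟩ ⟨i, hi1, hi2, hv, d, j, k, -, -, -, -, -, hw⟩
  simp only at hv hw
  rw [Finset.coe_image, Set.mem_image]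
  refine ⟨(i, d + Fin.ofNat 4 k), by simp [hi2], ?_⟩
  simp only [hv, hw]

theorem rbe_inter_ncard_le {F : Set Edg} (x : ℕ → Vtx) (n : ℕ) :
    (rbe x n ∩ F).Finite ∧ (rbe x n ∩ F).ncard ≤ bcost (Adj F) x n := by
  classical
  have hfin : {e | e ∈ rbd x n ∧ Adj F e.1 e.2}.Finite := (rbd_finite x n).subset (fun _ h => h.1)
  set g : Edg → Vtx × Vtx := fun e =>
    if (src e, tgt e) ∈ rbd x n then (src e, tgt e) else (tgt e, src e) with hg
  have hmaps : ∀ e ∈ rbe x n ∩ F, g e ∈ {e | e ∈ rbd x n ∧ Adj F e.1 e.2} := by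
    rintro e ⟨h1, h2⟩
    by_cases hc : (src e, tgt e) ∈ rbd x n
    · simp only [hg, if_pos hc]
      exact ⟨hc, e, h2, Or.inl ⟨rfl, rfl⟩⟩
    · simp only [hg, if_neg hc]
      rcases h1 with h1 | h1
      · exact absurd h1 hc
      · exact ⟨h1, e, h2, Or.inr ⟨rfl, rfl⟩⟩
  have hinj : Set.InjOn g (rbe x n ∩ F) := by
    have hE : ∀ e e' : Edg, (src e = src e' ∧ tgt e = tgt e') ∨ (src e = tgt e' ∧ tgt e = src e') →
        e = e' := by
      rintro ⟨a, b, c⟩ ⟨a', b', c'⟩ h
      cases c <;> cases c' <;> simp only [src_mk, tgt_true, tgt_false, Prod.mk.injEq, and_true,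
        reduceCtorEq, and_false] at h ⊢ <;> omega
    rintro e - e' - hee
    apply hE
    simp only [hg] at hee
    by_cases h1 : (src e, tgt e) ∈ rbd x n <;> by_cases h2 : (src e', tgt e') ∈ rbd x n
    · rw [if_pos h1, if_pos h2] at hee
      left; exact ⟨congrArg Prod.fst hee, congrArg Prod.snd hee⟩
    · rw [if_pos h1, if_neg h2] at hee
      right; exact ⟨congrArg Prod.fst hee, congrArg Prod.snd hee⟩
    · rw [if_neg h1, if_pos h2] at hee
      right; exact ⟨congrArg Prod.snd hee, congrArg Prod.fst hee⟩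
    · rw [if_neg h1, if_neg h2] at hee
      left; exact ⟨congrArg Prod.snd hee, congrArg Prod.fst hee⟩
  refine ⟨Set.Finite.of_injOn hmaps hinj hfin, ?_⟩
  exact Set.ncard_le_ncard_of_injOn g hmaps hinj hfin

/-- Lower bound of the boundary cost of a path. -/
theorem tim_le_bcost {F : Set Edg} {x : ℕ → Vtx} {n : ℕ} (hn : 0 < n)
    (h : OpenPath (Adj F) x n) : ∃ a b : Fin 4,
      tim Fᶜ F (sec (x 0) a) (sec (x (n - 1)) b) ≤ bcost (Adj F) x n := by
  obtain ⟨o, ho⟩ := exists_dirs h
  refine ⟨o 0 + 3, o (n - 1) + 3, ?_⟩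
  have h1 := rbd_dreach (fun i hi => (ho i hi).1) (n - 1) (by omega)
  have h2 := rbe_inter_ncard_le (F := F) x n
  refine le_trans (tim_le_ncard (G := rbe x n) ?_ h2.1 h1) h2.2
  intro e _
  by_cases he : e ∈ F
  · exact Or.inr he
  · exact Or.inl he

end Pool.Agent.Helper59_BN
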