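import Pool.Agent.Helper59_BN.Counts

/-!
The deterministic part of the lower bound: from a chain with few bad blocks to the cost.
-/

namespace Pool.Agent.Helper59_BN

open H974

theorem EL_flr {q δ : ℝ} (h0 : 0 ≤ q) (h1 : q ≤ 1) {l : ℤ} (hl : 0 < l) (hδ : 0 < δ)
    (hδ1 : δ ≤ 1) (hh1 : δ ≤ hh q (3 * l) l) {x : ℝ × ℝ} (hx : ‖x‖ = 1) {M K : ℕ} (hM : 1 ≤ M) :
    EL q l (((K + 3) * M : ℕ)) (flr x M) ≤ 9 * V0 δ * M := by
  have hV := V0_pos hδ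
  have hb := flr_bound x M
  rw [hx, mul_one] at hb
  have hMr : (1:ℝ) ≤ M := by exact_mod_cast hM
  have hby : bdd 0 (flr x M) ≤ ((M + 1 : ℕ) : ℤ) := by
    unfold bdd
    simp only [Prod.fst_zero, Prod.snd_zero, zero_sub, abs_neg]
    apply max_le
    · have : |(((flr x M).1 : ℤ) : ℝ)| ≤ ((M + 1 : ℕ) : ℝ) := by push_cast; exact hb.1
      exact_mod_cast this
    · have : |(((flr x M).2 : ℤ) : ℝ)| ≤ ((M + 1 : ℕ) : ℝ) := by push_cast; exact hb.2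
      exact_mod_cast this
  refine (EL_le h0 h1 hl hδ hδ1 hh1 hby (r := (((K + 3) * M : ℕ))) ?_).trans ?_
  · have : M + 1 + 1 ≤ (K + 3) * M := by nlinarith
    exact_mod_cast this
  · push_cast
    have : 4 * ((M:ℝ) + 1) + 1 ≤ 9 * M := by linarith
    calc (4 * ((M:ℝ) + 1) + 1) * V0 δ ≤ (9 * M) * V0 δ := mul_le_mul_of_nonneg_right this hV.le
      _ = _ := by ring

theorem lower_det {q δ : ℝ} (h0 : 0 ≤ q) (h1 : q ≤ 1) {l : ℤ} (hl : 0 < l) (hδ : 0 < δ)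
    (hδ1 : δ ≤ 1) (hh1 : δ ≤ hh q (3 * l) l) {R s D T m K M J k : ℕ} (hR : 1 ≤ R) (hs : 1 ≤ s)
    (hT : 1 ≤ T) {κ : ℕ → Vtx} {ν θ ε c0 : ℝ} (hν : 0 < ν) (hθ : 0 ≤ θ) (hθ1 : θ ≤ 1) (hε : 0 < ε)
    (hc0 : 0 < c0) {x : ℝ × ℝ} (hx : ‖x‖ = 1)
    (hlow : ∀ w ∈ ring R, c0 * (R * s) ≤ EL q l (((R + 3) * s : ℕ)) (sm s w))
    (hJ : J ≤ T * m) (hκ : ∀ j < J, bdd (κ j) (κ (j + 1)) = R)
    (hsum : ∑ j ∈ Finset.range J, (EL q l (((R + 3) * s : ℕ)) (sm s (κ (j + 1) - κ j)) - D * s) -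
            ((2 * R + 4) ^ 2 * m : ℕ) * (5 * R * s * V0 δ) ≤ k)
    (hm1 : 36 * V0 δ * ν ≤ c0 * (T * m * (R * s))) (hm2 : T * m * ((R:ℝ) * s) ≤ K * ν)
    (hR1 : 2 * (D:ℝ) ≤ c0 * R) (hR2 : 4 * (K:ℝ) * D ≤ ε * R)
    (hT1 : 20 * V0 δ * (2 * R + 4) ^ 2 ≤ c0 * T) (hT2 : 20 * V0 δ * (2 * R + 4) ^ 2 * K ≤ ε * T)
    (hend : J = T * m ∨ (|(s:ℝ) * ((κ J).1 - (κ 0).1) - ν * x.1| ≤ θ * ν ∧
      |(s:ℝ) * ((κ J).2 - (κ 0).2) - ν * x.2| ≤ θ * ν))
    (hM : (2 * R + 1) ^ 2 * (s * R) + (R + 3) * s + 3 ≤ M)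
    (hM2 : 4 * V0 δ * (4 * ((2 * R + 1) ^ 2 * (s * R) + 2) + 2) ≤ ε * M)
    (hθ2 : 16 * V0 δ * θ ≤ ε) :
    ν * (EL q l (((K + 3) * M : ℕ)) (flr x M) / M - ε) ≤ k := by
  have hV := V0_pos hδ
  have hRr : (1:ℝ) ≤ R := by exact_mod_cast hR
  have hsr : (1:ℝ) ≤ s := by exact_mod_cast hs
  have hTr : (1:ℝ) ≤ T := by exact_mod_cast hT
  have hM1 : 1 ≤ M := by omega
  have hMr : (1:ℝ) ≤ M := by exact_mod_cast hM1
  have hm0 : (0:ℝ) ≤ m := Nat.cast_nonneg _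
  obtain ⟨A, hA⟩ : ∃ A : ℝ, A = T * m * ((R:ℝ) * s) := ⟨_, rfl⟩
  have hA0 : 0 ≤ A := by rw [hA]; positivity
  obtain ⟨c, hc⟩ : ∃ c : ℝ, c = (2 * (R:ℝ) + 4) ^ 2 := ⟨_, rfl⟩
  have hc1 : 0 < c := by rw [hc]; positivity
  rw [← hA] at hm1 hm2
  rw [← hc] at hT1 hT2
  -- the loss from the bad blocks
  have hbad : (((2 * R + 4) ^ 2 * m : ℕ) : ℝ) * (5 * R * s * V0 δ) = 5 * V0 δ * c / T * A := by
    rw [hA, hc]
    push_cast
    field_simp
  rw [hbad] at hsum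
  have hb1 : 5 * V0 δ * c / T ≤ c0 / 4 := by
    rw [div_le_iff₀ (by positivity)]
    linarith
  have hb2 : 5 * V0 δ * c / T * K ≤ ε / 4 := by
    rw [div_mul_eq_mul_div, div_le_iff₀ (by positivity)]
    linarith
  have hEM := EL_flr h0 h1 hl hδ hδ1 hh1 hx (K := K) hM1
  have hEM' : EL q l (((K + 3) * M : ℕ)) (flr x M) / M ≤ 9 * V0 δ := by
    rw [div_le_iff₀ (by positivity)]
    exact hEM
  rcases hend with hend | hend
  · -- a long chain
    have h2 : (J:ℝ) * (c0 * (R * s) - D * s) ≤ ∑ j ∈ Finset.range J,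
        (EL q l (((R + 3) * s : ℕ)) (sm s (κ (j + 1) - κ j)) - D * s) := by
      have h3 : ∑ j ∈ Finset.range J, (c0 * ((R:ℝ) * s) - D * s) ≤ ∑ j ∈ Finset.range J,
          (EL q l (((R + 3) * s : ℕ)) (sm s (κ (j + 1) - κ j)) - D * s) := by
        apply Finset.sum_le_sum
        intro j hj
        rw [Finset.mem_range] at hj
        have hw : κ (j + 1) - κ j ∈ ring R := by
          rw [mem_ring, ← hκ j hj]
          unfold bdd
          simp only [Prod.fst_zero, Prod.snd_zero, Prod.fst_sub, Prod.snd_sub]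
          congr 2 <;> ring
        have := hlow _ hw
        linarith
      rwa [Finset.sum_const, Finset.card_range, nsmul_eq_mul] at h3
    have h3 : (J:ℝ) * (c0 * (R * s) - D * s) ≥ c0 / 2 * A := by
      have hJr : (J:ℝ) = T * m := by rw [hend]; push_cast; ring
      rw [hJr, hA]
      have h4 : c0 * (R * s) - D * s ≥ c0 / 2 * (R * s) := by
        have h5 := mul_le_mul_of_nonneg_right hR1 (show (0:ℝ) ≤ s by positivity)
        linarith
      calc (T:ℝ) * m * (c0 * (R * s) - D * s) ≥ T * m * (c0 / 2 * (R * s)) :=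
            mul_le_mul_of_nonneg_left h4 (by positivity)
        _ = _ := by ring
    have h4 : 5 * V0 δ * c / T * A ≤ c0 / 4 * A := mul_le_mul_of_nonneg_right hb1 hA0
    have h5 : c0 / 4 * A ≤ k := by linarith
    have h6 : ν * (EL q l (((K + 3) * M : ℕ)) (flr x M) / M - ε) ≤ ν * (9 * V0 δ) :=
      mul_le_mul_of_nonneg_left (by linarith) hν.le
    linarith
  · -- a complete chain
    have hJr : (J:ℝ) ≤ T * m := by exact_mod_cast hJ
    have hJA : (J:ℝ) * (R * s) ≤ A := by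
      rw [hA]; exact mul_le_mul_of_nonneg_right hJr (by positivity)
    have hcnt := counts h0 h1 hl hδ hδ1 hh1 hR hs hκ hν hθ hθ1 hend.1 hend.2
      (hJA.trans hm2) hM
    rw [Finset.sum_sub_distrib, Finset.sum_const, Finset.card_range, nsmul_eq_mul] at hsum
    obtain ⟨SS, hSS⟩ : ∃ SS : ℝ, SS = ∑ j ∈ Finset.range J, EL q l (((R + 3) * s : ℕ))
      (sm s (κ (j + 1) - κ j)) := ⟨_, rfl⟩
    rw [← hSS] at hsum hcnt
    obtain ⟨E, hE⟩ : ∃ E : ℝ, E = EL q l (((K + 3) * M : ℕ)) (flr x M) := ⟨_, rfl⟩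
    rw [← hE] at hcnt ⊢
    -- the loss from the deviations
    have h2 : (J:ℝ) * (D * s) ≤ ε / 4 * ν := by
      have h3 : (J:ℝ) * s * R ≤ K * ν := by linarith
      have h4 : (J:ℝ) * (D * s) * R ≤ D * (K * ν) := by
        calc (J:ℝ) * (D * s) * R = D * (J * s * R) := by ring
          _ ≤ _ := mul_le_mul_of_nonneg_left h3 (Nat.cast_nonneg _)
      have h5 : (D:ℝ) * (K * ν) ≤ ε / 4 * ν * R := by
        calc (D:ℝ) * (K * ν) = (4 * (K:ℝ) * D) * (ν / 4) := by ring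
          _ ≤ (ε * R) * (ν / 4) := mul_le_mul_of_nonneg_right hR2 (by positivity)
          _ = _ := by ring
      have h6 : (J:ℝ) * (D * s) * R ≤ ε / 4 * ν * R := h4.trans h5
      exact le_of_mul_le_mul_right h6 (by linarith)
    have h3 : 5 * V0 δ * c / T * A ≤ ε / 4 * ν := by
      calc 5 * V0 δ * c / T * A ≤ 5 * V0 δ * c / T * (K * ν) :=
            mul_le_mul_of_nonneg_left hm2 (by positivity)
        _ = (5 * V0 δ * c / T * K) * ν := by ring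
        _ ≤ _ := mul_le_mul_of_nonneg_right hb2 hν.le
    have h4 : ν * (E / M) ≤ SS + ν * (V0 δ * (4 * ((2 * R + 1) ^ 2 * (s * R) + θ * M + 2) + 2)) / M := by
      rw [← mul_div_assoc, div_le_iff₀ (by positivity), add_mul, div_mul_cancel₀ _ (by positivity)]
      have h5 := mul_le_mul_of_nonneg_left hcnt hν.le
      have e1 : ν * (M / ν * SS + V0 δ * (4 * ((2 * R + 1) ^ 2 * (s * R) + θ * M + 2) + 2)) =
          SS * M + ν * (V0 δ * (4 * ((2 * R + 1) ^ 2 * (s * R) + θ * M + 2) + 2)) := by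
        field_simp
      rwa [e1] at h5
    have h5 : ν * (V0 δ * (4 * ((2 * R + 1) ^ 2 * (s * R) + θ * M + 2) + 2)) / M ≤
        ε / 2 * ν := by
      rw [div_le_iff₀ (by positivity)]
      have h6 : V0 δ * (4 * ((2 * R + 1) ^ 2 * (s * R) + θ * M + 2) + 2) =
          V0 δ * (4 * ((2 * R + 1) ^ 2 * (s * R) + 2) + 2) + 4 * V0 δ * θ * M := by ring
      have h7 : 4 * V0 δ * θ * M ≤ ε / 4 * M :=
        mul_le_mul_of_nonneg_right (by linarith) (by positivity)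
      rw [h6]
      have h8 : 4 * (V0 δ * (4 * ((2 * R + 1) ^ 2 * (s * R) + 2) + 2)) ≤ ε * M := by
        calc 4 * (V0 δ * (4 * ((2 * R + 1) ^ 2 * (s * R) + 2) + 2)) =
            4 * V0 δ * (4 * ((2 * R + 1) ^ 2 * (s * R) + 2) + 2) := by ring
          _ ≤ _ := hM2
      have h9 : V0 δ * (4 * ((2 * R + 1) ^ 2 * (s * R) + 2) + 2) + 4 * V0 δ * θ * M ≤
          ε / 2 * M := by linarith
      calc ν * (V0 δ * (4 * ((2 * R + 1) ^ 2 * (s * R) + 2) + 2) + 4 * V0 δ * θ * M) ≤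
          ν * (ε / 2 * M) := mul_le_mul_of_nonneg_left h9 hν.le
        _ = _ := by ring
    have h6 : ν * (E / M - ε) = ν * (E / M) - ν * ε := by ring
    rw [h6]
    linarith

end Pool.Agent.Helper59_BN
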