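import Pool.Agent.Helper59_BN.Conc
import Pool.Agent.Helper59_BN.Lower

/-!
A lower bound of the mean link cost; the tail of the cost of hubs.
-/

namespace Pool.Agent.Helper59_BN

open H974

theorem dl_image (G : Finset Edg) : dl '' (dl.symm '' (↑G : Set Edg)) = ↑G := by
  rw [Set.image_image]; simp

/-- A path in a set of edges gives a dual path whose cost is the number of edges outside `G`. -/
theorem dc_of_reach {C G : Finset Edg} {u v : Vtx} (h : Reach ↑C u v) :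
    ∃ k, DC (dl.symm '' (↑G : Set Edg)) (dl.symm '' (↑G : Set Edg))ᶜ u v k ∧
      k ≤ (C \ G).card := by
  rw [← dl_image C, reach_dl] at h
  have h1 : (dl.symm '' (↑C : Set Edg)) ⊆ (dl.symm '' (↑G : Set Edg)) ∪
      (dl.symm '' (↑G : Set Edg))ᶜ := by rw [Set.union_compl_self]; exact Set.subset_univ _
  have h2 := tim_le_ncard h1 (((Finset.finite_toSet C).image _).subset Set.inter_subset_left) h
  refine ⟨_, tim_spec (h.mono h1), h2.trans ?_⟩
  have h3 : (dl.symm '' (↑C : Set Edg)) ∩ (dl.symm '' (↑G : Set Edg))ᶜ =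
      dl.symm '' (↑(C \ G) : Set Edg) := by
    rw [← Set.image_compl_eq dl.symm.bijective, ← Set.image_inter dl.symm.injective,
      Finset.coe_sdiff, Set.sdiff_eq]
  rw [h3, Set.ncard_image_of_injective _ dl.symm.injective, Set.ncard_coe_finset]

theorem peierls_fin {s : ℤ} (hs : 1 ≤ s) (m : ℕ) (KK : Finset Vtx) (S : Finset Edg) :
    ∃ U : Finset Edg, S ⊆ U ∧ ∀ q ε : ℝ, 0 ≤ q → q ≤ 1 → 0 ≤ ε → 4 * hh q s (3 * s - 1) ≤ ε →
      Pr (fun _ => q) U (fun G => ∃ (C : Finset Edg) (u v : Vtx), blk s u ∈ KK ∧ Reach ↑C u v ∧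
        36 * (m:ℤ) ≤ bdd (blk s v) (blk s u) ∧ (C \ G).card < 9 * m) ≤
        (KK.card : ℝ) * (9 * ((50 ^ 18) * ε) ^ m) := by
  classical
  have hch := fun k0 : Vtx => chains_card k0 (18 * m)
  choose I hI hI' using hch
  obtain ⟨U, hU⟩ : ∃ U : Finset Edg, U = S ∪ KK.biUnion (fun k0 => (I k0).biUnion (fun κ =>
      (Finset.range (18 * m)).biUnion (fun j => NE s (κ j)))) := ⟨_, rfl⟩
  have hTN : ∀ k0 ∈ KK, ∀ κ ∈ I k0, ∀ j < 18 * m, NE s (κ j) ⊆ U := by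
    intro k0 hk0 κ hκ j hj e he
    rw [hU, Finset.mem_union]
    right
    rw [Finset.mem_biUnion]
    refine ⟨k0, hk0, ?_⟩
    rw [Finset.mem_biUnion]
    refine ⟨κ, hκ, ?_⟩
    rw [Finset.mem_biUnion]
    exact ⟨j, Finset.mem_range.mpr hj, he⟩
  refine ⟨U, by rw [hU]; exact Finset.subset_union_left, ?_⟩
  intro q ε h0 h1 hε hb
  have hev : Pr (fun _ => q) U (fun G => ∃ (C : Finset Edg) (u v : Vtx), blk s u ∈ KK ∧
      Reach ↑C u v ∧ 36 * (m:ℤ) ≤ bdd (blk s v) (blk s u) ∧ (C \ G).card < 9 * m) ≤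
      Pr (fun _ => q) U (fun G => ∃ k0 ∈ KK, ∃ κ ∈ I k0,
        (∀ j j', j < j' → j' < 18 * m → 2 ≤ bdd (κ j) (κ j')) ∧ FewGood s m κ G) := by
    apply Pr_mono (okq h0 h1)
    rintro G _ ⟨C, u, v, hu, hr, hfar, hc⟩
    obtain ⟨n, hd, hn⟩ := dc_of_reach (G := G) hr
    refine ⟨blk s u, hu, ?_⟩
    obtain ⟨y, t, l, h1, h2, h3, h4, h5⟩ := exists_trace hd
    obtain ⟨κ, k1, k2, k3, -, k5⟩ := chain_ex hs h1 (18 * m) 0 (by omega)
      (by rw [h2, h3]; push_cast; omega)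
    obtain ⟨κ', hκ', hκ''⟩ := hI' (blk s u) κ (by rw [k1, h2]) k2
    refine ⟨κ', hκ', ?_, ?_⟩
    · intro j j' hjj hj'
      rw [hκ'' j (by omega), hκ'' j' (by omega)]
      exact k3 j j' hjj (by omega)
    · have c1 : ((Finset.range (18 * m)).filter (fun j => ¬ Bd (dl.symm '' (↑G : Set Edg)) s
          (κ j))).card < 9 * m := by
        rw [h4, h5] at k5
        omega
      have c2 := Finset.card_filter_add_card_filter_not (s := Finset.range (18 * m))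
        (fun j => Bd (dl.symm '' (↑G : Set Edg)) s (κ j))
      rw [Finset.card_range] at c2
      obtain ⟨J, hJ, hJc⟩ := Finset.exists_subset_card_eq
        (show 9 * m ≤ ((Finset.range (18 * m)).filter (fun j =>
          Bd (dl.symm '' (↑G : Set Edg)) s (κ j))).card by omega)
      refine ⟨J, Finset.mem_powersetCard.mpr ⟨hJ.trans (Finset.filter_subset _ _), hJc⟩, ?_⟩
      intro j hj
      have h6 := Finset.mem_filter.mp (hJ hj)
      have hj18 := Finset.mem_range.mp h6.1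
      rw [hκ'' j (by omega)]
      refine BE_of_Bd hs h6.2 ?_
      rw [dl_image]
      exact Set.inter_subset_left
  refine hev.trans ((Pr_exists_le h0 h1 U KK _).trans ?_)
  have h50 : (50:ℝ) ^ 18 = 25 ^ 18 * 2 ^ 18 := by norm_num
  have hone : ∀ k0 ∈ KK, Pr (fun _ => q) U (fun G => ∃ κ ∈ I k0,
      (∀ j j', j < j' → j' < 18 * m → 2 ≤ bdd (κ j) (κ j')) ∧ FewGood s m κ G) ≤
      9 * ((50 ^ 18) * ε) ^ m := by
    intro k0 hk0
    refine (Pr_exists_le h0 h1 U (I k0) _).trans ?_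
    have htwo : ∀ κ ∈ I k0, Pr (fun _ => q) U (fun G =>
        (∀ j j', j < j' → j' < 18 * m → 2 ≤ bdd (κ j) (κ j')) ∧ FewGood s m κ G) ≤
        9 * (2 ^ (18 * m) * ε ^ m) := by
      intro κ hκ
      by_cases hp : ∀ j j', j < j' → j' < 18 * m → 2 ≤ bdd (κ j) (κ j')
      · refine (Pr_mono (okq h0 h1) (fun G _ h => h.2)).trans ?_
        exact pr_FewGood h0 h1 hε hs hb hp (hTN k0 hk0 κ hκ)
      · have : Pr (fun _ => q) U (fun G =>
            (∀ j j', j < j' → j' < 18 * m → 2 ≤ bdd (κ j) (κ j')) ∧ FewGood s m κ G) =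
            Pr (fun _ => q) U (fun _ => ¬ True) := by
          apply Pr_congr
          intro G _
          constructor
          · intro h; exact absurd h.1 hp
          · intro h; exact absurd trivial h
        rw [this, Pr_not, Pr_true U (fun _ _ => trivial)]
        have : 0 ≤ 9 * (2 ^ (18 * m) * ε ^ m) := by positivity
        linarith
    refine (Finset.sum_le_sum htwo).trans ?_
    rw [Finset.sum_const, nsmul_eq_mul]
    have hc : ((I k0).card : ℝ) ≤ 25 ^ (18 * m) := by exact_mod_cast hI k0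
    calc ((I k0).card : ℝ) * (9 * (2 ^ (18 * m) * ε ^ m))
        ≤ 25 ^ (18 * m) * (9 * (2 ^ (18 * m) * ε ^ m)) :=
          mul_le_mul_of_nonneg_right hc (by positivity)
      _ = 9 * ((50 ^ 18) * ε) ^ m := by
          rw [h50, pow_mul, pow_mul, mul_pow, mul_pow]; ring
  refine (Finset.sum_le_sum hone).trans ?_
  rw [Finset.sum_const, nsmul_eq_mul]

/-- The lower bound of the mean. -/
theorem EL_lower {q : ℝ} (h0 : 0 ≤ q) (h1 : q ≤ 1) {l : ℤ} (hl : 0 < l) {B : ℕ} (hB : 1 ≤ B)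
    (hb : 4 * hh q (B * l) (3 * (B * l) - 1) ≤ 1 / (2 * 50 ^ 18)) {z : Vtx} {r : ℤ}
    (hr : bdd 0 z + 1 ≤ r) (hz : 1000 * (B:ℤ) ≤ bdd 0 z) :
    (bdd 0 z : ℝ) / (13 * B) ≤ EL q l r z := by
  obtain ⟨n, hn⟩ : ∃ n : ℕ, bdd 0 z = n := ⟨(bdd 0 z).toNat, by
    have := bdd_nonneg 0 z; omega⟩
  rw [hn] at hz ⊢
  have hnB : 1000 * B ≤ n := by exact_mod_cast hz
  obtain ⟨m, hm⟩ : ∃ m : ℕ, m = (n - (B + 1)) / (36 * B) := ⟨_, rfl⟩
  have hm1 : m * (36 * B) ≤ n - (B + 1) := by rw [hm]; exact Nat.div_mul_le_self _ _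
  have hm2 : n - (B + 1) < (m + 1) * (36 * B) := by
    rw [hm, mul_comm]; exact Nat.lt_mul_div_succ _ (by omega)
  have hm7 : 7 ≤ m := by
    by_contra hcon
    have : (m + 1) * (36 * B) ≤ 7 * (36 * B) := Nat.mul_le_mul_right _ (by omega)
    omega
  have hBl : (0:ℤ) < (B:ℤ) * l := by positivity
  obtain ⟨KK, hKK⟩ : ∃ KK : Finset Vtx, KK = Finset.Icc (0:ℤ) 1 ×ˢ Finset.Icc (0:ℤ) 1 := ⟨_, rfl⟩
  have hKKc : KK.card = 4 := by rw [hKK]; rfl
  obtain ⟨U, hSU, hU⟩ := peierls_fin (s := (B:ℤ) * l) (by omega) m KK (bx l 0 r)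
  have hpr := hU q (1 / (2 * 50 ^ 18)) h0 h1 (by positivity) hb
  have e1 : (50:ℝ) ^ 18 * (1 / (2 * 50 ^ 18)) = 1/2 := by field_simp
  rw [e1, hKKc] at hpr
  -- the event
  have hev : Pr (fun _ => q) U (fun G => lk l (bx l 0 r) 0 z G < 9 * m) ≤ 1/3 := by
    refine le_trans (Pr_mono (okq h0 h1) (fun G _ h => ?_)) (hpr.trans ?_)
    · obtain ⟨k, hk⟩ := LK_ex hl G hr (Finset.Subset.refl (bx l 0 r))
      obtain ⟨C, -, h3, z0, h4, h5⟩ := lk_spec hk
      obtain ⟨u, hu, hu'⟩ := h4.touch hl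
      obtain ⟨v, hv, hv'⟩ := h5.touch hl
      refine ⟨C, u, v, ?_, hu'.trans hv'.symm, ?_, lt_of_le_of_lt h3 h⟩
      · obtain ⟨⟨u1, u2⟩, ⟨u3, u4⟩⟩ := hu
        simp only [Prod.fst_zero, Prod.snd_zero, zero_mul, zero_add, one_mul] at u1 u2 u3 u4
        rw [hKK, Finset.mem_product, Finset.mem_Icc, Finset.mem_Icc]
        have key : ∀ x : ℤ, 0 ≤ x → x ≤ l → 0 ≤ x / ((B:ℤ) * l) ∧ x / ((B:ℤ) * l) ≤ 1 := by
          intro x hx0 hxl
          refine ⟨Int.ediv_nonneg hx0 hBl.le, ?_⟩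
          have : x / ((B:ℤ) * l) < 2 := by
            rw [Int.ediv_lt_iff_lt_mul hBl]
            have : l ≤ (B:ℤ) * l := by
              have : (1:ℤ) ≤ B := by exact_mod_cast hB
              nlinarith
            omega
          omega
        exact ⟨key _ u1 u2, key _ u3 u4⟩
      · -- the distance
        obtain ⟨⟨u1, u2⟩, ⟨u3, u4⟩⟩ := hu
        obtain ⟨⟨v1, v2⟩, ⟨v3, v4⟩⟩ := hv
        simp only [Prod.fst_zero, Prod.snd_zero, zero_mul, zero_add, one_mul] at u1 u2 u3 u4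
        have hBl1 : (1:ℤ) ≤ (B:ℤ) * l := by omega
        have hm1' : (m:ℤ) * (36 * B) + (B + 1) ≤ n := by
          have : m * (36 * B) + (B + 1) ≤ n := by omega
          exact_mod_cast this
        have key : ∀ a x y : ℤ, (0 ≤ x ∧ x ≤ l) → (a * l ≤ y ∧ y ≤ (a + 1) * l) → |a| = n →
            36 * (m:ℤ) ≤ |y / ((B:ℤ) * l) - x / ((B:ℤ) * l)| := by
          intro a x y hx hy ha
          have b1 := blk_bounds (x := x) hBl1
          have b2 := blk_bounds (x := y) hBl1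
          obtain ⟨X, hX⟩ : ∃ X, X = x / ((B:ℤ) * l) := ⟨_, rfl⟩
          obtain ⟨Y, hY⟩ : ∃ Y, Y = y / ((B:ℤ) * l) := ⟨_, rfl⟩
          rw [← hX] at b1
          rw [← hY] at b2
          rw [← hX, ← hY]
          have hl' : ((m:ℤ) * (36 * B) + (B + 1)) * l ≤ n * l :=
            mul_le_mul_of_nonneg_right hm1' hl.le
          have hd : (36 * (m:ℤ)) * (B * l) + B * l + l ≤ n * l := by
            calc (36 * (m:ℤ)) * (B * l) + B * l + l = ((m:ℤ) * (36 * B) + (B + 1)) * l := by ring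
              _ ≤ _ := hl'
          rcases abs_cases a with ⟨ha1, ha2⟩ | ⟨ha1, ha2⟩
          · rw [ha1] at ha
            have h7 : (n:ℤ) * l ≤ y := by rw [← ha]; exact hy.1
            have h8 : (36 * (m:ℤ)) * (B * l) < (Y - X + 1) * (B * l) := by
              have : (Y - X + 1) * ((B:ℤ) * l) = Y * (B * l) - X * (B * l) + B * l := by ring
              omega
            have h9 := lt_of_mul_lt_mul_right h8 hBl.le
            exact le_trans (by omega) (le_abs_self _)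
          · rw [ha1] at ha
            have h7 : y ≤ -((n:ℤ) * l) + l := by
              have : (a + 1) * l = -(n * l) + l := by rw [← ha]; ring
              omega
            have h8 : (36 * (m:ℤ)) * (B * l) < (X - Y + 1) * (B * l) := by
              have : (X - Y + 1) * ((B:ℤ) * l) = X * (B * l) - Y * (B * l) + B * l := by ring
              omega
            have h9 := lt_of_mul_lt_mul_right h8 hBl.le
            exact le_trans (by omega) (neg_le_abs _)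
        have hor : |z.1| = n ∨ |z.2| = n := by
          unfold bdd at hn
          simp only [Prod.fst_zero, Prod.snd_zero, zero_sub, abs_neg] at hn
          rcases le_total |z.1| |z.2| with h | h
          · right; rw [max_eq_right h] at hn; exact hn
          · left; rw [max_eq_left h] at hn; exact hn
        unfold bdd blk
        simp only
        rcases hor with h | h
        · exact (key z.1 u.1 v.1 ⟨u1, u2⟩ ⟨v1, v2⟩ h).trans (le_max_left _ _)
        · exact (key z.2 u.2 v.2 ⟨u3, u4⟩ ⟨v3, v4⟩ h).trans (le_max_right _ _)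
    · have h2 : ((1:ℝ)/2) ^ m ≤ (1/2) ^ 7 := pow_le_pow_of_le_one (by norm_num) (by norm_num) hm7
      have : ((1:ℝ)/2) ^ 7 = 1/128 := by norm_num
      push_cast
      linarith
  have hlow : 9 * (m:ℝ) * (1 - 1/3) ≤ EL q l r z := by
    rw [← EL_eq q (l := l) (r := r) 0 z hSU]
    have h2 : Ex (fun _ => q) U (fun G => 9 * (m:ℝ) * (1 - ind (lk l (bx l 0 r) 0 z G < 9 * m))) ≤
        Ex (fun _ => q) U (fun G => (lk l (bx l 0 r) 0 (0 + z) G : ℝ)) := by
      apply Ex_mono (okq h0 h1)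
      intro G _
      rw [zero_add]
      by_cases h : lk l (bx l 0 r) 0 z G < 9 * m
      · rw [ind_of h]
        simp
      · rw [ind_not_of h]
        have : (9 * (m:ℝ)) ≤ lk l (bx l 0 r) 0 z G := by exact_mod_cast not_lt.mp h
        linarith
    refine le_trans ?_ h2
    rw [Ex_mul_left, Ex_sub, Ex_const]
    have h3 : Ex (fun _ => q) U (fun G => ind (lk l (bx l 0 r) 0 z G < 9 * m)) ≤ 1/3 := hev
    apply mul_le_mul_of_nonneg_left _ (by positivity)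
    linarith
  refine le_trans ?_ hlow
  have hBr : (1:ℝ) ≤ B := by exact_mod_cast hB
  rw [div_le_iff₀ (by positivity)]
  have h3 : (n:ℝ) ≤ (m + 1) * (36 * B) + (B + 1) := by
    have : n ≤ (m + 1) * (36 * B) + (B + 1) := by omega
    exact_mod_cast this
  have h4 : (7:ℝ) ≤ m := by exact_mod_cast hm7
  push_cast
  nlinarith

/-! ### The tail of the cost of hubs -/

theorem pr_vcost {q δ : ℝ} (h0 : 0 ≤ q) (h1 : q ≤ 1) {l : ℤ} (hl : 0 < l) (hδ : 0 < δ)
    (hδ1 : δ ≤ 1) (hh1 : δ ≤ hh q (2 * l) l) (u : Vtx) {N M a : ℕ} (hNM : N + 1 ≤ M)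
    (ha : 2 * (1 + 1 / δ) ≤ (1 + δ) ^ a) {U : Finset Edg}
    (hU : RE u.2 (u.2 + l) u.1 (u.1 + (N + 2) * l) ⊆ U) :
    Pr (fun _ => q) U (fun G => 4 * (a * M) ≤ hcost l u N (tps.mp G)) ≤ 4 * (1/2) ^ M := by
  rw [← LSym.pr tps q U (fun G => 4 * (a * M) ≤ hcost l u N G)]
  apply pr_hcost h0 h1 hl hδ hδ1 hh1 u hNM ha
  rw [← tps_RE]
  exact LSym.mp_mono _ hU

theorem pr_or5 {q : ℝ} (h0 : 0 ≤ q) (h1 : q ≤ 1) (U : Finset Edg)
    (A1 A2 A3 A4 A5 : Finset Edg → Prop) {ε : ℝ} (i1 : Pr (fun _ => q) U A1 ≤ ε)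
    (i2 : Pr (fun _ => q) U A2 ≤ ε) (i3 : Pr (fun _ => q) U A3 ≤ ε)
    (i4 : Pr (fun _ => q) U A4 ≤ ε) (i5 : Pr (fun _ => q) U A5 ≤ ε) :
    Pr (fun _ => q) U (fun G => A1 G ∨ A2 G ∨ A3 G ∨ A4 G ∨ A5 G) ≤ 5 * ε := by
  have j1 := Pr_or_le (okq h0 h1) U A1 (fun G => A2 G ∨ A3 G ∨ A4 G ∨ A5 G)
  have j2 := Pr_or_le (okq h0 h1) U A2 (fun G => A3 G ∨ A4 G ∨ A5 G)
  have j3 := Pr_or_le (okq h0 h1) U A3 (fun G => A4 G ∨ A5 G)
  have j4 := Pr_or_le (okq h0 h1) U A4 A5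
  linarith

theorem pr_sc_big {q δ : ℝ} (h0 : 0 ≤ q) (h1 : q ≤ 1) {l : ℤ} (hl : 0 < l) (hδ : 0 < δ)
    (hδ1 : δ ≤ 1) (hh1 : δ ≤ hh q (2 * l) l) {s : ℕ} (hs : 1 ≤ s) (κ : Vtx) {M a : ℕ}
    (hM : 3 * s ≤ M) (ha : 2 * (1 + 1 / δ) ≤ (1 + δ) ^ a) {U : Finset Edg}
    (hU : bx (s * l) κ 1 ⊆ U) :
    Pr (fun _ => q) U (fun G => 20 * (a * M) ≤ sc (s * l) κ G) ≤ 20 * (1/2) ^ M := by
  obtain ⟨p, t⟩ := κ
  obtain ⟨L, hL⟩ : ∃ L : ℤ, L = (s:ℤ) * l := ⟨_, rfl⟩
  have hs' : (1:ℤ) ≤ s := by exact_mod_cast hs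
  have hL0 : 0 < L := by rw [hL]; positivity
  have hLl : l ≤ L := by rw [hL]; nlinarith
  rw [← hL] at hU ⊢
  have eN : (((3 * s - 2 : ℕ) : ℤ) + 2) * l = 3 * L := by
    have : ((3 * s - 2 : ℕ) : ℤ) = 3 * s - 2 := by omega
    rw [this, hL]; ring
  obtain ⟨X, hX⟩ : ∃ X : ℤ, X = p * L := ⟨_, rfl⟩
  obtain ⟨Y, hY⟩ : ∃ Y : ℤ, Y = t * L := ⟨_, rfl⟩
  have hbx : bx L (p, t) 1 = RE (X - L) (X + 2 * L) (Y - L) (Y + 2 * L) := by
    unfold bx; rw [hX, hY]; congr 1 <;> ring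
  rw [hbx] at hU
  have hN : 3 * s - 2 + 1 ≤ M := by omega
  have e1 : (p - 1) * L = X - L := by rw [hX]; ring
  have e2 : (p + 2) * L = X + 2 * L := by rw [hX]; ring
  have e3 : (p + 1) * L = X + L := by rw [hX]; ring
  have e4 : (t - 1) * L = Y - L := by rw [hY]; ring
  have e5 : (t + 2) * L = Y + 2 * L := by rw [hY]; ring
  have e6 : (t + 1) * L = Y + L := by rw [hY]; ring
  have hor : Pr (fun _ => q) U (fun G => 20 * (a * M) ≤ sc L (p, t) G) ≤
      Pr (fun _ => q) U (fun G =>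
        (4 * (a * M) ≤ hcost l (X - L, Y + L) (3 * s - 2) G) ∨
        (4 * (a * M) ≤ hcost l (X - L, Y) (3 * s - 2) G) ∨
        (4 * (a * M) ≤ hcost l (X - L, Y - L) (3 * s - 2) G) ∨
        (4 * (a * M) ≤ hcost l (Y - L, X - L) (3 * s - 2) (tps.mp G)) ∨
        (4 * (a * M) ≤ hcost l (Y - L, X + L) (3 * s - 2) (tps.mp G))) := by
    apply Pr_mono (okq h0 h1)
    intro G _ hG
    by_contra hcon
    push Not at hcon
    have i1 := xc_le_hcost (a := X - L) (b := X + 2 * L) (c := Y + L) (d := Y + 2 * L) hl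
      (N := 3 * s - 2) (by omega) (by omega) G
    have i2 := xc_le_hcost (a := X - L) (b := X + 2 * L) (c := Y) (d := Y + L) hl
      (N := 3 * s - 2) (by omega) (by omega) G
    have i3 := xc_le_hcost (a := X - L) (b := X + 2 * L) (c := Y - L) (d := Y) hl
      (N := 3 * s - 2) (by omega) (by omega) G
    have i4 := yc_le_hcost (a := X - L) (b := X) (c := Y - L) (d := Y + 2 * L) hl
      (N := 3 * s - 2) (by omega) (by omega) G
    have i5 := yc_le_hcost (a := X + L) (b := X + 2 * L) (c := Y - L) (d := Y + 2 * L) hl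
      (N := 3 * s - 2) (by omega) (by omega) G
    unfold sc at hG
    simp only [e1, e2, e3, e4, e5, e6, ← hX, ← hY] at hG
    omega
  refine hor.trans ((pr_or5 h0 h1 U _ _ _ _ _ (ε := 4 * (1/2) ^ M) ?_ ?_ ?_ ?_ ?_).trans
    (by linarith))
  · apply pr_hcost h0 h1 hl hδ hδ1 hh1 _ hN ha
    simp only [eN]
    exact (RE_subset (by omega) (by omega) (by omega) (by omega)).trans hU
  · apply pr_hcost h0 h1 hl hδ hδ1 hh1 _ hN ha
    simp only [eN]
    exact (RE_subset (by omega) (by omega) (by omega) (by omega)).trans hU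
  · apply pr_hcost h0 h1 hl hδ hδ1 hh1 _ hN ha
    simp only [eN]
    exact (RE_subset (by omega) (by omega) (by omega) (by omega)).trans hU
  · apply pr_vcost h0 h1 hl hδ hδ1 hh1 _ hN ha
    simp only [eN]
    exact (RE_subset (by omega) (by omega) (by omega) (by omega)).trans hU
  · apply pr_vcost h0 h1 hl hδ hδ1 hh1 _ hN ha
    simp only [eN]
    exact (RE_subset (by omega) (by omega) (by omega) (by omega)).trans hU

theorem bx_small {l : ℤ} (hl : 0 < l) {s : ℕ} (hs : 1 ≤ s) (κ : Vtx) {r r' : ℤ}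
    (h : r + s ≤ r' * s + s) (hr : 0 ≤ r):
    bx l ((s:ℤ) * κ.1, (s:ℤ) * κ.2) r ⊆ bx (s * l) κ r' := by
  have hs' : (1:ℤ) ≤ s := by exact_mod_cast hs
  unfold bx
  simp only
  have key1 : ∀ k : ℤ, (k - r') * (s * l) ≤ (s * k - r) * l := by
    intro k
    have : (k - r') * (s * l) = (s * k - r' * s) * l := by ring
    rw [this]
    apply mul_le_mul_of_nonneg_right _ hl.le
    omega
  have key2 : ∀ k : ℤ, (s * k + r + 1) * l ≤ (k + r' + 1) * (s * l) := by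
    intro k
    have : (k + r' + 1) * (s * l) = (s * k + r' * s + s) * l := by ring
    rw [this]
    apply mul_le_mul_of_nonneg_right _ hl.le
    omega
  exact RE_subset (key1 _) (key2 _) (key1 _) (key2 _)

theorem bx_big {l : ℤ} (hl : 0 < l) {s : ℕ} (hs : 1 ≤ s) (κ : Vtx) {r r' : ℤ}
    (h : r' * s + s ≤ r + 1) :
    bx (s * l) κ r' ⊆ bx l ((s:ℤ) * κ.1, (s:ℤ) * κ.2) r := by
  have hs' : (1:ℤ) ≤ s := by exact_mod_cast hs
  unfold bx
  simp only
  have key1 : ∀ k : ℤ, (s * k - r) * l ≤ (k - r') * (s * l) := by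
    intro k
    have : (k - r') * (s * l) = (s * k - r' * s) * l := by ring
    rw [this]
    apply mul_le_mul_of_nonneg_right _ hl.le
    omega
  have key2 : ∀ k : ℤ, (k + r' + 1) * (s * l) ≤ (s * k + r + 1) * l := by
    intro k
    have : (k + r' + 1) * (s * l) = (s * k + r' * s + s) * l := by ring
    rw [this]
    apply mul_le_mul_of_nonneg_right _ hl.le
    omega
  exact RE_subset (key1 _) (key2 _) (key1 _) (key2 _)

theorem pr_hub {q δ : ℝ} (h0 : 0 ≤ q) (h1 : q ≤ 1) {l : ℤ} (hl : 0 < l) (hδ : 0 < δ)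
    (hδ1 : δ ≤ 1) (hh1 : δ ≤ hh q (2 * l) l) {s : ℕ} (hs : 1 ≤ s) (κ : Vtx) {M a : ℕ}
    (hM : 3 * s ≤ M) (ha : 2 * (1 + 1 / δ) ≤ (1 + δ) ^ a) {U : Finset Edg}
    (hU : bx (s * l) κ 1 ⊆ U) :
    Pr (fun _ => q) U (fun G => 44 * (a * M) ≤ hub l s κ G) ≤ 44 * (1/2) ^ M := by
  have hs' : (1:ℤ) ≤ s := by exact_mod_cast hs
  have i1 := pr_sc_big h0 h1 hl hδ hδ1 hh1 (s := 1) le_rfl ((s:ℤ) * κ.1, (s:ℤ) * κ.2) (M := M)
    (by omega) ha (U := U) (by
      rw [Nat.cast_one, one_mul]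
      exact (bx_small hl hs κ (by omega) (by omega)).trans hU)
  rw [Nat.cast_one, one_mul] at i1
  have i2 := pr_sc_big h0 h1 hl hδ hδ1 hh1 hs κ hM ha hU
  have eN : (((2 * s - 2 : ℕ) : ℤ) + 2) * l = 2 * ((s:ℤ) * l) := by
    have : ((2 * s - 2 : ℕ) : ℤ) = 2 * s - 2 := by omega
    rw [this]; ring
  have i3 : Pr (fun _ => q) U (fun G => 4 * (a * M) ≤
      hcost l ((s:ℤ) * κ.1 * l, (s:ℤ) * κ.2 * l) (2 * s - 2) G) ≤ 4 * (1/2) ^ M := by
    apply pr_hcost h0 h1 hl hδ hδ1 hh1 _ (by omega) ha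
    simp only [eN]
    refine subset_trans ?_ hU
    obtain ⟨L, hL⟩ : ∃ L : ℤ, L = (s:ℤ) * l := ⟨_, rfl⟩
    have hLl : l ≤ L := by rw [hL]; nlinarith
    have e1 : (s:ℤ) * κ.1 * l = κ.1 * L := by rw [hL]; ring
    have e2 : (s:ℤ) * κ.2 * l = κ.2 * L := by rw [hL]; ring
    unfold bx
    rw [e1, e2, ← hL]
    have f1 : (κ.1 - 1) * L = κ.1 * L - L := by ring
    have f2 : (κ.1 + 1 + 1) * L = κ.1 * L + 2 * L := by ring
    have f3 : (κ.2 - 1) * L = κ.2 * L - L := by ring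
    have f4 : (κ.2 + 1 + 1) * L = κ.2 * L + 2 * L := by ring
    rw [f1, f2, f3, f4]
    exact RE_subset (by omega) (by omega) (by omega) (by omega)
  have hor : Pr (fun _ => q) U (fun G => 44 * (a * M) ≤ hub l s κ G) ≤
      Pr (fun _ => q) U (fun G => (20 * (a * M) ≤ sc l ((s:ℤ) * κ.1, (s:ℤ) * κ.2) G) ∨
        ((20 * (a * M) ≤ sc (s * l) κ G) ∨
        (4 * (a * M) ≤ hcost l ((s:ℤ) * κ.1 * l, (s:ℤ) * κ.2 * l) (2 * s - 2) G))) := by
    apply Pr_mono (okq h0 h1)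
    intro G _ hG
    by_contra hcon
    push Not at hcon
    unfold hub at hG
    omega
  have j1 := Pr_or_le (okq h0 h1) U
    (fun G => 20 * (a * M) ≤ sc l ((s:ℤ) * κ.1, (s:ℤ) * κ.2) G)
    (fun G => (20 * (a * M) ≤ sc (s * l) κ G) ∨
        (4 * (a * M) ≤ hcost l ((s:ℤ) * κ.1 * l, (s:ℤ) * κ.2 * l) (2 * s - 2) G))
  have j2 := Pr_or_le (okq h0 h1) U
    (fun G => 20 * (a * M) ≤ sc (s * l) κ G)
    (fun G => 4 * (a * M) ≤ hcost l ((s:ℤ) * κ.1 * l, (s:ℤ) * κ.2 * l) (2 * s - 2) G)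
  linarith

end Pool.Agent.Helper59_BN
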