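import Pool.Agent.Helper59_BN.Link

/-!
Mean link costs: stationarity, second moments, subadditivity.
-/

namespace Pool.Agent.Helper59_BN

open H974

theorem ex_mp (g : LSym) (q : ℝ) (S : Finset Edg) (f : Finset Edg → ℝ) :
    Ex (fun _ => q) (g.mp S) f = Ex (fun _ => q) S (fun F => f (g.mp F)) := Ex_map _ _ _ _

/-- The mean link cost. -/
noncomputable def EL (q : ℝ) (l r : ℤ) (z : Vtx) : ℝ :=
  Ex (fun _ => q) (bx l 0 r) (fun G => (lk l (bx l 0 r) 0 z G : ℝ))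

theorem ex_lk (q : ℝ) {l r : ℤ} (φ : ℕ → ℝ) (a z : Vtx) {U : Finset Edg} (hU : bx l a r ⊆ U) :
    Ex (fun _ => q) U (fun G => φ (lk l (bx l a r) a (a + z) G)) =
      Ex (fun _ => q) (bx l 0 r) (fun G => φ (lk l (bx l 0 r) 0 z G)) := by
  rw [Ex_local hU (fun F _ => by rw [lk_local (Finset.Subset.refl _)])]
  have e1 : bx l a r = (ct l a).mp (bx l 0 r) := by rw [ct_bx, zero_add]
  rw [e1, ex_mp]
  apply Ex_congr
  intro F _
  have := lk_ct (l := l) (S := bx l 0 r) (G := F) (a := 0) (b := z) a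
  rw [zero_add, add_comm z a] at this
  rw [this]

theorem pr_lk (q : ℝ) {l r : ℤ} (φ : ℕ → Prop) (a z : Vtx) {U : Finset Edg}
    (hU : bx l a r ⊆ U) :
    Pr (fun _ => q) U (fun G => φ (lk l (bx l a r) a (a + z) G)) =
      Pr (fun _ => q) (bx l 0 r) (fun G => φ (lk l (bx l 0 r) 0 z G)) :=
  ex_lk q (fun n => ind (φ n)) a z hU

theorem EL_eq (q : ℝ) {l r : ℤ} (a z : Vtx) {U : Finset Edg} (hU : bx l a r ⊆ U) :
    Ex (fun _ => q) U (fun G => (lk l (bx l a r) a (a + z) G : ℝ)) = EL q l r z :=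
  ex_lk q (fun n => (n:ℝ)) a z hU

theorem EL_nonneg {q : ℝ} (h0 : 0 ≤ q) (h1 : q ≤ 1) (l r : ℤ) (z : Vtx) : 0 ≤ EL q l r z :=
  Ex_nonneg (okq h0 h1) (fun _ _ => by positivity)

/-! ### Second moments -/

theorem xsq {δ : ℝ} (h0 : 0 < δ) (h1 : δ ≤ 1) (x : ℕ) :
    (x:ℝ) ^ 2 ≤ 2 / δ ^ 2 * (1 + δ) ^ x := by
  have key : ∀ x : ℕ, 1 + x * δ + x * (x - 1) / 2 * δ ^ 2 ≤ (1 + δ) ^ x := by
    intro x
    induction x with
    | zero => simp
    | succ x ih =>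
      rw [pow_succ]
      have h2 := mul_le_mul_of_nonneg_right ih (show 0 ≤ 1 + δ by linarith)
      refine le_trans ?_ h2
      push_cast
      have hx : 0 ≤ (x:ℝ) := by positivity
      rcases Nat.eq_zero_or_pos x with rfl | hx1
      · simp
      · have hx1' : (1:ℝ) ≤ x := by exact_mod_cast hx1
        have h3 : 0 ≤ (x:ℝ) * (x - 1) / 2 * δ ^ 3 := by
          apply mul_nonneg _ (by positivity)
          apply div_nonneg (mul_nonneg hx (by linarith)) (by norm_num)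
        nlinarith
  have h2 := key x
  have h3 : (x:ℝ) ^ 2 * δ ^ 2 / 2 ≤ (1 + δ) ^ x := by
    refine le_trans ?_ h2
    have hx : 0 ≤ (x:ℝ) := by positivity
    have h4 : (x:ℝ) * δ ^ 2 ≤ x * δ := by
      apply mul_le_mul_of_nonneg_left _ hx
      nlinarith
    nlinarith
  rw [div_mul_eq_mul_div, le_div_iff₀ (by positivity)]
  linarith

theorem xc_sq {q δ : ℝ} (h0 : 0 ≤ q) (h1 : q ≤ 1) (hδ : 0 < δ) (hδ1 : δ ≤ 1) {a b c d : ℤ}
    (hab : a ≤ b) (hcd : c ≤ d) (hh1 : δ ≤ hh q (b - a) (d - c)) {S : Finset Edg}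
    (hS : LRE a b c d ⊆ S) :
    Ex (fun _ => q) S (fun G => (xc a b c d G : ℝ) ^ 2) ≤ 2 / δ ^ 2 * (1 + 1 / δ) := by
  refine (Ex_mono (okq h0 h1) (fun G _ => xsq hδ hδ1 (xc a b c d G))).trans ?_
  rw [Ex_mul_left]
  apply mul_le_mul_of_nonneg_left _ (by positivity)
  refine moment (okq h0 h1) hδ hδ1 (xc a b c d) (b - a).toNat (fun F _ => xc_le hab hcd F) ?_
  intro k
  refine (pr_xc h0 h1 hS k).trans ?_
  apply pow_le_pow_left₀
  · have := hh_le_one h0 h1 (b - a) (d - c)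
    linarith
  · linarith

theorem yc_sq {q δ : ℝ} (h0 : 0 ≤ q) (h1 : q ≤ 1) (hδ : 0 < δ) (hδ1 : δ ≤ 1) {a b c d : ℤ}
    (hab : a ≤ b) (hcd : c ≤ d) (hh1 : δ ≤ hh q (d - c) (b - a)) {S : Finset Edg}
    (hS : TBE a b c d ⊆ S) :
    Ex (fun _ => q) S (fun G => (yc a b c d G : ℝ) ^ 2) ≤ 2 / δ ^ 2 * (1 + 1 / δ) := by
  refine (Ex_mono (okq h0 h1) (fun G _ => xsq hδ hδ1 (yc a b c d G))).trans ?_
  rw [Ex_mul_left]
  apply mul_le_mul_of_nonneg_left _ (by positivity)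
  refine moment (okq h0 h1) hδ hδ1 (yc a b c d) (d - c).toNat (fun F _ => yc_le hab hcd F) ?_
  intro k
  refine (pr_yc h0 h1 hS k).trans ?_
  apply pow_le_pow_left₀
  · have := hh_le_one h0 h1 (d - c) (b - a)
    linarith
  · linarith

/-- The bound of the second moment of the star cost. -/
noncomputable def V0 (δ : ℝ) : ℝ := 50 / δ ^ 2 * (1 + 1 / δ)

theorem V0_pos {δ : ℝ} (hδ : 0 < δ) : 0 < V0 δ := by unfold V0; positivity

theorem sc_sub {l : ℤ} (hl : 0 < l) (p q : ℤ) :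
    LRE ((p - 1) * l) ((p + 2) * l) ((q + 1) * l) ((q + 2) * l) ⊆ bx l (p, q) 1 ∧
    LRE ((p - 1) * l) ((p + 2) * l) (q * l) ((q + 1) * l) ⊆ bx l (p, q) 1 ∧
    LRE ((p - 1) * l) ((p + 2) * l) ((q - 1) * l) (q * l) ⊆ bx l (p, q) 1 ∧
    TBE ((p - 1) * l) (p * l) ((q - 1) * l) ((q + 2) * l) ⊆ bx l (p, q) 1 ∧
    TBE ((p + 1) * l) ((p + 2) * l) ((q - 1) * l) ((q + 2) * l) ⊆ bx l (p, q) 1 := by
  unfold bx
  simp only
  have e1 : (p + 1 + 1) * l = p * l + 2 * l := by ring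
  have e2 : (q + 1 + 1) * l = q * l + 2 * l := by ring
  have e3 : (p - 1) * l = p * l - l := by ring
  have e4 : (q - 1) * l = q * l - l := by ring
  have e5 : (p + 2) * l = p * l + 2 * l := by ring
  have e6 : (q + 2) * l = q * l + 2 * l := by ring
  have e7 : (p + 1) * l = p * l + l := by ring
  have e8 : (q + 1) * l = q * l + l := by ring
  simp only [e1, e2, e3, e4, e5, e6, e7, e8]
  refine ⟨LRE_subset_RE.trans (RE_subset ?_ ?_ ?_ ?_), LRE_subset_RE.trans (RE_subset ?_ ?_ ?_ ?_),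
    LRE_subset_RE.trans (RE_subset ?_ ?_ ?_ ?_), TBE_subset_RE.trans (RE_subset ?_ ?_ ?_ ?_),
    TBE_subset_RE.trans (RE_subset ?_ ?_ ?_ ?_)⟩ <;> omega

theorem sc_local {l : ℤ} (hl : 0 < l) (a : Vtx) {S : Finset Edg} (hS : bx l a 1 ⊆ S)
    (G : Finset Edg) : sc l a G = sc l a (G ∩ S) := by
  obtain ⟨p, q⟩ := a
  obtain ⟨h1, h2, h3, h4, h5⟩ := sc_sub hl p q
  unfold sc
  simp only
  rw [← xc_local (h1.trans hS), ← xc_local (h2.trans hS), ← xc_local (h3.trans hS),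
    ← yc_local (h4.trans hS), ← yc_local (h5.trans hS)]

theorem sc_sq {q δ : ℝ} (h0 : 0 ≤ q) (h1 : q ≤ 1) {l : ℤ} (hl : 0 < l) (hδ : 0 < δ)
    (hδ1 : δ ≤ 1) (hh1 : δ ≤ hh q (3 * l) l) (a : Vtx) {S : Finset Edg} (hS : bx l a 1 ⊆ S) :
    Ex (fun _ => q) S (fun G => (sc l a G : ℝ) ^ 2) ≤ V0 δ := by
  obtain ⟨p, t⟩ := a
  obtain ⟨s1, s2, s3, s4, s5⟩ := sc_sub hl p t
  have hf : ∀ a b c d e : ℝ, (a + b + c + d + e) ^ 2 ≤
      5 * (a ^ 2 + b ^ 2 + c ^ 2 + d ^ 2 + e ^ 2) := by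
    intro a b c d e
    nlinarith [sq_nonneg (a - b), sq_nonneg (a - c), sq_nonneg (a - d), sq_nonneg (a - e),
      sq_nonneg (b - c), sq_nonneg (b - d), sq_nonneg (b - e), sq_nonneg (c - d),
      sq_nonneg (c - e), sq_nonneg (d - e)]
  have e1 : (p + 2) * l - (p - 1) * l = 3 * l := by ring
  have e2 : (t + 2) * l - (t + 1) * l = l := by ring
  have e3 : (t + 1) * l - t * l = l := by ring
  have e4 : t * l - (t - 1) * l = l := by ring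
  have e5 : (t + 2) * l - (t - 1) * l = 3 * l := by ring
  have e6 : p * l - (p - 1) * l = l := by ring
  have e7 : (p + 2) * l - (p + 1) * l = l := by ring
  have i1 := xc_sq h0 h1 hδ hδ1 (a := (p - 1) * l) (b := (p + 2) * l) (c := (t + 1) * l)
    (d := (t + 2) * l) (by omega) (by omega) (by rw [e1, e2]; exact hh1) (s1.trans hS)
  have i2 := xc_sq h0 h1 hδ hδ1 (a := (p - 1) * l) (b := (p + 2) * l) (c := t * l)
    (d := (t + 1) * l) (by omega) (by omega) (by rw [e1, e3]; exact hh1) (s2.trans hS)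
  have i3 := xc_sq h0 h1 hδ hδ1 (a := (p - 1) * l) (b := (p + 2) * l) (c := (t - 1) * l)
    (d := t * l) (by omega) (by omega) (by rw [e1, e4]; exact hh1) (s3.trans hS)
  have i4 := yc_sq h0 h1 hδ hδ1 (a := (p - 1) * l) (b := p * l) (c := (t - 1) * l)
    (d := (t + 2) * l) (by omega) (by omega) (by rw [e5, e6]; exact hh1) (s4.trans hS)
  have i5 := yc_sq h0 h1 hδ hδ1 (a := (p + 1) * l) (b := (p + 2) * l) (c := (t - 1) * l)
    (d := (t + 2) * l) (by omega) (by omega) (by rw [e5, e7]; exact hh1) (s5.trans hS)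
  have i0 : Ex (fun _ => q) S (fun G => (sc l (p, t) G : ℝ) ^ 2) ≤
      5 * (Ex (fun _ => q) S (fun G =>
        (xc ((p - 1) * l) ((p + 2) * l) ((t + 1) * l) ((t + 2) * l) G : ℝ) ^ 2) +
      Ex (fun _ => q) S (fun G => (xc ((p - 1) * l) ((p + 2) * l) (t * l) ((t + 1) * l) G : ℝ) ^ 2) +
      Ex (fun _ => q) S (fun G => (xc ((p - 1) * l) ((p + 2) * l) ((t - 1) * l) (t * l) G : ℝ) ^ 2) +
      Ex (fun _ => q) S (fun G => (yc ((p - 1) * l) (p * l) ((t - 1) * l) ((t + 2) * l) G : ℝ) ^ 2) +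
      Ex (fun _ => q) S (fun G =>
        (yc ((p + 1) * l) ((p + 2) * l) ((t - 1) * l) ((t + 2) * l) G : ℝ) ^ 2)) := by
    rw [← Ex_add, ← Ex_add, ← Ex_add, ← Ex_add, ← Ex_mul_left]
    apply Ex_mono (okq h0 h1)
    intro G _
    unfold sc
    push_cast
    exact hf _ _ _ _ _
  unfold V0
  have : 50 / δ ^ 2 * (1 + 1 / δ) = 25 * (2 / δ ^ 2 * (1 + 1 / δ)) := by ring
  rw [this]
  linarith

theorem nat_le_sq (n : ℕ) : (n:ℝ) ≤ (n:ℝ) ^ 2 := by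
  have : n ≤ n ^ 2 := Nat.le_self_pow (by norm_num) n
  exact_mod_cast this

theorem sc_mean {q δ : ℝ} (h0 : 0 ≤ q) (h1 : q ≤ 1) {l : ℤ} (hl : 0 < l) (hδ : 0 < δ)
    (hδ1 : δ ≤ 1) (hh1 : δ ≤ hh q (3 * l) l) (a : Vtx) {S : Finset Edg} (hS : bx l a 1 ⊆ S) :
    Ex (fun _ => q) S (fun G => (sc l a G : ℝ)) ≤ V0 δ :=
  (Ex_mono (okq h0 h1) (fun _ _ => nat_le_sq _)).trans (sc_sq h0 h1 hl hδ hδ1 hh1 a hS)

theorem lk_sq {q δ : ℝ} (h0 : 0 ≤ q) (h1 : q ≤ 1) {l : ℤ} (hl : 0 < l) (hδ : 0 < δ)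
    (hδ1 : δ ≤ 1) (hh1 : δ ≤ hh q (3 * l) l) {z : Vtx} {r : ℤ} {n : ℕ} (hn : bdd 0 z ≤ n)
    (hr : (n:ℤ) + 1 ≤ r) :
    Ex (fun _ => q) (bx l 0 r) (fun G => (lk l (bx l 0 r) 0 z G : ℝ) ^ 2) ≤
      (4 * n + 1) ^ 2 * V0 δ := by
  obtain ⟨W, m, k1, k2, k3⟩ := sites' 0 z hn
  have hsub : ∀ i < m, bx l (W i) 1 ⊆ bx l 0 r := fun i hi => bx_subset hl (by
    have := k2 i hi
    rw [bdd_symm]
    omega)
  have h2 : Ex (fun _ => q) (bx l 0 r) (fun G => (lk l (bx l 0 r) 0 z G : ℝ) ^ 2) ≤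
      Ex (fun _ => q) (bx l 0 r) (fun G => m * ∑ i ∈ Finset.range m, (sc l (W i) G : ℝ) ^ 2) := by
    apply Ex_mono (okq h0 h1)
    intro G _
    have h3 : (lk l (bx l 0 r) 0 z G : ℝ) ≤ ∑ i ∈ Finset.range m, (sc l (W i) G : ℝ) := by
      exact_mod_cast lk_le (k3 l hl _ G hsub)
    have h4 := sq_sum_le_card_mul_sum_sq (s := Finset.range m) (f := fun i => (sc l (W i) G : ℝ))
    rw [Finset.card_range] at h4
    refine le_trans ?_ h4
    apply pow_le_pow_left₀ (by positivity) h3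
  refine h2.trans ?_
  rw [Ex_mul_left, Ex_sum]
  have h5 : ∑ i ∈ Finset.range m, Ex (fun _ => q) (bx l 0 r) (fun G => (sc l (W i) G : ℝ) ^ 2) ≤
      ∑ i ∈ Finset.range m, V0 δ := Finset.sum_le_sum (fun i hi =>
    sc_sq h0 h1 hl hδ hδ1 hh1 _ (hsub i (Finset.mem_range.mp hi)))
  rw [Finset.sum_const, Finset.card_range, nsmul_eq_mul] at h5
  have hm : (m:ℝ) ≤ 4 * n + 1 := by exact_mod_cast k1
  have hV := V0_pos hδ
  calc (m:ℝ) * ∑ i ∈ Finset.range m, Ex (fun _ => q) (bx l 0 r) (fun G => (sc l (W i) G : ℝ) ^ 2)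
      ≤ m * (m * V0 δ) := mul_le_mul_of_nonneg_left h5 (by positivity)
    _ = (m:ℝ) ^ 2 * V0 δ := by ring
    _ ≤ _ := by
      apply mul_le_mul_of_nonneg_right _ hV.le
      apply pow_le_pow_left₀ (by positivity) hm

theorem EL_le {q δ : ℝ} (h0 : 0 ≤ q) (h1 : q ≤ 1) {l : ℤ} (hl : 0 < l) (hδ : 0 < δ)
    (hδ1 : δ ≤ 1) (hh1 : δ ≤ hh q (3 * l) l) {z : Vtx} {r : ℤ} {n : ℕ} (hn : bdd 0 z ≤ n)
    (hr : (n:ℤ) + 1 ≤ r) : EL q l r z ≤ (4 * n + 1) * V0 δ := by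
  obtain ⟨W, m, k1, k2, k3⟩ := sites' 0 z hn
  have hsub : ∀ i < m, bx l (W i) 1 ⊆ bx l 0 r := fun i hi => bx_subset hl (by
    have := k2 i hi
    rw [bdd_symm]
    omega)
  have h2 : EL q l r z ≤
      Ex (fun _ => q) (bx l 0 r) (fun G => ∑ i ∈ Finset.range m, (sc l (W i) G : ℝ)) := by
    apply Ex_mono (okq h0 h1)
    intro G _
    exact_mod_cast lk_le (k3 l hl _ G hsub)
  refine h2.trans ?_
  rw [Ex_sum]
  have h5 : ∑ i ∈ Finset.range m, Ex (fun _ => q) (bx l 0 r) (fun G => (sc l (W i) G : ℝ)) ≤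
      ∑ i ∈ Finset.range m, V0 δ := Finset.sum_le_sum (fun i hi =>
    sc_mean h0 h1 hl hδ hδ1 hh1 _ (hsub i (Finset.mem_range.mp hi)))
  rw [Finset.sum_const, Finset.card_range, nsmul_eq_mul] at h5
  have hm : (m:ℝ) ≤ 4 * n + 1 := by exact_mod_cast k1
  exact h5.trans (mul_le_mul_of_nonneg_right hm (V0_pos hδ).le)

/-- Subadditivity. -/
theorem EL_add {q : ℝ} (h0 : 0 ≤ q) (h1 : q ≤ 1) {l : ℤ} (hl : 0 < l) {z y : Vtx} {r r' r'' : ℤ}
    (hz : bdd 0 z + 1 ≤ r) (hy : bdd 0 y + 1 ≤ r') (hr : r ≤ r'') (hr' : bdd 0 z + r' ≤ r'') :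
    EL q l r'' (z + y) ≤ EL q l r z + EL q l r' y := by
  have s1 : bx l 0 r ⊆ bx l 0 r'' := bx_subset hl (by
    have : bdd (0:Vtx) 0 = 0 := by simp [bdd]
    omega)
  have s2 : bx l z r' ⊆ bx l 0 r'' := bx_subset hl (by rw [bdd_symm]; omega)
  have e1 := EL_eq q (l := l) (r := r) 0 z s1
  have e2 := EL_eq q (l := l) (r := r') z y s2
  rw [← e1, ← e2, ← Ex_add]
  apply Ex_mono (okq h0 h1)
  intro G _
  rw [zero_add]
  obtain ⟨k, hk⟩ := LK_ex hl G (a := 0) (b := z) (r := r) hz (Finset.Subset.refl _)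
  obtain ⟨k', hk'⟩ := LK_ex hl G (a := z) (b := z + y) (r := r') (by
    have : bdd z (z + y) = bdd 0 y := by unfold bdd; simp
    omega) (Finset.Subset.refl (bx l z r'))
  exact_mod_cast lk_trans hl hk hk' s1 s2

theorem EL_mono {q : ℝ} (h0 : 0 ≤ q) (h1 : q ≤ 1) {l : ℤ} (hl : 0 < l) {z : Vtx} {r r' : ℤ}
    (hz : bdd 0 z + 1 ≤ r) (hr : r ≤ r') : EL q l r' z ≤ EL q l r z := by
  have s1 : bx l 0 r ⊆ bx l 0 r' := bx_subset hl (by
    have : bdd (0:Vtx) 0 = 0 := by simp [bdd]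
    omega)
  rw [← EL_eq q (l := l) (r := r) 0 z s1]
  apply Ex_mono (okq h0 h1)
  intro G _
  rw [zero_add]
  obtain ⟨k, hk⟩ := LK_ex hl G (a := 0) (b := z) (r := r) hz (Finset.Subset.refl _)
  exact_mod_cast lk_mono hk s1

end Pool.Agent.Helper59_BN
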