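import Pool.Agent.Helper59_BN.FSBridge

/-!
The passage time is `tim`.
-/

namespace Pool.Agent.Helper59_BN

open H974 MeasureTheory Filter

theorem dadj_dir {F : Set Edg} {v w : Vtx} :
    DAdj F v w ↔ ∃ k : Fin 4, w = v + dir k ∧ dl.symm (ed v k) ∈ F := by
  rw [← adj_dl, adj_iff]
  have : ∀ e : Edg, e ∈ dl '' F ↔ dl.symm e ∈ F := by
    intro e
    constructor
    · rintro ⟨e', he', rfl⟩; rwa [Equiv.symm_apply_apply]
    · intro h; exact ⟨_, h, Equiv.apply_symm_apply _ _⟩
  simp only [this]

/-- The number of paid steps. -/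
theorem ncard_steps (P : ℕ → Prop) [DecidablePred P] (n : ℕ) :
    {i | i < n ∧ P i}.ncard = ((Finset.range n).filter P).card := by
  rw [← Set.ncard_coe_finset]
  congr 1
  ext i
  simp

theorem dc_path {F : Set Edg} {f g : Vtx} {c : ℕ} (h : DC Fᶜ F f g c) :
    ∃ (y : ℕ → Vtx) (k : ℕ → Fin 4) (n : ℕ), y 0 = f ∧ y n = g ∧
      (∀ i < n, y (i + 1) = y i + dir (k i)) ∧
      {i | i < n ∧ Adj F (crossed (y i) (k i)).1 (crossed (y i) (k i)).2}.ncard ≤ c := by
  classical
  have step : ∀ {g h : Vtx} {c : ℕ} (j : Fin 4), h = g + dir j → ∀ (y : ℕ → Vtx) (k : ℕ → Fin 4)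
      (n : ℕ), y 0 = f → y n = g → (∀ i < n, y (i + 1) = y i + dir (k i)) →
      {i | i < n ∧ Adj F (crossed (y i) (k i)).1 (crossed (y i) (k i)).2}.ncard ≤ c →
      ∃ (y' : ℕ → Vtx) (k' : ℕ → Fin 4) (n' : ℕ), y' 0 = f ∧ y' n' = h ∧
      (∀ i < n', y' (i + 1) = y' i + dir (k' i)) ∧
      {i | i < n' ∧ Adj F (crossed (y' i) (k' i)).1 (crossed (y' i) (k' i)).2}.ncard ≤
        c + (if dl.symm (ed g j) ∈ F then 1 else 0) := by
    intro g h c j hj y k n h1 h2 h3 h4
    refine ⟨fun i => if i ≤ n then y i else h, fun i => if i < n then k i else j, n + 1,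
      by simp [h1], by simp, ?_, ?_⟩
    · intro i hi
      rcases Nat.lt_or_ge i n with hin | hin
      · simp only [if_pos hin, if_pos hin.le, if_pos (show i + 1 ≤ n by omega)]
        exact h3 i hin
      · have : i = n := by omega
        subst this
        simp only [lt_irrefl, if_false, le_refl, if_true, if_neg (show ¬ i + 1 ≤ i by omega)]
        rw [h2]; exact hj
    · rw [ncard_steps] at h4 ⊢
      rw [Finset.range_add_one, Finset.filter_insert]
      have e1 : (Finset.range n).filter (fun i => Adj F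
          (crossed (if i ≤ n then y i else h) (if i < n then k i else j)).1
          (crossed (if i ≤ n then y i else h) (if i < n then k i else j)).2) =
          (Finset.range n).filter (fun i => Adj F (crossed (y i) (k i)).1
            (crossed (y i) (k i)).2) := by
        apply Finset.filter_congr
        intro i hi
        rw [Finset.mem_range] at hi
        rw [if_pos hi, if_pos hi.le]
      rw [e1]
      simp only [le_refl, if_true, lt_irrefl, if_false]
      rw [h2, crossed_iff]
      split_ifs with hc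
      · exact (Finset.card_insert_le _ _).trans (by omega)
      · exact h4
  induction h with
  | refl => exact ⟨fun _ => f, fun _ => 0, 0, rfl, rfl, fun i hi => absurd hi (by omega), by simp⟩
  | @free g h c _ hs ih =>
    obtain ⟨y, k, n, h1, h2, h3, h4⟩ := ih
    obtain ⟨j, hj1, hj2⟩ := dadj_dir.mp hs
    obtain ⟨y', k', n', g1, g2, g3, g4⟩ := step j hj1 y k n h1 h2 h3 h4
    refine ⟨y', k', n', g1, g2, g3, ?_⟩
    rw [if_neg hj2] at g4
    exact g4
  | @pay g h c _ hs ih =>
    obtain ⟨y, k, n, h1, h2, h3, h4⟩ := ih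
    obtain ⟨j, hj1, hj2⟩ := dadj_dir.mp hs
    obtain ⟨y', k', n', g1, g2, g3, g4⟩ := step j hj1 y k n h1 h2 h3 h4
    refine ⟨y', k', n', g1, g2, g3, ?_⟩
    rw [if_pos hj2] at g4
    exact g4

theorem passageTime_eq (F : Set Edg) (f g : Vtx) : passageTime (Adj F) f g = tim Fᶜ F f g := by
  classical
  unfold passageTime tim
  apply sInf_eq_of
  · rintro c ⟨y, k, n, h1, h2, h3, rfl⟩
    refine ⟨_, ?_, le_rfl⟩
    rw [ncard_steps]
    have : ∀ m ≤ n, DC Fᶜ F f (y m) ((Finset.range m).filter
        (fun i => Adj F (crossed (y i) (k i)).1 (crossed (y i) (k i)).2)).card := by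
      intro m
      induction m with
      | zero => intro _; rw [h1]; exact DC.refl
      | succ m ih =>
        intro hm
        have ih := ih (by omega)
        rw [Finset.range_add_one, Finset.filter_insert]
        by_cases hc : dl.symm (ed (y m) (k m)) ∈ F
        · rw [if_pos (by rw [crossed_iff]; exact hc), Finset.card_insert_of_notMem (by simp)]
          exact DC.pay ih (dadj_dir.mpr ⟨k m, h3 m (by omega), hc⟩)
        · rw [if_neg (by rw [crossed_iff]; exact hc)]
          exact DC.free ih (dadj_dir.mpr ⟨k m, h3 m (by omega), hc⟩)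
    have h4 := this n le_rfl
    rwa [h2] at h4
  · intro c hc
    obtain ⟨y, k, n, h1, h2, h3, h4⟩ := dc_path hc
    exact ⟨_, ⟨y, k, n, h1, h2, h3, rfl⟩, h4⟩

end Pool.Agent.Helper59_BN
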