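import Pool.Agent.Helper59_BN.Chain

/-!
A cheap path between two distant faces, made of chains of crossings.
-/

namespace Pool.Agent.Helper59_BN

open H974

/-- A staircase between two vertices. -/
theorem seg : ∀ (n : ℕ) (f g : Vtx), |f.1 - g.1| + |f.2 - g.2| ≤ n → ∃ C : Finset Edg,
    Reach ↑C f g ∧ C.card ≤ n ∧ ∀ e ∈ C, (min f.1 g.1 ≤ e.1 ∧ e.1 ≤ max f.1 g.1) ∧
      (min f.2 g.2 ≤ e.2.1 ∧ e.2.1 ≤ max f.2 g.2) := by
  intro n
  induction n with
  | zero =>
    rintro ⟨a, b⟩ ⟨c, d⟩ h
    simp only at h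
    have h1 := abs_nonneg (a - c)
    have h2 := abs_nonneg (b - d)
    have h3 : a - c = 0 := abs_eq_zero.mp (by push_cast at h; omega)
    have h4 : b - d = 0 := abs_eq_zero.mp (by push_cast at h; omega)
    have e1 : a = c := by omega
    have e2 : b = d := by omega
    subst e1 e2
    exact ⟨∅, Reach.refl _ _, by simp, by simp⟩
  | succ n ih =>
    rintro ⟨a, b⟩ ⟨c, d⟩ h
    simp only at h
    push_cast at h
    have key : ∀ (a' b' : ℤ) (e : Edg), ((src e = (a, b) ∧ tgt e = (a', b')) ∨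
        (src e = (a', b') ∧ tgt e = (a, b))) → |a' - c| + |b' - d| ≤ n →
        (min a c ≤ a' ∧ a' ≤ max a c) → (min b d ≤ b' ∧ b' ≤ max b d) →
        ((min a c ≤ e.1 ∧ e.1 ≤ max a c) ∧ (min b d ≤ e.2.1 ∧ e.2.1 ≤ max b d)) →
        ∃ C : Finset Edg, Reach ↑C (a, b) (c, d) ∧ C.card ≤ n + 1 ∧
          ∀ e ∈ C, (min a c ≤ e.1 ∧ e.1 ≤ max a c) ∧ (min b d ≤ e.2.1 ∧ e.2.1 ≤ max b d) := by
      intro a' b' e he hn h1 h2 h3
      obtain ⟨C, k1, k2, k3⟩ := ih (a', b') (c, d) hn
      refine ⟨insert e C, ?_, ?_, ?_⟩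
      · refine (Adj.reach ⟨e, by simp, he⟩).trans (k1.mono ?_)
        rw [Finset.coe_insert]
        exact Set.subset_insert _ _
      · have := Finset.card_insert_le e C
        omega
      · intro e' he'
        rcases Finset.mem_insert.mp he' with rfl | he'
        · exact h3
        · have := k3 e' he'
          simp only at this
          omega
    rcases lt_trichotomy a c with h1 | h1 | h1
    · refine key (a + 1) b (a, b, true) (Or.inl ⟨rfl, rfl⟩) ?_ ?_ ?_ ?_
      · rw [abs_of_neg (by omega : a - c < 0)] at h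
        rw [abs_of_nonpos (by omega : a + 1 - c ≤ 0)]
        omega
      · omega
      · omega
      · simp only; omega
    · rcases lt_trichotomy b d with h2 | h2 | h2
      · refine key a (b + 1) (a, b, false) (Or.inl ⟨rfl, rfl⟩) ?_ ?_ ?_ ?_
        · rw [abs_of_neg (by omega : b - d < 0)] at h
          rw [abs_of_nonpos (by omega : b + 1 - d ≤ 0)]
          omega
        · omega
        · omega
        · simp only; omega
      · subst h1 h2
        exact ⟨∅, Reach.refl _ _, by simp, by simp⟩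
      · refine key a (b - 1) (a, b - 1, false) (Or.inr ⟨rfl, by rw [tgt_false]; congr 1; ring⟩)
          ?_ ?_ ?_ ?_
        · rw [abs_of_pos (by omega : 0 < b - d)] at h
          rw [abs_of_nonneg (by omega : 0 ≤ b - 1 - d)]
          omega
        · omega
        · omega
        · simp only; omega
    · refine key (a - 1) b (a - 1, b, true) (Or.inr ⟨rfl, by rw [tgt_true]; congr 1; ring⟩)
        ?_ ?_ ?_ ?_
      · rw [abs_of_pos (by omega : 0 < a - c)] at h
        rw [abs_of_nonneg (by omega : 0 ≤ a - 1 - c)]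
        omega
      · omega
      · omega
      · simp only; omega

theorem card_sdiff_union3 (A B C G : Finset Edg) :
    ((A ∪ B ∪ C) \ G).card ≤ A.card + (B \ G).card + C.card := by
  have hs : (A ∪ B ∪ C) \ G ⊆ A ∪ (B \ G) ∪ C := by
    intro e he
    simp only [Finset.mem_sdiff, Finset.mem_union] at he ⊢
    tauto
  have c1 := Finset.card_le_card hs
  have c2 := Finset.card_union_le (A ∪ (B \ G)) C
  have c3 := Finset.card_union_le A (B \ G)
  omega

/-- A cheap horizontal move. -/
theorem hmove {l : ℕ} (hl : 1 ≤ l) (a b P : ℤ) (G : Finset Edg) : ∃ C : Finset Edg,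
    Reach ↑C (a, b) (a + P, b) ∧
      (C \ G).card ≤ hcost l (a + min 0 P, b) (P.natAbs / l) G + 4 * l ∧
      ∀ e ∈ C, (a + min 0 P ≤ e.1 ∧ e.1 ≤ a + max 0 P + 2 * l) ∧ (b ≤ e.2.1 ∧ e.2.1 ≤ b + l) := by
  have hl' : (0:ℤ) < l := by exact_mod_cast hl
  obtain ⟨N, hN⟩ : ∃ N : ℕ, N = P.natAbs / l := ⟨_, rfl⟩
  have hN1 : N * l ≤ P.natAbs := by rw [hN]; exact Nat.div_mul_le_self _ _
  have hN2 : P.natAbs < (N + 1) * l := by
    rw [hN, mul_comm]; exact Nat.lt_mul_div_succ _ (by omega)
  have hN1' : (N:ℤ) * l ≤ |P| := by rw [← Int.natCast_natAbs]; exact_mod_cast hN1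
  have hN2' : |P| < ((N:ℤ) + 1) * l := by rw [← Int.natCast_natAbs]; exact_mod_cast hN2
  rw [← hN]
  obtain ⟨C, h1, h2, y, y', h3, h4, h5⟩ := hchain hl' (a + min 0 P, b) G N
  simp only at h1 h3 h4 h5
  obtain ⟨X, hX⟩ : ∃ X : ℤ, X = (N:ℤ) * l := ⟨_, rfl⟩
  have e1 : ((N:ℤ) + 2) * l = X + 2 * l := by rw [hX]; ring
  have e2 : ((N:ℤ) + 1) * l = X + l := by rw [hX]; ring
  rw [e1] at h1 h5
  rw [e2] at hN2'
  rw [← hX] at hN1'
  have hC : ∀ e ∈ C, (a + min 0 P ≤ e.1 ∧ e.1 ≤ a + max 0 P + 2 * l) ∧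
      (b ≤ e.2.1 ∧ e.2.1 ≤ b + l) := by
    rintro ⟨x, z, t⟩ he
    have := h1 he
    rcases le_total 0 P with hP | hP
    · rw [abs_of_nonneg hP] at hN1' hN2'
      rw [min_eq_left hP] at this ⊢
      rw [max_eq_right hP]
      cases t
      · rw [mem_RE_false] at this; simp only; omega
      · rw [mem_RE_true] at this; simp only; omega
    · rw [abs_of_nonpos hP] at hN1' hN2'
      rw [min_eq_right hP] at this ⊢
      rw [max_eq_left hP]
      cases t
      · rw [mem_RE_false] at this; simp only; omega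
      · rw [mem_RE_true] at this; simp only; omega
  rcases le_total 0 P with hP | hP
  · rw [abs_of_nonneg hP] at hN1' hN2'
    rw [min_eq_left hP] at h5 h2 hC ⊢
    rw [max_eq_right hP] at hC ⊢
    obtain ⟨S1, k1, k2, k3⟩ := seg l (a, b) (a + 0, y) (by
      simp only
      have e3 : a - (a + 0) = 0 := by ring
      rw [e3, abs_zero, zero_add, abs_le]
      omega)
    obtain ⟨S2, l1, l2, l3⟩ := seg (3 * l) (a + 0 + (X + 2 * l), y') (a + P, b) (by
      simp only
      have i1 : |a + 0 + (X + 2 * l) - (a + P)| ≤ 2 * l := by rw [abs_le]; omega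
      have i2 : |y' - b| ≤ l := by rw [abs_le]; omega
      push_cast
      omega)
    refine ⟨S1 ∪ C ∪ S2, ?_, ?_, ?_⟩
    · refine (k1.mono ?_).trans ((h5.mono ?_).trans (l1.mono ?_)) <;> intro e he <;>
        simp only [Finset.coe_union, Set.mem_union] <;> tauto
    · have := card_sdiff_union3 S1 C S2 G
      omega
    · intro e he
      simp only [Finset.mem_union] at he
      rcases he with (he | he) | he
      · have := k3 e he
        simp only at this
        omega
      · exact hC e he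
      · have := l3 e he
        simp only at this
        omega
  · rw [abs_of_nonpos hP] at hN1' hN2'
    rw [min_eq_right hP] at h5 h2 hC ⊢
    rw [max_eq_left hP] at hC ⊢
    obtain ⟨S1, k1, k2, k3⟩ := seg (3 * l) (a, b) (a + P + (X + 2 * l), y') (by
      simp only
      have i1 : |a - (a + P + (X + 2 * l))| ≤ 2 * l := by rw [abs_le]; omega
      have i2 : |b - y'| ≤ l := by rw [abs_le]; omega
      push_cast
      omega)
    obtain ⟨S2, l1, l2, l3⟩ := seg l (a + P, y) (a + P, b) (by
      simp only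
      rw [sub_self, abs_zero, zero_add, abs_le]
      omega)
    refine ⟨S1 ∪ C ∪ S2, ?_, ?_, ?_⟩
    · refine (k1.mono ?_).trans ((h5.symm.mono ?_).trans (l1.mono ?_)) <;> intro e he <;>
        simp only [Finset.coe_union, Set.mem_union] <;> tauto
    · have := card_sdiff_union3 S1 C S2 G
      omega
    · intro e he
      simp only [Finset.mem_union] at he
      rcases he with (he | he) | he
      · have := k3 e he
        simp only at this
        omega
      · exact hC e he
      · have := l3 e he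
        simp only at this
        omega

/-- A cheap path to `(P, Q)`. -/
theorem path_up {l : ℕ} (hl : 1 ≤ l) (P Q : ℤ) (G : Finset Edg) : ∃ C : Finset Edg,
    Reach ↑C (0, 0) (P, Q) ∧
      (C \ G).card ≤ hcost l (min 0 P, 0) (P.natAbs / l) G +
        hcost l (min 0 Q, P) (Q.natAbs / l) (tps.mp G) + 8 * l ∧
      ∀ e ∈ C, (min 0 P ≤ e.1 ∧ e.1 ≤ max 0 P + 2 * l) ∧
        (min 0 Q ≤ e.2.1 ∧ e.2.1 ≤ max 0 Q + 2 * l) := by
  obtain ⟨C1, h1, h2, h3⟩ := hmove hl 0 0 P G
  obtain ⟨C2, k1, k2, k3⟩ := hmove hl 0 P Q (tps.mp G)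
  simp only [zero_add] at h1 h2 h3 k1 k2 k3
  refine ⟨C1 ∪ tps.mp C2, ?_, ?_, ?_⟩
  · have h4 := tps.reach k1
    rw [tps_ψ, tps_ψ, ← LSym.coe_mp] at h4
    refine (h1.mono ?_).trans (h4.mono ?_) <;> intro e he <;>
        simp only [Finset.coe_union, Set.mem_union] <;> tauto
  · have hs : (C1 ∪ tps.mp C2) \ G ⊆ (C1 \ G) ∪ (tps.mp (C2 \ tps.mp G)) := by
      rw [LSym.mp_sdiff, tps_tps]
      intro e he
      simp only [Finset.mem_sdiff, Finset.mem_union] at he ⊢
      tauto
    have c1 := Finset.card_le_card hs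
    have c2 := Finset.card_union_le (C1 \ G) (tps.mp (C2 \ tps.mp G))
    have c3 : (tps.mp (C2 \ tps.mp G)).card = (C2 \ tps.mp G).card := by
      unfold LSym.mp; exact Finset.card_map _
    omega
  · rintro ⟨x, y, b⟩ he
    rw [Finset.mem_union] at he
    rcases he with he | he
    · have := h3 _ he
      simp only at this ⊢
      omega
    · rw [LSym.mem_mp, tps_φs] at he
      have := k3 _ he
      simp only at this ⊢
      omega

end Pool.Agent.Helper59_BN
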