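import Pool.Agent.Helper59_BN.Lower
import Pool.Agent.Helper59_BN.Flow
import Pool.Agent.H974R2.Circ

/-!
Lower bound of passage times by a Peierls argument over blocks.
-/

namespace Pool.Agent.Helper59_BN

open H974

/-- The block of a face. -/
def blk (s : ℤ) (v : Vtx) : Vtx := (v.1 / s, v.2 / s)

/-- The distance of blocks. -/
def bdd (a b : Vtx) : ℤ := max |a.1 - b.1| |a.2 - b.2|

theorem bdd_le {a b : Vtx} {n : ℤ} : bdd a b ≤ n ↔
    (-n ≤ a.1 - b.1 ∧ a.1 - b.1 ≤ n) ∧ (-n ≤ a.2 - b.2 ∧ a.2 - b.2 ≤ n) := by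
  unfold bdd
  rw [max_le_iff, abs_le, abs_le]

theorem le_bdd {a b : Vtx} {n : ℤ} (hn : 0 < n) : n ≤ bdd a b ↔
    (n ≤ a.1 - b.1 ∨ a.1 - b.1 ≤ -n) ∨ (n ≤ a.2 - b.2 ∨ a.2 - b.2 ≤ -n) := by
  rw [← not_iff_not, not_le, ← Int.le_sub_one_iff, bdd_le]
  omega

theorem bdd_symm (a b : Vtx) : bdd a b = bdd b a := by
  unfold bdd
  rw [abs_sub_comm a.1, abs_sub_comm a.2]

theorem bdd_triangle (a b c : Vtx) : bdd a c ≤ bdd a b + bdd b c := by
  rw [bdd_le]
  have h1 := (bdd_le (a := a) (b := b)).mp le_rfl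
  have h2 := (bdd_le (a := b) (b := c)).mp le_rfl
  omega

theorem blk_step {s : ℤ} (hs : 1 ≤ s) {A : Set Edg} {u v : Vtx} (h : DAdj A u v) :
    bdd (blk s u) (blk s v) ≤ 1 := by
  have key : ∀ x y : ℤ, x = y ∨ x = y + 1 ∨ y = x + 1 → -1 ≤ x / s - y / s ∧ x / s - y / s ≤ 1 := by
    intro x y hxy
    have h1 := Int.emod_add_mul_ediv x s
    have h2 := Int.emod_add_mul_ediv y s
    have h3 := Int.emod_nonneg x (show s ≠ 0 by omega)
    have h4 := Int.emod_nonneg y (show s ≠ 0 by omega)
    have h5 := Int.emod_lt_of_pos x (show 0 < s by omega)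
    have h6 := Int.emod_lt_of_pos y (show 0 < s by omega)
    obtain ⟨d, hd⟩ : ∃ d, d = x / s - y / s := ⟨_, rfl⟩
    have h7 : s * d = s * (x / s) - s * (y / s) := by rw [hd]; ring
    rw [← hd]
    constructor
    · by_contra hcon
      have : s * d ≤ s * (-2) := mul_le_mul_of_nonneg_left (by omega) (by omega)
      omega
    · by_contra hcon
      have : s * 2 ≤ s * d := mul_le_mul_of_nonneg_left (by omega) (by omega)
      omega
  have hcoord : (u.1 = v.1 ∨ u.1 = v.1 + 1 ∨ v.1 = u.1 + 1) ∧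
      (u.2 = v.2 ∨ u.2 = v.2 + 1 ∨ v.2 = u.2 + 1) := by
    obtain ⟨⟨x, y, b⟩, -, hc⟩ := h
    cases b
    · rcases hc with ⟨rfl, rfl⟩ | ⟨rfl, rfl⟩ <;> simp
    · rcases hc with ⟨rfl, rfl⟩ | ⟨rfl, rfl⟩ <;> simp
  rw [bdd_le]
  exact ⟨key _ _ hcoord.1, key _ _ hcoord.2⟩

/-- A path with its cumulated cost. -/
structure Trace (A B : Set Edg) (y : ℕ → Vtx) (t : ℕ → ℕ) (m : ℕ) : Prop where
  step : ∀ i < m, (t (i + 1) = t i ∧ DAdj A (y i) (y (i + 1))) ∨
    (t (i + 1) = t i + 1 ∧ DAdj B (y i) (y (i + 1)))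

theorem exists_trace {A B : Set Edg} {f g : Vtx} {n : ℕ} (h : DC A B f g n) :
    ∃ y t m, Trace A B y t m ∧ y 0 = f ∧ y m = g ∧ t 0 = 0 ∧ t m = n := by
  induction h with
  | refl => exact ⟨fun _ => f, fun _ => 0, 0, ⟨by intro i hi; omega⟩, rfl, rfl, rfl, rfl⟩
  | @free g h k _ hs ih =>
    obtain ⟨y, t, m, h1, h2, h3, h4, h5⟩ := ih
    refine ⟨fun i => if i ≤ m then y i else h, fun i => if i ≤ m then t i else k, m + 1, ⟨?_⟩,
      by simp [h2], by simp, by simp [h4], by simp⟩
    intro i hi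
    rcases Nat.lt_succ_iff_lt_or_eq.mp hi with hi' | rfl
    · simp only [if_pos hi'.le, if_pos (show i + 1 ≤ m from hi')]
      exact h1.step i hi'
    · left
      simp only [if_pos le_rfl, if_neg (show ¬ i + 1 ≤ i by omega), h3, h5]
      exact ⟨trivial, hs⟩
  | @pay g h k _ hs ih =>
    obtain ⟨y, t, m, h1, h2, h3, h4, h5⟩ := ih
    refine ⟨fun i => if i ≤ m then y i else h, fun i => if i ≤ m then t i else k + 1, m + 1, ⟨?_⟩,
      by simp [h2], by simp, by simp [h4], by simp⟩
    intro i hi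
    rcases Nat.lt_succ_iff_lt_or_eq.mp hi with hi' | rfl
    · simp only [if_pos hi'.le, if_pos (show i + 1 ≤ m from hi')]
      exact h1.step i hi'
    · right
      simp only [if_pos le_rfl, if_neg (show ¬ i + 1 ≤ i by omega), h3, h5]
      exact ⟨trivial, hs⟩

theorem Trace.mono_t {A B : Set Edg} {y : ℕ → Vtx} {t : ℕ → ℕ} {m : ℕ} (h : Trace A B y t m)
    {i j : ℕ} (hij : i ≤ j) (hj : j ≤ m) : t i ≤ t j := by
  induction j, hij using Nat.le_induction with
  | base => exact le_rfl
  | succ j hij ih =>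
    have := ih (by omega)
    rcases h.step j (by omega) with h1 | h1 <;> omega

theorem Trace.free {A B : Set Edg} {y : ℕ → Vtx} {t : ℕ → ℕ} {m : ℕ} (h : Trace A B y t m)
    {i j : ℕ} (hij : i ≤ j) (hj : j ≤ m) (ht : t i = t j) : DReach A (y i) (y j) := by
  induction j, hij using Nat.le_induction with
  | base => exact DReach.refl _ _
  | succ j hij ih =>
    have h1 := h.mono_t hij (by omega)
    rcases h.step j (by omega) with h2 | h2
    · exact (ih (by omega) (by omega)).trans h2.2.reach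
    · omega

/-- A free path leads from the block to the outside of the neighbouring blocks. -/
def Bd (A : Set Edg) (s : ℤ) (k : Vtx) : Prop :=
  ∃ u v, blk s u = k ∧ 2 ≤ bdd (blk s v) k ∧ DReach A u v

open Classical in
/-- The last-exit chain of blocks of a path. -/
theorem chain_ex {A B : Set Edg} {s : ℤ} (hs : 1 ≤ s) {y : ℕ → Vtx} {t : ℕ → ℕ} {m : ℕ}
    (h : Trace A B y t m) : ∀ J i0 : ℕ, i0 ≤ m → 2 * (J:ℤ) ≤ bdd (blk s (y m)) (blk s (y i0)) →
    ∃ κ : ℕ → Vtx, κ 0 = blk s (y i0) ∧ (∀ j < J, bdd (κ j) (κ (j + 1)) ≤ 2) ∧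
      (∀ j j', j < j' → j' ≤ J → 2 ≤ bdd (κ j) (κ j')) ∧
      (∀ j ≤ J, ∃ i, i0 ≤ i ∧ i ≤ m ∧ κ j = blk s (y i)) ∧
      ((Finset.range J).filter (fun j => ¬ Bd A s (κ j))).card + t i0 ≤ t m := by
  intro J
  induction J with
  | zero =>
    intro i0 hi0 _
    exact ⟨fun _ => blk s (y i0), rfl, by intro j hj; omega, by intro j j' h1 h2; omega,
      fun j _ => ⟨i0, le_rfl, hi0, rfl⟩, by simpa using h.mono_t hi0 le_rfl⟩
  | succ J ih =>
    intro i0 hi0 hd
    push_cast at hd
    -- the last visit of the neighbourhood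
    obtain ⟨σ, hσ⟩ : ∃ σ, σ = Nat.findGreatest
      (fun i => i0 ≤ i ∧ bdd (blk s (y i)) (blk s (y i0)) ≤ 1) m := ⟨_, rfl⟩
    have h0 : bdd (blk s (y i0)) (blk s (y i0)) ≤ 1 := by rw [bdd_le]; omega
    have h1 : i0 ≤ σ ∧ bdd (blk s (y σ)) (blk s (y i0)) ≤ 1 := by
      rw [hσ]
      exact Nat.findGreatest_spec
        (P := fun i => i0 ≤ i ∧ bdd (blk s (y i)) (blk s (y i0)) ≤ 1) hi0 ⟨le_rfl, h0⟩
    have h2 : σ ≤ m := hσ ▸ Nat.findGreatest_le m
    have h3 : ∀ i, σ < i → i ≤ m → 2 ≤ bdd (blk s (y i)) (blk s (y i0)) := by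
      intro i hi him
      have := Nat.findGreatest_is_greatest
        (P := fun i => i0 ≤ i ∧ bdd (blk s (y i)) (blk s (y i0)) ≤ 1) (hσ ▸ hi) him
      by_contra hcon
      exact this ⟨by omega, by omega⟩
    have h4 : σ < m := by
      rcases eq_or_lt_of_le h2 with h5 | h5
      · rw [h5] at h1
        omega
      · exact h5
    have h5 : bdd (blk s (y (σ + 1))) (blk s (y i0)) ≤ 2 := by
      have h6 : bdd (blk s (y σ)) (blk s (y (σ + 1))) ≤ 1 := by
        rcases h.step σ h4 with h7 | h7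
        · exact blk_step hs h7.2
        · exact blk_step hs h7.2
      have h7 := bdd_triangle (blk s (y (σ + 1))) (blk s (y σ)) (blk s (y i0))
      rw [bdd_symm (blk s (y (σ + 1))) (blk s (y σ))] at h7
      omega
    have h6 := bdd_triangle (blk s (y m)) (blk s (y (σ + 1))) (blk s (y i0))
    obtain ⟨κ, k1, k2, k3, k4, k5⟩ := ih (σ + 1) (by omega) (by omega)
    refine ⟨fun j => if j = 0 then blk s (y i0) else κ (j - 1), by simp, ?_, ?_, ?_, ?_⟩
    · intro j hj
      rcases Nat.eq_zero_or_pos j with rfl | hj0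
      · simp only [if_pos rfl, zero_add, if_neg (show ¬ (1:ℕ) = 0 by omega), Nat.sub_self, k1]
        rw [bdd_symm]
        exact h5
      · simp only [if_neg (show ¬ j = 0 by omega), if_neg (show ¬ j + 1 = 0 by omega),
          Nat.add_sub_cancel]
        have := k2 (j - 1) (by omega)
        rwa [Nat.sub_add_cancel (by omega)] at this
    · intro j j' hjj hj'
      simp only [if_neg (show ¬ j' = 0 by omega)]
      rcases Nat.eq_zero_or_pos j with rfl | hj0
      · simp only [if_pos rfl]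
        obtain ⟨i, hi1, hi2, hi3⟩ := k4 (j' - 1) (by omega)
        rw [hi3, bdd_symm]
        exact h3 i (by omega) hi2
      · simp only [if_neg (show ¬ j = 0 by omega)]
        exact k3 _ _ (by omega) (by omega)
    · intro j hj
      rcases Nat.eq_zero_or_pos j with rfl | hj0
      · exact ⟨i0, le_rfl, hi0, by simp⟩
      · simp only [if_neg (show ¬ j = 0 by omega)]
        obtain ⟨i, hi1, hi2, hi3⟩ := k4 (j - 1) (by omega)
        exact ⟨i, by omega, hi2, hi3⟩
    · -- the cost
      have hsub : (Finset.range (J + 1)).filter (fun j => ¬ Bd A s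
          ((fun j => if j = 0 then blk s (y i0) else κ (j - 1)) j)) ⊆
          ((Finset.range 1).filter (fun _ => ¬ Bd A s (blk s (y i0)))) ∪
          (((Finset.range J).filter (fun j => ¬ Bd A s (κ j))).image (fun j => j + 1)) := by
        intro j hj
        rw [Finset.mem_filter, Finset.mem_range] at hj
        rw [Finset.mem_union]
        rcases Nat.eq_zero_or_pos j with rfl | hj0
        · left
          rw [Finset.mem_filter, Finset.mem_range]
          exact ⟨by omega, by simpa using hj.2⟩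
        · right
          rw [Finset.mem_image]
          refine ⟨j - 1, ?_, by omega⟩
          rw [Finset.mem_filter, Finset.mem_range]
          refine ⟨by omega, ?_⟩
          have := hj.2
          simpa only [if_neg (show ¬ j = 0 by omega)] using this
      have c1 := Finset.card_le_card hsub
      have c2 := Finset.card_union_le ((Finset.range 1).filter (fun _ => ¬ Bd A s (blk s (y i0))))
        (((Finset.range J).filter (fun j => ¬ Bd A s (κ j))).image (fun j => j + 1))
      have c3 : (((Finset.range J).filter (fun j => ¬ Bd A s (κ j))).image (fun j => j + 1)).card ≤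
        ((Finset.range J).filter (fun j => ¬ Bd A s (κ j))).card := Finset.card_image_le
      have c4 : ((Finset.range 1).filter (fun _ => ¬ Bd A s (blk s (y i0)))).card + t i0 ≤
          t (σ + 1) := by
        have c5 := h.mono_t (show i0 ≤ σ + 1 by omega) (by omega)
        by_cases hb : Bd A s (blk s (y i0))
        · rw [Finset.filter_false_of_mem (by intro _ _; simpa using hb)]
          simpa using c5
        · have c6 : t i0 ≠ t (σ + 1) := by
            intro heq
            exact hb ⟨y i0, y (σ + 1), rfl, h3 _ (by omega) (by omega),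
              h.free (by omega) (by omega) heq⟩
          have c7 := Finset.card_filter_le (Finset.range 1) (fun _ => ¬ Bd A s (blk s (y i0)))
          rw [Finset.card_range] at c7
          omega
      omega

/-- There are at most `25 ^ J` chains. -/
theorem chains_card (k0 : Vtx) : ∀ J : ℕ, ∃ I : Finset (ℕ → Vtx), I.card ≤ 25 ^ J ∧
    ∀ κ : ℕ → Vtx, κ 0 = k0 → (∀ j < J, bdd (κ j) (κ (j + 1)) ≤ 2) →
      ∃ κ' ∈ I, ∀ j ≤ J, κ' j = κ j := by
  classical
  intro J
  induction J with
  | zero =>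
    refine ⟨{fun _ => k0}, by simp, fun κ h0 _ => ⟨fun _ => k0, by simp, ?_⟩⟩
    intro j hj
    rw [Nat.le_zero.mp hj, h0]
  | succ J ih =>
    obtain ⟨I, hI, hI'⟩ := ih
    refine ⟨(I ×ˢ (Finset.Icc (-2:ℤ) 2 ×ˢ Finset.Icc (-2:ℤ) 2)).image
      (fun q => fun j => if j ≤ J then q.1 j else (q.1 J).1 + q.2.1 |> fun a =>
        (a, (q.1 J).2 + q.2.2)), ?_, ?_⟩
    · refine Finset.card_image_le.trans ?_
      rw [Finset.card_product, Finset.card_product, Int.card_Icc]
      have : ((2:ℤ) + 1 - -2).toNat = 5 := by decide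
      rw [this, pow_succ]
      have := Nat.mul_le_mul_right (5 * 5) hI
      linarith
    · intro κ h0 hstep
      obtain ⟨κ', hκ', hκ''⟩ := hI' κ h0 (fun j hj => hstep j (by omega))
      refine ⟨_, Finset.mem_image.mpr ⟨(κ', ((κ (J + 1)).1 - (κ J).1, (κ (J + 1)).2 - (κ J).2)),
        ?_, rfl⟩, ?_⟩
      · have h1 := bdd_le.mp (hstep J (by omega))
        rw [Finset.mem_product, Finset.mem_product, Finset.mem_Icc, Finset.mem_Icc]
        refine ⟨hκ', ?_, ?_⟩
        · simp only; omega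
        · simp only; omega
      · intro j hj
        simp only
        by_cases hjJ : j ≤ J
        · rw [if_pos hjJ]; exact hκ'' j hjJ
        · rw [if_neg hjJ]
          have : j = J + 1 := by omega
          rw [this, hκ'' J le_rfl]
          simp

end Pool.Agent.Helper59_BN
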