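import Pool.Agent.Helper59_BN.ChainR

/-!
The chains with large steps have few bad blocks.
-/

namespace Pool.Agent.Helper59_BN

open H974

/-- Few blocks of a chain are bad. -/
theorem pr_many {q ε : ℝ} (h0 : 0 ≤ q) (h1 : q ≤ 1) (hε : 0 ≤ ε) {L : ℤ} (hL : 0 < L) {R : ℕ}
    (Bd : Vtx → Finset Edg → Prop) (hloc : ∀ k G, Bd k G ↔ Bd k (G ∩ bx L k (R + 1)))
    {U : Finset Edg} {J : ℕ} {κ : ℕ → Vtx} (hU : ∀ j < J, bx L (κ j) (R + 1) ⊆ U)
    (hdist : ∀ j j', j < j' → j' < J → κ j ≠ κ j')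
    (hB : ∀ j < J, Pr (fun _ => q) U (Bd (κ j)) ≤ ε) (m : ℕ) :
    Pr (fun _ => q) U (fun G => ∃ I ∈ (Finset.range J).powersetCard ((2 * R + 4) ^ 2 * m),
      ∀ j ∈ I, Bd (κ j) G) ≤ ((2 * R + 4) ^ 2 : ℕ) * (2 ^ J * ε ^ m) := by
  classical
  obtain ⟨n, hn⟩ : ∃ n : ℤ, n = 2 * (R:ℤ) + 4 := ⟨_, rfl⟩
  obtain ⟨cl, hcl⟩ : ∃ cl : Vtx → ℤ × ℤ, cl = fun k => (k.1 % n, k.2 % n) := ⟨_, rfl⟩
  obtain ⟨T, hT⟩ : ∃ T : Finset (ℤ × ℤ), T = Finset.Ico (0:ℤ) n ×ˢ Finset.Ico (0:ℤ) n :=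
    ⟨_, rfl⟩
  have hTc : T.card = (2 * R + 4) ^ 2 := by
    rw [hT, Finset.card_product, Int.card_Ico, sq]
    have : (n - 0).toNat = 2 * R + 4 := by omega
    rw [this]
  have hin : ∀ k : Vtx, cl k ∈ T := by
    intro k
    rw [hT, Finset.mem_product, Finset.mem_Ico, Finset.mem_Ico, hcl]
    simp only
    exact ⟨⟨Int.emod_nonneg _ (by omega), Int.emod_lt_of_pos _ (by omega)⟩,
      ⟨Int.emod_nonneg _ (by omega), Int.emod_lt_of_pos _ (by omega)⟩⟩
  have hfar : ∀ k k' : Vtx, k ≠ k' → cl k = cl k' → 2 * ((R:ℤ) + 1) + 2 ≤ bdd k k' := by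
    rintro ⟨a, b⟩ ⟨a', b'⟩ hne hc
    rw [hcl] at hc
    simp only [Prod.mk.injEq] at hc
    rw [le_bdd (by omega)]
    simp only
    by_contra hcon
    push Not at hcon
    apply hne
    have key : ∀ x y : ℤ, x % n = y % n → x - y < n → -n < x - y → x = y := by
      intro x y hxy h2 h3
      have h4 : n ∣ x - y := Int.ModEq.dvd (Int.ModEq.symm hxy)
      have h5 : x - y = 0 := Int.eq_zero_of_abs_lt_dvd h4 (abs_lt.mpr ⟨h3, h2⟩)
      omega
    rw [key a a' hc.1 (by omega) (by omega), key b b' hc.2 (by omega) (by omega)]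
  obtain ⟨I, hI⟩ : ∃ I : ℤ × ℤ → Finset ℕ, I = fun c =>
    (Finset.range J).filter (fun j => cl (κ j) = c) := ⟨_, rfl⟩
  have hor : Pr (fun _ => q) U (fun G => ∃ I ∈ (Finset.range J).powersetCard
      ((2 * R + 4) ^ 2 * m), ∀ j ∈ I, Bd (κ j) G) ≤
      Pr (fun _ => q) U (fun G => ∃ c ∈ T, ∃ J ∈ (I c).powersetCard m, ∀ j ∈ J, Bd (κ j) G) := by
    apply Pr_mono (okq h0 h1)
    rintro G _ ⟨J', hJ, hJB⟩
    rw [Finset.mem_powersetCard] at hJ
    by_contra hcon
    push Not at hcon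
    have h2 : ∀ c ∈ T, (J'.filter (fun j => cl (κ j) = c)).card < m := by
      intro c hc
      by_contra h3
      obtain ⟨J'', hJ', hJ''⟩ := Finset.exists_subset_card_eq (not_lt.mp h3)
      have h4 := hcon c hc J'' (by
        rw [Finset.mem_powersetCard, hI]
        refine ⟨?_, hJ''⟩
        intro j hj
        have h5 := Finset.mem_filter.mp (hJ' hj)
        exact Finset.mem_filter.mpr ⟨hJ.1 h5.1, h5.2⟩)
      obtain ⟨j, hj, hjB⟩ := h4
      exact hjB (hJB j (Finset.mem_filter.mp (hJ' hj)).1)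
    have h3 : J'.card = ∑ c ∈ T, (J'.filter (fun j => cl (κ j) = c)).card :=
      Finset.card_eq_sum_card_fiberwise (fun j _ => hin (κ j))
    rcases Nat.eq_zero_or_pos m with hm | hm
    · have := h2 (cl (0, 0)) (hin _)
      omega
    · have h4 : ∑ c ∈ T, (J'.filter (fun j => cl (κ j) = c)).card ≤ ∑ c ∈ T, (m - 1) :=
        Finset.sum_le_sum (fun c hc => by have := h2 c hc; omega)
      rw [Finset.sum_const, smul_eq_mul, hTc] at h4
      have h5 : (2 * R + 4) ^ 2 * (m - 1) < (2 * R + 4) ^ 2 * m :=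
        Nat.mul_lt_mul_of_pos_left (by omega) (by positivity)
      omega
  refine hor.trans ((Pr_exists_le h0 h1 U T _).trans ?_)
  have hone : ∀ c ∈ T, Pr (fun _ => q) U (fun G => ∃ J ∈ (I c).powersetCard m,
      ∀ j ∈ J, Bd (κ j) G) ≤ 2 ^ J * ε ^ m := by
    intro c _
    have hmem : ∀ j ∈ I c, j < J ∧ cl (κ j) = c := by
      intro j hj
      rw [hI] at hj
      have := Finset.mem_filter.mp hj
      exact ⟨Finset.mem_range.mp this.1, this.2⟩
    refine (pr_count h0 h1 hε (I c) (fun j => bx L (κ j) (R + 1)) (fun j => Bd (κ j))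
      ?_ ?_ ?_ ?_ m).trans ?_
    · intro j hj
      exact hU j (hmem j hj).1
    · intro j hj j' hj' hne
      apply bx_disj hL (by omega)
      apply hfar
      · rcases Nat.lt_or_gt_of_ne hne with h | h
        · exact hdist j j' h (hmem j' hj').1
        · exact (hdist j' j h (hmem j hj).1).symm
      · rw [(hmem j hj).2, (hmem j' hj').2]
    · intro j _ F _
      exact hloc _ _
    · intro j hj
      exact hB j (hmem j hj).1
    · apply mul_le_mul_of_nonneg_right _ (by positivity)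
      apply pow_le_pow_right₀ (by norm_num)
      have h5 : (I c).card ≤ (Finset.range J).card := by
        rw [hI]; exact Finset.card_filter_le _ _
      rwa [Finset.card_range] at h5
  refine (Finset.sum_le_sum hone).trans ?_
  rw [Finset.sum_const, hTc, nsmul_eq_mul]

/-- The block `κ` is bad. -/
def BadB (q : ℝ) (l : ℤ) (R s D : ℕ) (κ : Vtx) (G : Finset Edg) : Prop :=
  ∃ w ∈ ring R, (tt (bx (s * l) κ (R + 1)) (Qb (s * l) κ) (Qb (s * l) (κ + w)) G : ℝ) <
    EL q l (((R + 3) * s : ℕ)) (sm s w) - D * s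

theorem BadB_local {q : ℝ} {l : ℤ} {R s D : ℕ} (κ : Vtx) (G : Finset Edg) :
    BadB q l R s D κ G ↔ BadB q l R s D κ (G ∩ bx (s * l) κ (R + 1)) := by
  unfold BadB
  simp only [← tt_local (Finset.Subset.refl (bx (s * l) κ (R + 1)))]

theorem tt_ex {l : ℤ} (hl : 0 < l) {a b : Vtx} {r : ℤ} (hr : bdd a b + 1 ≤ r) (G : Finset Edg) :
    ∃ C : Finset Edg, C ⊆ bx l a r ∧ (C \ G).card ≤ tt (bx l a r) (Qb l a) (Qb l b) G ∧
      ∃ u ∈ Qb l a, ∃ v ∈ Qb l b, Reach ↑C u v := by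
  obtain ⟨k, C, h1, h2, z, h4, h5⟩ := LK_ex hl G hr (Finset.Subset.refl (bx l a r))
  obtain ⟨u, hu, hu'⟩ := h4.touch hl
  obtain ⟨v, hv, hv'⟩ := h5.touch hl
  exact tt_spec G h1 hu hv (hu'.trans hv'.symm)

theorem pr_BadB {q δ : ℝ} (h0 : 0 ≤ q) (h1 : q ≤ 1) {l : ℤ} (hl : 0 < l) (hδ : 0 < δ)
    (hδ1 : δ ≤ 1) (hh1 : δ ≤ hh q (2 * l) l) {R s : ℕ} (hR : 4 ≤ R) (hs : 1 ≤ s) {a : ℕ}
    (ha : 2 * (1 + 1 / δ) ≤ (1 + δ) ^ a) {ρ : ℝ} (hρ : ∀ w ∈ ring R,
      Pr (fun _ => q) (bx l 0 (((R + 3) * s : ℕ))) (fun G =>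
        (lk l (bx l 0 (((R + 3) * s : ℕ))) 0 (sm s w) G : ℝ) ≤
          EL q l (((R + 3) * s : ℕ)) (sm s w) - s) ≤ ρ) (κ : Vtx) {U : Finset Edg}
    (hU : bx l (sm s κ) (((R + 3) * s : ℕ)) ⊆ U) :
    Pr (fun _ => q) U (BadB q l R s (1 + 264 * a) κ) ≤
      (2 * R + 1 : ℕ) ^ 2 * (ρ + 88 * (1/2) ^ (3 * s)) := by
  have hL : 0 < (s:ℤ) * l := by positivity
  have hs' : (1:ℤ) ≤ s := by exact_mod_cast hs
  obtain ⟨S, hS⟩ : ∃ S : Finset Edg, S = bx l (sm s κ) (((R + 3) * s : ℕ)) := ⟨_, rfl⟩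
  rw [← hS] at hU
  have b1 : bx (s * l) κ (R + 1) ⊆ S := by
    rw [hS]
    apply bx_big hl hs κ
    push_cast
    nlinarith
  have hone : ∀ w ∈ ring R, Pr (fun _ => q) U (fun G =>
      (tt (bx (s * l) κ (R + 1)) (Qb (s * l) κ) (Qb (s * l) (κ + w)) G : ℝ) <
      EL q l (((R + 3) * s : ℕ)) (sm s w) - (1 + 264 * a : ℕ) * s) ≤
      ρ + 88 * (1/2) ^ (3 * s) := by
    intro w hw
    have hρw := hρ w hw
    rw [mem_ring] at hw
    obtain ⟨m1, hm1⟩ : ∃ m1, m1 = EL q l (((R + 3) * s : ℕ)) (sm s w) := ⟨_, rfl⟩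
    rw [← hm1] at hρw ⊢
    have hbw : bdd κ (κ + w) = R := by
      rw [← hw]; unfold bdd; simp
    have b2 : bx (s * l) (κ + w) 1 ⊆ bx (s * l) κ (R + 1) := bx_subset hL (by
      rw [bdd_symm, hbw]; omega)
    have b3 : bx (s * l) κ 1 ⊆ bx (s * l) κ (R + 1) := bx_subset hL (by
      have : bdd κ κ = 0 := by simp [bdd]
      omega)
    have i1 := pr_hub h0 h1 hl hδ hδ1 hh1 hs κ (M := 3 * s) le_rfl ha (U := U)
      (b3.trans (b1.trans hU))
    have i2 := pr_hub h0 h1 hl hδ hδ1 hh1 hs (κ + w) (M := 3 * s) le_rfl ha (U := U)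
      (b2.trans (b1.trans hU))
    have i3 : Pr (fun _ => q) U (fun G =>
        (lk l (bx l (sm s κ) (((R + 3) * s : ℕ))) (sm s κ) (sm s κ + sm s w) G : ℝ) ≤ m1 - s) ≤
        ρ := by
      rw [pr_lk q (fun n => (n:ℝ) ≤ m1 - s) (sm s κ) (sm s w) (by rw [← hS]; exact hU)]
      exact hρw
    have hor : Pr (fun _ => q) U (fun G =>
        (tt (bx (s * l) κ (R + 1)) (Qb (s * l) κ) (Qb (s * l) (κ + w)) G : ℝ) <
        m1 - (1 + 264 * a : ℕ) * s) ≤
        Pr (fun _ => q) U (fun G => (44 * (a * (3 * s)) ≤ hub l s κ G) ∨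
          ((44 * (a * (3 * s)) ≤ hub l s (κ + w) G) ∨
          (lk l (bx l (sm s κ) (((R + 3) * s : ℕ))) (sm s κ) (sm s κ + sm s w) G : ℝ) ≤
            m1 - s)) := by
      apply Pr_mono (okq h0 h1)
      intro G _ hG
      by_contra hcon
      push Not at hcon
      obtain ⟨g1, g2, g3⟩ := hcon
      obtain ⟨C, c1, c2, u, hu, v, hv, c3⟩ := tt_ex hL (a := κ) (b := κ + w) (r := R + 1)
        (by rw [hbw]) G
      have hlink := LK_big hl hs (S := S) G (c1.trans b1) (b3.trans b1) (b2.trans b1)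
        (by rw [hbw]; omega) hu hv c3
      have e2 : (((s:ℤ) * (κ + w).1, (s:ℤ) * (κ + w).2) : Vtx) = sm s κ + sm s w := by
        unfold sm
        ext <;> simp <;> ring
      rw [e2] at hlink
      have h3 : lk l S (sm s κ) (sm s κ + sm s w) G ≤
          (C \ G).card + hub l s κ G + hub l s (κ + w) G := lk_le hlink
      rw [← hS] at g3
      have h4 : lk l S (sm s κ) (sm s κ + sm s w) G ≤
          tt (bx (s * l) κ (R + 1)) (Qb (s * l) κ) (Qb (s * l) (κ + w)) G + 264 * a * s := by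
        have : 264 * a * s = 44 * (a * (3 * s)) + 44 * (a * (3 * s)) := by ring
        omega
      have h5 : (lk l S (sm s κ) (sm s κ + sm s w) G : ℝ) ≤
          tt (bx (s * l) κ (R + 1)) (Qb (s * l) κ) (Qb (s * l) (κ + w)) G + 264 * a * s := by
        exact_mod_cast h4
      push_cast at hG
      linarith
    have j1 := Pr_or_le (okq h0 h1) U (fun G => 44 * (a * (3 * s)) ≤ hub l s κ G)
      (fun G => (44 * (a * (3 * s)) ≤ hub l s (κ + w) G) ∨
          (lk l (bx l (sm s κ) (((R + 3) * s : ℕ))) (sm s κ) (sm s κ + sm s w) G : ℝ) ≤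
            m1 - s)
    have j2 := Pr_or_le (okq h0 h1) U (fun G => 44 * (a * (3 * s)) ≤ hub l s (κ + w) G)
      (fun G => (lk l (bx l (sm s κ) (((R + 3) * s : ℕ))) (sm s κ) (sm s κ + sm s w) G : ℝ) ≤
            m1 - s)
    linarith
  refine (Pr_exists_le h0 h1 U (ring R) _).trans ((Finset.sum_le_sum hone).trans ?_)
  rw [Finset.sum_const, nsmul_eq_mul]
  have hc : ((ring R).card : ℝ) ≤ ((2 * R + 1 : ℕ) ^ 2 : ℕ) := by exact_mod_cast card_ring R
  have hpos : 0 ≤ ρ + 88 * (1/2) ^ (3 * s) := by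
    obtain ⟨w, hw⟩ : ∃ w, w ∈ ring R := ⟨((R:ℤ), 0), by rw [mem_ring]; simp [bdd]⟩
    have := (Pr_nonneg (okq h0 h1) _ _).trans (hρ w hw)
    positivity
  have := mul_le_mul_of_nonneg_right hc hpos
  push_cast at this ⊢
  exact this

/-- **The Peierls event.** -/
theorem peierls_R {l : ℤ} (hl : 0 < l) {R s D : ℕ} (hR0 : 1 ≤ R) (hs : 1 ≤ s) (KK : Finset Vtx) (T m : ℕ)
    (q : ℝ) :
    ∃ (U : Finset Edg) (Q : Finset Edg → Prop),
      (∀ ω, ¬ Q (GG U ω) → ∀ (f g : Vtx) (k : ℕ), blk (s * l) f ∈ KK →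
        DC (opn ω)ᶜ (opn ω) f g k → ∀ E : ℝ, (∀ w ∈ ring R,
          EL q l (((R + 3) * s : ℕ)) (sm s w) ≤ E) → 0 ≤ E → ∃ (J : ℕ) (κ : ℕ → Vtx),
          J ≤ T * m ∧ κ 0 = blk (s * l) f ∧ (∀ j < J, bdd (κ j) (κ (j + 1)) = R) ∧
          ∑ j ∈ Finset.range J, (EL q l (((R + 3) * s : ℕ)) (sm s (κ (j + 1) - κ j)) - D * s) -
            ((2 * R + 4) ^ 2 * m : ℕ) * E ≤ k ∧
          (J = T * m ∨ bdd (κ J) (blk (s * l) g) < R)) ∧
      ∀ ε : ℝ, 0 ≤ q → q ≤ 1 → 0 ≤ ε → (∀ (κ : Vtx) (U : Finset Edg),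
          bx l (sm s κ) (((R + 3) * s : ℕ)) ⊆ U → Pr (fun _ => q) U (BadB q l R s D κ) ≤ ε) →
        Pr (fun _ => q) U Q ≤ (KK.card : ℝ) * ((T * m + 1 : ℕ) * (((2 * R + 4) ^ 2 : ℕ) *
          (((2 * (2 * R + 1) ^ 2 : ℕ) : ℝ) ^ (T * m) * ε ^ m))) := by
  classical
  have hs' : (1:ℤ) ≤ s := by exact_mod_cast hs
  have hL : 0 < (s:ℤ) * l := by positivity
  have hch := fun (k0 : Vtx) (J : ℕ) => chains_card' R k0 J
  choose I hI hI' using hch
  obtain ⟨U, hU⟩ : ∃ U : Finset Edg, U = KK.biUnion (fun k0 =>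
      (Finset.range (T * m + 1)).biUnion (fun J => (I k0 J).biUnion (fun κ =>
      (Finset.range J).biUnion (fun j => bx l (sm s (κ j)) (((R + 3) * s : ℕ)))))) := ⟨_, rfl⟩
  have hTN : ∀ k0 ∈ KK, ∀ J ≤ T * m, ∀ κ ∈ I k0 J, ∀ j < J,
      bx l (sm s (κ j)) (((R + 3) * s : ℕ)) ⊆ U := by
    intro k0 hk0 J hJ κ hκ j hj e he
    rw [hU, Finset.mem_biUnion]
    refine ⟨k0, hk0, ?_⟩
    rw [Finset.mem_biUnion]
    refine ⟨J, Finset.mem_range.mpr (by omega), ?_⟩
    rw [Finset.mem_biUnion]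
    refine ⟨κ, hκ, ?_⟩
    rw [Finset.mem_biUnion]
    exact ⟨j, Finset.mem_range.mpr hj, he⟩
  have hsm : ∀ κ : Vtx, bx (s * l) κ (R + 1) ⊆ bx l (sm s κ) (((R + 3) * s : ℕ)) := by
    intro κ
    apply bx_big hl hs κ
    push_cast
    nlinarith
  refine ⟨U, fun G => ∃ k0 ∈ KK, ∃ J ∈ Finset.range (T * m + 1), ∃ κ ∈ I k0 J,
    (∀ j j', j < j' → j' < J → κ j ≠ κ j') ∧
      ∃ I ∈ (Finset.range J).powersetCard ((2 * R + 4) ^ 2 * m), ∀ j ∈ I,
        BadB q l R s D (κ j) G, ?_, ?_⟩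
  · intro ω hω f g k hf hd E hE hE0
    obtain ⟨y, t, n, h1, h2, h3, h4, h5⟩ := exists_trace hd
    · obtain ⟨J', κ, d, k1, k2, k3, -, k5, k6, k7⟩ := chain_ring (L := (s:ℤ) * l) (by omega) h1
        hR0 n 0 (by omega) (by omega)
      rw [h2] at k1
      rw [h3] at k5
      rw [h4, h5, add_zero] at k7
      obtain ⟨J, hJ⟩ : ∃ J, J = min J' (T * m) := ⟨_, rfl⟩
      have hJ1 : J ≤ J' := by omega
      have hJ2 : J ≤ T * m := by omega
      obtain ⟨κ', hκ', hκ''⟩ := hI' (blk (s * l) f) J κ k1 (fun j hj =>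
        (k2 j (by omega)).le)
      refine ⟨J, κ, hJ2, k1, fun j hj => k2 j (by omega), ?_, ?_⟩
      · obtain ⟨G, hG⟩ : ∃ G, G = GG U ω := ⟨_, rfl⟩
        rw [← hG] at hω
        -- the costs
        have hcost : ∀ j < J, tt (bx (s * l) (κ j) (R + 1)) (Qb (s * l) (κ j))
            (Qb (s * l) (κ (j + 1))) G ≤ d j := by
          intro j hj
          apply k6 j (by omega) G
          rw [hG, GG_coe]
          apply Set.inter_subset_inter_right
          have h7 := hTN _ hf J hJ2 κ' hκ' j hj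
          rw [hκ'' j (by omega)] at h7
          exact_mod_cast (hsm _).trans h7
        have hbad : ((Finset.range J).filter (fun j => BadB q l R s D (κ j) G)).card <
            (2 * R + 4) ^ 2 * m := by
          by_contra hcon
          obtain ⟨I', hI1, hI2⟩ := Finset.exists_subset_card_eq (not_lt.mp hcon)
          apply hω
          refine ⟨_, hf, J, Finset.mem_range.mpr (by omega), κ', hκ', ?_, I', ?_, ?_⟩
          · intro j j' hjj hj'
            rw [hκ'' j (by omega), hκ'' j' (by omega)]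
            exact k3 j j' hjj (by omega)
          · exact Finset.mem_powersetCard.mpr ⟨hI1.trans (Finset.filter_subset _ _), hI2⟩
          · intro j hj
            have h6 := Finset.mem_filter.mp (hI1 hj)
            rw [hκ'' j (by have := Finset.mem_range.mp h6.1; omega)]
            exact h6.2
        have hstep : ∀ j ∈ Finset.range J, (EL q l (((R + 3) * s : ℕ))
            (sm s (κ (j + 1) - κ j)) - D * s) -
            (if BadB q l R s D (κ j) G then E else 0) ≤ d j := by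
          intro j hj
          rw [Finset.mem_range] at hj
          have hw : κ (j + 1) - κ j ∈ ring R := by
            rw [mem_ring, ← k2 j (by omega)]
            unfold bdd
            simp only [Prod.fst_zero, Prod.snd_zero, Prod.fst_sub, Prod.snd_sub]
            congr 2 <;> ring
          have hDs : (0:ℝ) ≤ D * s := by positivity
          by_cases hb : BadB q l R s D (κ j) G
          · rw [if_pos hb]
            have := hE _ hw
            have hdj : (0:ℝ) ≤ d j := Nat.cast_nonneg _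
            linarith
          · rw [if_neg hb]
            unfold BadB at hb
            push Not at hb
            have h8 := hb _ hw
            rw [add_sub_cancel] at h8
            have h9 : (tt (bx (s * l) (κ j) (R + 1)) (Qb (s * l) (κ j))
              (Qb (s * l) (κ (j + 1))) G : ℝ) ≤ d j := by exact_mod_cast hcost j hj
            linarith
        have hsum := Finset.sum_le_sum hstep
        rw [Finset.sum_sub_distrib, ← Finset.sum_filter, Finset.sum_const, nsmul_eq_mul] at hsum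
        have h10 : (((Finset.range J).filter (fun j => BadB q l R s D (κ j) G)).card : ℝ) * E ≤
            ((2 * R + 4) ^ 2 * m : ℕ) * E :=
          mul_le_mul_of_nonneg_right (by exact_mod_cast hbad.le) hE0
        have h11 : ∑ j ∈ Finset.range J, d j ≤ k := by
          refine le_trans ?_ k7
          exact Finset.sum_le_sum_of_subset (Finset.range_subset_range.mpr hJ1)
        have h12 : (∑ j ∈ Finset.range J, (d j : ℝ)) ≤ k := by exact_mod_cast h11
        linarith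
      · rcases le_total J' (T * m) with h | h
        · right
          have : J = J' := by omega
          rw [this]
          exact k5
        · left; omega
  · intro ε h0 h1 hε hB
    refine (Pr_exists_le h0 h1 U KK _).trans ?_
    have hone : ∀ k0 ∈ KK, Pr (fun _ => q) U (fun G => ∃ J ∈ Finset.range (T * m + 1),
        ∃ κ ∈ I k0 J, (∀ j j', j < j' → j' < J → κ j ≠ κ j') ∧
        ∃ I ∈ (Finset.range J).powersetCard ((2 * R + 4) ^ 2 * m), ∀ j ∈ I,
        BadB q l R s D (κ j) G) ≤ (T * m + 1 : ℕ) * (((2 * R + 4) ^ 2 : ℕ) *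
          (((2 * (2 * R + 1) ^ 2 : ℕ) : ℝ) ^ (T * m) * ε ^ m)) := by
      intro k0 hk0
      refine (Pr_exists_le h0 h1 U _ _).trans ?_
      have htwo : ∀ J ∈ Finset.range (T * m + 1), Pr (fun _ => q) U (fun G =>
          ∃ κ ∈ I k0 J, (∀ j j', j < j' → j' < J → κ j ≠ κ j') ∧
          ∃ I ∈ (Finset.range J).powersetCard ((2 * R + 4) ^ 2 * m), ∀ j ∈ I,
          BadB q l R s D (κ j) G) ≤ ((2 * R + 4) ^ 2 : ℕ) *
          (((2 * (2 * R + 1) ^ 2 : ℕ) : ℝ) ^ (T * m) * ε ^ m) := by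
        intro J hJ
        rw [Finset.mem_range] at hJ
        refine (Pr_exists_le h0 h1 U _ _).trans ?_
        have hthree : ∀ κ ∈ I k0 J, Pr (fun _ => q) U (fun G =>
            (∀ j j', j < j' → j' < J → κ j ≠ κ j') ∧
            ∃ I ∈ (Finset.range J).powersetCard ((2 * R + 4) ^ 2 * m), ∀ j ∈ I,
            BadB q l R s D (κ j) G) ≤ ((2 * R + 4) ^ 2 : ℕ) * (2 ^ J * ε ^ m) := by
          intro κ hκ
          by_cases hp : ∀ j j', j < j' → j' < J → κ j ≠ κ j'
          · refine (Pr_mono (okq h0 h1) (fun G _ h => h.2)).trans ?_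
            exact pr_many h0 h1 hε hL (BadB q l R s D) (fun k G => BadB_local k G)
              (fun j hj => (hsm _).trans (hTN k0 hk0 J (by omega) κ hκ j hj)) hp
              (fun j hj => hB _ _ (hTN k0 hk0 J (by omega) κ hκ j hj)) m
          · have : Pr (fun _ => q) U (fun G => (∀ j j', j < j' → j' < J → κ j ≠ κ j') ∧
                ∃ I ∈ (Finset.range J).powersetCard ((2 * R + 4) ^ 2 * m), ∀ j ∈ I,
                BadB q l R s D (κ j) G) = Pr (fun _ => q) U (fun _ => ¬ True) := by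
              apply Pr_congr
              intro G _
              constructor
              · intro h; exact absurd h.1 hp
              · intro h; exact absurd trivial h
            rw [this, Pr_not, Pr_true U (fun _ _ => trivial), sub_self]
            positivity
        refine (Finset.sum_le_sum hthree).trans ?_
        rw [Finset.sum_const, nsmul_eq_mul]
        have hc : ((I k0 J).card : ℝ) ≤ (((2 * R + 1) ^ 2 : ℕ) : ℝ) ^ J := by
          exact_mod_cast hI k0 J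
        have hc2 : (((2 * R + 1) ^ 2 : ℕ) : ℝ) ^ J * 2 ^ J ≤
            ((2 * (2 * R + 1) ^ 2 : ℕ) : ℝ) ^ (T * m) := by
          rw [← mul_pow]
          have e1 : (((2 * R + 1) ^ 2 : ℕ) : ℝ) * 2 = ((2 * (2 * R + 1) ^ 2 : ℕ) : ℝ) := by
            push_cast; ring
          rw [e1]
          apply pow_le_pow_right₀ _ (by omega)
          have : 1 ≤ 2 * (2 * R + 1) ^ 2 := Nat.one_le_iff_ne_zero.mpr (by positivity)
          exact_mod_cast this
        calc ((I k0 J).card : ℝ) * (((2 * R + 4) ^ 2 : ℕ) * (2 ^ J * ε ^ m))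
            ≤ (((2 * R + 1) ^ 2 : ℕ) : ℝ) ^ J * (((2 * R + 4) ^ 2 : ℕ) * (2 ^ J * ε ^ m)) :=
              mul_le_mul_of_nonneg_right hc (by positivity)
          _ = ((2 * R + 4) ^ 2 : ℕ) * (((((2 * R + 1) ^ 2 : ℕ) : ℝ) ^ J * 2 ^ J) * ε ^ m) := by
              ring
          _ ≤ _ := by gcongr
      refine (Finset.sum_le_sum htwo).trans ?_
      rw [Finset.sum_const, Finset.card_range, nsmul_eq_mul]
    refine (Finset.sum_le_sum hone).trans ?_
    rw [Finset.sum_const, nsmul_eq_mul]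

end Pool.Agent.Helper59_BN
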