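import Pool.Agent.Helper59_BN.Upper

/-!
The rotation by 180 degrees, and the upper bound for all directions.
-/

namespace Pool.Agent.Helper59_BN

open H974

/-- The rotation by 180 degrees of vertices. -/
def ng (v : Vtx) : Vtx := (-v.1, -v.2)

/-- The rotation by 180 degrees of faces. -/
def nf (v : Vtx) : Vtx := (-v.1 - 1, -v.2 - 1)

/-- The rotation by 180 degrees of edges. -/
def re (e : Edg) : Edg := if e.2.2 then (-e.1 - 1, -e.2.1, true) else (-e.1, -e.2.1 - 1, false)

@[simp] theorem re_t (x y : ℤ) : re (x, y, true) = (-x - 1, -y, true) := rfl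
@[simp] theorem re_f (x y : ℤ) : re (x, y, false) = (-x, -y - 1, false) := rfl

theorem ng_ng (v : Vtx) : ng (ng v) = v := by simp [ng]
theorem nf_nf (v : Vtx) : nf (nf v) = v := by
  obtain ⟨x, y⟩ := v
  simp [nf]

theorem re_re (e : Edg) : re (re e) = e := by
  obtain ⟨x, y, _ | _⟩ := e <;> simp

theorem re_inj : Function.Injective re := Function.LeftInverse.injective re_re

theorem re_image_image (A : Set Edg) : re '' (re '' A) = A := by
  rw [Set.image_image]; simp [re_re]

theorem mem_re {A : Set Edg} {e : Edg} : e ∈ re '' A ↔ re e ∈ A := by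
  constructor
  · rintro ⟨e', h, rfl⟩; rwa [re_re]
  · intro h; exact ⟨_, h, re_re e⟩

theorem re_compl (A : Set Edg) : (re '' A)ᶜ = re '' Aᶜ := by
  ext e
  rw [Set.mem_compl_iff, mem_re, mem_re, Set.mem_compl_iff]

theorem src_re (e : Edg) : src (re e) = ng (tgt e) := by
  obtain ⟨x, y, _ | _⟩ := e <;> simp [ng] <;> ring

theorem tgt_re (e : Edg) : tgt (re e) = ng (src e) := by
  obtain ⟨x, y, _ | _⟩ := e <;> simp [ng]

theorem dsrc_re (e : Edg) : dsrc (re e) = nf (dtgt e) := by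
  obtain ⟨x, y, _ | _⟩ := e <;> simp [nf]

theorem dtgt_re (e : Edg) : dtgt (re e) = nf (dsrc e) := by
  obtain ⟨x, y, _ | _⟩ := e <;> simp [nf]

theorem adj_re {F : Set Edg} {u v : Vtx} (h : Adj F u v) : Adj (re '' F) (ng u) (ng v) := by
  obtain ⟨e, he, hc⟩ := h
  refine ⟨re e, Set.mem_image_of_mem _ he, ?_⟩
  rw [src_re, tgt_re]
  rcases hc with ⟨rfl, rfl⟩ | ⟨rfl, rfl⟩
  · right; exact ⟨rfl, rfl⟩
  · left; exact ⟨rfl, rfl⟩

theorem adj_re_iff {F : Set Edg} {u v : Vtx} : Adj (re '' F) (ng u) (ng v) ↔ Adj F u v := by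
  refine ⟨fun h => ?_, adj_re⟩
  have := adj_re h
  rwa [re_image_image, ng_ng, ng_ng] at this

theorem reach_re {F : Set Edg} {u v : Vtx} (h : Reach F u v) : Reach (re '' F) (ng u) (ng v) := by
  induction h with
  | refl => exact Reach.refl _ _
  | tail _ hs ih => exact ih.trans (adj_re hs).reach

theorem dreach_re {F : Set Edg} {u v : Vtx} (h : DReach F u v) :
    DReach (re '' F) (nf u) (nf v) := by
  induction h with
  | refl => exact DReach.refl _ _
  | tail _ hs ih =>
    refine ih.trans (DAdj.reach ?_)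
    obtain ⟨e, he, hc⟩ := hs
    refine ⟨re e, Set.mem_image_of_mem _ he, ?_⟩
    rw [dsrc_re, dtgt_re]
    rcases hc with ⟨rfl, rfl⟩ | ⟨rfl, rfl⟩
    · right; exact ⟨rfl, rfl⟩
    · left; exact ⟨rfl, rfl⟩

theorem ng_inj : Function.Injective ng := Function.LeftInverse.injective ng_ng

theorem ng_add (v : Vtx) (k : Fin 4) : ng (v + dir k) = ng v + dir (k + 2) := by
  obtain ⟨x, y⟩ := v
  fin_cases k <;> simp [ng, dir] <;> ring

theorem between_ng {v a b w : Vtx} (h : Between v a b w) :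
    Between (ng v) (ng a) (ng b) (ng w) := by
  obtain ⟨d, j, k, h1, h2, h3, rfl, rfl, rfl⟩ := h
  refine ⟨d + 2, j, k, h1, h2, h3, ng_add _ _, ?_, ?_⟩
  · rw [ng_add, add_right_comm]
  · rw [ng_add, add_right_comm]

theorem between_ng_iff {v a b w : Vtx} :
    Between (ng v) (ng a) (ng b) (ng w) ↔ Between v a b w := by
  refine ⟨fun h => ?_, between_ng⟩
  have := between_ng h
  rwa [ng_ng, ng_ng, ng_ng, ng_ng] at this

theorem rbd_ng (x : ℕ → Vtx) (n : ℕ) (e : Vtx × Vtx) :
    e ∈ rbd (fun i => ng (x i)) n ↔ (ng e.1, ng e.2) ∈ rbd x n := by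
  unfold rbd
  simp only [Set.mem_ofPred_eq]
  constructor
  · rintro ⟨i, h1, h2, h3, h4⟩
    refine ⟨i, h1, h2, by rw [h3, ng_ng], ?_⟩
    rw [← between_ng_iff, ng_ng]
    exact h4
  · rintro ⟨i, h1, h2, h3, h4⟩
    refine ⟨i, h1, h2, by rw [← h3, ng_ng], ?_⟩
    rw [← between_ng_iff, ng_ng] at h4
    exact h4

theorem bdist_ng_le {R R' : Vtx → Vtx → Prop} (hR : ∀ a b, R' (ng a) (ng b) ↔ R a b) (u v : Vtx) :
    {k | ∃ (x : ℕ → ℤ × ℤ) (n : ℕ), x 0 = u ∧ x n = v ∧ OpenPath R x n ∧ RightMost x n ∧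
      bcost R x n = k} ⊆
    {k | ∃ (x : ℕ → ℤ × ℤ) (n : ℕ), x 0 = ng u ∧ x n = ng v ∧ OpenPath R' x n ∧ RightMost x n ∧
      bcost R' x n = k} := by
  rintro k ⟨x, n, h1, h2, h3, h4, h5⟩
  refine ⟨fun i => ng (x i), n, by simp only [h1], by simp only [h2], ?_, ⟨?_, ?_⟩, ?_⟩
  · intro i hi
    exact (hR _ _).mpr (h3 i hi)
  · intro i j hij hj heq
    apply h4.1 i j hij hj
    rw [Prod.mk.injEq] at heq ⊢
    exact ⟨ng_inj heq.1, ng_inj heq.2⟩
  · intro i hi
    have h6 := h4.2 i hi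
    rw [rbd_ng, rbd_ng]
    simp only [ng_ng]
    exact h6
  · rw [← h5]
    unfold bcost
    have e : {e : Vtx × Vtx | e ∈ rbd (fun i => ng (x i)) n ∧ R' e.1 e.2} =
        (fun e : Vtx × Vtx => (ng e.1, ng e.2)) '' {e | e ∈ rbd x n ∧ R e.1 e.2} := by
      ext e
      simp only [Set.mem_ofPred_eq, Set.mem_image, rbd_ng]
      constructor
      · rintro ⟨h6, h7⟩
        refine ⟨(ng e.1, ng e.2), ⟨h6, ?_⟩, by simp only [ng_ng]⟩
        rw [← hR]; simp only [ng_ng]; exact h7
      · rintro ⟨e', ⟨h6, h7⟩, rfl⟩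
        simp only [ng_ng]
        exact ⟨h6, (hR _ _).mpr h7⟩
    rw [e, Set.ncard_image_of_injective]
    intro a b hab
    simp only [Prod.mk.injEq] at hab
    exact Prod.ext (ng_inj hab.1) (ng_inj hab.2)

theorem bdist_re (F : Set Edg) (u v : Vtx) :
    bdist (Adj (re '' F)) (ng u) (ng v) = bdist (Adj F) u v := by
  unfold bdist
  congr 1
  apply Set.Subset.antisymm
  · have := bdist_ng_le (R := Adj (re '' F)) (R' := Adj F)
      (fun a b => by rw [← adj_re_iff (F := F), ng_ng, ng_ng]) (ng u) (ng v)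
    rwa [ng_ng, ng_ng] at this
  · exact bdist_ng_le (fun a b => adj_re_iff) u v

theorem Small.rot {F : Set Edg} {K r : ℤ} (h : Small F (K + 1) r) : Small (re '' F) K r := by
  intro f g h1 h2 h3
  rw [re_compl] at h3
  have h4 := dreach_re h3
  rw [re_image_image] at h4
  have h5 := abs_le.mp h1
  have h6 := abs_le.mp h2
  have := h _ _ (abs_le.mpr (by simp only [nf]; omega)) (abs_le.mpr (by simp only [nf]; omega)) h4
  simp only [nf] at this
  have h7 := abs_le.mp this.1
  have h8 := abs_le.mp this.2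
  exact ⟨abs_le.mpr (by omega), abs_le.mpr (by omega)⟩

theorem CInf.rot {F : Set Edg} {v : Vtx} (h : v ∈ CInf F) : ng v ∈ CInf (re '' F) := by
  unfold CInf at h ⊢
  simp only [Set.mem_ofPred_eq] at h ⊢
  have e : ng '' {w | Reach F v w} ⊆ {w | Reach (re '' F) (ng v) w} := by
    rintro _ ⟨w, hw, rfl⟩
    exact reach_re hw
  exact (h.image ng_inj.injOn).mono e

/-- **Upper bound, all directions.** -/
theorem upper_all {F : Set Edg} {z : Vtx} {r w R K : ℕ} (hS : Small F (K + 1) r)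
    (hR : R = 6 * (r + w) + 40) (hfar : 2 * (R:ℤ) < |z.1| ∨ 2 * (R:ℤ) < |z.2|)
    {C0 : Finset Edg} (hpath : DReach ↑C0 (0, 0) z)
    (hC0 : ∀ e ∈ C0, |e.1| ≤ (K:ℤ) - 10 * R ∧ min 0 z.2 - w ≤ e.2.1 ∧ e.2.1 ≤ max 0 z.2 + w)
    (hK : |z.1| ≤ (K:ℤ) - 10 * R ∧ |z.2| ≤ (K:ℤ) - 10 * R) {u v : Vtx} (hu : u ∈ CInf F)
    (hv : v ∈ CInf F) (hu0 : |u.1| ≤ r ∧ |u.2| ≤ r) (hv0 : |v.1 - z.1| ≤ r ∧ |v.2 - z.2| ≤ r) :
    bdist (Adj F) u v ≤ ((↑C0 : Set Edg) ∩ F).ncard + 40 * R ^ 2 := by
  classical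
  obtain ⟨p, q⟩ := z
  simp only at hfar hC0 hK hv0
  obtain ⟨R1, hR1⟩ : ∃ R1 : ℕ, R1 = 6 * (r + (w + 1)) + 20 := ⟨_, rfl⟩
  have hRR : R1 + 14 = R := by omega
  rcases le_or_gt 0 q with hq | hq
  · rw [min_eq_left hq, max_eq_right hq] at hC0
    rw [abs_of_nonneg hq] at hfar
    have := upper_det (hS.mono (K' := K) (by omega) le_rfl) (z := (p, q)) hq hR1 (by simp only; omega)
      hpath (by
        intro e he
        have h := hC0 e he
        simp only
        push_cast
        omega) (by simp only; omega) hu hv hu0 hv0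
    have h2 : 40 * R1 ^ 2 ≤ 40 * R ^ 2 := by
      have : R1 ≤ R := by omega
      gcongr
    omega
  · rw [min_eq_right hq.le, max_eq_left hq.le] at hC0
    rw [abs_of_neg hq] at hfar hK
    have hpK := abs_le.mp hK.1
    obtain ⟨E1, hE1⟩ : ∃ E1 : Finset Edg, E1 = {(0, 0, false), (-1, 0, true)} := ⟨_, rfl⟩
    obtain ⟨E2, hE2⟩ : ∃ E2 : Finset Edg,
        E2 = {(-p, -q - 1, false), (-p, -q, true)} := ⟨_, rfl⟩
    obtain ⟨C1, hC1⟩ : ∃ C1 : Finset Edg, C1 = C0.image re ∪ (E1 ∪ E2) := ⟨_, rfl⟩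
    have hpath' : DReach ↑C1 (0, 0) (-p, -q) := by
      have h1 : DReach (↑E1 : Set Edg) (0, 0) (-1, -1) := by
        refine (DAdj.reach (v := (-1, 0)) ⟨(0, 0, false), by rw [hE1]; simp, Or.inr ⟨?_, ?_⟩⟩).trans
          (DAdj.reach ⟨(-1, 0, true), by rw [hE1]; simp, Or.inr ⟨?_, ?_⟩⟩) <;> simp
      have h2 : DReach (re '' ↑C0) (-1, -1) (-p - 1, -q - 1) := by
        have := dreach_re hpath
        simpa [nf] using this
      have h3 : DReach (↑E2 : Set Edg) (-p - 1, -q - 1) (-p, -q) := by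
        refine (DAdj.reach (v := (-p, -q - 1)) ⟨(-p, -q - 1, false), by rw [hE2]; simp,
          Or.inl ⟨?_, ?_⟩⟩).trans
          (DAdj.reach ⟨(-p, -q, true), by rw [hE2]; simp, Or.inl ⟨?_, ?_⟩⟩) <;> simp
      refine (h1.mono ?_).trans ((h2.mono ?_).trans (h3.mono ?_))
      · rw [hC1]; intro e he; simp only [Finset.coe_union, Set.mem_union]; exact Or.inr (Or.inl he)
      · rw [hC1]; intro e he
        simp only [Finset.coe_union, Set.mem_union, Finset.coe_image]; exact Or.inl he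
      · rw [hC1]; intro e he; simp only [Finset.coe_union, Set.mem_union]; exact Or.inr (Or.inr he)
    have hb : ∀ e ∈ C1, |e.1| ≤ (K:ℤ) - 10 * R1 ∧ -((w + 1 : ℕ):ℤ) ≤ e.2.1 ∧
        e.2.1 ≤ -q + ((w + 1 : ℕ):ℤ) := by
      intro e he
      rw [hC1, Finset.mem_union, Finset.mem_union, Finset.mem_image] at he
      rcases he with ⟨e', he', rfl⟩ | he | he
      · have h := hC0 e' he'
        have h' := abs_le.mp h.1
        obtain ⟨x, y, _ | _⟩ := e'
        · rw [re_f]
          simp only at h h' ⊢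
          exact ⟨abs_le.mpr (by omega), by push_cast; omega, by push_cast; omega⟩
        · rw [re_t]
          simp only at h h' ⊢
          exact ⟨abs_le.mpr (by omega), by push_cast; omega, by push_cast; omega⟩
      · rw [hE1, Finset.mem_insert, Finset.mem_singleton] at he
        rcases he with rfl | rfl
        · exact ⟨abs_le.mpr (by simp only; omega), by push_cast; omega, by push_cast; omega⟩
        · exact ⟨abs_le.mpr (by simp only; omega), by push_cast; omega, by push_cast; omega⟩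
      · rw [hE2, Finset.mem_insert, Finset.mem_singleton] at he
        rcases he with rfl | rfl
        · exact ⟨abs_le.mpr (by simp only; omega), by push_cast; omega, by push_cast; omega⟩
        · exact ⟨abs_le.mpr (by simp only; omega), by push_cast; omega, by push_cast; omega⟩
    have hu1 := abs_le.mp hu0.1
    have hu2 := abs_le.mp hu0.2
    have hv1 := abs_le.mp hv0.1
    have hv2 := abs_le.mp hv0.2
    have := upper_det hS.rot (z := (-p, -q)) (by simp only; omega) hR1
      (by simp only [abs_neg]; omega) hpath' (by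
        intro e he
        have h := hb e he
        simp only
        exact h) (by simp only [abs_neg]; rw [abs_of_neg hq]; omega) (CInf.rot hu)
        (CInf.rot hv)
        ⟨abs_le.mpr (by unfold ng; simp only; omega), abs_le.mpr (by unfold ng; simp only; omega)⟩
        ⟨abs_le.mpr (by unfold ng; simp only; omega), abs_le.mpr (by unfold ng; simp only; omega)⟩
    rw [bdist_re] at this
    have hcard : ((↑C1 : Set Edg) ∩ re '' F).ncard ≤ ((↑C0 : Set Edg) ∩ F).ncard + 4 := by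
      have hs : (↑C1 : Set Edg) ∩ re '' F ⊆ (re '' ((↑C0 : Set Edg) ∩ F)) ∪ ↑(E1 ∪ E2) := by
        rintro e ⟨h1, h2⟩
        rw [hC1, Finset.coe_union, Finset.coe_image] at h1
        rcases h1 with h1 | h1
        · left
          rw [Set.image_inter re_inj]
          exact ⟨h1, h2⟩
        · right; exact h1
      have hfin : ((↑C0 : Set Edg) ∩ F).Finite := (Finset.finite_toSet C0).inter_of_left F
      have h1 := Set.ncard_le_ncard hs ((hfin.image re).union (Finset.finite_toSet _))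
      have h2 := Set.ncard_union_le (re '' ((↑C0 : Set Edg) ∩ F)) (↑(E1 ∪ E2) : Set Edg)
      have h3 : (re '' ((↑C0 : Set Edg) ∩ F)).ncard ≤ ((↑C0 : Set Edg) ∩ F).ncard :=
        Set.ncard_image_le hfin
      have h4 : (↑(E1 ∪ E2) : Set Edg).ncard ≤ 4 := by
        rw [Set.ncard_coe_finset]
        have h5 := Finset.card_union_le E1 E2
        have h6 : E1.card ≤ 2 := by rw [hE1]; exact Finset.card_le_two
        have h7 : E2.card ≤ 2 := by rw [hE2]; exact Finset.card_le_two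
        omega
      omega
    have h2 : 40 * R1 ^ 2 + 4 ≤ 40 * R ^ 2 := by
      rw [← hRR]; nlinarith
    omega

end Pool.Agent.Helper59_BN
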