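import Pool.Agent.Helper59_BN.Assembly

/-!
Changing the endpoint of a dual path; parameters of the near-critical regime.
-/

namespace Pool.Agent.Helper59_BN

open H974 MeasureTheory Filter

theorem HasPath.shift {F : Set Edg} {z z' : Vtx} {w : ℕ} {b : ℝ} (h : HasPath F z w b) {s : ℕ}
    (h1 : |z.1 - z'.1| ≤ s) (h2 : |z.2 - z'.2| ≤ s) : HasPath F z' (w + s + 1) (b + 2 * s) := by
  classical
  obtain ⟨C0, k1, k2, k3⟩ := h
  obtain ⟨C, m1, m2, m3⟩ := seg (2 * s) z z' (by push_cast; omega)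
  have g1 := abs_le.mp h1
  have g2 := abs_le.mp h2
  have g3 := abs_sub_abs_le_abs_sub z.1 z'.1
  have g4 := neg_abs_le z'.1
  have g5 := le_abs_self z'.1
  refine ⟨C0 ∪ C.map dl.symm.toEmbedding, ?_, ?_, ?_⟩
  · have h3 : DReach ↑(C.map dl.symm.toEmbedding) z z' := by
      rw [← reach_dl]
      have : dl '' ↑(C.map dl.symm.toEmbedding) = (↑C : Set Edg) := by
        rw [← coe_dmp, dmp_map]
      rw [this]
      exact m1
    refine (k1.mono ?_).trans (h3.mono ?_)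
    · exact_mod_cast Finset.subset_union_left
    · exact_mod_cast Finset.subset_union_right
  · have h4 : ((↑(C0 ∪ C.map dl.symm.toEmbedding) : Set Edg) ∩ F).ncard ≤
        ((↑C0 : Set Edg) ∩ F).ncard + 2 * s := by
      have h5 : (↑(C0 ∪ C.map dl.symm.toEmbedding) : Set Edg) ∩ F ⊆
          ((↑C0 : Set Edg) ∩ F) ∪ ↑(C.map dl.symm.toEmbedding) := by
        intro e he
        rw [Finset.coe_union] at he
        rcases he with ⟨he1 | he1, he2⟩
        · left; exact ⟨he1, he2⟩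
        · right; exact he1
      refine (Set.ncard_le_ncard h5 ((Set.Finite.inter_of_left (Finset.finite_toSet _) _).union
        (Finset.finite_toSet _))).trans ?_
      refine (Set.ncard_union_le _ _).trans ?_
      rw [Set.ncard_coe_finset, Finset.card_map]
      omega
    have h6 : (((↑(C0 ∪ C.map dl.symm.toEmbedding) : Set Edg) ∩ F).ncard : ℝ) ≤
        (((↑C0 : Set Edg) ∩ F).ncard : ℝ) + 2 * s := by exact_mod_cast h4
    linarith
  · intro e he
    rw [Finset.mem_union] at he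
    push_cast
    rcases he with he | he
    · have := k3 e he
      omega
    · rw [Finset.mem_map_equiv, Equiv.symm_symm] at he
      have h4 := m3 _ he
      obtain ⟨x, y, t⟩ := e
      cases t
      · rw [dl_f] at h4
        simp only at h4 ⊢
        rw [abs_le]
        omega
      · rw [dl_t] at h4
        simp only at h4 ⊢
        rw [abs_le]
        omega

theorem HasPath.tim_le {F : Set Edg} {z : Vtx} {w : ℕ} {b : ℝ} (h : HasPath F z w b) :
    (tim Fᶜ F (0, 0) z : ℝ) ≤ b := by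
  obtain ⟨C0, k1, k2, -⟩ := h
  refine le_trans ?_ k2
  have := tim_le_ncard (A := Fᶜ) (B := F) (G := ↑C0) (by
    rw [Set.compl_union_self]; exact Set.subset_univ _)
    (Set.Finite.inter_of_left (Finset.finite_toSet _) _) k1
  exact_mod_cast this

/-- The parameters of the near-critical regime. -/
theorem near_params : ∃ (δ : ℝ) (B : ℕ), 0 < δ ∧ δ ≤ 1 ∧ 1 ≤ B ∧ ∀ (p : unitInterval) (l : ℕ),
    1/2 < (p:ℝ) → (p:ℝ) ≤ 3/4 → l = ⌈1 / ((p:ℝ) - 1/2) ^ (4/3 : ℝ)⌉₊ → 1 ≤ l ∧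
      δ ≤ hh (1 - (p:ℝ)) (3 * (l:ℤ)) l ∧
      4 * hh (1 - (p:ℝ)) ((B:ℤ) * l) (3 * ((B:ℤ) * l) - 1) ≤ 1 / (2 * 50 ^ 18) := by
  obtain ⟨c1, C1, hc1, hC1, hlow⟩ := Pool.Agent.W424.NC.win_lower 3 (by norm_num)
  obtain ⟨K0, hK0, hblk⟩ := block_const
  refine ⟨min 1 (c1 * Real.exp (-(C1 * 6))), ⌈K0⌉₊, by positivity, min_le_left _ _, ?_, ?_⟩
  · rw [Nat.one_le_ceil_iff]; linarith
  intro p l hp hp34 hl
  have hp1 : (p:ℝ) ≤ 1 := p.2.2
  obtain ⟨σ, hσ⟩ : ∃ σ : ℝ, σ = ((p:ℝ) - 1/2) ^ (4/3 : ℝ) := ⟨_, rfl⟩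
  have hσ0 : 0 < σ := by rw [hσ]; exact Real.rpow_pos_of_pos (by linarith) _
  have hσ1 : σ ≤ 1 := by
    rw [hσ]; exact Real.rpow_le_one (by linarith) (by linarith) (by norm_num)
  rw [← hσ] at hl
  have hl1 : 1 / σ ≤ l := by rw [hl]; exact Nat.le_ceil _
  have hl2 : (l:ℝ) < 1 / σ + 1 := by rw [hl]; exact Nat.ceil_lt_add_one (by positivity)
  have hl0 : 1 ≤ l := by rw [hl, Nat.one_le_ceil_iff]; positivity
  have hlσ : (l:ℝ) * σ ≤ 2 := by
    have := mul_le_mul_of_nonneg_right hl2.le hσ0.le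
    rw [add_mul, div_mul_cancel₀ _ hσ0.ne'] at this
    linarith
  have hlσ' : 1 ≤ (l:ℝ) * σ := by rwa [div_le_iff₀ hσ0] at hl1
  refine ⟨hl0, ?_, ?_⟩
  · have h1 := hlow (1 - (p:ℝ)) (by linarith) (by linarith) (3 * l) l (by omega) hl0 le_rfl
      (by omega)
    rw [show 1/2 - (1 - (p:ℝ)) = (p:ℝ) - 1/2 by ring, ← hσ] at h1
    push_cast at h1
    refine le_trans ?_ h1
    refine (min_le_right _ _).trans ?_
    apply mul_le_mul_of_nonneg_left _ hc1.le
    apply Real.exp_le_exp.mpr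
    have : C1 * (3 * l * σ) ≤ C1 * 6 := mul_le_mul_of_nonneg_left (by linarith) hC1.le
    linarith
  · have hB1 : 1 ≤ ⌈K0⌉₊ := by rw [Nat.one_le_ceil_iff]; linarith
    have h1 := hblk (1 - (p:ℝ)) (by linarith) (by linarith) (⌈K0⌉₊ * l) (by
      rw [show 1/2 - (1 - (p:ℝ)) = (p:ℝ) - 1/2 by ring, ← hσ]
      push_cast
      have h2 := Nat.le_ceil K0
      have h3 : K0 * 1 ≤ (⌈K0⌉₊:ℝ) * (l * σ) :=
        mul_le_mul h2 hlσ' (by norm_num) (by linarith)
      linarith) (Nat.mul_pos hB1 hl0)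
    push_cast at h1
    exact h1

end Pool.Agent.Helper59_BN
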