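import Pool.Agent.Helper59_BN.Chain
import Pool.Agent.Helper59_BN.PathUp
import Pool.Agent.Helper59_BN.Peierls

/-!
Coarse boxes, stars around coarse boxes, and passage times between coarse boxes.
-/

namespace Pool.Agent.Helper59_BN

open H974

/-- The least cost of a connection from `A` to `B` inside `S`: the edges outside `G` cost one. -/
noncomputable def tt (S : Finset Edg) (A B : Set Vtx) (G : Finset Edg) : ℕ :=
  sInf {k | ∃ C : Finset Edg, C ⊆ S ∧ (C \ G).card ≤ k ∧ ∃ u ∈ A, ∃ v ∈ B, Reach ↑C u v}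

theorem tt_le {S C : Finset Edg} {A B : Set Vtx} {G : Finset Edg} {u v : Vtx} (hC : C ⊆ S)
    (hu : u ∈ A) (hv : v ∈ B) (h : Reach ↑C u v) : tt S A B G ≤ (C \ G).card :=
  Nat.sInf_le ⟨C, hC, le_rfl, u, hu, v, hv, h⟩

theorem tt_spec {S C : Finset Edg} {A B : Set Vtx} (G : Finset Edg) {u v : Vtx} (hC : C ⊆ S)
    (hu : u ∈ A) (hv : v ∈ B) (h : Reach ↑C u v) :
    ∃ C' : Finset Edg, C' ⊆ S ∧ (C' \ G).card ≤ tt S A B G ∧ ∃ u ∈ A, ∃ v ∈ B, Reach ↑C' u v :=
  Nat.sInf_mem (s := {k | ∃ C : Finset Edg, C ⊆ S ∧ (C \ G).card ≤ k ∧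
    ∃ u ∈ A, ∃ v ∈ B, Reach ↑C u v}) ⟨_, C, hC, le_rfl, u, hu, v, hv, h⟩

theorem sdiff_inter_of_subset {C G S : Finset Edg} (hC : C ⊆ S) : C \ (G ∩ S) = C \ G := by
  ext e
  simp only [Finset.mem_sdiff, Finset.mem_inter]
  constructor
  · rintro ⟨h1, h2⟩; exact ⟨h1, fun h => h2 ⟨h, hC h1⟩⟩
  · rintro ⟨h1, h2⟩; exact ⟨h1, fun h => h2 h.1⟩

theorem tt_local {S S' : Finset Edg} (hS : S ⊆ S') (A B : Set Vtx) (G : Finset Edg) :
    tt S A B G = tt S A B (G ∩ S') := by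
  unfold tt
  congr 1
  ext k
  constructor
  · rintro ⟨C, h1, h2, h3⟩
    exact ⟨C, h1, by rwa [sdiff_inter_of_subset (h1.trans hS)], h3⟩
  · rintro ⟨C, h1, h2, h3⟩
    exact ⟨C, h1, by rwa [sdiff_inter_of_subset (h1.trans hS)] at h2, h3⟩

/-- The coarse box of a coarse site. -/
def Qb (l : ℤ) (a : Vtx) : Set Vtx := {v | inR (a.1 * l) ((a.1 + 1) * l) (a.2 * l) ((a.2 + 1) * l) v}

/-- The edges of the coarse box of radius `r` around a coarse site. -/
noncomputable def bx (l : ℤ) (a : Vtx) (r : ℤ) : Finset Edg :=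
  RE ((a.1 - r) * l) ((a.1 + r + 1) * l) ((a.2 - r) * l) ((a.2 + r + 1) * l)

theorem bx_subset {l : ℤ} (hl : 0 < l) {a b : Vtx} {r s : ℤ} (h : bdd a b ≤ s - r) :
    bx l a r ⊆ bx l b s := by
  rw [bdd_le] at h
  apply RE_subset <;> apply mul_le_mul_of_nonneg_right _ hl.le <;> omega

/-- A left-right crossing inside `C` whose cluster contains `z`. -/
def LRz (a b c d : ℤ) (C : Finset Edg) (z : Vtx) : Prop :=
  ∃ y y', (c ≤ y ∧ y ≤ d) ∧ (c ≤ y' ∧ y' ≤ d) ∧ Reach (↑C ∩ ↑(LRE a b c d)) (a, y) (b, y') ∧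
    Reach ↑C (a, y) z

/-- A top-bottom crossing inside `C` whose cluster contains `z`. -/
def TBz (a b c d : ℤ) (C : Finset Edg) (z : Vtx) : Prop :=
  ∃ x x', (a ≤ x ∧ x ≤ b) ∧ (a ≤ x' ∧ x' ≤ b) ∧ Reach (↑C ∩ ↑(TBE a b c d)) (x, c) (x', d) ∧
    Reach ↑C (x, c) z

theorem LRz.mono {a b c d : ℤ} {C C' : Finset Edg} {z : Vtx} (h : C ⊆ C') (hC : LRz a b c d C z) :
    LRz a b c d C' z := by
  obtain ⟨y, y', h1, h2, h3, h4⟩ := hC
  exact ⟨y, y', h1, h2, h3.mono (Set.inter_subset_inter_left _ (by exact_mod_cast h)),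
    h4.mono (by exact_mod_cast h)⟩

theorem TBz.mono {a b c d : ℤ} {C C' : Finset Edg} {z : Vtx} (h : C ⊆ C') (hC : TBz a b c d C z) :
    TBz a b c d C' z := by
  obtain ⟨y, y', h1, h2, h3, h4⟩ := hC
  exact ⟨y, y', h1, h2, h3.mono (Set.inter_subset_inter_left _ (by exact_mod_cast h)),
    h4.mono (by exact_mod_cast h)⟩

theorem LRz.base {a b c d : ℤ} {C : Finset Edg} {z z' : Vtx} (hC : LRz a b c d C z)
    (h : Reach ↑C z z') : LRz a b c d C z' := by
  obtain ⟨y, y', h1, h2, h3, h4⟩ := hC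
  exact ⟨y, y', h1, h2, h3, h4.trans h⟩

theorem TBz.base {a b c d : ℤ} {C : Finset Edg} {z z' : Vtx} (hC : TBz a b c d C z)
    (h : Reach ↑C z z') : TBz a b c d C z' := by
  obtain ⟨y, y', h1, h2, h3, h4⟩ := hC
  exact ⟨y, y', h1, h2, h3, h4.trans h⟩

/-- Crossings of crossing rectangles are connected. -/
theorem meetLT {a b c d a' b' c' d' : ℤ} {C : Finset Edg} {z z' : Vtx}
    (h : LRz a b c d C z) (h' : TBz a' b' c' d' C z') (h1 : a ≤ a') (h2 : a' < b') (h3 : b' ≤ b)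
    (h4 : c' ≤ c) (h5 : c < d) (h6 : d ≤ d') : Reach ↑C z z' := by
  obtain ⟨y, y', k1, k2, k3, k4⟩ := h
  obtain ⟨x, x', l1, l2, l3, l4⟩ := h'
  have m := cross_meet (F := ↑C) (A := a) (B := b) (C := c') (D := d') (a := a') (b := b')
    (c := c) (d := d) h1 h2 h3 h4 h5 h6 (u := (a, y)) (v := (b, y')) (u' := (x, c'))
    (v' := (x', d')) (k3.mono (Set.inter_subset_inter_right _ (by exact_mod_cast LRE_subset_RE)))
    h1 h3 (l3.mono (Set.inter_subset_inter_right _ (by exact_mod_cast TBE_subset_RE))) h4 h6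
  exact k4.symm.trans ((m.mono Set.inter_subset_left).trans l4)

/-- A star around the coarse box of `a`: five crossings, all in the cluster of `z`. -/
structure Star (l : ℤ) (a : Vtx) (C : Finset Edg) (z : Vtx) : Prop where
  top : LRz ((a.1 - 1) * l) ((a.1 + 2) * l) ((a.2 + 1) * l) ((a.2 + 2) * l) C z
  mid : LRz ((a.1 - 1) * l) ((a.1 + 2) * l) (a.2 * l) ((a.2 + 1) * l) C z
  bot : LRz ((a.1 - 1) * l) ((a.1 + 2) * l) ((a.2 - 1) * l) (a.2 * l) C z
  left : TBz ((a.1 - 1) * l) (a.1 * l) ((a.2 - 1) * l) ((a.2 + 2) * l) C z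
  right : TBz ((a.1 + 1) * l) ((a.1 + 2) * l) ((a.2 - 1) * l) ((a.2 + 2) * l) C z

theorem Star.mono {l : ℤ} {a : Vtx} {C C' : Finset Edg} {z : Vtx} (h : C ⊆ C')
    (hS : Star l a C z) : Star l a C' z :=
  ⟨hS.top.mono h, hS.mid.mono h, hS.bot.mono h, hS.left.mono h, hS.right.mono h⟩

theorem Star.base {l : ℤ} {a : Vtx} {C : Finset Edg} {z z' : Vtx} (hS : Star l a C z)
    (h : Reach ↑C z z') : Star l a C z' :=
  ⟨hS.top.base h, hS.mid.base h, hS.bot.base h, hS.left.base h, hS.right.base h⟩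

/-- The cost of a star. -/
noncomputable def sc (l : ℤ) (a : Vtx) (G : Finset Edg) : ℕ :=
  xc ((a.1 - 1) * l) ((a.1 + 2) * l) ((a.2 + 1) * l) ((a.2 + 2) * l) G +
  xc ((a.1 - 1) * l) ((a.1 + 2) * l) (a.2 * l) ((a.2 + 1) * l) G +
  xc ((a.1 - 1) * l) ((a.1 + 2) * l) ((a.2 - 1) * l) (a.2 * l) G +
  yc ((a.1 - 1) * l) (a.1 * l) ((a.2 - 1) * l) ((a.2 + 2) * l) G +
  yc ((a.1 + 1) * l) ((a.1 + 2) * l) ((a.2 - 1) * l) ((a.2 + 2) * l) G

theorem LRz_of {a b c d : ℤ} {C C' : Finset Edg} (h : LRc a b c d C) (hC : C ⊆ C') :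
    ∃ z, LRz a b c d C' z := by
  obtain ⟨y, y', h1, h2, h3⟩ := h
  exact ⟨(a, y), y, y', h1, h2,
    h3.mono (Set.inter_subset_inter_left _ (by exact_mod_cast hC)), Reach.refl _ _⟩

theorem TBz_of {a b c d : ℤ} {C C' : Finset Edg} (h : TBc a b c d C) (hC : C ⊆ C') :
    ∃ z, TBz a b c d C' z := by
  obtain ⟨y, y', h1, h2, h3⟩ := h
  exact ⟨(y, c), y, y', h1, h2,
    h3.mono (Set.inter_subset_inter_left _ (by exact_mod_cast hC)), Reach.refl _ _⟩

theorem star_ex {l : ℤ} (hl : 0 < l) (a : Vtx) (G : Finset Edg) :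
    ∃ C : Finset Edg, C ⊆ bx l a 1 ∧ (C \ G).card ≤ sc l a G ∧ ∃ z, Star l a C z := by
  obtain ⟨p, q⟩ := a
  have e1 : (p - 1) * l = p * l - l := by ring
  have e2 : (p + 2) * l = p * l + 2 * l := by ring
  have e3 : (q - 1) * l = q * l - l := by ring
  have e4 : (q + 2) * l = q * l + 2 * l := by ring
  have e5 : (p + 1) * l = p * l + l := by ring
  have e6 : (q + 1) * l = q * l + l := by ring
  have e7 : (p + 1 + 1) * l = p * l + 2 * l := by ring
  have e8 : (q + 1 + 1) * l = q * l + 2 * l := by ring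
  obtain ⟨P, hP⟩ : ∃ P, P = p * l := ⟨_, rfl⟩
  obtain ⟨Q, hQ⟩ : ∃ Q, Q = q * l := ⟨_, rfl⟩
  obtain ⟨C1, a1, a2, a3⟩ := XL_xc (a := P - l) (b := P + 2 * l) (c := Q + l) (d := Q + 2 * l)
    (by omega) (by omega) G
  obtain ⟨C2, b1, b2, b3⟩ := XL_xc (a := P - l) (b := P + 2 * l) (c := Q) (d := Q + l)
    (by omega) (by omega) G
  obtain ⟨C3, c1, c2, c3⟩ := XL_xc (a := P - l) (b := P + 2 * l) (c := Q - l) (d := Q)
    (by omega) (by omega) G
  obtain ⟨C4, d1, d2, d3⟩ := yc_spec (a := P - l) (b := P) (c := Q - l) (d := Q + 2 * l)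
    (by omega) (by omega) G
  obtain ⟨C5, f1, f2, f3⟩ := yc_spec (a := P + l) (b := P + 2 * l) (c := Q - l) (d := Q + 2 * l)
    (by omega) (by omega) G
  obtain ⟨C, hC⟩ : ∃ C, C = C1 ∪ C2 ∪ C3 ∪ C4 ∪ C5 := ⟨_, rfl⟩
  have s1 : C1 ⊆ C := by rw [hC]; intro e he; simp only [Finset.mem_union]; tauto
  have s2 : C2 ⊆ C := by rw [hC]; intro e he; simp only [Finset.mem_union]; tauto
  have s3 : C3 ⊆ C := by rw [hC]; intro e he; simp only [Finset.mem_union]; tauto
  have s4 : C4 ⊆ C := by rw [hC]; intro e he; simp only [Finset.mem_union]; tauto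
  have s5 : C5 ⊆ C := by rw [hC]; intro e he; simp only [Finset.mem_union]; tauto
  obtain ⟨z1, t1⟩ := LRz_of a3 s1
  obtain ⟨z2, t2⟩ := LRz_of b3 s2
  obtain ⟨z3, t3⟩ := LRz_of c3 s3
  obtain ⟨z4, t4⟩ := TBz_of d3 s4
  obtain ⟨z5, t5⟩ := TBz_of f3 s5
  have m1 : Reach ↑C z1 z4 := meetLT t1 t4 (by omega) (by omega) (by omega) (by omega) (by omega)
    (by omega)
  have m2 : Reach ↑C z2 z4 := meetLT t2 t4 (by omega) (by omega) (by omega) (by omega) (by omega)
    (by omega)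
  have m3 : Reach ↑C z3 z4 := meetLT t3 t4 (by omega) (by omega) (by omega) (by omega) (by omega)
    (by omega)
  have m5 : Reach ↑C z1 z5 := meetLT t1 t5 (by omega) (by omega) (by omega) (by omega) (by omega)
    (by omega)
  refine ⟨C, ?_, ?_, z4, ?_⟩
  · unfold bx
    simp only [e1, e3, e7, e8, ← hP, ← hQ]
    rw [hC]
    intro e he
    simp only [Finset.mem_union] at he
    rcases he with (((he | he) | he) | he) | he
    · exact RE_subset (by omega) (by omega) (by omega) (by omega) (LRE_subset_RE (a1 he))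
    · exact RE_subset (by omega) (by omega) (by omega) (by omega) (LRE_subset_RE (b1 he))
    · exact RE_subset (by omega) (by omega) (by omega) (by omega) (LRE_subset_RE (c1 he))
    · exact RE_subset (by omega) (by omega) (by omega) (by omega) (TBE_subset_RE (d1 he))
    · exact RE_subset (by omega) (by omega) (by omega) (by omega) (TBE_subset_RE (f1 he))
  · have hs : C \ G ⊆ (C1 \ G) ∪ (C2 \ G) ∪ (C3 \ G) ∪ (C4 \ G) ∪ (C5 \ G) := by
      rw [hC]
      intro e he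
      simp only [Finset.mem_sdiff, Finset.mem_union] at he ⊢
      tauto
    have g1 := Finset.card_le_card hs
    have g2 := Finset.card_union_le ((C1 \ G) ∪ (C2 \ G) ∪ (C3 \ G) ∪ (C4 \ G)) (C5 \ G)
    have g3 := Finset.card_union_le ((C1 \ G) ∪ (C2 \ G) ∪ (C3 \ G)) (C4 \ G)
    have g4 := Finset.card_union_le ((C1 \ G) ∪ (C2 \ G)) (C3 \ G)
    have g5 := Finset.card_union_le (C1 \ G) (C2 \ G)
    unfold sc
    simp only [e1, e2, e3, e4, e5, e6, ← hP, ← hQ]
    omega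
  · constructor
    · simp only [e1, e2, e4, e6, ← hP, ← hQ]; exact t1.base m1
    · simp only [e1, e2, e6, ← hP, ← hQ]; exact t2.base m2
    · simp only [e1, e2, e3, ← hP, ← hQ]; exact t3.base m3
    · simp only [e1, e3, e4, ← hP, ← hQ]; exact t4
    · simp only [e2, e3, e4, e5, ← hP, ← hQ]; exact t5.base (m5.symm.trans m1)

/-- Two stars of the same site in a set are connected. -/
theorem Star.same {l : ℤ} (hl : 0 < l) {a : Vtx} {C : Finset Edg} {z z' : Vtx}
    (h : Star l a C z) (h' : Star l a C z') : Reach ↑C z z' := by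
  obtain ⟨p, q⟩ := a
  have e1 : (p - 1) * l = p * l - l := by ring
  have e2 : (p + 2) * l = p * l + 2 * l := by ring
  have e3 : (q - 1) * l = q * l - l := by ring
  have e4 : (q + 2) * l = q * l + 2 * l := by ring
  have e5 : (p + 1) * l = p * l + l := by ring
  have e6 : (q + 1) * l = q * l + l := by ring
  refine meetLT h.top h'.right ?_ ?_ ?_ ?_ ?_ ?_ <;> simp only [e1, e2, e3, e4, e5, e6] <;> omega

theorem Star.right_nb {l : ℤ} (hl : 0 < l) {p q : ℤ} {C : Finset Edg} {z z' : Vtx}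
    (h : Star l (p, q) C z) (h' : Star l (p + 1, q) C z') : Reach ↑C z z' := by
  have e1 : (p - 1) * l = p * l - l := by ring
  have e2 : (p + 2) * l = p * l + 2 * l := by ring
  have e3 : (q - 1) * l = q * l - l := by ring
  have e4 : (q + 2) * l = q * l + 2 * l := by ring
  have e5 : (p + 1) * l = p * l + l := by ring
  have e6 : (q + 1) * l = q * l + l := by ring
  have e7 : (p + 1 - 1) * l = p * l := by ring
  have e8 : (p + 1 + 2) * l = p * l + 3 * l := by ring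
  refine (meetLT h'.top h.right ?_ ?_ ?_ ?_ ?_ ?_).symm <;>
    simp only [e1, e2, e3, e4, e5, e6, e7, e8] <;> omega

theorem Star.up_nb {l : ℤ} (hl : 0 < l) {p q : ℤ} {C : Finset Edg} {z z' : Vtx}
    (h : Star l (p, q) C z) (h' : Star l (p, q + 1) C z') : Reach ↑C z z' := by
  have e1 : (p - 1) * l = p * l - l := by ring
  have e2 : (p + 2) * l = p * l + 2 * l := by ring
  have e3 : (q - 1) * l = q * l - l := by ring
  have e4 : (q + 2) * l = q * l + 2 * l := by ring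
  have e5 : (p + 1) * l = p * l + l := by ring
  have e6 : (q + 1) * l = q * l + l := by ring
  have e7 : (q + 1 - 1) * l = q * l := by ring
  have e8 : (q + 1 + 2) * l = q * l + 3 * l := by ring
  refine meetLT h.top h'.right ?_ ?_ ?_ ?_ ?_ ?_ <;>
    simp only [e1, e2, e3, e4, e5, e6, e7, e8] <;> omega

/-- A path from the coarse box to the outside meets the star. -/
theorem Star.hit {l : ℤ} (hl : 0 < l) {a : Vtx} {C : Finset Edg} {z : Vtx} (h : Star l a C z)
    {P : Finset Edg} {u v : Vtx} (hu : u ∈ Qb l a)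
    (hv : v.1 ≤ (a.1 - 1) * l ∨ (a.1 + 2) * l ≤ v.1 ∨ v.2 ≤ (a.2 - 1) * l ∨ (a.2 + 2) * l ≤ v.2)
    (hr : Reach ↑P u v) : Reach ↑(P ∪ C) u z := by
  obtain ⟨p, q⟩ := a
  obtain ⟨⟨u1, u2⟩, ⟨u3, u4⟩⟩ := hu
  simp only at u1 u2 u3 u4 hv
  have e1 : (p - 1) * l = p * l - l := by ring
  have e2 : (p + 2) * l = p * l + 2 * l := by ring
  have e3 : (q - 1) * l = q * l - l := by ring
  have e4 : (q + 2) * l = q * l + 2 * l := by ring
  have e5 : (p + 1) * l = p * l + l := by ring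
  have e6 : (q + 1) * l = q * l + l := by ring
  obtain ⟨t1, -, t3, t4, t5⟩ := h
  simp only [e1, e2, e3, e4, e5, e6] at hv u1 u2 u3 u4 t1 t3 t4 t5
  obtain ⟨X, hX⟩ : ∃ X, X = p * l := ⟨_, rfl⟩
  obtain ⟨Y, hY⟩ : ∃ Y, Y = q * l := ⟨_, rfl⟩
  simp only [← hX, ← hY] at hv u1 u2 u3 u4 t1 t3 t4 t5
  have hCP : (↑C : Set Edg) ⊆ ↑(P ∪ C) := by rw [Finset.coe_union]; exact Set.subset_union_right
  have hPP : (↑P : Set Edg) ⊆ ↑(P ∪ C) := by rw [Finset.coe_union]; exact Set.subset_union_left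
  obtain ⟨w, hw1, hw2, hw3⟩ := first_exit (a := X - l) (b := X + 2 * l) (c := Y - l)
    (d := Y + 2 * l) (u := u) (by unfold inR; omega) hr hv
  unfold inR at hw1
  have hw4 : Reach (↑(P ∪ C) ∩ ↑(RE (X - l) (X + 2 * l) (Y - l) (Y + 2 * l))) u w :=
    hw3.mono (Set.inter_subset_inter_left _ hPP)
  rcases hw2 with hw | hw | hw | hw
  · obtain ⟨x, x', k1, k2, k3, k4⟩ := t4
    have m := cross_meet (F := ↑(P ∪ C)) (A := X - l) (B := X + 2 * l) (C := Y - l)
      (D := Y + 2 * l) (a := X - l) (b := X) (c := Y - l) (d := Y + 2 * l) le_rfl (by omega)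
      (by omega) le_rfl (by omega) le_rfl (u := w) (v := u) (u' := (x, Y - l))
      (v' := (x', Y + 2 * l)) hw4.symm hw.le (by omega)
      (k3.mono (Set.inter_subset_inter hCP (by exact_mod_cast TBE_subset_RE))) le_rfl le_rfl
    exact (hw4.mono Set.inter_subset_left).trans ((m.mono Set.inter_subset_left).trans
      (k4.mono hCP))
  · obtain ⟨x, x', k1, k2, k3, k4⟩ := t5
    have m := cross_meet (F := ↑(P ∪ C)) (A := X - l) (B := X + 2 * l) (C := Y - l)
      (D := Y + 2 * l) (a := X + l) (b := X + 2 * l) (c := Y - l) (d := Y + 2 * l) (by omega)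
      (by omega) le_rfl le_rfl (by omega) le_rfl (u := u) (v := w) (u' := (x, Y - l))
      (v' := (x', Y + 2 * l)) hw4 (by omega) hw.ge
      (k3.mono (Set.inter_subset_inter hCP (by exact_mod_cast TBE_subset_RE))) le_rfl le_rfl
    exact (m.mono Set.inter_subset_left).trans (k4.mono hCP)
  · obtain ⟨y, y', k1, k2, k3, k4⟩ := t3
    have m := cross_meet (F := ↑(P ∪ C)) (A := X - l) (B := X + 2 * l) (C := Y - l)
      (D := Y + 2 * l) (a := X - l) (b := X + 2 * l) (c := Y - l) (d := Y) le_rfl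
      (by omega) le_rfl le_rfl (by omega) (by omega) (u := (X - l, y)) (v := (X + 2 * l, y'))
      (u' := w) (v' := u)
      (k3.mono (Set.inter_subset_inter hCP (by exact_mod_cast LRE_subset_RE))) le_rfl le_rfl
      hw4.symm hw.le (by omega)
    exact (hw4.mono Set.inter_subset_left).trans ((m.symm.mono Set.inter_subset_left).trans
      (k4.mono hCP))
  · obtain ⟨y, y', k1, k2, k3, k4⟩ := t1
    have m := cross_meet (F := ↑(P ∪ C)) (A := X - l) (B := X + 2 * l) (C := Y - l)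
      (D := Y + 2 * l) (a := X - l) (b := X + 2 * l) (c := Y + l) (d := Y + 2 * l) le_rfl
      (by omega) le_rfl (by omega) (by omega) le_rfl (u := (X - l, y)) (v := (X + 2 * l, y'))
      (u' := u) (v' := w)
      (k3.mono (Set.inter_subset_inter hCP (by exact_mod_cast LRE_subset_RE))) le_rfl le_rfl
      hw4 (by omega) hw.ge
    exact (m.symm.mono Set.inter_subset_left).trans (k4.mono hCP)

/-- A star meets its coarse box. -/
theorem Star.touch {l : ℤ} (hl : 0 < l) {a : Vtx} {C : Finset Edg} {z : Vtx} (h : Star l a C z) :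
    ∃ u ∈ Qb l a, Reach ↑C u z := by
  obtain ⟨p, q⟩ := a
  have e1 : (p - 1) * l = p * l - l := by ring
  have e2 : (p + 2) * l = p * l + 2 * l := by ring
  have e5 : (p + 1) * l = p * l + l := by ring
  obtain ⟨y, y', k1, k2, k3, k4⟩ := h.mid
  simp only [e1, e2] at k3 k4
  obtain ⟨y1, y2, m1, m2, m3, m4⟩ := sub_LR (a := p * l) (b := (p + 1) * l) (c := q * l)
    (d := (q + 1) * l) (by rw [e5]; omega)
    (by rintro x y ⟨-, h⟩ _ _; simp only [Finset.mem_coe, mem_LRE_true] at h; omega)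
    (by rintro x y ⟨-, h⟩ _ _; simp only [Finset.mem_coe, mem_LRE_false] at h; omega)
    k3 (by simp only; omega) (by simp only [e5]; omega)
  refine ⟨(p * l, y1), ?_, (m4.symm.mono Set.inter_subset_left).trans k4⟩
  unfold Qb inR
  show (p * l ≤ p * l ∧ p * l ≤ (p + 1) * l) ∧ (q * l ≤ y1 ∧ y1 ≤ (q + 1) * l)
  rw [e5]
  exact ⟨⟨le_rfl, by omega⟩, m1⟩

/-- The sites `a` and `b` are linked at cost `k`. -/
def LK (l : ℤ) (S G : Finset Edg) (a b : Vtx) (k : ℕ) : Prop :=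
  ∃ C : Finset Edg, C ⊆ S ∧ (C \ G).card ≤ k ∧ ∃ z, Star l a C z ∧ Star l b C z

theorem LK.mono {l : ℤ} {S S' G : Finset Edg} {a b : Vtx} {k k' : ℕ} (h : LK l S G a b k)
    (hS : S ⊆ S') (hk : k ≤ k') : LK l S' G a b k' := by
  obtain ⟨C, h1, h2, h3⟩ := h
  exact ⟨C, h1.trans hS, h2.trans hk, h3⟩

theorem LK.symm {l : ℤ} {S G : Finset Edg} {a b : Vtx} {k : ℕ} (h : LK l S G a b k) :
    LK l S G b a k := by
  obtain ⟨C, h1, h2, z, h3, h4⟩ := h
  exact ⟨C, h1, h2, z, h4, h3⟩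

theorem card_union_sdiff (A B G : Finset Edg) :
    ((A ∪ B) \ G).card ≤ (A \ G).card + (B \ G).card := by
  rw [Finset.union_sdiff_distrib]
  exact Finset.card_union_le _ _

theorem LK.trans {l : ℤ} (hl : 0 < l) {S G : Finset Edg} {a b c : Vtx} {k k' : ℕ}
    (h : LK l S G a b k) (h' : LK l S G b c k') : LK l S G a c (k + k') := by
  obtain ⟨C, h1, h2, z, h3, h4⟩ := h
  obtain ⟨C', h1', h2', z', h3', h4'⟩ := h'
  have s1 : C ⊆ C ∪ C' := Finset.subset_union_left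
  have s2 : C' ⊆ C ∪ C' := Finset.subset_union_right
  refine ⟨C ∪ C', Finset.union_subset h1 h1', (card_union_sdiff _ _ _).trans (by omega), z,
    h3.mono s1, (h4'.mono s2).base ?_⟩
  exact ((h4.mono s1).same hl (h3'.mono s2)).symm

theorem LK_self {l : ℤ} (hl : 0 < l) {S : Finset Edg} (G : Finset Edg) {a : Vtx}
    (hS : bx l a 1 ⊆ S) : LK l S G a a (sc l a G) := by
  obtain ⟨C, h1, h2, z, h3⟩ := star_ex hl a G
  exact ⟨C, h1.trans hS, h2, z, h3, h3⟩

theorem LK_right {l : ℤ} (hl : 0 < l) {S : Finset Edg} (G : Finset Edg) {p q : ℤ}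
    (hS : bx l (p, q) 1 ⊆ S) (hS' : bx l (p + 1, q) 1 ⊆ S) :
    LK l S G (p, q) (p + 1, q) (sc l (p, q) G + sc l (p + 1, q) G) := by
  obtain ⟨C, h1, h2, z, h3⟩ := star_ex hl (p, q) G
  obtain ⟨C', h1', h2', z', h3'⟩ := star_ex hl (p + 1, q) G
  have s1 : C ⊆ C ∪ C' := Finset.subset_union_left
  have s2 : C' ⊆ C ∪ C' := Finset.subset_union_right
  exact ⟨C ∪ C', Finset.union_subset (h1.trans hS) (h1'.trans hS'),
    (card_union_sdiff _ _ _).trans (by omega), z, h3.mono s1,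
    (h3'.mono s2).base ((h3.mono s1).right_nb hl (h3'.mono s2)).symm⟩

theorem LK_up {l : ℤ} (hl : 0 < l) {S : Finset Edg} (G : Finset Edg) {p q : ℤ}
    (hS : bx l (p, q) 1 ⊆ S) (hS' : bx l (p, q + 1) 1 ⊆ S) :
    LK l S G (p, q) (p, q + 1) (sc l (p, q) G + sc l (p, q + 1) G) := by
  obtain ⟨C, h1, h2, z, h3⟩ := star_ex hl (p, q) G
  obtain ⟨C', h1', h2', z', h3'⟩ := star_ex hl (p, q + 1) G
  have s1 : C ⊆ C ∪ C' := Finset.subset_union_left
  have s2 : C' ⊆ C ∪ C' := Finset.subset_union_right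
  exact ⟨C ∪ C', Finset.union_subset (h1.trans hS) (h1'.trans hS'),
    (card_union_sdiff _ _ _).trans (by omega), z, h3.mono s1,
    (h3'.mono s2).base ((h3.mono s1).up_nb hl (h3'.mono s2)).symm⟩

/-- A path between distant coarse boxes links them. -/
theorem LK_path {l : ℤ} (hl : 0 < l) {S P : Finset Edg} (G : Finset Edg) {a b u v : Vtx}
    (hP : P ⊆ S) (hS : bx l a 1 ⊆ S) (hS' : bx l b 1 ⊆ S) (hab : 2 ≤ bdd a b) (hu : u ∈ Qb l a)
    (hv : v ∈ Qb l b) (hr : Reach ↑P u v) :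
    LK l S G a b ((P \ G).card + sc l a G + sc l b G) := by
  obtain ⟨C, h1, h2, z, h3⟩ := star_ex hl a G
  obtain ⟨C', h1', h2', z', h3'⟩ := star_ex hl b G
  rw [le_bdd (by norm_num)] at hab
  have hu' := hu
  have hv' := hv
  obtain ⟨⟨u1, u2⟩, ⟨u3, u4⟩⟩ := hu'
  obtain ⟨⟨v1, v2⟩, ⟨v3, v4⟩⟩ := hv'
  have key : ∀ x y : ℤ, x + 2 ≤ y → (x + 2) * l ≤ y * l :=
    fun x y h => mul_le_mul_of_nonneg_right h hl.le
  have key' : ∀ x y : ℤ, x + 2 ≤ y → (x + 1) * l ≤ (y - 1) * l :=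
    fun x y h => mul_le_mul_of_nonneg_right (by omega) hl.le
  have r1 : Reach ↑(P ∪ C) u z := by
    refine h3.hit hl hu ?_ hr
    rcases hab with (h | h) | (h | h)
    · left; have := key' b.1 a.1 (by omega); omega
    · right; left; have := key a.1 b.1 (by omega); omega
    · right; right; left; have := key' b.2 a.2 (by omega); omega
    · right; right; right; have := key a.2 b.2 (by omega); omega
  have r2 : Reach ↑(P ∪ C') v z' := by
    refine h3'.hit hl hv ?_ hr.symm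
    rcases hab with (h | h) | (h | h)
    · right; left; have := key b.1 a.1 (by omega); omega
    · left; have := key' a.1 b.1 (by omega); omega
    · right; right; right; have := key b.2 a.2 (by omega); omega
    · right; right; left; have := key' a.2 b.2 (by omega); omega
  have s0 : P ⊆ P ∪ C ∪ C' := by intro e he; simp only [Finset.mem_union]; tauto
  have s1 : C ⊆ P ∪ C ∪ C' := by intro e he; simp only [Finset.mem_union]; tauto
  have s2 : C' ⊆ P ∪ C ∪ C' := by intro e he; simp only [Finset.mem_union]; tauto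
  have s3 : P ∪ C ⊆ P ∪ C ∪ C' := Finset.subset_union_left
  have s4 : P ∪ C' ⊆ P ∪ C ∪ C' := Finset.union_subset s0 s2
  refine ⟨P ∪ C ∪ C', Finset.union_subset (Finset.union_subset hP (h1.trans hS))
    (h1'.trans hS'), ?_, z, h3.mono s1, (h3'.mono s2).base ?_⟩
  · have g1 := card_union_sdiff (P ∪ C) C' G
    have g2 := card_union_sdiff P C G
    omega
  · exact (r2.symm.mono (by exact_mod_cast s4)).trans ((hr.symm.mono (by exact_mod_cast s0)).trans
      (r1.mono (by exact_mod_cast s3)))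

theorem tt_le_LK {l : ℤ} (hl : 0 < l) {S G : Finset Edg} {a b : Vtx} {k : ℕ}
    (h : LK l S G a b k) : tt S (Qb l a) (Qb l b) G ≤ k := by
  obtain ⟨C, h1, h2, z, h3, h4⟩ := h
  obtain ⟨u, hu, hu'⟩ := h3.touch hl
  obtain ⟨v, hv, hv'⟩ := h4.touch hl
  exact (tt_le h1 hu hv (hu'.trans hv'.symm)).trans h2

end Pool.Agent.Helper59_BN
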