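import Pool.Agent.Helper59_BN.Geo

/-!
Upper bound of the boundary distance by the number of open edges crossed by a dual path.
-/

namespace Pool.Agent.Helper59_BN

open H974

/-- A path which goes from a low row to a high row visits every row in between. -/
theorem exists_row {G : Set Edg} {y : ℕ → Vtx} {m : ℕ} (h : ∀ i < m, Adj G (y i) (y (i + 1)))
    {q : ℤ} (h0 : (y 0).2 ≤ q) (hm : q ≤ (y m).2) :
    ∃ i ≤ m, (y i).2 = q ∧ ∀ j < i, (y j).2 < q := by
  classical
  have hex : ∃ i, q ≤ (y i).2 := ⟨m, hm⟩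
  refine ⟨Nat.find hex, ?_, ?_, ?_⟩
  · by_contra hcon
    exact Nat.find_min hex (by omega) hm
  · have h1 := Nat.find_spec hex
    rcases Nat.eq_zero_or_pos (Nat.find hex) with h2 | h2
    · rw [h2] at h1 ⊢
      omega
    · obtain ⟨l, hl⟩ : ∃ l, Nat.find hex = l + 1 := ⟨Nat.find hex - 1, by omega⟩
      have h3 : ¬ q ≤ (y l).2 := Nat.find_min hex (by omega)
      have h4 : l < m := by
        by_contra hcon
        have h5 : ¬ q ≤ (y m).2 := Nat.find_min hex (by omega)
        exact h5 hm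
      have h5 := adj_row (h l h4)
      rw [hl] at h1 ⊢
      omega
  · intro j hj
    have := Nat.find_min hex hj
    omega

/-- A vertical ray of faces. -/
theorem ray_up {x : ℤ} {A : Set Edg} {a b : ℤ} (hab : a ≤ b)
    (h : ∀ y, a < y → y ≤ b → ((x, y, true) : Edg) ∈ A) : DReach A (x, a) (x, b) := by
  obtain ⟨n, hn⟩ := Int.eq_ofNat_of_zero_le (sub_nonneg.mpr hab)
  have key : ∀ k : ℕ, a + k ≤ b → DReach A (x, a) (x, a + k) := by
    intro k
    induction k with
    | zero => intro _; simpa using DReach.refl A (x, a)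
    | succ k ih =>
      intro hk
      push_cast at hk ⊢
      refine (ih (by omega)).trans (DAdj.reach ⟨(x, a + (k + 1), true), h _ (by omega) (by omega),
        Or.inl ⟨?_, rfl⟩⟩)
      rw [dsrc_true]
      congr 1
      ring
  have := key n (by omega)
  have e : a + (n:ℤ) = b := by omega
  rwa [e] at this

/-- The crossing set: two vertical rays and the given dual path. -/
def CrS (z : Vtx) (L M : ℤ) (C0 : Finset Edg) : Set Edg :=
  {e | (e.2.2 = true ∧ e.1 = 0 ∧ -L ≤ e.2.1 ∧ e.2.1 ≤ 0) ∨ e ∈ C0 ∨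
    (e.2.2 = true ∧ e.1 = z.1 ∧ z.2 < e.2.1 ∧ e.2.1 ≤ M)}

theorem CrS_ncard (F : Set Edg) (z : Vtx) {L M : ℤ} (hL : 0 ≤ L) (hM : z.2 ≤ M)
    (C0 : Finset Edg) :
    ((CrS z L M C0 ∩ F).ncard : ℤ) ≤ (L + 1) + ((↑C0 : Set Edg) ∩ F).ncard + (M - z.2) := by
  classical
  set E1 : Finset Edg := (Finset.Icc (-L) 0).image (fun y => ((0, y, true) : Edg)) with hE1
  set E2 : Finset Edg := (Finset.Ioc z.2 M).image (fun y => ((z.1, y, true) : Edg)) with hE2
  have h1 : CrS z L M C0 ∩ F ⊆ (↑E1 ∪ ((↑C0 : Set Edg) ∩ F)) ∪ ↑E2 := by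
    rintro ⟨x, y, b⟩ ⟨h | h | h, hF⟩
    · left; left
      simp only at h
      obtain ⟨rfl, rfl, h3, h4⟩ := h
      rw [hE1, Finset.coe_image, Set.mem_image]
      exact ⟨y, by simp [h3, h4], rfl⟩
    · left; right
      exact ⟨h, hF⟩
    · right
      simp only at h
      obtain ⟨rfl, rfl, h3, h4⟩ := h
      rw [hE2, Finset.coe_image, Set.mem_image]
      exact ⟨y, by simp [h3, h4], rfl⟩
  have hfin : ((↑E1 ∪ ((↑C0 : Set Edg) ∩ F)) ∪ ↑E2 : Set Edg).Finite :=
    ((Finset.finite_toSet E1).union ((Finset.finite_toSet C0).inter_of_left F)).union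
      (Finset.finite_toSet E2)
  have h2 := Set.ncard_le_ncard h1 hfin
  have h3 := Set.ncard_union_le (↑E1 ∪ ((↑C0 : Set Edg) ∩ F)) (↑E2 : Set Edg)
  have h4 := Set.ncard_union_le (↑E1 : Set Edg) ((↑C0 : Set Edg) ∩ F)
  have h5 : (↑E1 : Set Edg).ncard ≤ (Finset.Icc (-L) 0).card := by
    rw [Set.ncard_coe_finset]; exact Finset.card_image_le
  have h6 : (↑E2 : Set Edg).ncard ≤ (Finset.Ioc z.2 M).card := by
    rw [Set.ncard_coe_finset]; exact Finset.card_image_le
  rw [Int.card_Icc] at h5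
  rw [Int.card_Ioc] at h6
  omega

theorem reach_inR {F : Set Edg} {a b c d : ℤ} {u w : Vtx} (hu : inR a b c d u)
    (hw : Reach (F ∩ ↑(RE a b c d)) u w) : inR a b c d w := by
  induction hw with
  | refl => exact hu
  | @tail w w' _ hs ih =>
    obtain ⟨⟨x, y, b⟩, ⟨-, he⟩, hc⟩ := hs
    rw [Finset.mem_coe] at he
    cases b
    · rw [mem_RE_false] at he
      simp only [src_mk, tgt_false] at hc
      rcases hc with ⟨h1, h2⟩ | ⟨h1, h2⟩
      · rw [← h2]; unfold inR; simp only; omega
      · rw [← h1]; unfold inR; simp only; omega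
    · rw [mem_RE_true] at he
      simp only [src_mk, tgt_true] at hc
      rcases hc with ⟨h1, h2⟩ | ⟨h1, h2⟩
      · rw [← h2]; unfold inR; simp only; omega
      · rw [← h1]; unfold inR; simp only; omega

theorem box_card (p q : ℤ) (R : ℕ) : ∃ N : Finset Vtx, (N.card = (2 * R + 1) ^ 2) ∧
    ∀ w, inR (p - R) (p + R) (q - R) (q + R) w → w ∈ N := by
  refine ⟨Finset.Icc (p - R) (p + R) ×ˢ Finset.Icc (q - R) (q + R), ?_, ?_⟩
  · rw [Finset.card_product, Int.card_Icc, Int.card_Icc]
    have e1 : (p + (R:ℤ) + 1 - (p - R)).toNat = 2 * R + 1 := by omega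
    have e2 : (q + (R:ℤ) + 1 - (q - R)).toNat = 2 * R + 1 := by omega
    rw [e1, e2, sq]
  · intro w key
    unfold inR at key
    rw [Finset.mem_product, Finset.mem_Icc, Finset.mem_Icc]
    omega

/-- Vertices of a walk are connected. -/
theorem reach_walk {F : Set Edg} {y : ℕ → Vtx} {m : ℕ} (h : ∀ i < m, Adj F (y i) (y (i + 1))) :
    ∀ i ≤ m, Reach F (y 0) (y i) := by
  intro i
  induction i with
  | zero => intro _; exact Reach.refl _ _
  | succ i ih => intro hi; exact (ih (by omega)).trans (Adj.reach (h i (by omega)))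

/-- **Upper bound.** If all closed dual clusters are small, the boundary distance of two vertices
of infinite clusters is at most the number of open edges crossed by a dual path between them, up
to an error of the order of the square of the local scale. The target `z` is above the origin. -/
theorem upper_det {F : Set Edg} {z : Vtx} {r w R K : ℕ} (hS : Small F K r)
    (hz : 0 ≤ z.2) (hR : R = 6 * (r + w) + 20)
    (hfar : 2 * (R:ℤ) < |z.1| ∨ 2 * (R:ℤ) < z.2)
    {C0 : Finset Edg} (hpath : DReach ↑C0 (0, 0) z)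
    (hC0 : ∀ e ∈ C0, |e.1| ≤ (K:ℤ) - 10 * R ∧ -(w:ℤ) ≤ e.2.1 ∧ e.2.1 ≤ z.2 + w)
    (hK : |z.1| ≤ (K:ℤ) - 10 * R ∧ |z.2| ≤ (K:ℤ) - 10 * R) {u v : Vtx} (hu : u ∈ CInf F)
    (hv : v ∈ CInf F) (hu0 : |u.1| ≤ r ∧ |u.2| ≤ r) (hv0 : |v.1 - z.1| ≤ r ∧ |v.2 - z.2| ≤ r) :
    bdist (Adj F) u v ≤ ((↑C0 : Set Edg) ∩ F).ncard + 40 * R ^ 2 := by
  obtain ⟨p, q⟩ := z
  simp only at hz hfar hC0 hK hv0
  have hpK := abs_le.mp hK.1
  have hqK := abs_le.mp hK.2
  have hu1 := abs_le.mp hu0.1
  have hu2 := abs_le.mp hu0.2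
  have hv1 := abs_le.mp hv0.1
  have hv2 := abs_le.mp hv0.2
  obtain ⟨Cr, hCr⟩ : ∃ Cr, Cr = CrS (p, q) (R + 2) (q + R + 2) C0 := ⟨_, rfl⟩
  have hRz : (R:ℤ) = 6 * (r + w) + 20 := by exact_mod_cast hR
  -- the domain
  have D : Dom (K - 5 * R) (-(R + 2)) (q + R + 2) 0 p Cr := by
    constructor
    · omega
    · omega
    · omega
    · rintro ⟨x, y, b⟩ he
      rw [hCr] at he
      rcases he with he | he | he
      · simp only at he
        obtain ⟨rfl, rfl, h1, h2⟩ := he
        rw [Finset.mem_coe, mem_LRE_true]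
        omega
      · have h1 := hC0 _ he
        simp only at h1
        have h2 := abs_le.mp h1.1
        rw [Finset.mem_coe]
        cases b
        · rw [mem_LRE_false]; omega
        · rw [mem_LRE_true]; omega
      · simp only at he
        obtain ⟨rfl, rfl, h1, h2⟩ := he
        rw [Finset.mem_coe, mem_LRE_true]
        omega
    · intro x he
      rw [hCr] at he
      rcases he with he | he | he
      · exact he.2.1
      · have h1 : -(w:ℤ) ≤ -((R:ℤ) + 2) := (hC0 _ he).2.1
        omega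
      · have h1 : q < -((R:ℤ) + 2) := he.2.2.1
        omega
    · rw [hCr]
      left
      exact ⟨rfl, rfl, by simp only; omega, by simp only; omega⟩
    · intro x he
      rw [hCr] at he
      rcases he with he | he | he
      · have h1 : q + (R:ℤ) + 2 ≤ 0 := he.2.2.2
        omega
      · have h1 : q + (R:ℤ) + 2 ≤ q + w := (hC0 _ he).2.2
        omega
      · exact he.2.1
    · have h1 : DReach Cr (0, -(R + 2) - 1) (0, 0) := by
        apply ray_up (by omega)
        intro y h1 h2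
        rw [hCr]
        left
        exact ⟨rfl, rfl, by simp only; omega, by simp only; omega⟩
      have h2 : DReach Cr (0, 0) (p, q) := by
        refine hpath.mono ?_
        intro e he
        rw [hCr]
        right; left
        exact he
      have h3 : DReach Cr (p, q) (p, q + R + 2) := by
        apply ray_up (by omega)
        intro y h1 h2
        rw [hCr]
        right; right
        exact ⟨rfl, rfl, by simp only; omega, by simp only; omega⟩
      exact h1.trans (h2.trans h3)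
  -- faces near the cut
  have hnear : ∀ f, NF F (K - 5 * R) (-(R + 2)) (q + R + 2) Cr f → ∃ e ∈ Cr,
      |f.1 - e.1| ≤ r + 1 ∧ |f.2 - e.2.1| ≤ r + 1 := by
    rintro f ⟨⟨x, y, b⟩, he, g, hg, hr⟩
    refine ⟨_, he, ?_⟩
    have h1 := D.sub he
    rw [Finset.mem_coe] at h1
    have hgb : |g.1| ≤ (K:ℤ) ∧ |g.2| ≤ K ∧ |g.1 - x| ≤ 1 ∧ |g.2 - y| ≤ 1 := by
      cases b
      · rw [mem_LRE_false] at h1
        rcases hg with rfl | rfl
        · simp only [dsrc_false]
          refine ⟨abs_le.mpr ?_, abs_le.mpr ?_, abs_le.mpr ?_, abs_le.mpr ?_⟩ <;> omega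
        · simp only [dtgt_mk]
          refine ⟨abs_le.mpr ?_, abs_le.mpr ?_, abs_le.mpr ?_, abs_le.mpr ?_⟩ <;> omega
      · rw [mem_LRE_true] at h1
        rcases hg with rfl | rfl
        · simp only [dsrc_true]
          refine ⟨abs_le.mpr ?_, abs_le.mpr ?_, abs_le.mpr ?_, abs_le.mpr ?_⟩ <;> omega
        · simp only [dtgt_mk]
          refine ⟨abs_le.mpr ?_, abs_le.mpr ?_, abs_le.mpr ?_, abs_le.mpr ?_⟩ <;> omega
    have h2 := hS g f hgb.1 hgb.2.1 (hr.mono (fun e he => he.2))
    have h3 := abs_le.mp hgb.2.2.1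
    have h4 := abs_le.mp hgb.2.2.2
    have h5 := abs_le.mp h2.1
    have h6 := abs_le.mp h2.2
    simp only
    exact ⟨abs_le.mpr (by omega), abs_le.mpr (by omega)⟩
  have hloc : ∀ f, NF F (K - 5 * R) (-(R + 2)) (q + R + 2) Cr f →
      -((K:ℤ) - 5 * R) < f.1 ∧ f.1 < (K:ℤ) - 5 * R - 1 := by
    intro f hf
    obtain ⟨⟨x, y, b⟩, he, h1, -⟩ := hnear f hf
    have h2 := abs_le.mp h1
    simp only at h2
    rw [hCr] at he
    rcases he with he | he | he
    · have : x = 0 := he.2.1
      omega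
    · have h3 := (hC0 _ he).1
      simp only at h3
      have h4 := abs_le.mp h3
      omega
    · have : x = p := he.2.1
      omega
  obtain ⟨G, y, m, hw⟩ := D.walker hloc
  -- the two rows
  obtain ⟨h, hh⟩ : ∃ h : ℤ, h = r + w + 4 := ⟨_, rfl⟩
  obtain ⟨i0, hi0, hi0r, hi0m⟩ := exists_row hw.adjG (q := -h) (by rw [hw.bot]; omega)
    (by rw [hw.top]; omega)
  obtain ⟨i1, hi1, hi1r, hi1m⟩ := exists_row hw.adjG (q := q + h) (by rw [hw.bot]; omega)
    (by rw [hw.top]; omega)
  have h01 : i0 < i1 := by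
    by_contra hcon
    rcases eq_or_lt_of_le (not_lt.mp hcon) with h1 | h1
    · rw [h1, hi0r] at hi1r; omega
    · have := hi0m i1 h1
      rw [hi1r] at this
      omega
  have h0 : 0 < i0 := by
    rcases Nat.eq_zero_or_pos i0 with h1 | h1
    · rw [h1, hw.bot] at hi0r; omega
    · exact h1
  have h1m : i1 < m := by
    rcases eq_or_lt_of_le hi1 with h1 | h1
    · rw [h1, hw.top] at hi1r; omega
    · exact h1
  have hy0 : |(y i0).1| ≤ r + 2 := by
    obtain ⟨f, hf, hf1, hf2, hf3, hf4⟩ := hw.loc i0 h0 (by omega)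
    obtain ⟨⟨a, b, t⟩, he, h1, h2⟩ := hnear f hf
    have h3 := abs_le.mp h1
    have h4 := abs_le.mp h2
    simp only at h3 h4
    rw [hCr] at he
    rcases he with he | he | he
    · have : a = 0 := he.2.1
      rw [abs_le]
      omega
    · have : -(w:ℤ) ≤ b := (hC0 _ he).2.1
      omega
    · have : q < b := he.2.2.1
      omega
  have hy1 : |(y i1).1 - p| ≤ r + 2 := by
    obtain ⟨f, hf, hf1, hf2, hf3, hf4⟩ := hw.loc i1 (by omega) h1m
    obtain ⟨⟨a, b, t⟩, he, h1, h2⟩ := hnear f hf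
    have h3 := abs_le.mp h1
    have h4 := abs_le.mp h2
    simp only at h3 h4
    rw [hCr] at he
    rcases he with he | he | he
    · have : b ≤ 0 := he.2.2.2
      omega
    · have : b ≤ q + w := (hC0 _ he).2.2
      omega
    · have : a = p := he.2.1
      rw [abs_le]
      omega
  have hy0' := abs_le.mp hy0
  have hy1' := abs_le.mp hy1
  have hwalk := reach_walk hw.adjF
  -- the connections near the two ends
  have hc0 : Reach (F ∩ ↑(RE (0 - R) (0 + R) (0 - R) (0 + R))) u (y i0) := by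
    obtain ⟨w0, hw0, hw0'⟩ := CInf.exit hu (-R) R (-R) R
    refine hS.conn (z := (0, 0)) (R1 := h) (R2 := R) (by omega) (by omega) (by omega)
      (by simp only [abs_zero]; omega) (v := w0) (v' := y 0) ?_ ?_ ?_ ?_ hw0
      (hwalk i0 (by omega)).symm
    · unfold inR; simp only; omega
    · unfold inR; simp only; omega
    · simp only; omega
    · right; right; left; rw [hw.bot]; simp only; omega
  have hc1 : Reach (F ∩ ↑(RE (p - R) (p + R) (q - R) (q + R))) v (y i1) := by
    obtain ⟨w0, hw0, hw0'⟩ := CInf.exit hv (p - R) (p + R) (q - R) (q + R)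
    refine hS.conn (z := (p, q)) (R1 := h) (R2 := R) (by omega) (by omega) (by omega)
      (by simp only; omega) (v := w0) (v' := y m) ?_ ?_ ?_ ?_ hw0
      ((hwalk i1 (by omega)).symm.trans (hwalk m le_rfl))
    · unfold inR; simp only; omega
    · unfold inR; simp only; omega
    · simp only; omega
    · right; right; right; rw [hw.top]; simp only; omega
  have hin0 : ∀ w', Reach (F ∩ ↑(RE (0 - R) (0 + R) (0 - R) (0 + R) : Finset Edg)) u w' →
      inR (0 - R) (0 + R) (0 - R) (0 + R) w' := by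
    intro w' hw'
    exact reach_inR (by unfold inR; omega) hw'
  have hin1 : ∀ w', Reach (F ∩ ↑(RE (p - R) (p + R) (q - R) (q + R) : Finset Edg)) v w' →
      inR (p - R) (p + R) (q - R) (q + R) w' := by
    intro w' hw'
    exact reach_inR (by unfold inR; omega) hw'
  obtain ⟨N1, hN1, hN1'⟩ := box_card 0 0 R
  obtain ⟨N2, hN2, hN2'⟩ := box_card p q R
  have hJ := join hw (F1 := F ∩ ↑(RE (0 - R) (0 + R) (0 - R) (0 + R)))
    (F2 := F ∩ ↑(RE (p - R) (p + R) (q - R) (q + R))) Set.inter_subset_left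
    Set.inter_subset_left h01 hi1 hc0 hc1 (by
      intro w' h1 h2
      have h3 := hin0 w' h1
      have h4 := hin1 w' h2
      unfold inR at h3 h4
      rcases hfar with h5 | h5
      · rcases lt_abs.mp h5 with h6 | h6 <;> omega
      · omega) (N1 := N1) (N2 := N2) (fun w' h1 => hN1' w' (hin0 w' h1))
      (fun w' h1 => hN2' w' (hin1 w' h1))
  rw [hN1, hN2] at hJ
  have hcost := CrS_ncard F (p, q) (L := R + 2) (M := q + R + 2) (by omega) (by simp only; omega) C0
  rw [← hCr] at hcost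
  simp only at hcost
  have hR20 : 20 ≤ R := by omega
  have hcost' : (Cr ∩ F).ncard ≤ ((↑C0 : Set Edg) ∩ F).ncard + 2 * R + 5 := by omega
  have hfin : 2 * R + 5 + 4 * ((2 * R + 1) ^ 2 + (2 * R + 1) ^ 2) ≤ 40 * R ^ 2 := by
    nlinarith
  omega

end Pool.Agent.Helper59_BN
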