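import Pool.Agent.Helper59_BN.LowerDet
import Pool.Agent.Helper59_BN.AE

/-!
Almost sure upper bound of the passage times by the mean link cost of one finite box.
-/

namespace Pool.Agent.Helper59_BN

open H974 MeasureTheory Filter

section general

variable {E : Type*} [DecidableEq E]

theorem exp_moment {p : E → ℝ} (hp : Ok p) {U : Finset E} {Y : Finset E → ℝ} {μ Kb lam : ℝ}
    (hY : ∀ F, F ⊆ U → |Y F - μ| ≤ Kb) (hm : Ex p U Y ≤ μ) (hl : 0 ≤ lam) (hlK : lam * Kb ≤ 1)
    (_hKb : 0 ≤ Kb) :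
    Ex p U (fun F => Real.exp (lam * (Y F - μ))) ≤ Real.exp (lam ^ 2 * Kb ^ 2) := by
  have h1 : Ex p U (fun F => Real.exp (lam * (Y F - μ))) ≤
      Ex p U (fun F => (1 + lam ^ 2 * Kb ^ 2) + lam * (Y F - μ)) := by
    apply Ex_mono hp
    intro F hF
    have h2 := hY F hF
    have h3 : |lam * (Y F - μ)| ≤ 1 := by
      rw [abs_mul, abs_of_nonneg hl]
      exact (mul_le_mul_of_nonneg_left h2 hl).trans hlK
    have h4 := Real.abs_exp_sub_one_sub_id_le h3
    have h5 := (abs_le.mp h4).2
    have h6 : (lam * (Y F - μ)) ^ 2 ≤ lam ^ 2 * Kb ^ 2 := by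
      rw [mul_pow]
      apply mul_le_mul_of_nonneg_left _ (by positivity)
      rw [← sq_abs (Y F - μ)]
      exact pow_le_pow_left₀ (abs_nonneg _) h2 2
    linarith
  refine h1.trans ?_
  rw [Ex_add, Ex_const, Ex_mul_left, Ex_sub, Ex_const]
  have h2 := Real.add_one_le_exp (lam ^ 2 * Kb ^ 2)
  have h3 : lam * (Ex p U Y - μ) ≤ 0 := mul_nonpos_of_nonneg_of_nonpos hl (by linarith)
  have h4 : Ex p U (fun F => Y F) = Ex p U Y := rfl
  linarith

/-- Upper tail of sums with finite range. -/
theorem lln_up {c : ℕ} (hc : 1 ≤ c) {μ ε Kb : ℝ} (hε : 0 < ε) (hKb : 0 < Kb) :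
    ∃ ρ : ℝ, 0 < ρ ∧ ρ < 1 ∧ ∀ {p : E → ℝ}, Ok p → ∀ (k : ℕ) (U : Finset E) (S : ℕ → Finset E)
      (Y : ℕ → Finset E → ℝ), (∀ i < k, S i ⊆ U) →
      (∀ i < k, ∀ j < k, i + c ≤ j → Disjoint (S i) (S j)) →
      (∀ i < k, ∀ F, F ⊆ U → Y i F = Y i (F ∩ S i)) →
      (∀ i < k, ∀ F, F ⊆ U → |Y i F - μ| ≤ Kb) → (∀ i < k, Ex p U (Y i) ≤ μ) →
      Pr p U (fun F => k * (μ + ε) ≤ ∑ i ∈ Finset.range k, Y i F) ≤ c * ρ ^ k := by
  have hcr : (1:ℝ) ≤ c := by exact_mod_cast hc
  obtain ⟨lam, hlam⟩ : ∃ lam : ℝ, lam = min (1 / Kb) (ε / (2 * c * Kb ^ 2)) := ⟨_, rfl⟩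
  have hlam0 : 0 < lam := by rw [hlam]; positivity
  have hlam1 : lam * Kb ≤ 1 := by
    have : lam ≤ 1 / Kb := by rw [hlam]; exact min_le_left _ _
    rwa [le_div_iff₀ hKb] at this
  have hlam2 : lam ^ 2 * Kb ^ 2 ≤ lam * ε / (2 * c) := by
    have h1 : lam ≤ ε / (2 * c * Kb ^ 2) := by rw [hlam]; exact min_le_right _ _
    rw [le_div_iff₀ (by positivity)] at h1 ⊢
    nlinarith
  refine ⟨Real.exp (-(lam * ε / (2 * c))), Real.exp_pos _, ?_, ?_⟩
  · rw [Real.exp_lt_one_iff]
    have : 0 < lam * ε / (2 * c) := by positivity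
    linarith
  intro p hp k U S Y hS hd hf hY hm
  have hor : Pr p U (fun F => k * (μ + ε) ≤ ∑ i ∈ Finset.range k, Y i F) ≤
      ∑ r ∈ Finset.range c, Pr p U (fun F => Real.exp (lam * (k * ε / c)) ≤
        ∏ i ∈ (Finset.range k).filter (fun i => i % c = r), Real.exp (lam * (Y i F - μ))) := by
    unfold Pr
    rw [← Ex_sum]
    apply Ex_mono hp
    intro F _
    by_cases h : k * (μ + ε) ≤ ∑ i ∈ Finset.range k, Y i F
    · rw [ind_of h]
      -- some class is large
      have h1 : ∃ r ∈ Finset.range c, k * ε / c ≤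
          ∑ i ∈ (Finset.range k).filter (fun i => i % c = r), (Y i F - μ) := by
        by_contra hcon
        push Not at hcon
        have h2 : ∑ r ∈ Finset.range c, ∑ i ∈ (Finset.range k).filter (fun i => i % c = r),
            (Y i F - μ) < ∑ r ∈ Finset.range c, (k * ε / c : ℝ) :=
          Finset.sum_lt_sum_of_nonempty ⟨0, Finset.mem_range.mpr (by omega)⟩ hcon
        rw [Finset.sum_fiberwise_of_maps_to (g := fun i => i % c) (by
          intro i _
          rw [Finset.mem_range]
          exact Nat.mod_lt _ (by omega)), Finset.sum_sub_distrib, Finset.sum_const,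
          Finset.sum_const, Finset.card_range, Finset.card_range, nsmul_eq_mul,
          nsmul_eq_mul] at h2
        have h3 : (c:ℝ) * (k * ε / c) = k * ε := by field_simp
        rw [h3] at h2
        linarith
      obtain ⟨r, hr, h2⟩ := h1
      refine le_trans ?_ (Finset.single_le_sum (f := fun r => ind (Real.exp (lam * (k * ε / c)) ≤
        ∏ i ∈ (Finset.range k).filter (fun i => i % c = r), Real.exp (lam * (Y i F - μ))))
        (fun r _ => ind_nonneg _) hr)
      rw [ind_of]
      rw [← Real.exp_sum, ← Finset.mul_sum]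
      apply Real.exp_le_exp.mpr
      exact mul_le_mul_of_nonneg_left h2 hlam0.le
    · rw [ind_not_of h]
      exact Finset.sum_nonneg (fun r _ => ind_nonneg _)
  refine hor.trans ?_
  have hone : ∀ r ∈ Finset.range c, Pr p U (fun F => Real.exp (lam * (k * ε / c)) ≤
      ∏ i ∈ (Finset.range k).filter (fun i => i % c = r), Real.exp (lam * (Y i F - μ))) ≤
      Real.exp (-(lam * ε / (2 * c))) ^ k := by
    intro r _
    refine (markov hp (f := fun F => ∏ i ∈ (Finset.range k).filter (fun i => i % c = r),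
      Real.exp (lam * (Y i F - μ))) (fun F => Finset.prod_nonneg fun i _ => (Real.exp_pos _).le)
      (Real.exp_pos _)).trans ?_
    rw [Ex_prod ((Finset.range k).filter (fun i => i % c = r)) S
      (fun i F => Real.exp (lam * (Y i F - μ)))]
    · have h1 : ∏ i ∈ (Finset.range k).filter (fun i => i % c = r),
          Ex p U (fun F => Real.exp (lam * (Y i F - μ))) ≤
          ∏ i ∈ (Finset.range k).filter (fun i => i % c = r), Real.exp (lam ^ 2 * Kb ^ 2) := by
        apply Finset.prod_le_prod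
        · intro i _
          exact Ex_nonneg hp (fun _ _ => (Real.exp_pos _).le)
        · intro i hi
          have hi' := Finset.mem_range.mp (Finset.mem_filter.mp hi).1
          exact exp_moment hp (hY i hi') (hm i hi') hlam0.le hlam1 hKb.le
      have h2 : ∏ i ∈ (Finset.range k).filter (fun i => i % c = r), Real.exp (lam ^ 2 * Kb ^ 2) ≤
          Real.exp (lam ^ 2 * Kb ^ 2) ^ k := by
        rw [Finset.prod_const]
        apply pow_le_pow_right₀ (Real.one_le_exp (by positivity))
        refine (Finset.card_filter_le _ _).trans ?_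
        rw [Finset.card_range]
      refine (div_le_div_of_nonneg_right (h1.trans h2) (Real.exp_pos _).le).trans ?_
      rw [← Real.exp_nat_mul, ← Real.exp_nat_mul, ← Real.exp_sub]
      apply Real.exp_le_exp.mpr
      have hk : (0:ℝ) ≤ k := Nat.cast_nonneg _
      have h3 := mul_le_mul_of_nonneg_left hlam2 hk
      have h4 : lam * (k * ε / c) = k * (lam * ε / (2 * c)) + k * (lam * ε / (2 * c)) := by
        field_simp; ring
      rw [h4]
      linarith
    · intro i hi
      exact hS i (Finset.mem_range.mp (Finset.mem_filter.mp hi).1)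
    · intro i hi j hj hij
      rw [Finset.mem_filter, Finset.mem_range] at hi hj
      have key : ∀ a b : ℕ, a % c = b % c → a < b → a + c ≤ b := by
        intro a b hab hlt
        have h1 : c ∣ b - a := (Nat.modEq_iff_dvd' hlt.le).mp hab
        have h2 := Nat.le_of_dvd (by omega) h1
        omega
      rcases Nat.lt_or_gt_of_ne hij with h | h
      · exact hd i hi.1 j hj.1 (key i j (by rw [hi.2, hj.2]) h)
      · exact (hd j hj.1 i hi.1 (key j i (by rw [hi.2, hj.2]) h)).symm
    · intro i hi F hF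
      rw [hf i (Finset.mem_range.mp (Finset.mem_filter.mp hi).1) F hF]
  refine (Finset.sum_le_sum hone).trans ?_
  rw [Finset.sum_const, Finset.card_range, nsmul_eq_mul]

end general

theorem sc_le {l : ℤ} (hl : 0 < l) (a : Vtx) (G : Finset Edg) : (sc l a G : ℤ) ≤ 15 * l := by
  obtain ⟨p, q⟩ := a
  have e1 : (p + 2) * l - (p - 1) * l = 3 * l := by ring
  have e2 : (q + 2) * l - (q - 1) * l = 3 * l := by ring
  have f1 : (p - 1) * l = p * l - l := by ring
  have f2 : (p + 2) * l = p * l + 2 * l := by ring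
  have f3 : (q + 1) * l = q * l + l := by ring
  have f4 : (q + 2) * l = q * l + 2 * l := by ring
  have f5 : (q - 1) * l = q * l - l := by ring
  have f6 : (p + 1) * l = p * l + l := by ring
  have i1 := xc_le (a := (p - 1) * l) (b := (p + 2) * l) (c := (q + 1) * l) (d := (q + 2) * l)
    (by omega) (by omega) G
  have i2 := xc_le (a := (p - 1) * l) (b := (p + 2) * l) (c := q * l) (d := (q + 1) * l)
    (by omega) (by omega) G
  have i3 := xc_le (a := (p - 1) * l) (b := (p + 2) * l) (c := (q - 1) * l) (d := q * l)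
    (by omega) (by omega) G
  have i4 := yc_le (a := (p - 1) * l) (b := p * l) (c := (q - 1) * l) (d := (q + 2) * l)
    (by omega) (by omega) G
  have i5 := yc_le (a := (p + 1) * l) (b := (p + 2) * l) (c := (q - 1) * l) (d := (q + 2) * l)
    (by omega) (by omega) G
  rw [e1] at i1 i2 i3
  rw [e2] at i4 i5
  unfold sc
  simp only
  omega

theorem lk_bound {l : ℤ} (hl : 0 < l) {a b : Vtx} {n : ℕ} {r : ℤ} (hn : bdd a b ≤ n)
    (hr : (n:ℤ) + 1 ≤ r) (G : Finset Edg) :
    (lk l (bx l a r) a b G : ℤ) ≤ (4 * n + 1) * (15 * l) := by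
  obtain ⟨W, m, k1, k2, k3⟩ := sites' a b hn
  have hsub : ∀ i < m, bx l (W i) 1 ⊆ bx l a r := fun i hi => bx_subset hl (by
    have := k2 i hi
    rw [bdd_symm]
    omega)
  have h1 := lk_le (k3 l hl _ G hsub)
  have h2 : (∑ i ∈ Finset.range m, (sc l (W i) G : ℤ)) ≤ ∑ i ∈ Finset.range m, 15 * l :=
    Finset.sum_le_sum (fun i _ => sc_le hl _ G)
  rw [Finset.sum_const, Finset.card_range, nsmul_eq_mul] at h2
  have h3 : (lk l (bx l a r) a b G : ℤ) ≤ ∑ i ∈ Finset.range m, (sc l (W i) G : ℤ) := by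
    exact_mod_cast h1
  have h4 : (m:ℤ) * (15 * l) ≤ (4 * n + 1) * (15 * l) :=
    mul_le_mul_of_nonneg_right (by exact_mod_cast k1) (by omega)
  linarith

/-- A chain of links. -/
theorem LK_chain' {l : ℤ} (hl : 0 < l) (G : Finset Edg) (b : ℕ → Vtx) {r : ℤ}
    (hr : ∀ i, bdd (b i) (b (i + 1)) + 1 ≤ r) : ∀ k : ℕ, 1 ≤ k →
    LK l ((Finset.range k).biUnion (fun i => bx l (b i) r)) G (b 0) (b k)
      (∑ i ∈ Finset.range k, lk l (bx l (b i) r) (b i) (b (i + 1)) G) := by
  intro k hk
  induction k, hk using Nat.le_induction with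
  | base =>
    obtain ⟨c, hc⟩ := LK_ex hl G (a := b 0) (b := b 1) (r := r) (hr 0) (Finset.Subset.refl _)
    refine (lk_spec hc).mono ?_ ?_
    · exact Finset.subset_biUnion_of_mem (fun i => bx l (b i) r) (Finset.mem_range.mpr (by omega))
    · rw [Finset.sum_range_one]
  | succ k hk ih =>
    obtain ⟨c, hc⟩ := LK_ex hl G (a := b k) (b := b (k + 1)) (r := r) (hr k)
      (Finset.Subset.refl _)
    rw [Finset.sum_range_succ]
    refine (ih.mono ?_ le_rfl).trans hl ((lk_spec hc).mono ?_ le_rfl)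
    · exact Finset.biUnion_subset_biUnion_of_subset_left _
        (Finset.range_subset_range.mpr (by omega))
    · exact Finset.subset_biUnion_of_mem (fun i => bx l (b i) r) (Finset.mem_range.mpr (by omega))

theorem hasPath_of' {W : ℕ} {F : Set Edg} {P Q : ℤ} {C G : Finset Edg}
    (h1 : Reach ↑C (0, 0) (P, Q)) {b : ℕ} (h2 : (C \ G).card ≤ b)
    (h3 : ∀ e ∈ C, (min 0 P - W ≤ e.1 ∧ e.1 ≤ max 0 P + W) ∧
        (min 0 Q - W ≤ e.2.1 ∧ e.2.1 ≤ max 0 Q + W)) (hG : ∀ e ∈ G, dl.symm e ∉ F) :
    HasPath F (P, Q) (W + 1) b := by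
  classical
  refine ⟨C.map dl.symm.toEmbedding, ?_, ?_, ?_⟩
  · rw [← reach_dl]
    have : dl '' ↑(C.map dl.symm.toEmbedding) = (↑C : Set Edg) := by
      rw [← coe_dmp, dmp_map]
    rw [this]
    exact h1
  · have hinj : (((↑(C.map dl.symm.toEmbedding) : Set Edg)) ∩ F).ncard ≤ (C \ G).card := by
      rw [← Set.ncard_coe_finset, ← Set.ncard_image_of_injective _ dl.injective]
      apply Set.ncard_le_ncard _ (Finset.finite_toSet _)
      rintro _ ⟨e, ⟨he1, he2⟩, rfl⟩
      rw [Finset.mem_coe, Finset.mem_map_equiv, Equiv.symm_symm] at he1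
      rw [Finset.mem_coe, Finset.mem_sdiff]
      refine ⟨he1, fun h => hG _ h ?_⟩
      rwa [Equiv.symm_apply_apply]
    exact_mod_cast hinj.trans h2
  · intro e he
    rw [Finset.mem_map_equiv, Equiv.symm_symm] at he
    have h4 := h3 _ he
    simp only
    push_cast
    obtain ⟨x, y, t⟩ := e
    cases t
    · rw [dl_f] at h4
      simp only at h4 ⊢
      rcases le_total 0 P with hP | hP
      · rw [min_eq_left hP, max_eq_right hP] at h4
        rw [abs_of_nonneg hP]
        exact ⟨abs_le.mpr (by omega), by omega, by omega⟩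
      · rw [min_eq_right hP, max_eq_left hP] at h4
        rw [abs_of_nonpos hP]
        exact ⟨abs_le.mpr (by omega), by omega, by omega⟩
    · rw [dl_t] at h4
      simp only at h4 ⊢
      rcases le_total 0 P with hP | hP
      · rw [min_eq_left hP, max_eq_right hP] at h4
        rw [abs_of_nonneg hP]
        exact ⟨abs_le.mpr (by omega), by omega, by omega⟩
      · rw [min_eq_right hP, max_eq_left hP] at h4
        rw [abs_of_nonpos hP]
        exact ⟨abs_le.mpr (by omega), by omega, by omega⟩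

end Pool.Agent.Helper59_BN
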