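import Pool.Agent.Helper59_BN.Dom

/-!
The path of the walker along the cut.
-/

namespace Pool.Agent.Helper59_BN

open H974

/-- Faces connected by closed dual edges of the rectangle to a face next to the cut. -/
def NF (F : Set Edg) (W c d : ℤ) (Cr : Set Edg) (f : Vtx) : Prop :=
  ∃ e ∈ Cr, ∃ g, (g = dsrc e ∨ g = dtgt e) ∧ DReach (↑(RE (-W) W c d) \ F) g f

/-- The sector invariant. -/
def In (F : Set Edg) (W c d : ℤ) (Cr : Set Edg) (w : Vtx) (k : Fin 4) : Prop :=
  NF F W c d Cr (sec w k) ∧ (c < w.2 ∨ k = 0 ∨ k = 1)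

theorem sec_near (w : Vtx) (k : Fin 4) : (sec w k).1 ≤ w.1 ∧ w.1 ≤ (sec w k).1 + 1 ∧
    (sec w k).2 ≤ w.2 ∧ w.2 ≤ (sec w k).2 + 1 := by
  fin_cases k <;> simp [sec]

theorem ed_RE {W c d : ℤ} {w : Vtx} (hx : -W < w.1 ∧ w.1 < W) (hy : c < w.2 ∧ w.2 < d)
    (k : Fin 4) : ed w k ∈ RE (-W) W c d := by
  obtain ⟨x, y⟩ := w
  simp only at hx hy
  fin_cases k <;> simp only [ed, Fin.zero_eta, Fin.mk_one, Fin.reduceFinMk, mem_RE_true,
    mem_RE_false] <;> omega

theorem Dom.turn {F : Set Edg} {W c d s t : ℤ} {Cr : Set Edg} (D : Dom W c d s t Cr)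
    (hloc : ∀ f, NF F W c d Cr f → -W < f.1 ∧ f.1 < W - 1) {w : Vtx} {k : Fin 4}
    (hw : LA W c d Cr w) (hwd : w.2 < d) (hin : In F W c d Cr w k)
    (he : ed w (k + 1) ∉ WG F W c d Cr) : In F W c d Cr w (k + 1) := by
  have hcd := D.hcd
  have h1 := hloc _ hin.1
  have h2 := sec_near w k
  have hx : -W < w.1 ∧ w.1 < W := by omega
  have hwc : c ≤ w.2 := hw.inR.2.1
  have hRE : ed w (k + 1) ∈ RE (-W) W c d ∧ (c < w.2 ∨ k + 1 = 0 ∨ k + 1 = 1) := by
    rcases eq_or_lt_of_le hwc with hc | hc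
    · rcases hin.2 with h3 | h3 | h3
      · omega
      · subst h3
        refine ⟨?_, Or.inr (Or.inr rfl)⟩
        simp only [zero_add, ed, mem_RE_false]
        omega
      · subst h3
        exfalso
        apply he
        obtain ⟨x, y⟩ := w
        simp only at hc hx
        subst hc
        have hs : x ≤ s := (D.bot_iff (by omega)).mp hw
        rw [ed_mem_WG]
        refine ⟨?_, hw, ?_, ?_⟩
        · simp only [show (1:Fin 4) + 1 = 2 from rfl, ed, mem_RE_true]; omega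
        · have e : ((x, c) : ℤ × ℤ) + dir (1 + 1) = (x - 1, c) := by
            simp [dir]; ring
          rw [e]
          exact (D.bot_iff (by omega)).mpr (by omega)
        · right; left; simp [ed]
    · exact ⟨ed_RE hx ⟨hc, hwd⟩ _, Or.inl hc⟩
  refine ⟨?_, hRE.2⟩
  by_cases hCr : ed w (k + 1) ∈ Cr
  · refine ⟨_, hCr, sec w (k + 1), ?_, DReach.refl _ _⟩
    rcases ed_faces w k with ⟨-, h4⟩ | ⟨h4, -⟩
    · right; exact h4.symm
    · left; exact h4.symm
  · have h5 := hw.step hRE.1 hCr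
    have h6 : ed w (k + 1) ∉ F := by
      intro hF
      apply he
      rw [ed_mem_WG]
      exact ⟨hRE.1, hw, h5, Or.inl hF⟩
    obtain ⟨e, he1, g, hg, hr⟩ := hin.1
    exact ⟨e, he1, g, hg, hr.trans (DAdj.reach (dadj_sec ⟨hRE.1, h6⟩))⟩

theorem Dom.turns {F : Set Edg} {W c d s t : ℤ} {Cr : Set Edg} (D : Dom W c d s t Cr)
    (hloc : ∀ f, NF F W c d Cr f → -W < f.1 ∧ f.1 < W - 1) {w : Vtx} {k : Fin 4}
    (hw : LA W c d Cr w) (hwd : w.2 < d) (hin : In F W c d Cr w k) {j : ℕ} (hj : 0 < j)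
    (he : ∀ i : ℕ, 0 < i → i < j → ed w (k + Fin.ofNat 4 i) ∉ WG F W c d Cr) :
    In F W c d Cr w (k + Fin.ofNat 4 j + 3) := by
  induction j with
  | zero => omega
  | succ j ih =>
    rcases Nat.eq_zero_or_pos j with h0 | h0
    · subst h0
      have : k + Fin.ofNat 4 (0 + 1) + 3 = k := by
        clear ih he hin
        revert k
        decide
      rw [this]
      exact hin
    · have h1 := ih h0 (fun i hi hij => he i hi (by omega))
      have h2 := he j h0 (by omega)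
      have h31 : (3 : Fin 4) + 1 = 0 := rfl
      have h13 : (1 : Fin 4) + 3 = 0 := rfl
      have e1 : k + Fin.ofNat 4 j + 3 + 1 = k + Fin.ofNat 4 j := by
        rw [add_assoc, h31, add_zero]
      have e2 : k + Fin.ofNat 4 (j + 1) + 3 = k + Fin.ofNat 4 j + 3 + 1 := by
        rw [ofNat_succ, e1, ← add_assoc, add_assoc, h13, add_zero]
      rw [e2]
      exact D.turn hloc hw hwd h1 (by rw [e1]; exact h2)

theorem Dom.move {F : Set Edg} {W c d : ℤ} {Cr : Set Edg}
    {w : Vtx} {o : Fin 4} (hw : LA W c d Cr w) (hin : In F W c d Cr w (o + 3)) :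
    In F W c d Cr (w + dir o) (o + 2) := by
  refine ⟨by rw [sec_opp]; exact hin.1, ?_⟩
  have hwc : c ≤ w.2 := hw.inR.2.1
  have h2 := hin.2
  obtain ⟨x, y⟩ := w
  simp only at hwc h2
  fin_cases o
  · left
    simp only [dir, Fin.zero_eta, Prod.mk_add_mk, add_zero]
    rcases h2 with h2 | h2 | h2
    · exact h2
    · exact absurd h2 (by decide)
    · exact absurd h2 (by decide)
  · left
    simp only [dir, Fin.mk_one, Prod.mk_add_mk]
    omega
  · right; left; rfl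
  · right; right; rfl

theorem Dom.step {F : Set Edg} {W c d s t : ℤ} {Cr : Set Edg} (D : Dom W c d s t Cr)
    (hloc : ∀ f, NF F W c d Cr f → -W < f.1 ∧ f.1 < W - 1) {w : Vtx} {k : Fin 4}
    (hw : LA W c d Cr w) (hwd : w.2 < d) (hin : In F W c d Cr w k) :
    In F W c d Cr (nx (WG F W c d Cr) (w, k)).1 (nx (WG F W c d Cr) (w, k)).2 := by
  obtain ⟨j, hj1, hj2, hj3, hj4⟩ := outd_turn (WG F W c d Cr) w k
  have h1 := D.turns hloc hw hwd hin hj1 hj4
  rw [← hj3] at h1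
  exact Dom.move hw h1

theorem Dom.val0 {F : Set Edg} {W c d s t : ℤ} {Cr : Set Edg} (D : Dom W c d s t Cr) :
    Val (WG F W c d Cr) ((s, c), 2) := by
  have hcd := D.hcd
  have hs := D.hs
  unfold Val
  simp only
  rw [ed_mem_WG]
  refine ⟨?_, (D.bot_iff (by omega)).mpr le_rfl, ?_, ?_⟩
  · simp only [ed, mem_RE_true]; omega
  · have e : ((s, c) : ℤ × ℤ) + dir 2 = (s - 1, c) := by simp [dir]; ring
    rw [e]
    exact (D.bot_iff (by omega)).mpr (by omega)
  · right; left; simp [ed]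

theorem Val.LA {F : Set Edg} {W c d : ℤ} {Cr : Set Edg} {σ : Vtx × Fin 4}
    (h : Val (WG F W c d Cr) σ) : LA W c d Cr σ.1 := by
  unfold Val at h
  rw [ed_mem_WG] at h
  exact h.2.1

theorem Dom.inv {F : Set Edg} {W c d s t : ℤ} {Cr : Set Edg} (D : Dom W c d s t Cr)
    (hloc : ∀ f, NF F W c d Cr f → -W < f.1 ∧ f.1 < W - 1) (i : ℕ)
    (hi : ∀ j ≤ i, (st (WG F W c d Cr) ((s, c), 2) j).1.2 ≠ d) :
    In F W c d Cr (st (WG F W c d Cr) ((s, c), 2) (i + 1)).1
      (st (WG F W c d Cr) ((s, c), 2) (i + 1)).2 := by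
  have hcd := D.hcd
  have hs := D.hs
  have hA : ∀ i, LA W c d Cr (st (WG F W c d Cr) ((s, c), 2) i).1 :=
    fun i => (st_val D.val0 i).LA
  induction i with
  | zero =>
    have h0 : In F W c d Cr (s, c) 0 :=
      ⟨⟨_, D.bot', (s, c), Or.inr rfl, DReach.refl _ _⟩, Or.inr (Or.inl rfl)⟩
    have h1 : ed (s, c) (2 + 1) ∉ WG F W c d Cr := by
      intro h
      have := h.1
      simp [ed] at this
    have h2 : ed (s, c) (2 + 2) ∉ WG F W c d Cr := by
      intro h
      rw [ed_mem_WG] at h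
      have h3 := h.2.2.1
      have e : ((s, c) : ℤ × ℤ) + dir (2 + 2) = (s + 1, c) := by simp [dir]
      rw [e, D.bot_iff (by omega)] at h3
      omega
    have hA0 : LA W c d Cr (s, c) := hA 0
    rw [st_succ]
    show In F W c d Cr (nx (WG F W c d Cr) ((s, c), 2)).1 (nx (WG F W c d Cr) ((s, c), 2)).2
    by_cases h3 : ed (s, c) (2 + 3) ∈ WG F W c d Cr
    · unfold nx
      simp only
      rw [outd_3 h1 h2 h3]
      exact Dom.move hA0 h0
    · unfold nx
      simp only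
      rw [outd_4 h1 h2 h3]
      refine Dom.move hA0 ?_
      exact D.turn hloc hA0 (by simp only; omega) h0 h3
  | succ i ih =>
    have h1 := ih (fun j hj => hi j (by omega))
    rw [st_succ]
    have h2 : (st (WG F W c d Cr) ((s, c), 2) (i + 1)).1.2 < d := by
      have h3 := (hA (i + 1)).inR.2.2
      have h4 := hi (i + 1) le_rfl
      omega
    exact D.step hloc (hA (i + 1)) h2 h1

/-- The output of the walker. -/
structure WalkOut (F Cr : Set Edg) (W c d : ℤ) (G : Set Edg) (y : ℕ → Vtx) (m : ℕ) : Prop where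
  bot : (y 0).2 = c
  top : (y m).2 = d
  mid : ∀ i, 0 < i → i < m → c < (y i).2 ∧ (y i).2 < d
  adjG : ∀ i < m, Adj G (y i) (y (i + 1))
  adjF : ∀ i < m, Adj F (y i) (y (i + 1))
  rb : ∀ e ∈ rbd y m, ¬ Adj G e.1 e.2
  simple : ∀ i j, i < j → j < m → (y i, y (i + 1)) ≠ (y j, y (j + 1))
  loc : ∀ i, 0 < i → i < m → ∃ f, NF F W c d Cr f ∧
    (f.1 ≤ (y i).1 ∧ (y i).1 ≤ f.1 + 1 ∧ f.2 ≤ (y i).2 ∧ (y i).2 ≤ f.2 + 1)
  cost : {e | e ∈ rbd y m ∧ Adj F e.1 e.2}.ncard ≤ (Cr ∩ F).ncard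

theorem adj_row {G : Set Edg} {v w : Vtx} (h : Adj G v w) : w.2 ≤ v.2 + 1 := by
  obtain ⟨k, rfl, -⟩ := adj_iff.mp h
  obtain ⟨x, y⟩ := v
  fin_cases k <;> simp [dir]

theorem Dom.walker {F : Set Edg} {W c d s t : ℤ} {Cr : Set Edg} (D : Dom W c d s t Cr)
    (hloc : ∀ f, NF F W c d Cr f → -W < f.1 ∧ f.1 < W - 1) :
    ∃ (G : Set Edg) (y : ℕ → Vtx) (m : ℕ), WalkOut F Cr W c d G y m := by
  classical
  have hcd := D.hcd
  have hs := D.hs
  obtain ⟨G, hG⟩ : ∃ G, G = WG F W c d Cr := ⟨_, rfl⟩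
  obtain ⟨X, hX⟩ : ∃ X : ℕ → Vtx × Fin 4, X = st G ((s, c), 2) := ⟨_, rfl⟩
  have hXG : ∀ i, X i = st (WG F W c d Cr) ((s, c), 2) i := by intro i; rw [hX, hG]
  have hval : ∀ i, Val G (X i) := by
    intro i
    rw [hXG, hG]
    exact st_val D.val0 i
  have hA : ∀ i, LA W c d Cr (X i).1 := by
    intro i
    have := hval i
    rw [hG] at this
    exact this.LA
  have hex : ∃ n, (X n).1.2 = d := by
    obtain ⟨n, hn⟩ := D.reach_top (F := F)
    exact ⟨n, by rw [hXG]; exact hn⟩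
  set n1 := Nat.find hex with hn1
  have h1 : (X n1).1.2 = d := Nat.find_spec hex
  have hmin : ∀ i < n1, (X i).1.2 ≠ d := fun i hi => Nat.find_min hex hi
  have hX0 : X 0 = ((s, c), 2) := by rw [hXG]; rfl
  have h0 : (X 0).1.2 = c := by rw [hX0]
  have hn1pos : 0 < n1 := by
    rcases Nat.eq_zero_or_pos n1 with h | h
    · rw [h, h0] at h1; omega
    · exact h
  set n0 := Nat.findGreatest (fun i => (X i).1.2 = c) n1 with hn0
  have h2 : (X n0).1.2 = c := Nat.findGreatest_spec (P := fun i => (X i).1.2 = c)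
    (Nat.zero_le n1) h0
  have h3 : n0 ≤ n1 := Nat.findGreatest_le n1
  have h4 : n0 < n1 := by
    rcases eq_or_lt_of_le h3 with h | h
    · rw [h, h1] at h2; omega
    · exact h
  have h5 : ∀ i, n0 < i → i ≤ n1 → (X i).1.2 ≠ c := fun i hi hi' =>
    Nat.findGreatest_is_greatest hi hi'
  have hmid : ∀ i, n0 < i → i < n1 → c < (X i).1.2 ∧ (X i).1.2 < d := by
    intro i hi hi'
    have h6 := (hA i).inR.2
    have h7 := h5 i hi hi'.le
    have h8 := hmin i hi'
    omega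
  have hin : ∀ i, 0 < i → i ≤ n1 → In F W c d Cr (X i).1 (X i).2 := by
    intro i hi hi'
    obtain ⟨l, rfl⟩ : ∃ l, i = l + 1 := ⟨i - 1, by omega⟩
    rw [hXG]
    apply D.inv hloc
    intro j hj
    rw [← hXG]
    exact hmin j (by omega)
  have hadj : ∀ i, Adj G (X i).1 (X (i + 1)).1 := by
    intro i
    rw [hX]
    have := hval 0
    rw [hX0] at this
    exact st_adj this i
  have hcol : ∀ i, 0 < i → i ≤ n1 → -W < (X i).1.1 ∧ (X i).1.1 < W := by
    intro i hi hi'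
    have h6 := hloc _ (hin i hi hi').1
    have h7 := sec_near (X i).1 (X i).2
    omega
  -- interior vertices: edges of `G` are open
  have hGF : ∀ i, n0 < i → i < n1 → ∀ v, Adj G (X i).1 v → Adj F (X i).1 v := by
    intro i hi hi' v hv
    obtain ⟨k, rfl, hk⟩ := adj_iff.mp hv
    rw [adj_dir]
    rw [hG, ed_mem_WG] at hk
    have h6 := hmid i hi hi'
    have h7 := hcol i (by omega) hi'.le
    rcases hk.2.2.2 with h8 | ⟨h8, h9⟩ | ⟨h8, h9⟩
    · exact h8
    · exfalso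
      obtain ⟨⟨⟨x, y⟩, k0⟩, hxy⟩ : ∃ p, p = X i := ⟨_, rfl⟩
      rw [← hxy] at h6 h7 h8 h9
      simp only at h6 h7
      fin_cases k <;> simp [ed] at h8 h9 <;> omega
    · exfalso
      obtain ⟨⟨⟨x, y⟩, k0⟩, hxy⟩ : ∃ p, p = X i := ⟨_, rfl⟩
      rw [← hxy] at h6 h7 h8 h9
      simp only at h6 h7
      fin_cases k <;> simp [ed] at h8 h9 <;> omega
  have hm2 : n0 + 2 ≤ n1 := by
    by_contra hcon
    have h6 : n1 = n0 + 1 := by omega
    have h7 := adj_row (hadj n0)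
    rw [← h6, h1, h2] at h7
    omega
  obtain ⟨y, hy⟩ : ∃ y : ℕ → Vtx, y = fun i => (X (n0 + i)).1 := ⟨_, rfl⟩
  have hyi : ∀ i, y i = (X (n0 + i)).1 := by intro i; rw [hy]
  have hyst : y = fun i => (st G ((s, c), 2) (n0 + i)).1 := by rw [hy, hX]
  have hrbd : ∀ e ∈ rbd y (n1 - n0), ∃ i, n0 < i ∧ i < n1 ∧ e.1 = (X i).1 ∧
      ∃ k, e.2 = (X i).1 + dir k ∧ ed (X i).1 k ∉ G := by
    intro e he
    rw [hyst] at he
    obtain ⟨i, hi1, hi2, hi3, hi4⟩ := st_rbd he
    rw [← hX] at hi3 hi4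
    exact ⟨n0 + i, by omega, by omega, hi3, hi4⟩
  refine ⟨G, y, n1 - n0, ?_⟩
  constructor
  · rw [hyi]; simpa using h2
  · rw [hyi, Nat.add_sub_cancel' h3]; exact h1
  · intro i hi hi'
    rw [hyi]
    exact hmid _ (by omega) (by omega)
  · intro i _
    rw [hyi, hyi]
    exact hadj (n0 + i)
  · intro i hi
    rw [hyi, hyi]
    rcases Nat.eq_zero_or_pos i with h6 | h6
    · subst h6
      have h7 := hGF (n0 + 1) (by omega) (by omega) _ (hadj n0).symm
      exact h7.symm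
    · exact hGF (n0 + i) (by omega) (by omega) _ (hadj (n0 + i))
  · intro e he hadj'
    obtain ⟨i, -, -, h6, k, h7, h8⟩ := hrbd e he
    rw [h6, h7, adj_dir] at hadj'
    exact h8 hadj'
  · intro i j hij hj heq
    rw [hyi, hyi, hyi, hyi, Prod.mk.injEq] at heq
    obtain ⟨h6, h7⟩ := heq
    have e1 : n0 + (i + 1) = (n0 + i) + 1 := by ring
    have e2 : n0 + (j + 1) = (n0 + j) + 1 := by ring
    rw [e1, e2] at h7
    have h8 : X (n0 + i + 1) = X (n0 + j + 1) := by
      refine Prod.ext h7 ?_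
      have b1 := st_back G ((s, c), 2) (n0 + i)
      have b2 := st_back G ((s, c), 2) (n0 + j)
      rw [← hX] at b1 b2
      rw [b1, b2, h7] at h6
      exact dir_inj (by simpa using h6)
    have hit : ∀ r, X (n0 + i + 1 + r) = X (n0 + j + 1 + r) := by
      intro r
      induction r with
      | zero => exact h8
      | succ r ih =>
        rw [← add_assoc, ← add_assoc, hX, st_succ, st_succ, ← hX, ih]
    have h9 := hit (n1 - (n0 + j + 1))
    have e3 : n0 + j + 1 + (n1 - (n0 + j + 1)) = n1 := by omega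
    rw [e3] at h9
    have h10 := hmin (n0 + i + 1 + (n1 - (n0 + j + 1))) (by omega)
    rw [h9] at h10
    exact h10 h1
  · intro i hi hi'
    rw [hyi]
    refine ⟨_, (hin (n0 + i) (by omega) (by omega)).1, sec_near _ _⟩
  · obtain ⟨h, hh⟩ : ∃ h : Edg → Vtx × Vtx, h = fun e' =>
        if LA W c d Cr (src e') then (src e', tgt e') else (tgt e', src e') := ⟨_, rfl⟩
    have hfin : (Cr ∩ F).Finite :=
      ((Finset.finite_toSet (LRE (-W) W c d)).subset D.sub).subset Set.inter_subset_left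
    have hsub : {e | e ∈ rbd y (n1 - n0) ∧ Adj F e.1 e.2} ⊆ h '' (Cr ∩ F) := by
      rintro e ⟨he, hF⟩
      obtain ⟨i, hi1, hi2, h6, k, h7, h8⟩ := hrbd e he
      have hRE : ed (X i).1 k ∈ RE (-W) W c d :=
        ed_RE (hcol i (by omega) hi2.le) (hmid i hi1 hi2) k
      have hFk : ed (X i).1 k ∈ F := by
        rw [h6, h7, adj_dir] at hF; exact hF
      have hnA : ¬ LA W c d Cr ((X i).1 + dir k) := by
        intro h9
        apply h8
        rw [hG, ed_mem_WG]
        exact ⟨hRE, hA i, h9, Or.inl hFk⟩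
      have hC : ed (X i).1 k ∈ Cr := by
        by_contra h9
        exact hnA ((hA i).step hRE h9)
      refine ⟨ed (X i).1 k, ⟨hC, hFk⟩, ?_⟩
      rw [hh]
      simp only
      rcases ed_ends (X i).1 k with ⟨h9, h10⟩ | ⟨h9, h10⟩
      · rw [h9, h10, if_pos (hA i)]
        exact Prod.ext h6.symm h7.symm
      · rw [h9, h10, if_neg hnA]
        exact Prod.ext h6.symm h7.symm
    calc _ ≤ (h '' (Cr ∩ F)).ncard := Set.ncard_le_ncard hsub (hfin.image _)
      _ ≤ (Cr ∩ F).ncard := Set.ncard_image_le hfin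

end Pool.Agent.Helper59_BN
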